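import Pool.Agent.H.MP_e23cd6_ag.AB.G5a
import Pool.Agent.H.MP_e23cd6_ag.AB.Defs

/-!
MP_e23cd6_ag, block AK: compact Kaehler quotients of (bounded domain) × ℂ^k.

* `TotAct Ω kk Γ`: a group acting on the domain `Ω.D` by `β` and on the total space `Ω.D × ℂ^k` by holomorphic maps
  `act γ` over `β γ`, properly discontinuously and cocompactly.
* `FibAct Ω kk Γ`: such an action which is affine in the fibres: `act γ (b, z) = (β γ b, A γ b z + c γ b)`.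
-/

open Set Filter Topology Metric
open scoped ContDiff ComplexConjugate

namespace Pool.Agent.H.MP_e23cd6_ag.AK

open Pool.Agent.H.MP_e23cd6_ag.AB

/-- the total space (domain times complex `kk`-space) -/
def TM {n : ℕ} (Ω : Dom n) (kk : ℕ) : Set (E n × E kk) := Ω.D ×ˢ univ

/-- A group acting on (domain) × ℂ^k by holomorphic maps over an action on the domain, properly
discontinuously and cocompactly. -/
structure TotAct {n : ℕ} (Ω : Dom n) (kk : ℕ) (Γ : Type) [Group Γ] extends BaseAct Ω Γ where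
  act : Γ → E n × E kk → E n × E kk
  fst : ∀ γ, ∀ x ∈ TM Ω kk, (act γ x).1 = β γ x.1
  tholo : ∀ γ, DifferentiableOn ℂ (act γ) (TM Ω kk)
  tone : ∀ x ∈ TM Ω kk, act 1 x = x
  tmul : ∀ γ δ, ∀ x ∈ TM Ω kk, act (γ * δ) x = act γ (act δ x)
  pd : ∀ K ⊆ TM Ω kk, IsCompact K → {γ | ∃ x ∈ K, act γ x ∈ K}.Finite
  cc : ∃ K ⊆ TM Ω kk, IsCompact K ∧ ∀ x ∈ TM Ω kk, ∃ γ, act γ x ∈ K

section easy

variable {n kk : ℕ} {Ω : Dom n} {Γ : Type} [Group Γ]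

theorem TM_open (Ω : Dom n) (kk : ℕ) : IsOpen (TM Ω kk) := Ω.isOpen.prod isOpen_univ

theorem act_maps (A : TotAct Ω kk Γ) (γ : Γ) : MapsTo (A.act γ) (TM Ω kk) (TM Ω kk) :=
  fun x hx => ⟨by rw [A.fst γ x hx]; exact A.maps γ hx.1, trivial⟩

theorem act_one (A : TotAct Ω kk Γ) {x : E n × E kk} (hx : x ∈ TM Ω kk) : A.act 1 x = x :=
  A.tone x hx

theorem act_mul (A : TotAct Ω kk Γ) (γ δ : Γ) {x : E n × E kk} (hx : x ∈ TM Ω kk) :
    A.act (γ * δ) x = A.act γ (A.act δ x) := A.tmul γ δ x hx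

theorem act_holo (A : TotAct Ω kk Γ) (γ : Γ) : DifferentiableOn ℂ (A.act γ) (TM Ω kk) := A.tholo γ

theorem act_pd (A : TotAct Ω kk Γ) {K K' : Set (E n × E kk)} (hK : K ⊆ TM Ω kk) (hKc : IsCompact K)
    (hK' : K' ⊆ TM Ω kk) (hKc' : IsCompact K') : {γ | ∃ x ∈ K, A.act γ x ∈ K'}.Finite :=
  (A.pd (K ∪ K') (union_subset hK hK') (hKc.union hKc')).subset
    fun _ ⟨x, hx, hx'⟩ => ⟨x, Or.inl hx, Or.inr hx'⟩

/-- invariance of a metric under the action -/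
def InvMet (A : TotAct Ω kk Γ) (h : KMet (TM Ω kk)) : Prop :=
  ∀ γ, ∀ x ∈ TM Ω kk, ∀ v w,
    h.h (A.act γ x) (fderiv ℂ (A.act γ) x v) (fderiv ℂ (A.act γ) x w) = h.h x v w

end easy

/-- An action on (domain) × ℂ^k which is affine in the fibres:
`act γ (b, z) = (β γ b, L γ b z + c γ b)`. -/
structure FibAct {n : ℕ} (Ω : Dom n) (kk : ℕ) (Γ : Type) [Group Γ] extends TotAct Ω kk Γ where
  L : Γ → E n → (E kk →L[ℂ] E kk)
  c : Γ → E n → E kk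
  L_holo : ∀ γ, DifferentiableOn ℂ (L γ) Ω.D
  c_holo : ∀ γ, DifferentiableOn ℂ (c γ) Ω.D
  act_eq : ∀ γ, ∀ b ∈ Ω.D, ∀ z, act γ (b, z) = (β γ b, L γ b z + c γ b)

section fib

variable {n kk : ℕ} {Ω : Dom n} {Γ : Type} [Group Γ] (A : FibAct Ω kk Γ)

theorem FibAct.aff_mul (γ δ : Γ) {b : E n} (hb : b ∈ Ω.D) (z : E kk) :
    A.L (γ * δ) b z + A.c (γ * δ) b =
      A.L γ (A.β δ b) (A.L δ b z + A.c δ b) + A.c γ (A.β δ b) := by
  have hx : (b, z) ∈ TM Ω kk := ⟨hb, trivial⟩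
  have h := A.tmul γ δ (b, z) hx
  rw [A.act_eq _ _ hb, A.act_eq δ _ hb, A.act_eq γ _ (A.mem δ hb)] at h
  exact (Prod.ext_iff.1 h).2

theorem FibAct.c_mul (γ δ : Γ) {b : E n} (hb : b ∈ Ω.D) :
    A.c (γ * δ) b = A.L γ (A.β δ b) (A.c δ b) + A.c γ (A.β δ b) := by
  have h := A.aff_mul γ δ hb 0
  simpa using h

theorem FibAct.L_mul (γ δ : Γ) {b : E n} (hb : b ∈ Ω.D) :
    A.L (γ * δ) b = A.L γ (A.β δ b) * A.L δ b := by
  ext1 z
  have h := A.aff_mul γ δ hb z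
  rw [A.c_mul γ δ hb, map_add] at h
  show A.L (γ * δ) b z = A.L γ (A.β δ b) (A.L δ b z)
  have h2 := add_right_cancel (b := A.L γ (A.β δ b) (A.c δ b) + A.c γ (A.β δ b))
    (h.trans (add_assoc _ _ _))
  exact h2

theorem FibAct.c_one {b : E n} (hb : b ∈ Ω.D) : A.c 1 b = 0 := by
  have h := A.tone (b, 0) ⟨hb, trivial⟩
  rw [A.act_eq _ _ hb] at h
  have h2 := (Prod.ext_iff.1 h).2
  simpa using h2

theorem FibAct.L_one {b : E n} (hb : b ∈ Ω.D) : A.L 1 b = 1 := by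
  ext1 z
  have h := A.tone (b, z) ⟨hb, trivial⟩
  rw [A.act_eq _ _ hb, A.c_one hb] at h
  have h2 := (Prod.ext_iff.1 h).2
  simpa using h2

theorem FibAct.L_inv_mul (γ : Γ) {b : E n} (hb : b ∈ Ω.D) :
    A.L γ⁻¹ (A.β γ b) * A.L γ b = 1 := by
  rw [← A.L_mul _ _ hb, inv_mul_cancel, A.L_one hb]

theorem FibAct.L_mul_inv (γ : Γ) {b : E n} (hb : b ∈ Ω.D) :
    A.L γ b * A.L γ⁻¹ (A.β γ b) = 1 := by
  have h := A.L_mul γ γ⁻¹ (A.mem γ hb)
  rw [mul_inv_cancel, A.L_one (A.mem γ hb), A.inv_left γ hb] at h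
  exact h.symm

end fib

/-- A Hermitian metric in the fibres which is constant along the fibres, invariant under the action. -/
structure FMet {n kk : ℕ} {Ω : Dom n} {Γ : Type} [Group Γ] (A : FibAct Ω kk Γ) where
  H : E n → E kk → E kk → ℂ
  cont : ∀ v w, ContinuousOn (fun b => H b v w) Ω.D
  add_left : ∀ b ∈ Ω.D, ∀ u v w, H b (u + v) w = H b u w + H b v w
  smul_left : ∀ b ∈ Ω.D, ∀ (a : ℂ) (v w : E kk), H b (a • v) w = a * H b v w
  herm : ∀ b ∈ Ω.D, ∀ v w, H b w v = conj (H b v w)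
  pos : ∀ b ∈ Ω.D, ∀ v, v ≠ 0 → 0 < (H b v v).re
  inv : ∀ γ, ∀ b ∈ Ω.D, ∀ v w, H (A.β γ b) (A.L γ b v) (A.L γ b w) = H b v w

end Pool.Agent.H.MP_e23cd6_ag.AK
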