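import Pool.Agent.H.MP_e23cd6_ag.AK.Av3b

/-!
ABUK Av4: the average of an invariant Kaehler metric gives Kaehler data (structure FKM).

`dz_add_right`, ...: `dz f x (u + u') = dz f x u + dz f x u'`, `dz f x (r • u) = r * dz f x u` for real r (fderiv is real linear), the same for dzb. `KMet.kahler_bar`: `dzb (fun y => h y v w) x u = dzb (fun y => h y v u) x w`:
since `h y v w = conj (h y w v)` near x (M open), `fderiv ℝ (fun y => h y v w) x u = conj (fderiv ℝ (fun y => h y w v) x u)`, so `dzb (h · v w) x u = conj (dz (h · w v) x u) = conj (dz (h · u v) x w) = dzb (h · v u) x w`.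

`exists_fkm`. M from `exists_avgFMet` (H = avgH). For b ∈ D, u ∈ E n, w, z ∈ E kk put
  `g b u w z = avg Λ 1 (fun y => h.h y (u,0) (0,w)) (b,z) + Σ_i avg Λ (fun x => x i) (fun y => h.h y (0, Dc_i(b) u) (0,w)) (b,z)`
 (which is `∫ h_{(b,z+pt b x)}((u, dpt b u x), (0,w)) dx`, as `(u, dpt b u x) = (u,0) + Σ x_i (0, Dc_i(b) u)`).
diff: `avgH` as a function of b is the composition of `avg Λ 1 f` (differentiable at (b,0) by `avg_deriv`) with `b ↦ (b,0)`. g_diff: composition with `z ↦ (b,z)`.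
g_dz: the derivative of `z ↦ avg Λ ρ f (b,z)` in the direction v is that of `avg Λ ρ f` at (b,z) in the direction (0,v); so with `avg_dz` (dpt b 0 x = 0): `dz (g b u w) z v = ∫ [dz (h · (u,0) (0,w)) y_x (0,v) + Σ x_i dz (h · (0,Dc_i u) (0,w)) y_x (0,v)] dx`, `y_x = (b, z + pt b x) ∈ TM`,
by `h.kahler` = `∫ [dz (h · (0,v) (0,w)) y_x (u,0) + Σ x_i dz (h · (0,v) (0,w)) y_x (0, Dc_i(b) u)] dx = ∫ dz (h · (0,v)(0,w)) y_x (u, dpt b u x) dx = dz (avg Λ 1 (h · (0,v)(0,w))) (b,z) (u,0)` (avg_dz). By `avgH_const` the function `x' ↦ avg Λ 1 (h · (0,v)(0,w)) (x', z)` equals `x' ↦ avgH Λ h x' v w` on the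
open set D, and the derivative of `avg Λ 1 f` at (b,z) in the direction (u,0) is the derivative of `x' ↦ avg Λ 1 f (x', z)` at b in the direction u. So it is `dz (fun x => M.H x v w) b u`.
g_dzb: in the same way from `avg_dzb` and `kahler_bar` (integrand `dzb (h · X (0,w)) y (0,v) = dzb (h · X (0,v)) y (0,w)` for X = (u,0) and X = (0, Dc_i u)).
g_tr: t ∈ trN: `g b u w (z + c_t b) = ∫ h_{(b, z + c_t + pt b x)}((u, dpt b u x), (0,w)) dx`; by `met_tr` (point `(b, z + pt b x)`, vectors `(u, dpt b u x - Dc_t(b) u)` and `(0,w)`): integrand `= h_{(b, z+pt b x)}((u, dpt b u x) - (0, Dc_t u), (0,w))`, so the integral is `g b u w z - ∫ h_{(b,z+pt b x)}((0, Dc_t(b) u), (0,w)) dx =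
g b u w z - M.H b (Dc_t(b) u) w` (avgH_const). (Continuity of all integrands in x: `h.smooth` gives continuity of `y ↦ h.h y v w` on TM, `x ↦ (b, z + pt b x)` is continuous.)
-/

open Set Filter Topology Metric MeasureTheory
open scoped ContDiff ComplexConjugate

namespace Pool.Agent.H.MP_e23cd6_ag.AK

open Pool.Agent.H.MP_e23cd6_ag.AB

section lin

variable {V : Type} [NormedAddCommGroup V] [NormedSpace ℝ V] [NormedSpace ℂ V]
  [IsScalarTower ℝ ℂ V]

/-- `dz f x` as a real linear map -/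
noncomputable def Av4_dzL (f : V → ℂ) (x : V) : V →ₗ[ℝ] ℂ where
  toFun := dz f x
  map_add' u v := by
    unfold dz
    rw [smul_add, map_add, map_add]
    ring
  map_smul' r u := by
    unfold dz
    rw [smul_comm Complex.I r u, map_smul, map_smul]
    simp only [Complex.real_smul, RingHom.id_apply]
    ring

theorem Av4_dz_add {f g : V → ℂ} {x : V} (hf : DifferentiableAt ℝ f x)
    (hg : DifferentiableAt ℝ g x) (u : V) :
    dz (fun y => f y + g y) x u = dz f x u + dz g x u := by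
  unfold dz
  rw [fderiv_fun_add hf hg]
  simp only [ContinuousLinearMap.add_apply]
  ring

theorem Av4_dzb_add {f g : V → ℂ} {x : V} (hf : DifferentiableAt ℝ f x)
    (hg : DifferentiableAt ℝ g x) (u : V) :
    dzb (fun y => f y + g y) x u = dzb f x u + dzb g x u := by
  unfold dzb
  rw [fderiv_fun_add hf hg]
  simp only [ContinuousLinearMap.add_apply]
  ring

theorem Av4_dz_sum {ι : Type} (s : Finset ι) {f : ι → V → ℂ} {x : V}
    (hf : ∀ i ∈ s, DifferentiableAt ℝ (f i) x) (u : V) :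
    dz (fun y => ∑ i ∈ s, f i y) x u = ∑ i ∈ s, dz (f i) x u := by
  unfold dz
  rw [fderiv_fun_sum hf]
  simp only [ContinuousLinearMap.sum_apply]
  rw [Finset.mul_sum, ← Finset.sum_sub_distrib, Finset.mul_sum]

theorem Av4_dzb_sum {ι : Type} (s : Finset ι) {f : ι → V → ℂ} {x : V}
    (hf : ∀ i ∈ s, DifferentiableAt ℝ (f i) x) (u : V) :
    dzb (fun y => ∑ i ∈ s, f i y) x u = ∑ i ∈ s, dzb (f i) x u := by
  unfold dzb
  rw [fderiv_fun_sum hf]
  simp only [ContinuousLinearMap.sum_apply]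
  rw [Finset.mul_sum, ← Finset.sum_add_distrib, Finset.mul_sum]

theorem Av4_dz_congr {f g : V → ℂ} {x : V} (h : f =ᶠ[𝓝 x] g) (u : V) : dz f x u = dz g x u := by
  unfold dz
  rw [h.fderiv_eq]

end lin

variable {n kk : ℕ} {Ω : Dom n} {Γ : Type} [Group Γ] {A : FibAct Ω kk Γ}

theorem Av4_slice2 {F : E n × E kk → ℂ} {b : E n} {z : E kk}
    (hF : DifferentiableAt ℝ F (b, z)) (v : E kk) :
    fderiv ℝ (fun z => F (b, z)) z v = fderiv ℝ F (b, z) (0, v) := by
  have h := HasFDerivAt.comp (g := F) (f := fun z => (b, z)) z hF.hasFDerivAt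
    (hasFDerivAt_prodMk_right b z)
  have h2 : fderiv ℝ (fun z => F (b, z)) z =
      (fderiv ℝ F (b, z)).comp (ContinuousLinearMap.inr ℝ (E n) (E kk)) := h.fderiv
  rw [h2]
  simp

theorem Av4_slice1 {F : E n × E kk → ℂ} {b : E n} {z : E kk}
    (hF : DifferentiableAt ℝ F (b, z)) (u : E n) :
    fderiv ℝ (fun b => F (b, z)) b u = fderiv ℝ F (b, z) (u, 0) := by
  have h := HasFDerivAt.comp (g := F) (f := fun b => (b, z)) b hF.hasFDerivAt
    (hasFDerivAt_prodMk_left b z)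
  have h2 : fderiv ℝ (fun b => F (b, z)) b =
      (fderiv ℝ F (b, z)).comp (ContinuousLinearMap.inl ℝ (E n) (E kk)) := h.fderiv
  rw [h2]
  simp

theorem Av4_dz2 {F : E n × E kk → ℂ} {b : E n} {z : E kk}
    (hF : DifferentiableAt ℝ F (b, z)) (v : E kk) :
    dz (fun z => F (b, z)) z v = dz F (b, z) (0, v) := by
  unfold dz
  rw [Av4_slice2 hF, Av4_slice2 hF, Prod.smul_mk, smul_zero]

theorem Av4_dzb2 {F : E n × E kk → ℂ} {b : E n} {z : E kk}
    (hF : DifferentiableAt ℝ F (b, z)) (v : E kk) :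
    dzb (fun z => F (b, z)) z v = dzb F (b, z) (0, v) := by
  unfold dzb
  rw [Av4_slice2 hF, Av4_slice2 hF, Prod.smul_mk, smul_zero]

theorem Av4_dz1 {F : E n × E kk → ℂ} {b : E n} {z : E kk}
    (hF : DifferentiableAt ℝ F (b, z)) (u : E n) :
    dz (fun b => F (b, z)) b u = dz F (b, z) (u, 0) := by
  unfold dz
  rw [Av4_slice1 hF, Av4_slice1 hF, Prod.smul_mk, smul_zero]

theorem kahler_bar (h : KMet (TM Ω kk)) {x : E n × E kk} (hx : x ∈ TM Ω kk)
    (u v w : E n × E kk) :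
    dzb (fun y => h.h y v w) x u = dzb (fun y => h.h y v u) x w := by
  have key : ∀ v w u, dzb (fun y => h.h y v w) x u = conj (dz (fun y => h.h y w v) x u) := by
    intro v w u
    have h1 : (fun y => h.h y v w) =ᶠ[𝓝 x] fun y => conj (h.h y w v) := by
      filter_upwards [(TM_open Ω kk).mem_nhds hx] with y hy using h.herm y hy w v
    have h2 : DifferentiableAt ℝ (fun y => h.h y w v) x :=
      ((h.smooth w v).contDiffAt ((TM_open Ω kk).mem_nhds hx)).differentiableAt (by simp)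
    have h3 : HasFDerivAt (fun y => conj (h.h y w v))
        ((Complex.conjCLE : ℂ →L[ℝ] ℂ).comp (fderiv ℝ (fun y => h.h y w v) x)) x :=
      (Complex.conjCLE : ℂ →L[ℝ] ℂ).hasFDerivAt.comp x h2.hasFDerivAt
    unfold dzb dz
    rw [h1.fderiv_eq, h3.fderiv]
    simp only [ContinuousLinearMap.comp_apply, ContinuousLinearEquiv.coe_coe,
      Complex.conjCLE_apply, map_mul, map_sub, map_div₀, map_one, map_ofNat, Complex.conj_I]
    ring
  rw [key, key, h.kahler x hx u w v]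

theorem Av4_cd (h : KMet (TM Ω kk)) (X W : E n × E kk) :
    ContDiffOn ℝ 1 (fun y => h.h y X W) (TM Ω kk) :=
  (h.smooth X W).of_le (by exact_mod_cast le_top)

theorem Av4_mem {b : E n} (hb : b ∈ Ω.D) (z : E kk) : (b, z) ∈ TM Ω kk := ⟨hb, trivial⟩

theorem Av4_ptc (Λ : Lat A) (b : E n) : Continuous fun x => Λ.pt b x := by
  unfold Lat.pt
  fun_prop

theorem Av4_cont (Λ : Lat A) {b : E n} (hb : b ∈ Ω.D) (z : E kk) {F : Type}
    [TopologicalSpace F] {φ : E n × E kk → F} (hφ : ContinuousOn φ (TM Ω kk)) :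
    Continuous fun x => φ (b, z + Λ.pt b x) := by
  have h1 : Continuous fun x => ((b, z + Λ.pt b x) : E n × E kk) :=
    continuous_const.prodMk (continuous_const.add (Av4_ptc Λ b))
  exact hφ.comp_continuous h1 fun x => Av4_mem hb _

theorem Av4_dz_cont {φ : E n × E kk → ℂ} (hφ : ContDiffOn ℝ 1 φ (TM Ω kk)) (X : E n × E kk) :
    ContinuousOn (fun y => dz φ y X) (TM Ω kk) := by
  have h1 : ContinuousOn (fderiv ℝ φ) (TM Ω kk) :=
    hφ.continuousOn_fderiv_of_isOpen (TM_open Ω kk) le_rfl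
  unfold dz
  exact continuousOn_const.mul
    ((h1.clm_apply continuousOn_const).sub
      (continuousOn_const.mul (h1.clm_apply continuousOn_const)))

/-- the real linear form `X ↦ h y X W` -/
noncomputable def Av4_hL (h : KMet (TM Ω kk)) {y : E n × E kk} (hy : y ∈ TM Ω kk)
    (W : E n × E kk) : (E n × E kk) →ₗ[ℝ] ℂ where
  toFun X := h.h y X W
  map_add' u v := h.add_left y hy u v W
  map_smul' r u := by
    rw [← Complex.coe_smul, h.smul_left y hy]
    simp

theorem Av4_comb (Λ : Lat A) (b u : E n) (l : (Fin (2 * kk) → ℝ) → ((E n × E kk) →ₗ[ℝ] ℂ))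
    (hc : ∀ X, Continuous fun x => l x X) :
    ∫ x in Icc (0 : Fin (2 * kk) → ℝ) 1, l x (u, Λ.dpt b u x) =
      (∫ x in Icc (0 : Fin (2 * kk) → ℝ) 1, l x (u, 0)) +
        ∑ i, ∫ x in Icc (0 : Fin (2 * kk) → ℝ) 1,
          (x i : ℂ) * l x (0, fderiv ℂ (A.c (Λ.t i)) b u) := by
  have e : ∀ x, l x (u, Λ.dpt b u x) =
      l x (u, 0) + ∑ i, (x i : ℂ) * l x (0, fderiv ℂ (A.c (Λ.t i)) b u) := by
    intro x
    have h1 : ((u, Λ.dpt b u x) : E n × E kk) =
        (u, 0) + ∑ i, x i • ((0, fderiv ℂ (A.c (Λ.t i)) b u) : E n × E kk) := by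
      refine Prod.ext ?_ ?_
      · simp [Prod.fst_sum]
      · simp [Prod.snd_sum, Lat.dpt]
    rw [h1, map_add, map_sum]
    congr 1
    refine Finset.sum_congr rfl fun i _ => ?_
    rw [map_smul, Complex.real_smul]
  have hci : ∀ i X, Continuous fun x : Fin (2 * kk) → ℝ => (x i : ℂ) * l x X := fun i X =>
    (Complex.continuous_ofReal.comp (continuous_apply i)).mul (hc X)
  simp_rw [e]
  rw [integral_add (hc _).integrableOn_Icc, integral_finsetSum]
  · exact fun i _ => (hci i _).integrableOn_Icc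
  · exact (continuous_finsetSum _ fun i _ => hci i _).integrableOn_Icc

/-- the function `F` with `g b u w z = F (b, z)` -/
noncomputable def Av4_F (Λ : Lat A) (h : KMet (TM Ω kk)) (b u : E n) (w : E kk)
    (y : E n × E kk) : ℂ :=
  avg Λ 1 (fun y => h.h y (u, 0) (0, w)) y +
    ∑ i, avg Λ (fun x => (x i : ℂ))
      (fun y => h.h y (0, fderiv ℂ (A.c (Λ.t i)) b u) (0, w)) y

theorem Av4_ρc (i : Fin (2 * kk)) : Continuous fun x : Fin (2 * kk) → ℝ => (x i : ℂ) :=
  Complex.continuous_ofReal.comp (continuous_apply i)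

theorem Av4_1c : Continuous (1 : (Fin (2 * kk) → ℝ) → ℂ) := continuous_const

theorem Av4_avg_diff (Λ : Lat A) {ρ : (Fin (2 * kk) → ℝ) → ℂ} (hρ : Continuous ρ)
    (h : KMet (TM Ω kk)) (X W : E n × E kk) {b : E n} (hb : b ∈ Ω.D) (z : E kk) :
    DifferentiableAt ℝ (avg Λ ρ fun y => h.h y X W) (b, z) := by
  obtain ⟨D, hD, -⟩ := avg_deriv Λ hρ (Av4_cd h X W) hb z
  exact hD.differentiableAt

theorem Av4_F_diff (Λ : Lat A) (h : KMet (TM Ω kk)) {b : E n} (hb : b ∈ Ω.D) (u : E n)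
    (w z : E kk) : DifferentiableAt ℝ (Av4_F Λ h b u w) (b, z) := by
  unfold Av4_F
  exact (Av4_avg_diff Λ Av4_1c h _ _ hb z).fun_add
    (DifferentiableAt.fun_sum fun i _ => Av4_avg_diff Λ (Av4_ρc i) h _ _ hb z)

theorem Av4_F_eq (Λ : Lat A) (h : KMet (TM Ω kk)) {b : E n} (hb : b ∈ Ω.D) (u : E n)
    (w z : E kk) : Av4_F Λ h b u w (b, z) = ∫ x in Icc (0 : Fin (2 * kk) → ℝ) 1,
      h.h (b, z + Λ.pt b x) (u, Λ.dpt b u x) (0, w) := by
  have h1 := Av4_comb Λ b u (fun x => Av4_hL h (Av4_mem hb (z + Λ.pt b x)) (0, w))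
    (fun X => Av4_cont Λ hb z (h.smooth X (0, w)).continuousOn)
  have h2 : ∫ x in Icc (0 : Fin (2 * kk) → ℝ) 1,
      h.h (b, z + Λ.pt b x) (u, Λ.dpt b u x) (0, w) =
      (∫ x in Icc (0 : Fin (2 * kk) → ℝ) 1, h.h (b, z + Λ.pt b x) (u, 0) (0, w)) +
        ∑ i, ∫ x in Icc (0 : Fin (2 * kk) → ℝ) 1,
          (x i : ℂ) * h.h (b, z + Λ.pt b x) (0, fderiv ℂ (A.c (Λ.t i)) b u) (0, w) := h1
  rw [h2]
  unfold Av4_F avg
  simp only [Pi.one_apply, one_mul]

theorem Av4_dpt_zero (Λ : Lat A) (b : E n) (x : Fin (2 * kk) → ℝ) : Λ.dpt b 0 x = 0 := by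
  unfold Lat.dpt
  simp

theorem Av4_F_dz (Λ : Lat A) (h : KMet (TM Ω kk)) (hinv : InvMet A.toTotAct h) {b : E n}
    (hb : b ∈ Ω.D) (u : E n) (w z v : E kk) :
    dz (fun z => Av4_F Λ h b u w (b, z)) z v = dz (fun x => avgH Λ h x v w) b u := by
  rw [Av4_dz2 (Av4_F_diff Λ h hb u w z)]
  have e1 : dz (Av4_F Λ h b u w) (b, z) (0, v) =
      dz (avg Λ 1 (fun y => h.h y (u, 0) (0, w))) (b, z) (0, v) +
      ∑ i, dz (avg Λ (fun x => (x i : ℂ))
        (fun y => h.h y (0, fderiv ℂ (A.c (Λ.t i)) b u) (0, w))) (b, z) (0, v) := by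
    unfold Av4_F
    rw [Av4_dz_add (Av4_avg_diff Λ Av4_1c h _ _ hb z)
      (DifferentiableAt.fun_sum fun i _ => Av4_avg_diff Λ (Av4_ρc i) h _ _ hb z),
      Av4_dz_sum _ fun i _ => Av4_avg_diff Λ (Av4_ρc i) h _ _ hb z]
  have e2 : dz (avg Λ 1 (fun y => h.h y (u, 0) (0, w))) (b, z) (0, v) =
      ∫ x in Icc (0 : Fin (2 * kk) → ℝ) 1,
        dz (fun y => h.h y (0, v) (0, w)) (b, z + Λ.pt b x) (u, 0) := by
    rw [avg_dz Λ Av4_1c (Av4_cd h _ _) hb z]
    refine integral_congr_ae (Eventually.of_forall fun x => ?_)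
    simp only [Pi.one_apply, one_mul, Av4_dpt_zero, add_zero]
    exact h.kahler _ (Av4_mem hb _) _ _ _
  have e3 : ∀ i, dz (avg Λ (fun x => (x i : ℂ))
        (fun y => h.h y (0, fderiv ℂ (A.c (Λ.t i)) b u) (0, w))) (b, z) (0, v) =
      ∫ x in Icc (0 : Fin (2 * kk) → ℝ) 1, (x i : ℂ) *
        dz (fun y => h.h y (0, v) (0, w)) (b, z + Λ.pt b x)
          (0, fderiv ℂ (A.c (Λ.t i)) b u) := by
    intro i
    rw [avg_dz Λ (Av4_ρc i) (Av4_cd h _ _) hb z]
    refine integral_congr_ae (Eventually.of_forall fun x => ?_)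
    simp only [Av4_dpt_zero, add_zero]
    rw [h.kahler _ (Av4_mem hb _)]
  rw [e1, e2, Finset.sum_congr rfl fun i _ => e3 i]
  have e4 := Av4_comb Λ b u
    (fun x => Av4_dzL (fun y => h.h y (0, v) (0, w)) (b, z + Λ.pt b x))
    (fun X => Av4_cont Λ hb z (Av4_dz_cont (Av4_cd h _ _) X))
  have e5 : ∫ x in Icc (0 : Fin (2 * kk) → ℝ) 1,
      dz (fun y => h.h y (0, v) (0, w)) (b, z + Λ.pt b x) (u, Λ.dpt b u x) =
      (∫ x in Icc (0 : Fin (2 * kk) → ℝ) 1,
        dz (fun y => h.h y (0, v) (0, w)) (b, z + Λ.pt b x) (u, 0)) +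
      ∑ i, ∫ x in Icc (0 : Fin (2 * kk) → ℝ) 1, (x i : ℂ) *
        dz (fun y => h.h y (0, v) (0, w)) (b, z + Λ.pt b x)
          (0, fderiv ℂ (A.c (Λ.t i)) b u) := e4
  rw [← e5]
  have e6 : dz (avg Λ 1 (fun y => h.h y (0, v) (0, w))) (b, z) (u, 0) =
      ∫ x in Icc (0 : Fin (2 * kk) → ℝ) 1,
      dz (fun y => h.h y (0, v) (0, w)) (b, z + Λ.pt b x) (u, Λ.dpt b u x) := by
    rw [avg_dz Λ Av4_1c (Av4_cd h _ _) hb z]
    refine integral_congr_ae (Eventually.of_forall fun x => ?_)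
    simp only [Pi.one_apply, one_mul, zero_add]
  rw [← e6, ← Av4_dz1 (Av4_avg_diff Λ Av4_1c h _ _ hb z)]
  refine Av4_dz_congr ?_ u
  filter_upwards [Ω.isOpen.mem_nhds hb] with b' hb' using avgH_const Λ h hinv hb' v w z

theorem Av4_F_dzb (Λ : Lat A) (h : KMet (TM Ω kk)) {b : E n}
    (hb : b ∈ Ω.D) (u : E n) (w z v : E kk) :
    dzb (fun z => Av4_F Λ h b u w (b, z)) z v = dzb (fun z => Av4_F Λ h b u v (b, z)) z w := by
  rw [Av4_dzb2 (Av4_F_diff Λ h hb u w z), Av4_dzb2 (Av4_F_diff Λ h hb u v z)]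
  have e1 : ∀ w v, dzb (Av4_F Λ h b u w) (b, z) (0, v) =
      (∫ x in Icc (0 : Fin (2 * kk) → ℝ) 1,
        dzb (fun y => h.h y (u, 0) (0, w)) (b, z + Λ.pt b x) (0, v)) +
      ∑ i, ∫ x in Icc (0 : Fin (2 * kk) → ℝ) 1, (x i : ℂ) *
        dzb (fun y => h.h y (0, fderiv ℂ (A.c (Λ.t i)) b u) (0, w)) (b, z + Λ.pt b x) (0, v) := by
    intro w v
    unfold Av4_F
    rw [Av4_dzb_add (Av4_avg_diff Λ Av4_1c h _ _ hb z)
      (DifferentiableAt.fun_sum fun i _ => Av4_avg_diff Λ (Av4_ρc i) h _ _ hb z),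
      Av4_dzb_sum _ fun i _ => Av4_avg_diff Λ (Av4_ρc i) h _ _ hb z]
    rw [avg_dzb Λ Av4_1c (Av4_cd h _ _) hb z]
    congr 1
    · refine integral_congr_ae (Eventually.of_forall fun x => ?_)
      simp only [Pi.one_apply, one_mul, Av4_dpt_zero, add_zero]
    · refine Finset.sum_congr rfl fun i _ => ?_
      rw [avg_dzb Λ (Av4_ρc i) (Av4_cd h _ _) hb z]
      refine integral_congr_ae (Eventually.of_forall fun x => ?_)
      simp only [Av4_dpt_zero, add_zero]
  rw [e1 w v, e1 v w]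
  congr 1
  · refine integral_congr_ae (Eventually.of_forall fun x => ?_)
    exact kahler_bar h (Av4_mem hb _) _ _ _
  · refine Finset.sum_congr rfl fun i _ => ?_
    refine integral_congr_ae (Eventually.of_forall fun x => ?_)
    show (x i : ℂ) * _ = (x i : ℂ) * _
    rw [kahler_bar h (Av4_mem hb _)]

theorem Av4_F_tr (Λ : Lat A) (h : KMet (TM Ω kk)) (hinv : InvMet A.toTotAct h) {t : Γ}
    (ht : t ∈ trN A) {b : E n} (hb : b ∈ Ω.D) (u : E n) (w z : E kk) :
    Av4_F Λ h b u w (b, z + A.c t b) =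
      Av4_F Λ h b u w (b, z) - avgH Λ h b (fderiv ℂ (A.c t) b u) w := by
  rw [Av4_F_eq Λ h hb, Av4_F_eq Λ h hb, ← avgH_const Λ h hinv hb _ _ z]
  unfold avg
  simp only [Pi.one_apply, one_mul]
  have hc1 : Continuous fun x => h.h (b, z + Λ.pt b x) (u, Λ.dpt b u x) (0, w) := by
    have e : ∀ x, h.h (b, z + Λ.pt b x) (u, Λ.dpt b u x) (0, w) =
        h.h (b, z + Λ.pt b x) (u, 0) (0, w) + ∑ i, (x i : ℂ) *
          h.h (b, z + Λ.pt b x) (0, fderiv ℂ (A.c (Λ.t i)) b u) (0, w) := by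
      intro x
      have h1 : ((u, Λ.dpt b u x) : E n × E kk) =
          (u, 0) + ∑ i, x i • ((0, fderiv ℂ (A.c (Λ.t i)) b u) : E n × E kk) := by
        refine Prod.ext ?_ ?_
        · simp [Prod.fst_sum]
        · simp [Prod.snd_sum, Lat.dpt]
      have h2 : ∀ X, h.h (b, z + Λ.pt b x) X (0, w) =
        Av4_hL h (Av4_mem hb (z + Λ.pt b x)) (0, w) X := fun X => rfl
      rw [h1, h2, map_add, map_sum]
      congr 1
      refine Finset.sum_congr rfl fun i _ => ?_
      rw [map_smul, Complex.real_smul]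
      rfl
    simp_rw [e]
    refine (Av4_cont Λ hb z (h.smooth _ _).continuousOn).add
      (continuous_finsetSum _ fun i _ => (Av4_ρc i).mul ?_)
    exact Av4_cont Λ hb z (h.smooth (0, fderiv ℂ (A.c (Λ.t i)) b u) (0, w)).continuousOn
  have hc2 : Continuous fun x => h.h (b, z + Λ.pt b x) (0, fderiv ℂ (A.c t) b u) (0, w) :=
    Av4_cont Λ hb z (h.smooth (0, fderiv ℂ (A.c t) b u) (0, w)).continuousOn
  rw [← integral_sub hc1.integrableOn_Icc hc2.integrableOn_Icc]
  refine integral_congr_ae (Eventually.of_forall fun x => ?_)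
  show h.h (b, z + A.c t b + Λ.pt b x) (u, Λ.dpt b u x) (0, w) =
    h.h (b, z + Λ.pt b x) (u, Λ.dpt b u x) (0, w) -
      h.h (b, z + Λ.pt b x) (0, fderiv ℂ (A.c t) b u) (0, w)
  have h1 := met_tr h hinv ht hb (z + Λ.pt b x) u 0 (Λ.dpt b u x - fderiv ℂ (A.c t) b u) w
  rw [map_zero, add_zero, sub_add_cancel,
    show z + Λ.pt b x + A.c t b = z + A.c t b + Λ.pt b x by abel] at h1
  rw [h1]
  have h2 : ∀ X, h.h (b, z + Λ.pt b x) X (0, w) =
    Av4_hL h (Av4_mem hb (z + Λ.pt b x)) (0, w) X := fun X => rfl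
  rw [h2, h2, h2, ← map_sub]
  congr 1
  simp

theorem exists_fkm (Λ : Lat A) (h : KMet (TM Ω kk)) (hinv : InvMet A.toTotAct h) :
    Nonempty (FKM A) := by
  obtain ⟨M, hM⟩ := exists_avgFMet Λ h hinv
  have hH : ∀ b v w, M.H b v w = avgH Λ h b v w := fun b v w => by rw [hM]
  refine ⟨{ toFMet := M
            diff := ?_
            g := fun b u w z => Av4_F Λ h b u w (b, z)
            g_diff := ?_
            g_dz := ?_
            g_dzb := ?_
            g_tr := ?_ }⟩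
  · intro v w b hb
    have h1 : DifferentiableAt ℝ (fun b => avg Λ 1 (fun y => h.h y (0, v) (0, w)) (b, 0)) b :=
      (HasFDerivAt.comp (g := avg Λ 1 (fun y => h.h y (0, v) (0, w))) (f := fun b => (b, 0)) b
        (Av4_avg_diff Λ Av4_1c h (0, v) (0, w) hb 0).hasFDerivAt
        (hasFDerivAt_prodMk_left b 0)).differentiableAt
    have h2 : (fun b => M.H b v w) =
        fun b => avg Λ 1 (fun y => h.h y (0, v) (0, w)) (b, 0) := by
      funext b
      rw [hH]
      rfl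
    rw [h2]
    exact h1.differentiableWithinAt
  · intro b hb u w z
    exact (HasFDerivAt.comp (g := Av4_F Λ h b u w) (f := fun z => (b, z)) z
      (Av4_F_diff Λ h hb u w z).hasFDerivAt (hasFDerivAt_prodMk_right b z)).differentiableAt
  · intro b hb u w z v
    have h2 : (fun x => M.H x v w) = fun x => avgH Λ h x v w := by
      funext b
      rw [hH]
    rw [h2]
    exact Av4_F_dz Λ h hinv hb u w z v
  · intro b hb u w z v
    exact Av4_F_dzb Λ h hb u w z v
  · intro t ht b hb u w z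
    rw [hH]
    exact Av4_F_tr Λ h hinv ht hb u w z

end Pool.Agent.H.MP_e23cd6_ag.AK
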