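import Pool.Agent.H.MP_e23cd6_ag.AK.Her

/-!
ABUK Bnd: bounds for the fibre metric and the linear parts; rigidity.

`herm_cont`: by `IsHerm.expand` the function `(b, v) ↦ M.H b v v` is continuous on `Ω.D ×ˢ univ` (finite sum of products of continuous functions).

`FMet.bounds`. K compact. If `kk = 0` then `v = 0` and everything is `0`. In general the set `K ×ˢ sphere 0 1` is compact and `(b, v) ↦ (M.H b v v).re` is continuous and positive on it, so there are
constants with `c ≤ (M.H b v v).re ≤ C'` on it (if it is empty take 1; `IsCompact.exists_isMinOn`, `exists_isMaxOn` or `IsCompact.exists_bound_of_continuousOn`).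
Scaling: for `v ≠ 0`, `v = ‖v‖ • u`, `H v v = ‖v‖² H u u` (`rsmul_left/right`). Take `C = max (1/c) (max C' 1)`.

`L_bound`. With C from `bounds` for K: `‖L γ b v‖² ≤ C H_{β b}(L v, L v) = C H_b(v,v) ≤ C² ‖v‖²`, so `‖L γ b‖ ≤ C` (`ContinuousLinearMap.opNorm_le_bound`).

`rigid`. `τ b = trace (T b)` is holomorphic on D (trace is a continuous linear function of `T b`: finite dimension, or sum of the coordinates `(T b (Pi.single i 1)) i`, `LinearMap.trace_eq_matrix_trace` with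
`Pi.basisFun`), `|τ b| ≤ kk` on D by `unitary_trace` (the hypothesis at `v = w`), and `τ b1 = kk`. So `b1` is a maximum point of `‖τ‖` on D and by the maximum principle
(`Complex.eqOn_of_isPreconnected_of_isMaxOn_norm`) τ is constant `= kk` on D. `unitary_trace`: `T b = 1` for all `b ∈ D`.
-/

open Set Filter Topology Metric
open scoped ComplexConjugate

namespace Pool.Agent.H.MP_e23cd6_ag.AK

open Pool.Agent.H.MP_e23cd6_ag.AB

variable {n kk : ℕ} {Ω : Dom n} {Γ : Type} [Group Γ] {A : FibAct Ω kk Γ}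

theorem FMet.herm_cont (M : FMet A) :
    ContinuousOn (fun x : E n × E kk => (M.H x.1 x.2 x.2).re) (Ω.D ×ˢ univ) := by
  have h1 : ContinuousOn (fun x : E n × E kk => ∑ p, ∑ q, x.2 p * conj (x.2 q) *
      M.H x.1 (Pi.single p 1) (Pi.single q 1)) (Ω.D ×ˢ univ) := by
    refine continuousOn_finsetSum _ fun p _ => continuousOn_finsetSum _ fun q _ => ?_
    refine ContinuousOn.mul ?_ ?_
    · refine Continuous.continuousOn ?_
      exact ((continuous_apply p).comp continuous_snd).mul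
        (Complex.continuous_conj.comp ((continuous_apply q).comp continuous_snd))
    · exact (M.cont _ _).comp continuousOn_fst fun x hx => hx.1
  refine (Complex.continuous_re.comp_continuousOn h1).congr fun x hx => ?_
  show (M.H x.1 x.2 x.2).re = _
  rw [(M.isHerm hx.1).expand x.2 x.2]
  rfl

theorem FMet.bounds (M : FMet A) {K : Set (E n)} (hK : K ⊆ Ω.D) (hKc : IsCompact K) :
    ∃ C : ℝ, 0 < C ∧ ∀ b ∈ K, ∀ v : E kk,
      (M.H b v v).re ≤ C * ‖v‖ ^ 2 ∧ ‖v‖ ^ 2 ≤ C * (M.H b v v).re := by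
  have hS : IsCompact (K ×ˢ sphere (0 : E kk) 1) := hKc.prod (isCompact_sphere _ _)
  have hc : ContinuousOn (fun x : E n × E kk => (M.H x.1 x.2 x.2).re)
      (K ×ˢ sphere (0 : E kk) 1) :=
    M.herm_cont.mono fun x hx => ⟨hK hx.1, trivial⟩
  have hpos : ∀ x ∈ K ×ˢ sphere (0 : E kk) 1, 0 < (M.H x.1 x.2 x.2).re := by
    intro x hx
    refine M.pos _ (hK hx.1) _ fun h0 => ?_
    have h1 : ‖x.2‖ = 1 := by simpa using hx.2
    rw [h0, norm_zero] at h1
    exact zero_ne_one h1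
  obtain ⟨C1, hC1⟩ := hS.exists_bound_of_continuousOn hc
  obtain ⟨C2, hC2⟩ := hS.exists_bound_of_continuousOn (hc.inv₀ fun x hx => (hpos x hx).ne')
  refine ⟨max (max C1 C2) 1, lt_of_lt_of_le one_pos (le_max_right _ _), fun b hb v => ?_⟩
  have hH := M.isHerm (hK hb)
  by_cases hv : v = 0
  · rw [hv, hH.zero_left]
    simp
  have hn : 0 < ‖v‖ := norm_pos_iff.2 hv
  set u : E kk := ‖v‖⁻¹ • v with hu
  have hu1 : ‖u‖ = 1 := by
    rw [hu, norm_smul, norm_inv, norm_norm, inv_mul_cancel₀ hn.ne']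
  have hvu : v = ‖v‖ • u := by
    rw [hu, smul_smul, mul_inv_cancel₀ hn.ne', one_smul]
  have hmem : ((b, u) : E n × E kk) ∈ K ×ˢ sphere (0 : E kk) 1 := ⟨hb, by simp [hu1]⟩
  have e : (M.H b v v).re = ‖v‖ ^ 2 * (M.H b u u).re := by
    have e1 : M.H b v v = ((‖v‖ ^ 2 : ℝ) : ℂ) * M.H b u u := by
      conv_lhs => rw [hvu, hH.rsmul_left, hH.rsmul_right]
      push_cast
      ring
    rw [e1, Complex.re_ofReal_mul]
  have h1 : ‖(M.H b u u).re‖ ≤ C1 := hC1 _ hmem
  have h2 : ‖((M.H b u u).re)⁻¹‖ ≤ C2 := hC2 _ hmem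
  have h3 : 0 < (M.H b u u).re := hpos _ hmem
  simp only [Real.norm_eq_abs] at h1 h2
  rw [abs_of_pos h3] at h1
  rw [abs_of_pos (inv_pos.2 h3)] at h2
  have h4 : (M.H b u u).re ≤ max (max C1 C2) 1 :=
    h1.trans ((le_max_left _ _).trans (le_max_left _ _))
  have h5 : ((M.H b u u).re)⁻¹ ≤ max (max C1 C2) 1 :=
    h2.trans ((le_max_right _ _).trans (le_max_left _ _))
  have h6 : 1 ≤ max (max C1 C2) 1 * (M.H b u u).re := by
    have := mul_le_mul_of_nonneg_right h5 h3.le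
    rwa [inv_mul_cancel₀ h3.ne'] at this
  rw [e]
  have hn2 : 0 < ‖v‖ ^ 2 := by positivity
  constructor
  · rw [mul_comm (‖v‖ ^ 2)]
    exact mul_le_mul_of_nonneg_right h4 hn2.le
  · calc ‖v‖ ^ 2 = ‖v‖ ^ 2 * 1 := (mul_one _).symm
      _ ≤ ‖v‖ ^ 2 * (max (max C1 C2) 1 * (M.H b u u).re) :=
          mul_le_mul_of_nonneg_left h6 hn2.le
      _ = _ := by ring

theorem L_bound (M : FMet A) {K : Set (E n)} (hK : K ⊆ Ω.D) (hKc : IsCompact K) :
    ∃ C : ℝ, 0 < C ∧ ∀ γ, ∀ b ∈ K, A.β γ b ∈ K → ‖A.L γ b‖ ≤ C := by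
  obtain ⟨C, hC, hb⟩ := M.bounds hK hKc
  refine ⟨C, hC, fun γ b hbK hbK' => ?_⟩
  refine ContinuousLinearMap.opNorm_le_bound _ hC.le fun v => ?_
  have h1 := (hb _ hbK' (A.L γ b v)).2
  rw [M.inv γ b (hK hbK)] at h1
  have h2 := (hb b hbK v).1
  have h3 : ‖A.L γ b v‖ ^ 2 ≤ (C * ‖v‖) ^ 2 := by
    calc _ ≤ C * (M.H b v v).re := h1
      _ ≤ C * (C * ‖v‖ ^ 2) := mul_le_mul_of_nonneg_left h2 hC.le
      _ = _ := by ring
  exact (pow_le_pow_iff_left₀ (norm_nonneg _) (by positivity) two_ne_zero).1 h3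

/-- the trace as a continuous linear function -/
noncomputable def trCLM (kk : ℕ) : (E kk →L[ℂ] E kk) →L[ℂ] ℂ :=
  LinearMap.toContinuousLinearMap
    ((LinearMap.trace ℂ (E kk)) ∘ₗ (ContinuousLinearMap.coeLM ℂ))

theorem trCLM_apply (kk : ℕ) (T : E kk →L[ℂ] E kk) :
    trCLM kk T = LinearMap.trace ℂ (E kk) (T : E kk →ₗ[ℂ] E kk) := rfl

theorem rigid (M : FMet A) {T : E n → (E kk →L[ℂ] E kk)} (hT : DifferentiableOn ℂ T Ω.D)
    (hU : ∀ b ∈ Ω.D, ∀ v w, M.H b (T b v) (T b w) = M.H b v w) {b1 : E n} (hb1 : b1 ∈ Ω.D)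
    (h1 : T b1 = 1) : ∀ b ∈ Ω.D, T b = 1 := by
  have hd : DifferentiableOn ℂ (fun b => trCLM kk (T b)) Ω.D :=
    (trCLM kk).differentiable.comp_differentiableOn hT
  have hut : ∀ b ∈ Ω.D, _ := fun b hb =>
    unitary_trace (M.isHerm hb) (T b : E kk →ₗ[ℂ] E kk) (fun v => hU b hb v v)
  have hb1t : trCLM kk (T b1) = kk := by
    rw [trCLM_apply, h1]
    have h2 : ((1 : E kk →L[ℂ] E kk) : E kk →ₗ[ℂ] E kk) = LinearMap.id := rfl
    rw [h2, LinearMap.trace_id]
    simp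
  have hmax : IsMaxOn (norm ∘ fun b => trCLM kk (T b)) Ω.D b1 := by
    intro b hb
    show ‖trCLM kk (T b)‖ ≤ ‖trCLM kk (T b1)‖
    rw [hb1t, Complex.norm_natCast]
    exact (hut b hb).1
  have heq := Complex.eqOn_of_isPreconnected_of_isMaxOn_norm Ω.conn Ω.isOpen hd hb1 hmax
  intro b hb
  have h3 : trCLM kk (T b) = kk := by
    have := heq hb
    simp only [Function.const_apply] at this
    rw [this, hb1t]
  ext1 v
  exact (hut b hb).2 h3 v

end Pool.Agent.H.MP_e23cd6_ag.AK
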