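import Pool.Agent.H.MP_e23cd6_ag.AK.Defs2

/-!
ABUK Her: Hermitian frames, unitary maps with maximal trace.
-/

open Set Filter Topology Metric
open scoped ComplexConjugate

namespace Pool.Agent.H.MP_e23cd6_ag.AK

open Pool.Agent.H.MP_e23cd6_ag.AB

/-- the space `E kk` without its topology -/
def HerV (kk : ℕ) : Type := Fin kk → ℂ

instance HerV.instAddCommGroup (kk : ℕ) : AddCommGroup (HerV kk) :=
  inferInstanceAs (AddCommGroup (Fin kk → ℂ))

instance HerV.instModule (kk : ℕ) : Module ℂ (HerV kk) :=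
  inferInstanceAs (Module ℂ (Fin kk → ℂ))

instance HerV.instFinite (kk : ℕ) : Module.Finite ℂ (HerV kk) :=
  inferInstanceAs (Module.Finite ℂ (Fin kk → ℂ))

/-- the identity map -/
def herId (kk : ℕ) : E kk ≃ₗ[ℂ] HerV kk := LinearEquiv.refl ℂ (Fin kk → ℂ)

/-- a positive definite Hermitian form as an inner product -/
@[reducible]
def herCore {kk : ℕ} {H : E kk → E kk → ℂ} (h : IsHerm H) :
    InnerProductSpace.Core ℂ (HerV kk) where
  inner x y := H y x
  conj_inner_symm x y := (h.herm x y).symm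
  re_inner_nonneg x := h.self_nonneg x
  add_left x y z := h.add_right z x y
  smul_left x y r := h.smul_right r y x
  definite x hx := by
    by_contra h0
    have h1 := h.pos x h0
    have h2 : H x x = 0 := hx
    rw [h2] at h1
    simp at h1

theorem herm_frame {kk : ℕ} {H : E kk → E kk → ℂ} (h : IsHerm H) :
    ∃ S : E kk ≃ₗ[ℂ] EuclideanSpace ℂ (Fin kk), ∀ v w, inner ℂ (S w) (S v) = H v w := by
  let core : InnerProductSpace.Core ℂ (HerV kk) := herCore h
  let : NormedAddCommGroup (HerV kk) := core.toNormedAddCommGroup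
  let : InnerProductSpace ℂ (HerV kk) := InnerProductSpace.ofCore _
  have hfr : Module.finrank ℂ (HerV kk) = kk := Module.finrank_fin_fun ℂ
  let b := (stdOrthonormalBasis ℂ (HerV kk)).reindex (finCongr hfr)
  refine ⟨(herId kk).trans b.repr.toLinearEquiv, fun v w => ?_⟩
  exact b.repr.inner_map_map (herId kk w) (herId kk v)

theorem unitary_trace {kk : ℕ} {H : E kk → E kk → ℂ} (h : IsHerm H) (T : E kk →ₗ[ℂ] E kk)
    (hT : ∀ v, H (T v) (T v) = H v v) :
    ‖LinearMap.trace ℂ (E kk) T‖ ≤ kk ∧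
      (LinearMap.trace ℂ (E kk) T = kk → ∀ v, T v = v) := by
  obtain ⟨S, hS⟩ := herm_frame h
  set T' : EuclideanSpace ℂ (Fin kk) →ₗ[ℂ] EuclideanSpace ℂ (Fin kk) := S.conj T with hT'
  have htr : LinearMap.trace ℂ _ T' = LinearMap.trace ℂ (E kk) T := LinearMap.trace_conj' T S
  have happ : ∀ x, T' x = S (T (S.symm x)) := fun x => rfl
  have hn : ∀ x, ‖T' x‖ = ‖x‖ := by
    intro x
    have h1 : inner ℂ (T' x) (T' x) = inner ℂ x x := by
      rw [happ, hS, hT, ← hS, LinearEquiv.apply_symm_apply]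
    rw [inner_self_eq_norm_sq_to_K, inner_self_eq_norm_sq_to_K] at h1
    have h2 : ‖T' x‖ ^ 2 = ‖x‖ ^ 2 := by exact_mod_cast h1
    exact (sq_eq_sq₀ (norm_nonneg _) (norm_nonneg _)).1 h2
  set b := EuclideanSpace.basisFun (Fin kk) ℂ with hb
  have hb1 : ∀ i, ‖b i‖ = 1 := fun i => b.norm_eq_one i
  have hsum : LinearMap.trace ℂ _ T' = ∑ i, inner ℂ (b i) (T' (b i)) :=
    LinearMap.trace_eq_sum_inner T' b
  have hle : ∀ i, ‖inner ℂ (b i) (T' (b i))‖ ≤ 1 := by
    intro i
    refine (norm_inner_le_norm _ _).trans ?_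
    rw [hn, hb1, one_mul]
  rw [← htr]
  constructor
  · rw [hsum]
    refine (norm_sum_le _ _).trans ((Finset.sum_le_sum fun i _ => hle i).trans ?_)
    simp
  · intro hk
    have hre : ∑ i, (1 - (inner ℂ (b i) (T' (b i))).re) = 0 := by
      have h1 := congrArg Complex.re (hsum.symm.trans hk)
      rw [Complex.re_sum] at h1
      rw [Finset.sum_sub_distrib, h1]
      simp
    have hz := (Finset.sum_eq_zero_iff_of_nonneg (fun i _ => by
      have h1 := (Complex.re_le_norm (inner ℂ (b i) (T' (b i)))).trans (hle i)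
      linarith)).1 hre
    have hfix : ∀ i, T' (b i) = b i := by
      intro i
      have h1 : (inner ℂ (b i) (T' (b i))).re = 1 := by
        have := hz i (Finset.mem_univ i)
        linarith
      have h2 : ‖b i - T' (b i)‖ ^ 2 = 0 := by
        rw [@norm_sub_sq ℂ]
        rw [hn, hb1]
        have h3 : RCLike.re (inner ℂ (b i) (T' (b i))) = 1 := h1
        rw [h3]
        norm_num
      have h3 : b i - T' (b i) = 0 := norm_eq_zero.1 (pow_eq_zero_iff (two_ne_zero)|>.1 h2)
      exact (sub_eq_zero.1 h3).symm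
    have hT1 : T' = LinearMap.id := by
      refine b.toBasis.ext fun i => ?_
      rw [OrthonormalBasis.coe_toBasis, hfix, LinearMap.id_apply]
    intro v
    apply S.injective
    have h1 : T' (S v) = S v := by rw [hT1, LinearMap.id_apply]
    rwa [happ, LinearEquiv.symm_apply_apply] at h1

end Pool.Agent.H.MP_e23cd6_ag.AK
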