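import Pool.Agent.H.MP_e23cd6_ag.AK.K5b

/-!
ABUK K6a: a holomorphic family of linear maps P_b comparing the fibre metrics.
-/

open Set Filter Topology Metric
open scoped ComplexConjugate

namespace Pool.Agent.H.MP_e23cd6_ag.AK

open Pool.Agent.H.MP_e23cd6_ag.AB

variable {n kk : ℕ} {Ω : Dom n} {Γ : Type} [Group Γ] {A : FibAct Ω kk Γ}

theorem P_ineq {H H0 : E kk → E kk → ℂ} (hH : IsHerm H) (hH0 : IsHerm H0)
    (R : E kk →ₗ[ℝ] E kk) (hR : ∀ v w, (H (R v) (R w)).im = (H0 v w).im) (v : E kk) :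
    (H0 v v).re ≤ (H ((1 / 2 : ℂ) • (R v - Complex.I • R (Complex.I • v)))
      ((1 / 2 : ℂ) • (R v - Complex.I • R (Complex.I • v)))).re := by
  have h1 : (H (R (Complex.I • v)) (R v)).im = (H0 v v).re := by
    rw [hR, hH0.smul_left]
    simp
  rw [← h1]
  generalize R v = a
  generalize R (Complex.I • v) = b
  have h2 := hH.self_nonneg (a + Complex.I • b)
  have h3 : H (a + Complex.I • b) (a + Complex.I • b) =
      H a a + H b b - Complex.I * conj (H b a) + Complex.I * H b a := by
    rw [hH.add_left, hH.add_right, hH.add_right, hH.smul_left, hH.smul_left, hH.smul_right,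
      hH.smul_right, hH.herm b a, Complex.conj_I]
    linear_combination (-(H b b)) * Complex.I_mul_I
  have h4 : H ((1 / 2 : ℂ) • (a - Complex.I • b)) ((1 / 2 : ℂ) • (a - Complex.I • b)) =
      (1 / 4 : ℂ) * (H a a + H b b + Complex.I * conj (H b a) - Complex.I * H b a) := by
    rw [hH.smul_left, hH.smul_right, hH.sub_left, hH.sub_right, hH.sub_right, hH.smul_left,
      hH.smul_left, hH.smul_right, hH.smul_right, hH.herm b a, Complex.conj_I]
    have h5 : conj (1 / 2 : ℂ) = 1 / 2 := by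
      rw [map_div₀, map_one, map_ofNat]
    rw [h5]
    linear_combination (-(H b b) / 4) * Complex.I_mul_I
  rw [h3] at h2
  rw [h4]
  have e1 : (H a a + H b b - Complex.I * conj (H b a) + Complex.I * H b a).re =
      (H a a).re + (H b b).re - 2 * (H b a).im := by
    simp
    ring
  have e2 : ((1 / 4 : ℂ) * (H a a + H b b + Complex.I * conj (H b a) -
      Complex.I * H b a)).re = (1 / 4) * ((H a a).re + (H b b).re + 2 * (H b a).im) := by
    have e3 : (1 / 4 : ℂ) = ((1 / 4 : ℝ) : ℂ) := by push_cast; ring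
    rw [e3, Complex.re_ofReal_mul]
    simp
    ring
  rw [e1] at h2
  rw [e2]
  linarith

/-- the real linear comparison map of the lattices -/
noncomputable def K6R (Λ : Lat A) (b : E n) : E kk →ₗ[ℝ] E kk :=
  (Λ.basis Ω.b0_mem).constr ℝ (fun i => A.c (Λ.t i) b)

theorem K6R_apply (Λ : Lat A) (b : E n) (v : E kk) :
    K6R Λ b v = ∑ i, (Λ.basis Ω.b0_mem).equivFun v i • A.c (Λ.t i) b :=
  (Λ.basis Ω.b0_mem).constr_apply_fintype ℝ _ v

theorem K6R_im (Λ : Lat A) (M : FKM A) {b : E n} (hb : b ∈ Ω.D) (v w : E kk) :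
    (M.H b (K6R Λ b v) (K6R Λ b w)).im = (M.H Ω.b0 v w).im := by
  have key : ∀ (x : E n) (hx : x ∈ Ω.D),
      (M.H x (K6R Λ x v) (K6R Λ x w)).im = ∑ i, ∑ j, (Λ.basis Ω.b0_mem).equivFun v i *
        ((Λ.basis Ω.b0_mem).equivFun w j * (M.H x (A.c (Λ.t i) x) (A.c (Λ.t j) x)).im) := by
    intro x hx
    have h := M.toFMet.isHerm hx
    rw [K6R_apply, K6R_apply, h.sum_left, Complex.im_sum]
    refine Finset.sum_congr rfl fun i _ => ?_
    rw [h.rsmul_left, h.sum_right, Complex.im_ofReal_mul, Complex.im_sum, Finset.mul_sum]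
    refine Finset.sum_congr rfl fun j _ => ?_
    rw [h.rsmul_right, Complex.im_ofReal_mul]
  have h0 : ∀ v : E kk, K6R Λ Ω.b0 v = v := by
    intro v
    rw [K6R_apply]
    conv_rhs => rw [← (Λ.basis Ω.b0_mem).sum_equivFun v]
    refine Finset.sum_congr rfl fun i _ => ?_
    rw [Λ.basis_apply]
  have h1 := key b hb
  have h2 := key Ω.b0 Ω.b0_mem
  rw [h0, h0] at h2
  rw [h1, h2]
  refine Finset.sum_congr rfl fun i _ => Finset.sum_congr rfl fun j _ => ?_
  rw [imH_const Λ M (Λ.mem i) (Λ.mem j) hb]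

/-- the complex linear part of `K6R` -/
noncomputable def K6P (Λ : Lat A) (b : E n) : E kk →ₗ[ℂ] E kk where
  toFun v := (1 / 2 : ℂ) • (K6R Λ b v - Complex.I • K6R Λ b (Complex.I • v))
  map_add' v w := by
    rw [smul_add, map_add, map_add, smul_add]
    module
  map_smul' c v := by
    have hc : c • v = c.re • v + c.im • (Complex.I • v) := by
      rw [← Complex.coe_smul c.re, ← Complex.coe_smul c.im, smul_smul, ← add_smul,
        Complex.re_add_im]
    have hc2 : Complex.I • c • v = c.re • (Complex.I • v) - c.im • v := by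
      rw [← Complex.coe_smul c.re, ← Complex.coe_smul c.im, smul_smul, smul_smul, ← sub_smul]
      congr 1
      conv_lhs => rw [← Complex.re_add_im c]
      linear_combination (c.im : ℂ) * Complex.I_mul_I
    have r1 : K6R Λ b (c • v) = c.re • K6R Λ b v + c.im • K6R Λ b (Complex.I • v) := by
      rw [hc, map_add, (K6R Λ b).map_smul, (K6R Λ b).map_smul]
    have r2 : K6R Λ b (Complex.I • c • v) =
        c.re • K6R Λ b (Complex.I • v) - c.im • K6R Λ b v := by
      rw [hc2, map_sub, (K6R Λ b).map_smul, (K6R Λ b).map_smul]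
    rw [r1, r2, RingHom.id_apply]
    generalize K6R Λ b v = x
    generalize K6R Λ b (Complex.I • v) = y
    rw [← Complex.coe_smul c.re, ← Complex.coe_smul c.im, ← Complex.coe_smul c.re,
      ← Complex.coe_smul c.im]
    have h3 : c • (1 / 2 : ℂ) • (x - Complex.I • y) =
        (1 / 2 : ℂ) • (((c.re : ℂ) + c.im * Complex.I) • (x - Complex.I • y)) := by
      rw [Complex.re_add_im, smul_comm]
    rw [h3]
    congr 1
    ext p
    simp only [Pi.add_apply, Pi.sub_apply, Pi.smul_apply, smul_eq_mul]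
    linear_combination (c.im : ℂ) * (y p) * Complex.I_mul_I

theorem exists_P (Λ : Lat A) (M : FKM A) :
    ∃ P : E n → (E kk →L[ℂ] E kk), DifferentiableOn ℂ P Ω.D ∧
      ∀ b ∈ Ω.D, ∀ v, (M.H Ω.b0 v v).re ≤ (M.H b (P b v) (P b v)).re := by
  refine ⟨fun b => (K6P Λ b).toContinuousLinearMap, ?_, ?_⟩
  · have hR : ∀ v : E kk, DifferentiableOn ℂ (fun b => K6R Λ b v) Ω.D := by
      intro v
      have e : (fun b => K6R Λ b v) =
          fun b => ∑ i, (Λ.basis Ω.b0_mem).equivFun v i • A.c (Λ.t i) b :=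
        funext fun b => K6R_apply Λ b v
      rw [e]
      refine DifferentiableOn.fun_sum fun i _ => ?_
      exact (A.c_holo (Λ.t i)).const_smul ((Λ.basis Ω.b0_mem).equivFun v i)
    have hP : ∀ v : E kk, DifferentiableOn ℂ (fun b => K6P Λ b v) Ω.D := fun v =>
      ((hR v).sub ((hR (Complex.I • v)).const_smul Complex.I)).const_smul (1 / 2 : ℂ)
    have e : (fun b => (K6P Λ b).toContinuousLinearMap) = fun b => ∑ p : Fin kk,
        (ContinuousLinearMap.smulRightL ℂ (E kk) (E kk)
          (ContinuousLinearMap.proj p : E kk →L[ℂ] ℂ)) (K6P Λ b (Pi.single p 1)) := by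
      funext b
      ext1 v
      rw [sum_apply]
      have hv : v = ∑ p, v p • (Pi.single p (1 : ℂ) : E kk) := by
        ext j
        simp [Finset.sum_apply, Pi.single_apply]
      show K6P Λ b v = ∑ p, v p • K6P Λ b (Pi.single p 1)
      conv_lhs => rw [hv]
      rw [map_sum]
      exact Finset.sum_congr rfl fun p _ => map_smul _ _ _
    rw [e]
    exact DifferentiableOn.fun_sum fun p _ =>
      (ContinuousLinearMap.differentiable _).comp_differentiableOn (hP (Pi.single p 1))
  · intro b hb v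
    exact P_ineq (M.toFMet.isHerm hb) (M.toFMet.isHerm Ω.b0_mem) (K6R Λ b)
      (fun v w => K6R_im Λ M hb v w) v

end Pool.Agent.H.MP_e23cd6_ag.AK
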