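import Pool.Agent.H.MP_e23cd6_ag.AK.Hk

/-!
ABUK La: a lattice basis of the translations, the same for all points of the base.

`tr_zero`: t ∈ trN, `c t b = 0` at one point b ∈ D. Then `c (t^j) b = j • c t b = 0` for all j (tr_c_mul, induction), `t^j ∈ kerN`, so all powers of t lie in the finite set of `fib_pd A hb 0`: `t^i = t^j` for some i < j (`Set.Finite` and an injectivity argument /
`not_injective_infinite_finite`), `t^(j-i) = 1`, so `(j - i) • c t x = c 1 x = 0` and `c t x = 0` for all x ∈ D.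

`exists_lat`. At b0: `Λ0 = {c t b0 | t ∈ trN}` is an additive subgroup of `E kk` (tr_c_mul, tr_c_inv), i.e. a ℤ-submodule. It is discrete (each ball contains only finitely many points: `fib_pd`) and `span ℝ Λ0 = ⊤`: otherwise there is a nonzero real linear functional φ vanishing on the span
(`Submodule.exists_le_ker_of_lt_top`) and `z` with φ z = 1; for s real, TrCC gives `t` with `‖s • z + c t b0‖ ≤ R`, so `|s| = |φ (s z + c t b0)| ≤ ‖φ‖ R` for all s: contradiction. So Λ0 is a ℤ-lattice (`IsZLattice ℝ Λ0`, `DiscreteTopology Λ0`):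
`ZLattice.module_free`, `ZLattice.rank : finrank ℤ Λ0 = finrank ℝ (E kk) = 2 kk`. Let e : Fin (2 kk) → Λ0 be a ℤ-basis (`Module.finBasisOfFinrankEq` / `Module.finBasis` and reindex), and `t i ∈ trN` with `c (t i) b0 = e i`.
int: for s ∈ trN, `c s b0 = Σ m_i e_i` with integers m_i. The element `u = s * (∏ t_i^{m_i})⁻¹` (ordered product over Fin (2 kk), `List.prod (List.ofFn ..)`; or argue by induction over Finsets: for every finite set J of indices there is `u_J ∈ trN` with `c u_J x = Σ_{i∈J} m_i c (t i) x` for all x ∈ D; needs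
`c (t^m) x = m c t x` for integers m) is in trN with `c u b0 = 0`, so `c u = 0` on D by `tr_zero`: `c s x = Σ m_i c (t i) x`.
span at b ∈ D: `span ℝ {c (t i) b} ⊇ {c s b | s ∈ trN}` by int, and the latter spans (same argument with TrCC at b). li: 2 kk vectors spanning a space of dimension 2 kk are linearly independent (`linearIndependent_of_top_le_span_of_card_eq_finrank`, `finrank ℝ (E kk) = 2 kk`:
`finrank_real_of_complex`, `Module.finrank_fin_fun`).
(If kk = 0 everything is trivial.)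
-/

open Set Filter Topology Metric

namespace Pool.Agent.H.MP_e23cd6_ag.AK

open Pool.Agent.H.MP_e23cd6_ag.AB

variable {n kk : ℕ} {Ω : Dom n} {Γ : Type} [Group Γ]

/-- the translation vector at a point of the base as a homomorphism -/
def La_hom (A : FibAct Ω kk Γ) {b : E n} (hb : b ∈ Ω.D) : trN A →* Multiplicative (E kk) :=
  MonoidHom.mk' (fun t => Multiplicative.ofAdd (A.c (t : Γ) b)) (fun s t => by
    show Multiplicative.ofAdd (A.c ((s : Γ) * (t : Γ)) b) = _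
    rw [tr_c_mul s.2 t.2 hb]
    rfl)

theorem La_c_pow (A : FibAct Ω kk Γ) {t : Γ} (ht : t ∈ trN A) {b : E n} (hb : b ∈ Ω.D) (j : ℕ) :
    A.c (t ^ j) b = j • A.c t b := by
  have h := map_pow (La_hom A hb) ⟨t, ht⟩ j
  exact Multiplicative.ofAdd.injective h

theorem La_c_zpow (A : FibAct Ω kk Γ) {t : Γ} (ht : t ∈ trN A) {b : E n} (hb : b ∈ Ω.D) (j : ℤ) :
    A.c (t ^ j) b = j • A.c t b := by
  have h := map_zpow (La_hom A hb) ⟨t, ht⟩ j
  exact Multiplicative.ofAdd.injective h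

theorem tr_zero (A : FibAct Ω kk Γ) {t : Γ} (ht : t ∈ trN A) {b : E n} (hb : b ∈ Ω.D)
    (h : A.c t b = 0) : ∀ x ∈ Ω.D, A.c t x = 0 := by
  intro x hx
  have hfin := fib_pd A hb 0
  have hmem : ∀ j : ℕ, t ^ j ∈ {γ | γ ∈ kerN A.toBaseAct ∧ ‖A.c γ b‖ ≤ 0} := by
    intro j
    refine ⟨tr_ker (pow_mem ht j), ?_⟩
    rw [La_c_pow A ht hb j, h, smul_zero, norm_zero]
  have : Finite {γ | γ ∈ kerN A.toBaseAct ∧ ‖A.c γ b‖ ≤ 0} := hfin
  obtain ⟨i, j, hij, he⟩ := Finite.exists_ne_map_eq_of_infinite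
    (fun j : ℕ => (⟨t ^ j, hmem j⟩ : {γ | γ ∈ kerN A.toBaseAct ∧ ‖A.c γ b‖ ≤ 0}))
  have he2 : t ^ i = t ^ j := congrArg Subtype.val he
  have h3 : (i : ℝ) • A.c t x = (j : ℝ) • A.c t x := by
    rw [Nat.cast_smul_eq_nsmul, Nat.cast_smul_eq_nsmul, ← La_c_pow A ht hx i, ← La_c_pow A ht hx j, he2]
  have h4 : ((i : ℝ) - j) • A.c t x = 0 := by
    rw [sub_smul, h3, sub_self]
  rcases smul_eq_zero.mp h4 with h5 | h5
  · exfalso
    apply hij
    have : (i : ℝ) = j := by linarith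
    exact_mod_cast this
  · exact h5

theorem tr_span (A : FibAct Ω kk Γ) (hcc : TrCC A) {b : E n} (hb : b ∈ Ω.D) :
    Submodule.span ℝ {z | ∃ t ∈ trN A, A.c t b = z} = ⊤ := by
  by_contra hne
  obtain ⟨f, hf0, hf⟩ := Submodule.exists_le_ker_of_lt_top _ (lt_top_iff_ne_top.mpr hne)
  obtain ⟨z, hz⟩ : ∃ z, f z ≠ 0 := by
    by_contra hcon
    push Not at hcon
    exact hf0 (LinearMap.ext hcon)
  obtain ⟨R, hR⟩ := hcc b hb
  set F : E kk →L[ℝ] ℝ := LinearMap.toContinuousLinearMap f with hF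
  have hFf : ∀ v, F v = f v := fun v => rfl
  set s : ℝ := (‖F‖ * |R| + 1) / |f z| with hs
  have hfz : 0 < |f z| := abs_pos.mpr hz
  have hs0 : 0 ≤ s := by positivity
  obtain ⟨t, ht, htR⟩ := hR (s • z)
  have h1 : f (s • z + A.c t b) = s * f z := by
    have h2 : f (A.c t b) = 0 := by
      have h3 : A.c t b ∈ Submodule.span ℝ {z | ∃ t ∈ trN A, A.c t b = z} :=
        Submodule.subset_span ⟨t, ht, rfl⟩
      exact LinearMap.mem_ker.mp (hf h3)
    rw [map_add, h2, add_zero, map_smul, smul_eq_mul]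
  have h4 : ‖F (s • z + A.c t b)‖ ≤ ‖F‖ * |R| := by
    refine (F.le_opNorm _).trans ?_
    apply mul_le_mul_of_nonneg_left (htR.trans (le_abs_self R)) (norm_nonneg F)
  rw [hFf, h1, Real.norm_eq_abs, abs_mul, abs_of_nonneg hs0, hs, div_mul_cancel₀ _ hfz.ne'] at h4
  linarith

/-- the lattice of translation vectors at a point -/
def La_lam (A : FibAct Ω kk Γ) {b : E n} (hb : b ∈ Ω.D) : Submodule ℤ (E kk) :=
  AddSubgroup.toIntSubmodule
    { carrier := {z | ∃ t ∈ trN A, A.c t b = z}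
      zero_mem' := ⟨1, one_mem _, A.c_one hb⟩
      add_mem' := by
        rintro x y ⟨s, hs, rfl⟩ ⟨t, ht, rfl⟩
        exact ⟨s * t, mul_mem hs ht, tr_c_mul hs ht hb⟩
      neg_mem' := by
        rintro x ⟨s, hs, rfl⟩
        exact ⟨s⁻¹, inv_mem hs, tr_c_inv hs hb⟩ }

theorem La_mem {A : FibAct Ω kk Γ} {b : E n} (hb : b ∈ Ω.D) {z : E kk} :
    z ∈ La_lam A hb ↔ ∃ t ∈ trN A, A.c t b = z := Iff.rfl

theorem La_discrete (A : FibAct Ω kk Γ) {b : E n} (hb : b ∈ Ω.D) : DiscreteTopology (La_lam A hb) := by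
  have hfin : ({z : E kk | z ∈ La_lam A hb ∧ ‖z‖ ≤ 1} \ {0}).Finite := by
    apply Set.Finite.subset ((fib_pd A hb 1).image (fun t => A.c t b))
    rintro z ⟨⟨⟨t, ht, rfl⟩, hz⟩, _⟩
    exact ⟨t, ⟨tr_ker ht, hz⟩, rfl⟩
  have hopen : IsOpen (ball (0 : E kk) 1 ∩ ({z : E kk | z ∈ La_lam A hb ∧ ‖z‖ ≤ 1} \ {0})ᶜ) :=
    isOpen_ball.inter hfin.isClosed.isOpen_compl
  apply discreteTopology_of_isOpen_singleton_zero
  have he : ({0} : Set (La_lam A hb)) = Subtype.val ⁻¹'
      (ball (0 : E kk) 1 ∩ ({z : E kk | z ∈ La_lam A hb ∧ ‖z‖ ≤ 1} \ {0})ᶜ) := by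
    ext ⟨z, hz⟩
    constructor
    · intro h
      have h0 : z = 0 := congrArg Subtype.val h
      subst h0
      refine ⟨mem_ball_self one_pos, fun h1 => h1.2 rfl⟩
    · rintro ⟨h1, h2⟩
      have h3 : ‖z‖ < 1 := by simpa using h1
      by_contra hne
      apply h2
      refine ⟨⟨hz, h3.le⟩, fun h4 => hne ?_⟩
      exact Subtype.ext h4
  rw [he]
  exact hopen.preimage continuous_subtype_val

theorem La_finrank : Module.finrank ℝ (E kk) = 2 * kk := by
  rw [Module.finrank_pi_fintype, Finset.sum_const, Complex.finrank_real_complex, Finset.card_univ,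
    Fintype.card_fin, smul_eq_mul, mul_comm]

theorem La_comb (A : FibAct Ω kk Γ) {t : Fin (2 * kk) → Γ} (ht : ∀ i, t i ∈ trN A)
    (m : Fin (2 * kk) → ℤ) (J : Finset (Fin (2 * kk))) :
    ∃ u ∈ trN A, ∀ x ∈ Ω.D, A.c u x = ∑ i ∈ J, m i • A.c (t i) x := by
  classical
  induction J using Finset.induction_on with
  | empty => exact ⟨1, one_mem _, fun x hx => by rw [A.c_one hx, Finset.sum_empty]⟩
  | insert i J hi ih =>
    obtain ⟨u, hu, hux⟩ := ih
    refine ⟨t i ^ m i * u, mul_mem (zpow_mem (ht i) _) hu, fun x hx => ?_⟩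
    rw [tr_c_mul (zpow_mem (ht i) _) hu hx, La_c_zpow A (ht i) hx, hux x hx, Finset.sum_insert hi]

theorem exists_lat (A : FibAct Ω kk Γ) (hcc : TrCC A) : Nonempty (Lat A) := by
  have hb0 : Ω.b0 ∈ Ω.D := Ω.hB (mem_closedBall_self (Ω.hr0.trans Ω.hr01).le)
  have := La_discrete A hb0
  have : IsZLattice ℝ (La_lam A hb0) := ⟨tr_span A hcc hb0⟩
  have hrank : Module.finrank ℤ (La_lam A hb0) = 2 * kk := by
    rw [ZLattice.rank ℝ (La_lam A hb0), La_finrank]
  let e := Module.finBasisOfFinrankEq ℤ (La_lam A hb0) hrank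
  have hex : ∀ i, ∃ t ∈ trN A, A.c t Ω.b0 = (e i : E kk) := fun i => (e i).2
  choose t ht hte using hex
  have hint : ∀ s ∈ trN A, ∃ m : Fin (2 * kk) → ℤ, ∀ b ∈ Ω.D,
      A.c s b = ∑ i, (m i : ℝ) • A.c (t i) b := by
    intro s hs
    have hmem : A.c s Ω.b0 ∈ La_lam A hb0 := (La_mem hb0).mpr ⟨s, hs, rfl⟩
    obtain ⟨w, hw⟩ : ∃ w : La_lam A hb0, (w : E kk) = A.c s Ω.b0 := ⟨⟨_, hmem⟩, rfl⟩
    refine ⟨fun i => e.repr w i, ?_⟩
    obtain ⟨u, hu, hux⟩ := La_comb A ht (fun i => e.repr w i) Finset.univ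
    have h1 : A.c s Ω.b0 = A.c u Ω.b0 := by
      rw [hux _ hb0, ← hw]
      have h2 : (w : E kk) = ((∑ i, e.repr w i • e i : La_lam A hb0) : E kk) := by
        rw [e.sum_repr w]
      rw [h2, AddSubmonoidClass.coe_finset_sum]
      apply Finset.sum_congr rfl
      intro i _
      rw [hte i]
      rfl
    have h3 : A.c (s * u⁻¹) Ω.b0 = 0 := by
      rw [tr_c_mul hs (inv_mem hu) hb0, tr_c_inv hu hb0, h1, add_neg_cancel]
    intro b hb
    have h4 := tr_zero A (mul_mem hs (inv_mem hu)) hb0 h3 b hb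
    rw [tr_c_mul hs (inv_mem hu) hb, tr_c_inv hu hb, add_neg_eq_zero] at h4
    rw [h4, hux b hb]
    apply Finset.sum_congr rfl
    intro i _
    rw [Int.cast_smul_eq_zsmul]
  have hspan : ∀ b ∈ Ω.D, ⊤ ≤ Submodule.span ℝ (range fun i => A.c (t i) b) := by
    intro b hb
    rw [← tr_span A hcc hb, Submodule.span_le]
    rintro z ⟨s, hs, rfl⟩
    obtain ⟨m, hm⟩ := hint s hs
    rw [hm b hb]
    apply Submodule.sum_mem
    intro i _
    exact Submodule.smul_mem _ _ (Submodule.subset_span ⟨i, rfl⟩)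
  refine ⟨⟨t, ht, ?_, hspan, hint⟩⟩
  intro b hb
  apply linearIndependent_of_top_le_span_of_card_eq_finrank (hspan b hb)
  rw [Fintype.card_fin, La_finrank]

end Pool.Agent.H.MP_e23cd6_ag.AK
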