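import Pool.Agent.H.MP_e23cd6_ag.AB.E3a
import Pool.Agent.H.MP_e23cd6_ag.AK.Defs

/-!
ABUK Ea1: one step estimates for the linear and translation parts of commutators.

(Compare AB/E3a.lean, the case kk = 1 with logarithms.) C1, κ from `E3a_common` (AB/E3a). Let `g = ρ - ρ'`, `w = s t s⁻¹ t⁻¹`, `b' ∈ ball b0 ρ'`, `b = β s⁻¹ (β t⁻¹ b')`: then b' = β (t s) b = β t (β s b), `b ∈ D`, `ball b (g/2) ⊆ ball b0 ρ`,
`β t b, β s b ∈ ball b (g/4)`, `|β t b - b| ≤ C1 e`, `|β s b - b| ≤ C1 e`.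

`comm_L`: from `L_mul`: `w (t s) = s t`: `L w b' * (L t (β s b) * L s b) = L s (β t b) * L t b`.
`comm_c`: from `c_mul`: `c w b' = (L s (β t b) (c t b) + c s (β t b)) - L w b' (L t (β s b) (c s b) + c t (β s b))`.

`lin_step`. Put `X_γ = L γ - 1`. `L s (β t b) L t b - L t (β s b) L s b = (L s (β t b) - L s b) L t b - (L t (β s b) - L t b) L s b + (X_s b X_t b - X_t b X_s b)`. `L s - 1` is holomorphic and bounded by δ on `ball b (g/2)`, so by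
`cauchy_lip` (A1, radius g/2) `‖L s (β t b) - L s b‖ ≤ (4 δ/(g/2)) C1 e = 8 δ C1 e/g`, the same for t. `‖L t b‖, ‖L s b‖ ≤ 1 + δ ≤ 2` (‖1‖ ≤ 1). So the difference has norm `≤ 32 C1 δ e/g + 2 δ²`. Let `U = L w b' - 1`, `V = L t (β s b) * L s b`: `U V` is that difference and
`‖V - 1‖ ≤ 2 δ + δ² ≤ 1/2`. `‖U‖ ≤ ‖U V‖ + ‖U (V - 1)‖ ≤ ‖U V‖ + ‖U‖/2`, so `‖U‖ ≤ 2 ‖U V‖`. `C = 64 C1 + 4`.

`tr_step`. `c w b' = [c s (β t b) - c s b] - [c t (β s b) - c t b] + X_s(β t b) (c t b) - X_t(β s b) (c s b) + (1 - L w b') (L t (β s b) (c s b) + c t (β s b))`; Lipschitz bounds as before (c s bounded by M on ball b (g/2)):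
`‖c w b'‖ ≤ 2 (8 M/g) C1 e + 2 δ M + δ' (2 + δ) M`. C = 16 C1.
-/

open Set Filter Topology Metric

namespace Pool.Agent.H.MP_e23cd6_ag.AK

open Pool.Agent.H.MP_e23cd6_ag.AB

variable {n kk : ℕ} {Ω : Dom n} {Γ : Type} [Group Γ]

theorem comm_L (A : FibAct Ω kk Γ) (s t : Γ) {b b' : E n} (hb : b ∈ Ω.D)
    (hb' : A.β (t * s) b = b') :
    A.L (s * t * s⁻¹ * t⁻¹) b' * (A.L t (A.β s b) * A.L s b) = A.L s (A.β t b) * A.L t b := by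
  have h1 := A.L_mul (s * t * s⁻¹ * t⁻¹) (t * s) hb
  rw [show s * t * s⁻¹ * t⁻¹ * (t * s) = s * t by group, hb', A.L_mul s t hb,
    A.L_mul t s hb] at h1
  exact h1.symm

theorem comm_c (A : FibAct Ω kk Γ) (s t : Γ) {b b' : E n} (hb : b ∈ Ω.D)
    (hb' : A.β (t * s) b = b') :
    A.c (s * t * s⁻¹ * t⁻¹) b' = (A.L s (A.β t b) (A.c t b) + A.c s (A.β t b)) -
      A.L (s * t * s⁻¹ * t⁻¹) b' (A.L t (A.β s b) (A.c s b) + A.c t (A.β s b)) := by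
  have h1 := A.c_mul (s * t * s⁻¹ * t⁻¹) (t * s) hb
  rw [show s * t * s⁻¹ * t⁻¹ * (t * s) = s * t by group, hb', A.c_mul s t hb,
    A.c_mul t s hb] at h1
  rw [h1]; abel

/-- The norm of a linear map close to the identity. -/
theorem norm_le_one_add {X : E kk →L[ℂ] E kk} {δ : ℝ} (h : ‖X - 1‖ ≤ δ) : ‖X‖ ≤ 1 + δ := by
  have h1 : ‖(1 : E kk →L[ℂ] E kk)‖ ≤ 1 := ContinuousLinearMap.norm_id_le
  have h2 := norm_add_le (X - 1) (1 : E kk →L[ℂ] E kk)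
  rw [sub_add_cancel] at h2
  linarith

theorem lin_step (A : FibAct Ω kk Γ) :
    ∃ C κ : ℝ, 0 < C ∧ 0 < κ ∧ ∀ (s t : Γ) (ρ ρ' e δ : ℝ),
      0 < ρ' → ρ' < ρ → ρ ≤ Ω.r1 → 0 ≤ e → e ≤ κ * (ρ - ρ') → 0 ≤ δ → δ ≤ 1 / 8 →
      (∀ b ∈ Ω.B, ‖A.β s b - b‖ ≤ e) → (∀ b ∈ Ω.B, ‖A.β t b - b‖ ≤ e) →
      (∀ b ∈ ball Ω.b0 ρ, ‖A.L s b - 1‖ ≤ δ) → (∀ b ∈ ball Ω.b0 ρ, ‖A.L t b - 1‖ ≤ δ) →
      ∀ b ∈ ball Ω.b0 ρ',
        ‖A.L (s * t * s⁻¹ * t⁻¹) b - 1‖ ≤ C * (δ * e / (ρ - ρ') + δ ^ 2) := by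
  obtain ⟨C1, κ, hC1, hκ, hcom⟩ := E3a_common A.toBaseAct
  refine ⟨64 * C1 + 4, κ, by positivity, hκ, ?_⟩
  intro s t ρ ρ' e δ hρ' hρ hρ1 he hek hδ hδ8 hs ht hs2 ht2 b' hb'
  have hg : 0 < ρ - ρ' := by linarith
  have hhalf : ∀ x : E n, ball x ((ρ - ρ') / 2 / 2) ⊆ ball x ((ρ - ρ') / 2) := fun x =>
    ball_subset_ball (by linarith)
  obtain ⟨h1, hD, hsub, h3, h4, h5, h6, h7⟩ := hcom s t ρ ρ' e hρ' hρ hρ1 he hek hs ht b' hb'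
  set b := A.β s⁻¹ (A.β t⁻¹ b') with hb
  have hg2 : 0 < (ρ - ρ') / 2 := by positivity
  have hbm : b ∈ ball b ((ρ - ρ') / 2 / 2) := mem_ball_self (by positivity)
  have hb0 : b ∈ ball Ω.b0 ρ := hsub (hhalf _ hbm)
  have ht0 : A.β t b ∈ ball Ω.b0 ρ := hsub (hhalf _ h3)
  have hs0 : A.β s b ∈ ball Ω.b0 ρ := hsub (hhalf _ h4)
  have hρD : ball Ω.b0 ρ ⊆ Ω.D := fun y hy =>
    Ω.hB (ball_subset_closedBall (ball_subset_ball hρ1 hy))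
  have e1 := cauchy_lip (f := fun y => A.L s y - 1) hg2
    (((A.L_holo s).mono (hsub.trans hρD)).sub_const _)
    (fun y hy => hs2 y (hsub hy)) h3 hbm
  have e2 := cauchy_lip (f := fun y => A.L t y - 1) hg2
    (((A.L_holo t).mono (hsub.trans hρD)).sub_const _)
    (fun y hy => ht2 y (hsub hy)) h4 hbm
  simp only [sub_sub_sub_cancel_right] at e1 e2
  have e3 : 4 * δ / ((ρ - ρ') / 2) * ‖A.β t b - b‖ ≤ 4 * δ / ((ρ - ρ') / 2) * (C1 * e) :=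
    mul_le_mul_of_nonneg_left h5 (by positivity)
  have e4 : 4 * δ / ((ρ - ρ') / 2) * ‖A.β s b - b‖ ≤ 4 * δ / ((ρ - ρ') / 2) * (C1 * e) :=
    mul_le_mul_of_nonneg_left h6 (by positivity)
  have e5 : 4 * δ / ((ρ - ρ') / 2) * (C1 * e) = 8 * C1 * (δ * e / (ρ - ρ')) := by
    field_simp
    ring
  rw [e5] at e3 e4
  have f1 := e1.trans e3
  have f2 := e2.trans e4
  set q : ℝ := δ * e / (ρ - ρ') with hq
  have hq0 : 0 ≤ q := by positivity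
  have hc := comm_L A s t hD h7
  set W := A.L (s * t * s⁻¹ * t⁻¹) b' with hW
  set P := A.L t (A.β s b) with hP
  set Q := A.L s b with hQ
  set R := A.L s (A.β t b) with hR
  set S := A.L t b with hS
  have nP : ‖P - 1‖ ≤ δ := ht2 _ hs0
  have nQ : ‖Q - 1‖ ≤ δ := hs2 _ hb0
  have nR : ‖R - 1‖ ≤ δ := hs2 _ ht0
  have nS : ‖S - 1‖ ≤ δ := ht2 _ hb0
  have mQ : ‖Q‖ ≤ 2 := (norm_le_one_add nQ).trans (by linarith)
  have mS : ‖S‖ ≤ 2 := (norm_le_one_add nS).trans (by linarith)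
  -- the difference of the two products
  have hdiff : R * S - P * Q = (R - Q) * S - (P - S) * Q +
      ((Q - 1) * (S - 1) - (S - 1) * (Q - 1)) := by
    simp only [sub_mul, mul_sub, mul_one, one_mul]
    abel
  have g1 : ‖(R - Q) * S‖ ≤ 8 * C1 * q * 2 :=
    (norm_mul_le _ _).trans (mul_le_mul f1 mS (norm_nonneg _) (by positivity))
  have g2 : ‖(P - S) * Q‖ ≤ 8 * C1 * q * 2 :=
    (norm_mul_le _ _).trans (mul_le_mul f2 mQ (norm_nonneg _) (by positivity))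
  have g3 : ‖(Q - 1) * (S - 1)‖ ≤ δ * δ :=
    (norm_mul_le _ _).trans (mul_le_mul nQ nS (norm_nonneg _) hδ)
  have g4 : ‖(S - 1) * (Q - 1)‖ ≤ δ * δ :=
    (norm_mul_le _ _).trans (mul_le_mul nS nQ (norm_nonneg _) hδ)
  have g5 : ‖R * S - P * Q‖ ≤ 32 * C1 * q + 2 * δ ^ 2 := by
    rw [hdiff]
    have a1 := norm_add_le ((R - Q) * S - (P - S) * Q) ((Q - 1) * (S - 1) - (S - 1) * (Q - 1))
    have a2 := norm_sub_le ((R - Q) * S) ((P - S) * Q)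
    have a3 := norm_sub_le ((Q - 1) * (S - 1)) ((S - 1) * (Q - 1))
    nlinarith
  -- `V = P Q` is close to one
  have hV : ‖P * Q - 1‖ ≤ 1 / 2 := by
    have b1 : P * Q - 1 = (P - 1) * Q + (Q - 1) := by
      simp only [sub_mul, one_mul]
      abel
    have b2 : ‖(P - 1) * Q‖ ≤ δ * 2 :=
      (norm_mul_le _ _).trans (mul_le_mul nP mQ (norm_nonneg _) hδ)
    rw [b1]
    have b3 := norm_add_le ((P - 1) * Q) (Q - 1)
    linarith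
  have hU : (W - 1) * (P * Q) = R * S - P * Q := by
    rw [sub_mul, one_mul, hc]
  have hU2 : W - 1 = (R * S - P * Q) - (W - 1) * (P * Q - 1) := by
    rw [← hU, mul_sub (W - 1) (P * Q) 1, mul_one, sub_sub_cancel]
  have k1 : ‖W - 1‖ ≤ ‖R * S - P * Q‖ + ‖W - 1‖ * (1 / 2) := by
    calc ‖W - 1‖ = ‖(R * S - P * Q) - (W - 1) * (P * Q - 1)‖ := by rw [← hU2]
      _ ≤ ‖R * S - P * Q‖ + ‖(W - 1) * (P * Q - 1)‖ := norm_sub_le _ _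
      _ ≤ ‖R * S - P * Q‖ + ‖W - 1‖ * (1 / 2) := by
          have := (norm_mul_le (W - 1) (P * Q - 1)).trans
            (mul_le_mul_of_nonneg_left hV (norm_nonneg _))
          linarith
  have k2 : (64 * C1 + 4) * (q + δ ^ 2) = 2 * (32 * C1 * q + 2 * δ ^ 2) +
      (64 * C1 * δ ^ 2 + 4 * q) := by ring
  have k3 : 0 ≤ 64 * C1 * δ ^ 2 + 4 * q := by positivity
  linarith

theorem tr_step (A : FibAct Ω kk Γ) :
    ∃ C κ : ℝ, 0 < C ∧ 0 < κ ∧ ∀ (s t : Γ) (ρ ρ' M e δ δ' : ℝ),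
      0 < ρ' → ρ' < ρ → ρ ≤ Ω.r1 → 0 ≤ e → e ≤ κ * (ρ - ρ') → 0 ≤ M → 0 ≤ δ → 0 ≤ δ' →
      (∀ b ∈ Ω.B, ‖A.β s b - b‖ ≤ e) → (∀ b ∈ Ω.B, ‖A.β t b - b‖ ≤ e) →
      (∀ b ∈ ball Ω.b0 ρ, ‖A.L s b - 1‖ ≤ δ ∧ ‖A.c s b‖ ≤ M) →
      (∀ b ∈ ball Ω.b0 ρ, ‖A.L t b - 1‖ ≤ δ ∧ ‖A.c t b‖ ≤ M) →
      (∀ b ∈ ball Ω.b0 ρ', ‖A.L (s * t * s⁻¹ * t⁻¹) b - 1‖ ≤ δ') →
      ∀ b ∈ ball Ω.b0 ρ', ‖A.c (s * t * s⁻¹ * t⁻¹) b‖ ≤
        (C * e / (ρ - ρ') + 2 * δ + δ' * (2 + δ)) * M := by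
  obtain ⟨C1, κ, hC1, hκ, hcom⟩ := E3a_common A.toBaseAct
  refine ⟨16 * C1, κ, by positivity, hκ, ?_⟩
  intro s t ρ ρ' M e δ δ' hρ' hρ hρ1 he hek hM hδ hδ' hs ht hs2 ht2 hw b' hb'
  have hg : 0 < ρ - ρ' := by linarith
  have hhalf : ∀ x : E n, ball x ((ρ - ρ') / 2 / 2) ⊆ ball x ((ρ - ρ') / 2) := fun x =>
    ball_subset_ball (by linarith)
  obtain ⟨h1, hD, hsub, h3, h4, h5, h6, h7⟩ := hcom s t ρ ρ' e hρ' hρ hρ1 he hek hs ht b' hb'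
  set b := A.β s⁻¹ (A.β t⁻¹ b') with hb
  have hg2 : 0 < (ρ - ρ') / 2 := by positivity
  have hbm : b ∈ ball b ((ρ - ρ') / 2 / 2) := mem_ball_self (by positivity)
  have hb0 : b ∈ ball Ω.b0 ρ := hsub (hhalf _ hbm)
  have ht0 : A.β t b ∈ ball Ω.b0 ρ := hsub (hhalf _ h3)
  have hs0 : A.β s b ∈ ball Ω.b0 ρ := hsub (hhalf _ h4)
  have hρD : ball Ω.b0 ρ ⊆ Ω.D := fun y hy =>
    Ω.hB (ball_subset_closedBall (ball_subset_ball hρ1 hy))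
  have e1 := cauchy_lip hg2 ((A.c_holo s).mono (hsub.trans hρD))
    (fun y hy => (hs2 y (hsub hy)).2) h3 hbm
  have e2 := cauchy_lip hg2 ((A.c_holo t).mono (hsub.trans hρD))
    (fun y hy => (ht2 y (hsub hy)).2) h4 hbm
  have e3 : 4 * M / ((ρ - ρ') / 2) * ‖A.β t b - b‖ ≤ 4 * M / ((ρ - ρ') / 2) * (C1 * e) :=
    mul_le_mul_of_nonneg_left h5 (by positivity)
  have e4 : 4 * M / ((ρ - ρ') / 2) * ‖A.β s b - b‖ ≤ 4 * M / ((ρ - ρ') / 2) * (C1 * e) :=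
    mul_le_mul_of_nonneg_left h6 (by positivity)
  have hat : ‖A.L t (A.β s b)‖ ≤ 1 + δ := norm_le_one_add (ht2 _ hs0).1
  have hcts : ‖A.L t (A.β s b) (A.c s b) + A.c t (A.β s b)‖ ≤ (2 + δ) * M := by
    refine (norm_add_le _ _).trans ?_
    have h10 := ((A.L t (A.β s b)).le_opNorm (A.c s b)).trans
      (mul_le_mul hat (hs2 b hb0).2 (norm_nonneg _) (by linarith))
    have h11 := (ht2 _ hs0).2
    linarith
  have hexp : A.c (s * t * s⁻¹ * t⁻¹) b' = ((A.c s (A.β t b) - A.c s b) -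
      (A.c t (A.β s b) - A.c t b)) + ((A.L s (A.β t b) - 1) (A.c t b) -
      (A.L t (A.β s b) - 1) (A.c s b)) + (1 - A.L (s * t * s⁻¹ * t⁻¹) b')
      (A.L t (A.β s b) (A.c s b) + A.c t (A.β s b)) := by
    rw [comm_c A s t hD h7]
    simp only [sub_apply, one_apply_eq_self]
    abel
  rw [hexp]
  have n1 : ‖(A.L s (A.β t b) - 1) (A.c t b)‖ ≤ δ * M :=
    (ContinuousLinearMap.le_opNorm _ _).trans
      (mul_le_mul (hs2 _ ht0).1 (ht2 b hb0).2 (norm_nonneg _) hδ)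
  have n2 : ‖(A.L t (A.β s b) - 1) (A.c s b)‖ ≤ δ * M :=
    (ContinuousLinearMap.le_opNorm _ _).trans
      (mul_le_mul (ht2 _ hs0).1 (hs2 b hb0).2 (norm_nonneg _) hδ)
  have n3 : ‖(1 - A.L (s * t * s⁻¹ * t⁻¹) b')
      (A.L t (A.β s b) (A.c s b) + A.c t (A.β s b))‖ ≤ δ' * ((2 + δ) * M) := by
    refine (ContinuousLinearMap.le_opNorm _ _).trans ?_
    rw [norm_sub_rev]
    exact mul_le_mul (hw b' hb') hcts (norm_nonneg _) hδ'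
  have e5 : (16 * C1 * e / (ρ - ρ') + 2 * δ + δ' * (2 + δ)) * M =
      ((4 * M / ((ρ - ρ') / 2) * (C1 * e) + 4 * M / ((ρ - ρ') / 2) * (C1 * e)) +
        (δ * M + δ * M)) + δ' * ((2 + δ) * M) := by
    field_simp
    ring
  rw [e5]
  refine (norm_add_le _ _).trans (add_le_add ((norm_add_le _ _).trans (add_le_add ?_ ?_)) n3)
  · exact (norm_sub_le _ _).trans (add_le_add (e1.trans e3) (e2.trans e4))
  · exact (norm_sub_le _ _).trans (add_le_add n1 n2)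

end Pool.Agent.H.MP_e23cd6_ag.AK
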