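import Pool.Agent.H.MP_e23cd6_ag.AB.E2
import Pool.Agent.H.MP_e23cd6_ag.AK.Ea1

/-!
ABUK Ec: iterated commutator sets which are doubly exponentially close to the identity on the base and start with linear parts close to 1 act
trivially on the base after finitely many steps.

(Compare AB/E3b.lean: the case kk = 1; there are useful private lemmas `E3b_tendsto`, `E3b_bound` to copy.) Let C ≥ 1, κ > 0 work for both `lin_step` and `tr_step` (max, min; note e ≤ κ' g with κ' ≤ κ). Radii `ρ_k = r0 + (r1 - r0)/2^(k+1)`, `g_k = ρ_k - ρ_{k+1} =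
(r1 - r0)/2^(k+2)`, `0 < r0 < ρ_k < r1`. Choose q ∈ (0, 1/2) so small that `q^(2^k) ≤ κ g_k`, `C q^(2^k)/g_k ≤ 1/4` for all k (2^k ≥ k + 1, so `q^(2^k) ≤ q^(k+1) ≤ q/2^k`: q ≤ min (κ, 1/(4C)) (r1 - r0)/4 ...) and `q ≤ r1`.
`δ = 1/(8 C)` (≤ 1/8). Let S0 be finite as in the statement and `S_k = comSet^[k] S0` (`Function.iterate_succ_apply'`: `S_{k+1} = comSet S_k`).
(1) `δ_0 = δ`, `δ_{k+1} = C (δ_k q^(2^k)/g_k + δ_k²)`. Then `0 ≤ δ_{k+1} ≤ δ_k (1/4 + C δ_k) ≤ δ_k/2`, `δ_k ≤ δ/2^k → 0`. By induction, `‖L s b - 1‖ ≤ δ_k` on `ball b0 ρ_k` for `s ∈ S_k` (k = 0: hypothesis; step: `lin_step` with ρ = ρ_k, ρ' = ρ_{k+1}, e = q^(2^k)).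
(2) M_k with `‖c s b‖ ≤ M_k` on `ball b0 ρ_k` for s ∈ S_k: M_0 by compactness (closedBall b0 ρ_0 ⊆ D, finitely many s), `M_{k+1} = (C q^(2^k)/g_k + 2 δ_k + δ_{k+1} (2 + δ_k)) M_k` by `tr_step`; the factors tend to 0 (q^(2^k)/g_k ≤ const (2q)^{...}: `q^(2^k) 2^k → 0`), so `M_k → 0`; choose k0 with
`M_k ≤ 1` for k ≥ k0.
(3) `F = {γ | ∃ x ∈ K', act γ x ∈ K'}` with `K' = closedBall b0 r1 ×ˢ closedBall 0 1` compact in TM is finite (`A.pd`). Every s ∈ S_k, k ≥ k0, is in F: `x = (b0, 0)`, `act s (b0, 0) = (β s b0, c s b0)` (act_eq; `|β s b0 - b0| ≤ q^(2^k) ≤ q ≤ r1`).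
For γ ∈ F not acting trivially on D there is `b_γ ∈ B` with `β γ b_γ ≠ b_γ` (`ident` on the ball Ω.B). Let d > 0 be smaller than all `|β γ b_γ - b_γ|` (finitely many). Take k ≥ k0 with `q^(2^k) < d`: all s ∈ S_k act trivially on D.
-/

open Set Filter Topology Metric

namespace Pool.Agent.H.MP_e23cd6_ag.AK

open Pool.Agent.H.MP_e23cd6_ag.AB

variable {n kk : ℕ} {Ω : Dom n} {Γ : Type} [Group Γ]

private theorem Ec_tendsto {u r : ℕ → ℝ} (h0 : ∀ k, 0 ≤ u k)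
    (h : ∀ k, u (k + 1) ≤ r k * u k) (hr : Tendsto r atTop (𝓝 0)) : Tendsto u atTop (𝓝 0) := by
  have h1 : ∀ᶠ k in atTop, r k ≤ 1 / 2 := hr.eventually_le_const (by norm_num)
  have h2 : Summable u := by
    refine summable_of_ratio_norm_eventually_le (r := 1 / 2) (by norm_num) ?_
    filter_upwards [h1] with k hk
    rw [Real.norm_of_nonneg (h0 _), Real.norm_of_nonneg (h0 _)]
    exact (h k).trans (mul_le_mul_of_nonneg_right hk (h0 k))
  exact h2.tendsto_atTop_zero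

omit [Group Γ] in
private theorem Ec_bound {S : Set Γ} (hS : S.Finite) {P : Γ → ℝ → Prop}
    (hP : ∀ s ∈ S, ∃ M, P s M) (hmono : ∀ s M M', M ≤ M' → P s M → P s M') :
    ∃ M, 0 ≤ M ∧ ∀ s ∈ S, P s M := by
  classical
  choose! f hf using hP
  obtain ⟨B, hB⟩ := (hS.image f).bddAbove
  refine ⟨max B 0, le_max_right _ _, fun s hs => ?_⟩
  exact hmono s (f s) _ ((hB (mem_image_of_mem f hs)).trans (le_max_left _ _)) (hf s hs)

theorem comm_trivial_fib (A : FibAct Ω kk Γ) :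
    ∃ q δ : ℝ, 0 < q ∧ 0 < δ ∧ ∀ S0 : Set Γ, S0.Finite →
      (∀ s ∈ S0, ∀ b ∈ closedBall Ω.b0 Ω.r1, ‖A.L s b - 1‖ ≤ δ) →
      (∀ k : ℕ, ∀ s ∈ comSet^[k] S0, ∀ b ∈ Ω.B, ‖A.β s b - b‖ ≤ q ^ (2 ^ k)) →
      ∃ k : ℕ, ∀ s ∈ comSet^[k] S0, ∀ b ∈ Ω.D, A.β s b = b := by
  obtain ⟨C1, κ1, hC1, hκ1, hlin⟩ := lin_step A
  obtain ⟨C2, κ2, hC2, hκ2, hcs⟩ := tr_step A
  obtain ⟨κ, hκdef⟩ : ∃ κ : ℝ, κ = min κ1 κ2 := ⟨_, rfl⟩
  have hκ : 0 < κ := by rw [hκdef]; exact lt_min hκ1 hκ2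
  have hκ1' : κ ≤ κ1 := by rw [hκdef]; exact min_le_left _ _
  have hκ2' : κ ≤ κ2 := by rw [hκdef]; exact min_le_right _ _
  have hr0 := Ω.hr0
  have hr01 := Ω.hr01
  obtain ⟨d, hd⟩ : ∃ d : ℝ, d = Ω.r1 - Ω.r0 := ⟨_, rfl⟩
  have hd0 : 0 < d := by rw [hd]; linarith
  obtain ⟨ρ, hρ⟩ : ∃ ρ : ℕ → ℝ, ∀ k, ρ k = Ω.r0 + d / 2 ^ (k + 1) := ⟨_, fun k => rfl⟩
  have hρ0 : ∀ k, 0 < ρ k := fun k => by rw [hρ]; positivity
  have hgap : ∀ k, ρ k - ρ (k + 1) = d / 2 ^ (k + 2) := by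
    intro k
    rw [hρ, hρ, pow_succ 2 (k + 1)]
    field_simp
    ring
  have hgap0 : ∀ k, 0 < ρ k - ρ (k + 1) := fun k => by rw [hgap]; positivity
  have hρlt : ∀ k, ρ (k + 1) < ρ k := fun k => by linarith [hgap0 k]
  have hρ1 : ∀ k, ρ k < Ω.r1 := by
    intro k
    rw [hρ]
    have h1 : d / 2 ^ (k + 1) < d := by
      rw [div_lt_iff₀ (by positivity)]
      have : (1 : ℝ) < 2 ^ (k + 1) := one_lt_pow₀ (by norm_num) (by omega)
      nlinarith
    linarith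
  obtain ⟨q, hq0, hq1, hq2, hq3, hq4⟩ : ∃ q : ℝ, 0 < q ∧ q ≤ 1 / 4 ∧ q ≤ κ * d / 4 ∧ q ≤ Ω.r1 ∧
      q ≤ d / (16 * C1) :=
    ⟨min (1 / 4) (min (κ * d / 4) (min Ω.r1 (d / (16 * C1)))), lt_min (by norm_num)
      (lt_min (by positivity) (lt_min (by linarith) (by positivity))), min_le_left _ _,
      (min_le_right _ _).trans (min_le_left _ _),
      (min_le_right _ _).trans ((min_le_right _ _).trans (min_le_left _ _)),
      (min_le_right _ _).trans ((min_le_right _ _).trans (min_le_right _ _))⟩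
  obtain ⟨D0, hD0, hD1, hD2⟩ : ∃ D0 : ℝ, 0 < D0 ∧ D0 ≤ 1 / 8 ∧ C1 * D0 ≤ 1 / 8 := by
    refine ⟨1 / (8 * (C1 + 1)), by positivity, ?_, ?_⟩
    · rw [div_le_div_iff₀ (by positivity) (by norm_num)]
      nlinarith
    · rw [mul_one_div, div_le_div_iff₀ (by positivity) (by norm_num)]
      nlinarith
  refine ⟨q, D0, hq0, hD0, fun S0 hS0 hlin0 hsmall => ?_⟩
  obtain ⟨e, he⟩ : ∃ e : ℕ → ℝ, ∀ k, e k = q ^ (2 ^ k) := ⟨_, fun k => rfl⟩
  have he0 : ∀ k, 0 ≤ e k := fun k => by rw [he]; positivity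
  have he1 : ∀ k, e k ≤ q * (1 / 4) ^ k := by
    intro k
    rw [he]
    have h1 : k + 1 ≤ 2 ^ k := Nat.lt_two_pow_self
    calc q ^ (2 ^ k) ≤ q ^ (k + 1) := pow_le_pow_of_le_one hq0.le (by linarith) h1
      _ = q * q ^ k := by rw [pow_succ, mul_comm]
      _ ≤ q * (1 / 4) ^ k := mul_le_mul_of_nonneg_left (pow_le_pow_left₀ hq0.le hq1 k) hq0.le
  have heq : ∀ k, e k ≤ q := by
    intro k
    refine (he1 k).trans ?_
    have : (1 / 4 : ℝ) ^ k ≤ 1 := pow_le_one₀ (by norm_num) (by norm_num)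
    nlinarith
  have hek : ∀ k, e k ≤ κ * (ρ k - ρ (k + 1)) := by
    intro k
    rw [hgap]
    refine (he1 k).trans ?_
    have h1 : q * (1 / 4) ^ k ≤ κ * d / 4 * (1 / 2) ^ k := by
      apply mul_le_mul hq2 _ (by positivity) (by positivity)
      exact pow_le_pow_left₀ (by norm_num) (by norm_num) k
    refine h1.trans (le_of_eq ?_)
    rw [pow_add, one_div, inv_pow]
    field_simp
    norm_num
  have hr1 : ∀ k, e k / (ρ k - ρ (k + 1)) ≤ 4 * q / d * (1 / 2) ^ k := by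
    intro k
    rw [hgap, div_le_iff₀ (by positivity)]
    refine (he1 k).trans (le_of_eq ?_)
    have h2 : (1 / 4 : ℝ) ^ k = (1 / 2) ^ k * (1 / 2) ^ k := by
      rw [← mul_pow]; norm_num
    have h3 : (2 : ℝ) ^ (k + 2) = 4 * 2 ^ k := by ring
    have h4 : (1 / 2 : ℝ) ^ k * 2 ^ k = 1 := by rw [← mul_pow]; norm_num
    rw [h2, h3]
    field_simp
    ring_nf
    ring_nf at h4
    try nlinarith [h4]
  have hratio : Tendsto (fun k => e k / (ρ k - ρ (k + 1))) atTop (𝓝 0) := by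
    have h2 : Tendsto (fun k : ℕ => 4 * q / d * (1 / 2 : ℝ) ^ k) atTop (𝓝 0) := by
      have := (tendsto_pow_atTop_nhds_zero_of_lt_one (r := (1 / 2 : ℝ)) (by norm_num)
        (by norm_num)).const_mul (4 * q / d)
      simpa using this
    exact squeeze_zero (fun k => div_nonneg (he0 k) (hgap0 k).le) hr1 h2
  have hratio1 : ∀ k, C1 * (e k / (ρ k - ρ (k + 1))) ≤ 1 / 4 := by
    intro k
    have h1 : e k / (ρ k - ρ (k + 1)) ≤ 4 * q / d := by
      refine (hr1 k).trans ?_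
      have h2 : (1 / 2 : ℝ) ^ k ≤ 1 := pow_le_one₀ (by norm_num) (by norm_num)
      have h3 : 0 ≤ 4 * q / d := by positivity
      nlinarith
    have h2 : C1 * (4 * q / d) ≤ 1 / 4 := by
      have h3 : q * (16 * C1) ≤ d := by
        rwa [le_div_iff₀ (by positivity)] at hq4
      rw [← mul_div_assoc, div_le_iff₀ hd0]
      nlinarith
    exact (mul_le_mul_of_nonneg_left h1 hC1.le).trans h2
  have hsucc : ∀ k, comSet^[k + 1] S0 = comSet (comSet^[k] S0) := fun k =>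
    Function.iterate_succ_apply' _ _ _
  have hsub0 : closedBall Ω.b0 (ρ 0) ⊆ ball Ω.b0 Ω.r1 := closedBall_subset_ball (hρ1 0)
  have hbD : ball Ω.b0 Ω.r1 ⊆ Ω.D := ball_subset_closedBall.trans Ω.hB
  have hsm : ∀ k, ∀ s ∈ comSet^[k] S0, ∀ b ∈ Ω.B, ‖A.β s b - b‖ ≤ e k := by
    intro k s hs b hb
    rw [he]
    exact hsmall k s hs b hb
  -- linear parts
  obtain ⟨δ, hδz, hδs⟩ : ∃ δ : ℕ → ℝ, δ 0 = D0 ∧
      ∀ k, δ (k + 1) = C1 * (δ k * e k / (ρ k - ρ (k + 1)) + δ k ^ 2) :=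
    ⟨fun k => Nat.rec (motive := fun _ => ℝ) D0
      (fun k x => C1 * (x * e k / (ρ k - ρ (k + 1)) + x ^ 2)) k, rfl, fun k => rfl⟩
  have hδb : ∀ k, 0 ≤ δ k ∧ δ k ≤ D0 * (1 / 2) ^ k := by
    intro k
    induction k with
    | zero => rw [hδz]; exact ⟨hD0.le, by simp⟩
    | succ k ih =>
      obtain ⟨h1, h2⟩ := ih
      have h3 : δ k ≤ D0 := by
        refine h2.trans ?_
        have : (1 / 2 : ℝ) ^ k ≤ 1 := pow_le_one₀ (by norm_num) (by norm_num)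
        nlinarith
      have h4 : 0 ≤ e k / (ρ k - ρ (k + 1)) := div_nonneg (he0 k) (hgap0 k).le
      have h5 : δ (k + 1) = δ k * (C1 * (e k / (ρ k - ρ (k + 1)))) + δ k * (C1 * δ k) := by
        rw [hδs]; ring
      have h6 : C1 * δ k ≤ 1 / 8 := (mul_le_mul_of_nonneg_left h3 hC1.le).trans hD2
      rw [h5]
      refine ⟨by positivity, ?_⟩
      have h7 : δ k * (C1 * (e k / (ρ k - ρ (k + 1)))) ≤ δ k * (1 / 4) :=
        mul_le_mul_of_nonneg_left (hratio1 k) h1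
      have h8 : δ k * (C1 * δ k) ≤ δ k * (1 / 8) := mul_le_mul_of_nonneg_left h6 h1
      have h9 : D0 * (1 / 2) ^ (k + 1) = D0 * (1 / 2) ^ k * (1 / 2) := by ring
      rw [h9]
      linarith
  have hδ0 : ∀ k, 0 ≤ δ k := fun k => (hδb k).1
  have hδ8 : ∀ k, δ k ≤ 1 / 8 := by
    intro k
    refine (hδb k).2.trans ?_
    have : (1 / 2 : ℝ) ^ k ≤ 1 := pow_le_one₀ (by norm_num) (by norm_num)
    nlinarith
  have hδt : Tendsto δ atTop (𝓝 0) := by
    have h2 : Tendsto (fun k : ℕ => D0 * (1 / 2 : ℝ) ^ k) atTop (𝓝 0) := by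
      have := (tendsto_pow_atTop_nhds_zero_of_lt_one (r := (1 / 2 : ℝ)) (by norm_num)
        (by norm_num)).const_mul D0
      simpa using this
    exact squeeze_zero hδ0 (fun k => (hδb k).2) h2
  have has : ∀ k, ∀ s ∈ comSet^[k] S0, ∀ b ∈ ball Ω.b0 (ρ k), ‖A.L s b - 1‖ ≤ δ k := by
    intro k
    induction k with
    | zero =>
      intro s hs b hb
      rw [hδz]
      exact hlin0 s hs b (ball_subset_closedBall (ball_subset_ball (hρ1 0).le hb))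
    | succ k ih =>
      intro w hw
      rw [hsucc] at hw
      obtain ⟨s, hs, t, ht, rfl⟩ := hw
      rw [hδs]
      exact hlin s t (ρ k) (ρ (k + 1)) (e k) (δ k) (hρ0 _) (hρlt k) (hρ1 k).le (he0 k)
        ((hek k).trans (mul_le_mul_of_nonneg_right hκ1' (hgap0 k).le)) (hδ0 k) (hδ8 k)
        (hsm k s hs) (hsm k t ht) (ih s hs) (ih t ht)
  -- translation parts
  obtain ⟨M0, hM0, hM0'⟩ : ∃ M, 0 ≤ M ∧ ∀ s ∈ S0, ∀ b ∈ ball Ω.b0 (ρ 0), ‖A.c s b‖ ≤ M := by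
    refine Ec_bound hS0 (P := fun s M => ∀ b ∈ ball Ω.b0 (ρ 0), ‖A.c s b‖ ≤ M) ?_ ?_
    · intro s _
      obtain ⟨M, hM⟩ := (isCompact_closedBall Ω.b0 (ρ 0)).exists_bound_of_continuousOn
        ((A.c_holo s).continuousOn.mono (hsub0.trans hbD))
      exact ⟨M, fun b hb => hM b (ball_subset_closedBall hb)⟩
    · intro s M M' hMM' h b hb
      exact (h b hb).trans hMM'
  obtain ⟨M, hMz, hMs⟩ : ∃ M : ℕ → ℝ, M 0 = M0 ∧ ∀ k, M (k + 1) =
      (C2 * e k / (ρ k - ρ (k + 1)) + 2 * δ k + δ (k + 1) * (2 + δ k)) * M k :=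
    ⟨fun k => Nat.rec (motive := fun _ => ℝ) M0
      (fun k x => (C2 * e k / (ρ k - ρ (k + 1)) + 2 * δ k + δ (k + 1) * (2 + δ k)) * x) k,
      rfl, fun k => rfl⟩
  have hMnn : ∀ k, 0 ≤ M k := by
    intro k
    induction k with
    | zero => rw [hMz]; exact hM0
    | succ k ih =>
      rw [hMs]
      have h1 := hδ0 k
      have h2 := hδ0 (k + 1)
      have h3 : 0 ≤ C2 * e k / (ρ k - ρ (k + 1)) :=
        div_nonneg (mul_nonneg hC2.le (he0 k)) (hgap0 k).le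
      positivity
  have hMt : Tendsto M atTop (𝓝 0) := by
    refine Ec_tendsto (r := fun k => C2 * e k / (ρ k - ρ (k + 1)) + 2 * δ k +
      δ (k + 1) * (2 + δ k)) hMnn (fun k => (hMs k).le) ?_
    have h1 : Tendsto (fun k => C2 * e k / (ρ k - ρ (k + 1))) atTop (𝓝 0) := by
      have := hratio.const_mul C2
      rw [mul_zero] at this
      exact this.congr fun k => by ring
    have h2 := hδt.const_mul 2
    have h3 := (hδt.comp (tendsto_add_atTop_nat 1)).mul (hδt.const_add 2)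
    have h4 := (h1.add h2).add h3
    simpa using h4
  have hcb : ∀ k, ∀ s ∈ comSet^[k] S0, ∀ b ∈ ball Ω.b0 (ρ k), ‖A.c s b‖ ≤ M k := by
    intro k
    induction k with
    | zero =>
      intro s hs
      rw [hMz]
      exact hM0' s hs
    | succ k ih =>
      intro w hw
      have hw' := hw
      rw [hsucc] at hw
      obtain ⟨s, hs, t, ht, rfl⟩ := hw
      rw [hMs]
      exact hcs s t (ρ k) (ρ (k + 1)) (M k) (e k) (δ k) (δ (k + 1)) (hρ0 _) (hρlt k) (hρ1 k).le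
        (he0 k) ((hek k).trans (mul_le_mul_of_nonneg_right hκ2' (hgap0 k).le)) (hMnn k) (hδ0 k)
        (hδ0 (k + 1)) (hsm k s hs) (hsm k t ht) (fun b hb => ⟨has k s hs b hb, ih s hs b hb⟩)
        (fun b hb => ⟨has k t ht b hb, ih t ht b hb⟩) (has (k + 1) _ hw')
  -- proper discontinuity
  have hF := A.pd (closedBall Ω.b0 Ω.r1 ×ˢ closedBall (0 : E kk) 1)
    (prod_mono Ω.hB (subset_univ _)) ((isCompact_closedBall _ _).prod (isCompact_closedBall _ _))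
  have het : Tendsto e atTop (𝓝 0) := by
    have h2 : Tendsto (fun k : ℕ => q * (1 / 4 : ℝ) ^ k) atTop (𝓝 0) := by
      have := (tendsto_pow_atTop_nhds_zero_of_lt_one (r := (1 / 4 : ℝ)) (by norm_num)
        (by norm_num)).const_mul q
      simpa using this
    exact squeeze_zero he0 he1 h2
  have hev : ∀ᶠ k in atTop, ∀ γ ∈ {γ | ∃ x ∈ closedBall Ω.b0 Ω.r1 ×ˢ closedBall (0 : E kk) 1,
      A.act γ x ∈ closedBall Ω.b0 Ω.r1 ×ˢ closedBall (0 : E kk) 1},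
      (∀ b ∈ Ω.B, ‖A.β γ b - b‖ ≤ e k) → ∀ b ∈ Ω.D, A.β γ b = b := by
    rw [eventually_all_finite hF]
    intro γ _
    by_cases hγ : ∀ b ∈ Ω.D, A.β γ b = b
    · exact Eventually.of_forall fun k _ => hγ
    · obtain ⟨b, hb, hne⟩ : ∃ b ∈ Ω.B, A.β γ b ≠ b := by
        by_contra hcon
        push Not at hcon
        apply hγ
        have h1 := ident Ω.isOpen Ω.conn (A.holo γ) (differentiableOn_id) hr0
          (ball_subset_closedBall.trans Ω.B_sub)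
          (fun y hy => hcon y (ball_subset_closedBall hy))
        exact fun b hb => h1 hb
      have hpos : 0 < ‖A.β γ b - b‖ := norm_pos_iff.2 (sub_ne_zero.2 hne)
      filter_upwards [het.eventually_lt_const hpos] with k hk hall
      exact absurd (hall b hb) (not_le.2 hk)
  have hev2 : ∀ᶠ k in atTop, M k ≤ 1 := hMt.eventually_le_const (by norm_num)
  obtain ⟨k, hk1, hk2⟩ := (hev.and hev2).exists
  refine ⟨k, fun s hs => hk1 s ?_ (hsm k s hs)⟩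
  have hmem : Ω.b0 ∈ closedBall Ω.b0 Ω.r1 := mem_closedBall_self (by linarith)
  refine ⟨(Ω.b0, 0), ⟨hmem, mem_closedBall_self (by norm_num)⟩, ?_⟩
  rw [A.act_eq s _ (Ω.hB hmem), map_zero, zero_add]
  refine ⟨?_, ?_⟩
  · show A.β s Ω.b0 ∈ closedBall Ω.b0 Ω.r1
    rw [mem_closedBall, dist_eq_norm]
    exact ((hsm k s hs _ Ω.b0_mem_B).trans (heq k)).trans hq3
  · show A.c s Ω.b0 ∈ closedBall (0 : E kk) 1
    rw [mem_closedBall, dist_zero_right]
    exact (hcb k s hs _ (mem_ball_self (hρ0 k))).trans hk2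

end Pool.Agent.H.MP_e23cd6_ag.AK
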