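import Pool.Agent.H.MP_e23cd6_ag.AB.E2b

/-!
ABUK Ei: initial sets of small elements with a prescribed property, which is guaranteed only for one of
finitely many quotients.

`good_init_pred`: the elements are quotients of realizations of multiples of the basis fields of P.
`small_comm_pred`: the iteration of `small_comm` started at this set.
-/

open Set Filter Topology Metric

namespace Pool.Agent.H.MP_e23cd6_ag.AK

open Pool.Agent.H.MP_e23cd6_ag.AB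

variable {n : ℕ} {Ω : Dom n} {Γ : Type} [Group Γ]

/-- the product of two elements close to `id + ε U` and `id + ε V` -/
theorem Ei_mul (A : BaseAct Ω Γ) {r N C2 C3 ε : ℝ} (hr : 0 < r)
    (hrD : cthickening r (closedBall Ω.b0 Ω.r1) ⊆ Ω.D)
    (hbd : ∀ X : Lie A, ∀ b ∈ cthickening r (closedBall Ω.b0 Ω.r1), ‖X b‖ ≤ C3 * ‖X‖)
    (hC3 : 0 < C3) (hε : 0 < ε) {U V : Lie A} (hU : ‖U‖ ≤ N) (hV : ‖V‖ ≤ N)
    (he : C2 * (N * ε) ^ 2 + ε * (C3 * N) < r / 2) {γ δ : Γ}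
    (hγ : ∀ b ∈ cthickening r (closedBall Ω.b0 Ω.r1),
      ‖A.β γ b - b - (ε • U : Lie A) b‖ ≤ C2 * (N * ε) ^ 2)
    (hδ : ∀ b ∈ cthickening r (closedBall Ω.b0 Ω.r1),
      ‖A.β δ b - b - (ε • V : Lie A) b‖ ≤ C2 * (N * ε) ^ 2) :
    ∀ b ∈ closedBall Ω.b0 Ω.r1, ‖A.β (γ * δ) b - b - (ε • (U + V) : Lie A) b‖ ≤
      2 * (C2 * (N * ε) ^ 2) +
        ε * (4 * (C3 * N) / r * (C2 * (N * ε) ^ 2 + ε * (C3 * N))) := by
  intro b hb
  have h1 := D2_comp (K := closedBall Ω.b0 Ω.r1) (D := Ω.D) (r := r) (M := C3 * N)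
    (e := C2 * (N * ε) ^ 2) (τ := ε) hr hrD (U := U) (V := V) U.holo
    (fun b hb => (hbd U b hb).trans (mul_le_mul_of_nonneg_left hU hC3.le))
    (fun b hb => (hbd V b hb).trans (mul_le_mul_of_nonneg_left hV hC3.le))
    hε.le he (g := A.β γ) (h := A.β δ)
    (fun b hb => by
      have h2 := hγ b hb
      rwa [Lie.smul_apply, ← Complex.coe_smul] at h2)
    (fun b hb => by
      have h2 := hδ b hb
      rwa [Lie.smul_apply, ← Complex.coe_smul] at h2) hb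
  rw [A.mul _ _ _ (Ω.hB hb), Lie.smul_apply, Lie.add_apply, ← Complex.coe_smul]
  exact h1

/-- the numerical estimate for the quotients -/
theorem Ei_num {r N C2 C3 ε T : ℝ} (hr : 0 < r) (hN : 0 < N) (hC3 : 0 < C3)
    (hε : 0 < ε) (hT : C2 * (N * ε) ^ 2 + ε * (C3 * N) ≤ T * ε) :
    2 * (C2 * (N * ε) ^ 2) + ε * (4 * (C3 * N) / r * (C2 * (N * ε) ^ 2 + ε * (C3 * N))) ≤
      (2 * (C2 * N ^ 2) + 4 * (C3 * N) / r * T) * ε ^ 2 := by
  have h8 : 4 * (C3 * N) / r * (C2 * (N * ε) ^ 2 + ε * (C3 * N)) ≤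
      4 * (C3 * N) / r * (T * ε) := mul_le_mul_of_nonneg_left hT (by positivity)
  have h9 := mul_le_mul_of_nonneg_left h8 hε.le
  have h10 : (2 * (C2 * N ^ 2) + 4 * (C3 * N) / r * T) * ε ^ 2 =
      2 * (C2 * (N * ε) ^ 2) + ε * (4 * (C3 * N) / r * (T * ε)) := by ring
  rw [h10]
  linarith

/-- an element with a second order approximation -/
theorem Ei_apx (A : BaseAct Ω Γ) {C8 N C4 ε : ℝ} (hC8 : 0 < C8) (hN : 0 < N) (hC4 : 0 < C4)
    (hε : 0 < ε) (hε1 : ε ≤ 1) {w : Γ} {X : Lie A} (hX : ‖X‖ ≤ ε * N)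
    (hw : ∀ b ∈ closedBall Ω.b0 Ω.r1, ‖A.β w b - b - X b‖ ≤ C4 * ε ^ 2) :
    Apx A C8 w ((1 + N + C4 + N / C8 + C4 / C8) * ε) X := by
  obtain ⟨C1, hC1⟩ : ∃ C1 : ℝ, C1 = 1 + N + C4 + N / C8 + C4 / C8 := ⟨_, rfl⟩
  have p1 : 0 < N / C8 := by positivity
  have p2 : 0 < C4 / C8 := by positivity
  have hC1p : 1 ≤ C1 := by linarith
  have hC1pos : 0 < C1 := by linarith
  rw [← hC1]
  refine ⟨fun b hb => ?_, ?_, fun b hb => (hw b hb).trans ?_⟩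
  · have h1 := hw b (closedBall_subset_closedBall Ω.hr01.le hb)
    have h2 : A.β w b - b = (A.β w b - b - X b) + X b := by abel
    rw [h2]
    refine (norm_add_le _ _).trans ((add_le_add h1 ((Lie.le_norm _ hb).trans hX)).trans ?_)
    have h3 : C4 * ε ^ 2 ≤ C4 * ε := by
      rw [pow_two, ← mul_assoc]
      exact mul_le_of_le_one_right (by positivity) hε1
    have h4 : (C4 + N) * ε ≤ C1 * ε := mul_le_mul_of_nonneg_right (by linarith) hε.le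
    linarith
  · refine hX.trans ?_
    have h5 : C8 * (N / C8) = N := by field_simp
    have h6 : C8 * (N / C8) ≤ C8 * C1 := mul_le_mul_of_nonneg_left (by linarith) hC8.le
    rw [h5] at h6
    have h7 := mul_le_mul_of_nonneg_left h6 hε.le
    linarith
  · have h5 : C8 * (C4 / C8) = C4 := by field_simp
    have h6 : C8 * (C4 / C8) ≤ C8 * C1 := mul_le_mul_of_nonneg_left (by linarith) hC8.le
    rw [h5] at h6
    have h7 : C1 ≤ C1 ^ 2 := by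
      rw [pow_two]
      exact le_mul_of_one_le_left hC1pos.le hC1p
    have h8 : C4 ≤ C8 * C1 ^ 2 := h6.trans (mul_le_mul_of_nonneg_left h7 hC8.le)
    have h9 := mul_le_mul_of_nonneg_right h8 (by positivity : (0:ℝ) ≤ ε ^ 2)
    rwa [mul_pow, ← mul_assoc]

/-- quotients of the realizations of the multiples of one field -/
theorem Ei_one (A : BaseAct Ω Γ) {C8 : ℝ} (hC8 : 0 < C8) (R : Γ → Prop) {η : ℝ}
    (hη : 0 < η) (M : ℕ)
    (hR : ∀ g : Fin (M + 1) → Γ, (∀ i, ∀ b ∈ Ω.B, ‖A.β (g i) b - b‖ ≤ η) →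
      ∃ i j, i < j ∧ R ((g i)⁻¹ * g j)) {m : ℝ} (hm : 1 ≤ m) :
    ∃ C1 ρ : ℝ, 0 < C1 ∧ 0 < ρ ∧ ∀ ε : ℝ, 0 < ε → ε ≤ ρ → ∀ v : Lie A, ‖v‖ ≤ m →
      ∃ (w : Γ) (k : ℝ), R w ∧ 1 ≤ k ∧ Apx A C8 w (C1 * ε) ((ε * k) • v) := by
  obtain ⟨r, hr, hrD⟩ :=
    (isCompact_closedBall Ω.b0 Ω.r1).exists_cthickening_subset_open Ω.isOpen Ω.hB
  have hK2c : IsCompact (cthickening r (closedBall Ω.b0 Ω.r1)) :=
    (isCompact_closedBall Ω.b0 Ω.r1).cthickening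
  obtain ⟨C2, ρ2, hC2, hρ2, hreal⟩ := realize A hrD hK2c
  obtain ⟨C3, hC3, hbd⟩ := Lie.bound A hrD hK2c
  have hM0 : (0 : ℝ) ≤ M := Nat.cast_nonneg M
  obtain ⟨N, hN⟩ : ∃ N : ℝ, N = (M + 1) * m := ⟨_, rfl⟩
  have hN1 : 1 ≤ N := by
    rw [hN]
    exact one_le_mul_of_one_le_of_one_le (by linarith) hm
  have hN0 : 0 < N := by linarith
  obtain ⟨T, hT⟩ : ∃ T : ℝ, T = C2 * N ^ 2 + C3 * N + N := ⟨_, rfl⟩
  have hT0 : 0 < T := by rw [hT]; positivity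
  have hC4 : 0 < 2 * (C2 * N ^ 2) + 4 * (C3 * N) / r * T := by positivity
  refine ⟨1 + N + (2 * (C2 * N ^ 2) + 4 * (C3 * N) / r * T) + N / C8 +
    (2 * (C2 * N ^ 2) + 4 * (C3 * N) / r * T) / C8,
    min (min 1 (ρ2 / N)) (min (η / T) (r / (4 * T))), by positivity,
    lt_min (lt_min one_pos (by positivity)) (lt_min (by positivity) (by positivity)),
    fun ε hε hερ v hv => ?_⟩
  have hε1 : ε ≤ 1 := hερ.trans ((min_le_left _ _).trans (min_le_left _ _))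
  have hε2 : N * ε ≤ ρ2 := by
    have := hερ.trans ((min_le_left _ _).trans (min_le_right _ _))
    rw [le_div_iff₀ hN0] at this
    linarith
  have hε3 : T * ε ≤ η := by
    have := hερ.trans ((min_le_right _ _).trans (min_le_left _ _))
    rw [le_div_iff₀ hT0] at this
    linarith
  have hε4 : T * ε ≤ r / 4 := by
    have := hερ.trans ((min_le_right _ _).trans (min_le_right _ _))
    rw [le_div_iff₀ (by positivity)] at this
    linarith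
  have hsq : C2 * (N * ε) ^ 2 ≤ C2 * N ^ 2 * ε := by
    have : C2 * (N * ε) ^ 2 = C2 * N ^ 2 * ε * ε := by ring
    rw [this]
    exact mul_le_of_le_one_right (by positivity) hε1
  have hTe : T * ε = C2 * N ^ 2 * ε + ε * (C3 * N) + ε * N := by rw [hT]; ring
  have q1 : 0 < ε * N := by positivity
  have q2 : 0 < ε * (C3 * N) := by positivity
  have hiN : ∀ x : ℝ, |x| ≤ M + 1 → ‖(x • v : Lie A)‖ ≤ N := by
    intro x hx
    rw [norm_smul, Real.norm_eq_abs, hN]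
    exact mul_le_mul hx hv (norm_nonneg _) (by linarith)
  have hcast : ∀ i : Fin (M + 1), |((i : ℕ) : ℝ)| ≤ M + 1 := by
    intro i
    rw [abs_of_nonneg (Nat.cast_nonneg _)]
    have h1 : ((i : ℕ) : ℝ) ≤ M := by exact_mod_cast Nat.lt_succ_iff.1 i.2
    linarith
  have hsm : ∀ i : Fin (M + 1), ∀ b ∈ Ω.B, ‖(ε • (((i : ℕ) : ℝ) • v) : Lie A) b‖ ≤ ε * N := by
    intro i b hb
    refine (Lie.le_norm _ hb).trans ?_
    rw [norm_smul, Real.norm_of_nonneg hε.le]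
    exact mul_le_mul_of_nonneg_left (hiN _ (hcast i)) hε.le
  have hex : ∀ i : Fin (M + 1), ∃ γ : Γ, ∀ b ∈ cthickening r (closedBall Ω.b0 Ω.r1),
      ‖A.β γ b - b - (ε • (((i : ℕ) : ℝ) • v) : Lie A) b‖ ≤ C2 * (N * ε) ^ 2 ∧
      ‖A.β γ⁻¹ b - b + (ε • (((i : ℕ) : ℝ) • v) : Lie A) b‖ ≤ C2 * (N * ε) ^ 2 := by
    intro i
    refine hreal (ε • (((i : ℕ) : ℝ) • v) : Lie A) (Lie.isLim _) (N * ε)
      (by positivity) hε2 (fun b hb => ?_)
    rw [mul_comm N ε]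
    exact hsm i b hb
  choose g hg using hex
  obtain ⟨i, j, hlt, hRw⟩ := hR g (fun i b hb => by
    have h1 := (hg i b (self_subset_cthickening _
      (closedBall_subset_closedBall Ω.hr01.le hb))).1
    have h2 : A.β (g i) b - b =
        (A.β (g i) b - b - (ε • (((i : ℕ) : ℝ) • v) : Lie A) b) +
          (ε • (((i : ℕ) : ℝ) • v) : Lie A) b := by abel
    rw [h2]
    refine (norm_add_le _ _).trans ((add_le_add h1 (hsm i b hb)).trans ?_)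
    linarith)
  have h0 : ((i : ℕ) : ℝ) + 1 ≤ ((j : ℕ) : ℝ) := by exact_mod_cast (hlt : (i : ℕ) < (j : ℕ))
  have hjM : ((j : ℕ) : ℝ) ≤ M := by exact_mod_cast Nat.lt_succ_iff.1 j.2
  have hi0 : (0 : ℝ) ≤ ((i : ℕ) : ℝ) := Nat.cast_nonneg _
  refine ⟨(g i)⁻¹ * g j, ((j : ℕ) : ℝ) - ((i : ℕ) : ℝ), hRw, by linarith, ?_⟩
  have hX : ‖((ε * (((j : ℕ) : ℝ) - ((i : ℕ) : ℝ))) • v : Lie A)‖ ≤ ε * N := by
    rw [mul_smul, norm_smul, Real.norm_of_nonneg hε.le]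
    refine mul_le_mul_of_nonneg_left (hiN _ ?_) hε.le
    rw [abs_of_nonneg (by linarith)]
    linarith
  refine Ei_apx A hC8 hN0 hC4 hε hε1 hX fun b hb => ?_
  have h1 := Ei_mul A hr hrD hbd hC3 hε (U := (-((i : ℕ) : ℝ)) • v) (V := (((j : ℕ) : ℝ)) • v)
    (hiN _ (by rw [abs_neg]; exact hcast i)) (hiN _ (hcast j)) (by linarith)
    (γ := (g i)⁻¹) (δ := g j)
    (fun b hb => by
      have h2 := (hg i b hb).2
      rw [neg_smul, smul_neg, Lie.neg_apply, sub_neg_eq_add]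
      exact h2)
    (fun b hb => (hg j b hb).1) b hb
  have h3 : (ε • ((-((i : ℕ) : ℝ)) • v + (((j : ℕ) : ℝ)) • v) : Lie A) =
      (ε * (((j : ℕ) : ℝ) - ((i : ℕ) : ℝ))) • v := by
    rw [← add_smul, smul_smul]
    congr 1
    ring
  rw [h3] at h1
  exact h1.trans (Ei_num hr hN0 hC3 hε (by linarith))

theorem good_init_pred (A : BaseAct Ω Γ) (P : Submodule ℝ (Lie A)) (p : Lie A →L[ℝ] P)
    (hp : ∀ X : P, p X = X) {C8 : ℝ} (hC8 : 0 < C8) (hPne : P ≠ ⊥) (R : Γ → Prop) {η : ℝ}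
    (hη : 0 < η) (M : ℕ)
    (hR : ∀ g : Fin (M + 1) → Γ, (∀ i, ∀ b ∈ Ω.B, ‖A.β (g i) b - b‖ ≤ η) →
      ∃ i j, i < j ∧ R ((g i)⁻¹ * g j)) :
    ∃ C1 ρ c : ℝ, 0 < C1 ∧ 0 < ρ ∧ 0 < c ∧ ∀ ε : ℝ, 0 < ε → ε ≤ ρ →
      ∃ S0 : Set Γ, S0.Finite ∧ (∀ s ∈ S0, R s) ∧ Good A P p C8 (C1 * ε) 0 (c * ε) S0 := by
  have : Nontrivial P := Submodule.nontrivial_iff_ne_bot.2 hPne
  obtain ⟨d, v, c0, hc0, hv⟩ := E2_fun (V := P)
  obtain ⟨m, hm1, hmv⟩ : ∃ m : ℝ, 1 ≤ m ∧ ∀ l, ‖(v l : Lie A)‖ ≤ m := by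
    refine ⟨1 + ∑ i, ‖v i‖, ?_, fun l => ?_⟩
    · have : 0 ≤ ∑ i, ‖v i‖ := Finset.sum_nonneg fun _ _ => norm_nonneg _
      linarith
    · have h1 := Finset.single_le_sum (f := fun i => ‖v i‖) (fun _ _ => norm_nonneg _)
        (Finset.mem_univ l)
      have h2 : ‖(v l : Lie A)‖ = ‖v l‖ := rfl
      rw [h2]
      linarith
  obtain ⟨C1, ρ, hC1, hρ, hone⟩ := Ei_one A hC8 R hη M hR hm1
  refine ⟨C1, ρ, c0, hC1, hρ, hc0, fun ε hε hερ => ?_⟩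
  have hex := fun l => hone ε hε hερ (v l) (hmv l)
  choose w k hRw hk hapx using hex
  have hpv : ∀ l, p ((ε * k l) • (v l : Lie A)) = (ε * k l) • v l := fun l => by
    rw [map_smul, hp]
  have hzero : ∀ l, ‖((ε * k l) • (v l : Lie A) : Lie A) -
      (p ((ε * k l) • (v l : Lie A)) : Lie A)‖ ≤ 0 := by
    intro l
    rw [hpv, Submodule.coe_smul, sub_self, norm_zero]
  refine ⟨Set.range w, Set.finite_range w, ?_, ?_, ?_⟩
  · rintro s ⟨l, rfl⟩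
    exact hRw l
  · rintro s ⟨l, rfl⟩
    exact ⟨_, hapx l, hzero l⟩
  · intro φ
    obtain ⟨l, hl⟩ := hv φ
    refine ⟨w l, ⟨l, rfl⟩, _, hapx l, hzero l, ?_⟩
    have hk0 : 0 ≤ k l := zero_le_one.trans (hk l)
    rw [hpv, map_smul, smul_eq_mul, abs_mul, abs_mul, abs_of_pos hε, abs_of_nonneg hk0]
    have h1 : 0 ≤ |φ (v l)| := abs_nonneg _
    have h2 : 1 * |φ (v l)| ≤ k l * |φ (v l)| := mul_le_mul_of_nonneg_right (hk l) h1
    have h3 : ε * (c0 * ‖φ‖) ≤ ε * (k l * |φ (v l)|) :=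
      mul_le_mul_of_nonneg_left (by linarith) hε.le
    linarith

theorem small_comm_pred (A : BaseAct Ω Γ) (P : Submodule ℝ (Lie A))
    (hP : ∀ δ, ∀ X ∈ P, AdL A δ X ∈ P) (hPne : P ≠ ⊥)
    (hperf : P ≤ Submodule.span ℝ {Z | ∃ X ∈ P, ∃ Y ∈ P, Z = brL A X Y}) (R : Γ → Prop) {η : ℝ}
    (hη : 0 < η) (M : ℕ)
    (hR : ∀ g : Fin (M + 1) → Γ, (∀ i, ∀ b ∈ Ω.B, ‖A.β (g i) b - b‖ ≤ η) →
      ∃ i j, i < j ∧ R ((g i)⁻¹ * g j)) {q : ℝ} (hq : 0 < q) :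
    ∃ S0 : Set Γ, S0.Finite ∧ (∀ s ∈ S0, R s) ∧ ∀ k : ℕ,
      (∀ s ∈ comSet^[k] S0, ∀ b ∈ Ω.B, ‖A.β s b - b‖ ≤ q ^ (2 ^ k)) ∧
      ∃ s ∈ comSet^[k] S0, ∃ b ∈ Ω.D, A.β s b ≠ b := by
  obtain ⟨p, hp⟩ : ∃ p : Lie A →L[ℝ] P, ∀ X : P, p X = X := by
    obtain ⟨Q, hQ⟩ := P.exists_isCompl
    exact ⟨LinearMap.toContinuousLinearMap (Submodule.projectionOnto P Q hQ),
      fun X => Submodule.projectionOnto_apply_left hQ X⟩
  obtain ⟨C8, C, b, e2, hC8, hC, hb, he2, hstep⟩ := good_step A P hP hperf p hp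
  obtain ⟨C1, ρ, c, hC1, hρ, hc, hinit⟩ := good_init_pred A P p hp hC8 hPne R hη M hR
  obtain ⟨C', h4, hCC, hC1C, hpC⟩ : ∃ C' : ℝ, 4 ≤ C' ∧ C ≤ C' ∧ C1 ≤ C' ∧ ‖p‖ * C8 ≤ C' :=
    ⟨max (max 4 C) (max C1 (‖p‖ * C8)), (le_max_left _ _).trans (le_max_left _ _),
      (le_max_right _ _).trans (le_max_left _ _), (le_max_left _ _).trans (le_max_right _ _),
      (le_max_right _ _).trans (le_max_right _ _)⟩
  obtain ⟨ε, hε, hεq, e, y, α, he0, hy0, hα0, he, hy, hα, hk⟩ :=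
    num_seq (C := C') (b := b) (c := c) (q := min q ρ) (e2 := e2) h4 hb hc (lt_min hq hρ) he2
  obtain ⟨S0, hfin, hS0R, hgood0⟩ := hinit ε hε (hεq.le.trans (min_le_right _ _))
  have hg : ∀ k, Good A P p C8 (e k) (y k) (α k) (comSet^[k] S0) := by
    intro k
    induction k with
    | zero =>
      refine hgood0.mono hC8.le (by positivity) ?_ ?_ ?_
      · rw [he0]
        exact mul_le_mul_of_nonneg_right hC1C hε.le
      · rw [hy0]
      · rw [hα0]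
    | succ k ih =>
      rw [Function.iterate_succ_apply']
      obtain ⟨h1, h2, h3, h4, h5, h6, h7⟩ := hk k
      refine (hstep _ _ _ _ h1 h2 h4 h6.le ih).mono hC8.le (by positivity) ?_ ?_ ?_
      · rw [he]
        exact mul_le_mul_of_nonneg_right hCC (by positivity)
      · rw [hy]
        exact mul_le_mul_of_nonneg_right hCC (by positivity)
      · rw [hα]
        have : C * (e k ^ 3 + e k * y k) ≤ C' * (e k ^ 3 + e k * y k) :=
          mul_le_mul_of_nonneg_right hCC (by positivity)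
        linarith
  have hPn : Nontrivial P := Submodule.nontrivial_iff_ne_bot.2 hPne
  obtain ⟨v, hv⟩ := exists_ne (0 : P)
  obtain ⟨φ, hφ, -⟩ := exists_dual_vector ℝ v (norm_ne_zero_iff.2 hv)
  refine ⟨S0, hfin, hS0R, fun k => ⟨?_, ?_⟩⟩
  · intro s hs b hb
    obtain ⟨X, hX, -⟩ := (hg k).1 s hs
    obtain ⟨h1, h2, h3, h4, h5, h6, h7⟩ := hk k
    refine (hX.1 b hb).trans (h3.trans ?_)
    exact pow_le_pow_left₀ (le_min hq.le hρ.le) (min_le_left _ _) _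
  · obtain ⟨s, hs, X, hX, -, hαφ⟩ := (hg k).2 φ
    obtain ⟨h1, h2, h3, h4, h5, h6, h7⟩ := hk k
    refine ⟨s, hs, ?_⟩
    by_contra hno
    push Not at hno
    have hXn : ‖X‖ ≤ C8 * e k ^ 2 := by
      rw [X.norm_le (by positivity)]
      intro b hb
      have h8 := hX.2.2 b (closedBall_subset_closedBall Ω.hr01.le hb)
      rw [hno b (Ω.B_sub hb), sub_self, zero_sub, norm_neg] at h8
      exact h8
    rw [hφ, mul_one] at hαφ
    have h9 : |φ (p X)| ≤ ‖p‖ * ‖X‖ := by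
      have h10 := φ.le_opNorm (p X)
      rw [hφ, one_mul, Real.norm_eq_abs] at h10
      exact h10.trans (p.le_opNorm X)
    have h11 : ‖p‖ * ‖X‖ ≤ C' * e k ^ 2 := by
      refine (mul_le_mul_of_nonneg_left hXn (norm_nonneg p)).trans ?_
      rw [← mul_assoc]
      exact mul_le_mul_of_nonneg_right hpC (by positivity)
    linarith

end Pool.Agent.H.MP_e23cd6_ag.AK
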