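import Pool.Agent.H.MP_e23cd6_ag.AK.Bnd

/-!
ABUK Ep1: an element whose base map is close to the identity and whose linear part is close to 1 at the centre has linear part close to 1 on the
marked ball.

Proof of `near_one`, by contradiction. Otherwise there are `γ_j` (j ∈ ℕ) with `|β γ_j b - b| ≤ 1/(j+1)` on `Ω.B`, `‖L γ_j b0 - 1‖ ≤ 1/(j+1)` and points `x_j ∈ closedBall b0 r1` with
`‖L γ_j x_j - 1‖ > δ`.
(1) Local bounds: let K ⊆ D be compact, r > 0 with `K' = cthickening r K ⊆ D`, compact (`IsCompact.exists_cthickening_subset_open`, `IsCompact.cthickening`). By `near` (A5, for the ball Ω.B = closedBall b0 r0 and the compact set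
K, η = r) there is j0 such that `β γ_j b ∈ K'` for `b ∈ K`, `j ≥ j0`, so `‖L γ_j b‖ ≤ C` by `L_bound` for K'. For the finitely many `j < j0`: `L γ_j` is continuous on the compact K. So there is one bound for all j.
(2) `montel` (A3, applied to the maps `L γ_j : E n → (E kk →L[ℂ] E kk)`): a subsequence φ and T holomorphic on D with `L γ_{φ j} → T` locally uniformly on D.
(3) `H_b(T b v, T b w) = H_b(v,w)`, b ∈ D: `M.H (β γ_j b) (L γ_j b v) (L γ_j b w) = M.H b v w`; `β γ_j b → b` (`near` for the compact set {b}, any η), `L γ_{φ j} b v → T b v`, and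
`(b, v, w) ↦ M.H b v w` is continuous on `D × E kk × E kk` (`IsHerm.expand`).
(4) `T b0 = lim L γ_{φ j} b0 = 1`. `rigid`: `T = 1` on D. But locally uniform convergence is uniform on the compact `closedBall b0 r1 ⊆ D` (`tendstoLocallyUniformlyOn_iff_forall_isCompact`):
`‖L γ_{φ j} x_{φ j} - 1‖ ≤ δ` for large j. Contradiction.
-/

open Set Filter Topology Metric
open scoped ComplexConjugate

namespace Pool.Agent.H.MP_e23cd6_ag.AK

open Pool.Agent.H.MP_e23cd6_ag.AB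

variable {n kk : ℕ} {Ω : Dom n} {Γ : Type} [Group Γ] {A : FibAct Ω kk Γ}

/-- joint continuity of the fibre metric -/
theorem FMet.cont3 (M : FMet A) :
    ContinuousOn (fun x : E n × E kk × E kk => M.H x.1 x.2.1 x.2.2) (Ω.D ×ˢ univ) := by
  have e : EqOn (fun x : E n × E kk × E kk => M.H x.1 x.2.1 x.2.2)
      (fun x => ∑ p, ∑ q, x.2.1 p * conj (x.2.2 q) *
        M.H x.1 (Pi.single p 1) (Pi.single q 1)) (Ω.D ×ˢ univ) :=
    fun x hx => (M.isHerm hx.1).expand _ _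
  refine ContinuousOn.congr ?_ e
  refine continuousOn_finsetSum _ fun p _ => continuousOn_finsetSum _ fun q _ => ?_
  refine ContinuousOn.mul ?_ ?_
  · have h1 : Continuous fun x : E n × E kk × E kk => x.2.1 p * conj (x.2.2 q) :=
      ((continuous_apply p).comp (continuous_fst.comp continuous_snd)).mul
        (Complex.continuous_conj.comp
          ((continuous_apply q).comp (continuous_snd.comp continuous_snd)))
    exact h1.continuousOn
  · exact (M.cont (Pi.single p 1) (Pi.single q 1)).comp continuous_fst.continuousOn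
      fun x hx => hx.1

/-- a sequence whose base maps tend to the identity on the marked ball: eventually uniformly close
on every compact set -/
theorem near_ev (B : BaseAct Ω Γ) {γ : ℕ → Γ}
    (h1 : ∀ j : ℕ, ∀ b ∈ Ω.B, ‖B.β (γ j) b - b‖ ≤ 1 / ((j : ℝ) + 1))
    {K : Set (E n)} (hK : K ⊆ Ω.D) (hKc : IsCompact K) {r : ℝ} (hr : 0 < r) :
    ∀ᶠ j in atTop, ∀ b ∈ K, ‖B.β (γ j) b - b‖ ≤ r := by
  obtain ⟨c, hc, hc2⟩ := near Ω Ω.hr0 Ω.B_sub hK hKc hr
  have h3 : ∀ᶠ j : ℕ in atTop, 1 / ((j : ℝ) + 1) < c :=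
    (tendsto_order.1 (tendsto_one_div_add_atTop_nhds_zero_nat (𝕜 := ℝ))).2 c hc
  filter_upwards [h3] with j hj
  exact hc2 _ (B.maps _) (B.holo _) fun b hb => (h1 j b hb).trans hj.le

/-- uniform bounds of the linear parts -/
theorem L_seq_bound (M : FMet A) {γ : ℕ → Γ}
    (h1 : ∀ j : ℕ, ∀ b ∈ Ω.B, ‖A.β (γ j) b - b‖ ≤ 1 / ((j : ℝ) + 1))
    {K : Set (E n)} (hK : K ⊆ Ω.D) (hKc : IsCompact K) :
    ∃ m : ℝ, ∀ j, ∀ b ∈ K, ‖A.L (γ j) b‖ ≤ m := by
  obtain ⟨r, hr, hrD⟩ := hKc.exists_cthickening_subset_open Ω.isOpen hK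
  have hKc' : IsCompact (cthickening r K) := hKc.cthickening
  obtain ⟨C, hC, hC2⟩ := L_bound M hrD hKc'
  obtain ⟨j0, hj0⟩ := eventually_atTop.1 (near_ev A.toBaseAct h1 hK hKc hr)
  have h2 : ∀ j, ∃ m : ℝ, ∀ b ∈ K, ‖A.L (γ j) b‖ ≤ m := fun j =>
    hKc.exists_bound_of_continuousOn ((A.L_holo (γ j)).continuousOn.mono hK)
  choose m hm using h2
  refine ⟨max C (∑ j ∈ Finset.range j0, |m j|), fun j b hb => ?_⟩
  rcases lt_or_ge j j0 with hj | hj
  · refine ((hm j b hb).trans (le_abs_self _)).trans (le_trans ?_ (le_max_right _ _))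
    exact Finset.single_le_sum (f := fun j => |m j|) (fun i _ => abs_nonneg _)
      (Finset.mem_range.2 hj)
  · refine le_trans (hC2 _ b (self_subset_cthickening K hb) ?_) (le_max_left _ _)
    refine mem_cthickening_of_dist_le _ b r K hb ?_
    rw [dist_eq_norm]
    exact hj0 j hj b hb

theorem near_one (M : FMet A) {δ : ℝ} (hδ : 0 < δ) :
    ∃ η δ' : ℝ, 0 < η ∧ 0 < δ' ∧ ∀ γ, (∀ b ∈ Ω.B, ‖A.β γ b - b‖ ≤ η) →
      ‖A.L γ Ω.b0 - 1‖ ≤ δ' → ∀ b ∈ closedBall Ω.b0 Ω.r1, ‖A.L γ b - 1‖ ≤ δ := by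
  by_contra hno
  push Not at hno
  have h1 : ∀ j : ℕ, ∃ γ, (∀ b ∈ Ω.B, ‖A.β γ b - b‖ ≤ 1 / ((j : ℝ) + 1)) ∧
      ‖A.L γ Ω.b0 - 1‖ ≤ 1 / ((j : ℝ) + 1) ∧ ∃ b ∈ closedBall Ω.b0 Ω.r1, δ < ‖A.L γ b - 1‖ :=
    fun j => hno _ _ (by positivity) (by positivity)
  choose γ hβ hL x hx hxδ using h1
  obtain ⟨φ, hφ, T, hT, hu⟩ := montel Ω.isOpen (fun j => A.L (γ j)) (fun j => A.L_holo _)
    (fun K hK hKc => L_seq_bound M hβ hK hKc)
  have hTu : ∀ b ∈ Ω.D, ∀ v w, M.H b (T b v) (T b w) = M.H b v w := by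
    intro b hb v w
    have hLT : Tendsto (fun j => A.L (γ (φ j)) b) atTop (𝓝 (T b)) := hu.tendsto_at hb
    have hv : ∀ u, Tendsto (fun j => A.L (γ (φ j)) b u) atTop (𝓝 (T b u)) := fun u =>
      ((ContinuousLinearMap.apply ℂ (E kk) u).continuous.tendsto _).comp hLT
    have hβb : Tendsto (fun j => A.β (γ j) b) atTop (𝓝 b) := by
      rw [Metric.tendsto_nhds]
      intro ε hε
      filter_upwards [near_ev A.toBaseAct hβ (singleton_subset_iff.2 hb) isCompact_singleton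
        (half_pos hε)] with j hj
      rw [dist_eq_norm]
      exact (hj b rfl).trans_lt (half_lt_self hε)
    have h3 : Tendsto (fun j => (A.β (γ (φ j)) b, A.L (γ (φ j)) b v, A.L (γ (φ j)) b w)) atTop
        (𝓝[Ω.D ×ˢ univ] (b, T b v, T b w)) := by
      refine tendsto_nhdsWithin_iff.2 ⟨?_, Eventually.of_forall fun j => ⟨A.mem _ hb, trivial⟩⟩
      exact (hβb.comp hφ.tendsto_atTop).prodMk_nhds ((hv v).prodMk_nhds (hv w))
    have h4 := (M.cont3 (b, T b v, T b w) ⟨hb, trivial⟩).tendsto.comp h3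
    have h5 : (fun x : E n × E kk × E kk => M.H x.1 x.2.1 x.2.2) ∘
        (fun j => (A.β (γ (φ j)) b, A.L (γ (φ j)) b v, A.L (γ (φ j)) b w)) =
        fun _ => M.H b v w := by
      funext j
      exact M.inv _ b hb v w
    rw [h5] at h4
    exact tendsto_nhds_unique h4 tendsto_const_nhds
  have hT0 : T Ω.b0 = 1 := by
    have h2 : Tendsto (fun j => A.L (γ (φ j)) Ω.b0) atTop (𝓝 (T Ω.b0)) := hu.tendsto_at Ω.b0_mem
    have h3 : Tendsto (fun j => A.L (γ j) Ω.b0) atTop (𝓝 1) := by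
      rw [tendsto_iff_norm_sub_tendsto_zero]
      exact squeeze_zero (fun _ => norm_nonneg _) hL tendsto_one_div_add_atTop_nhds_zero_nat
    exact tendsto_nhds_unique h2 (h3.comp hφ.tendsto_atTop)
  have hT1 := rigid M hT hTu Ω.b0_mem hT0
  have h2 := (tendstoLocallyUniformlyOn_iff_forall_isCompact Ω.isOpen).1 hu
    (closedBall Ω.b0 Ω.r1) Ω.hB (isCompact_closedBall _ _)
  rw [Metric.tendstoUniformlyOn_iff] at h2
  obtain ⟨j, hj⟩ := (h2 δ hδ).exists
  have h3 := hj (x (φ j)) (hx (φ j))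
  rw [hT1 _ (Ω.hB (hx (φ j))), dist_eq_norm, norm_sub_rev] at h3
  exact absurd h3 (not_lt.2 (hxδ (φ j)).le)

end Pool.Agent.H.MP_e23cd6_ag.AK
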