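import Pool.Agent.H.MP_e23cd6_ag.AB.A6
import Pool.Agent.H.MP_e23cd6_ag.AB.C1
import Pool.Agent.H.MP_e23cd6_ag.AB.A1
import Pool.Agent.H.MP_e23cd6_ag.AK.Ep1

/-!
ABUK Ep2: pigeonhole: among sufficiently many elements with base map close to the identity there are two whose quotient has linear part close to 1 on the
marked ball.

Proof. η1, δ1 from `near_one`. Let `K = closedBall b0 r1` (compact, in D), C ≥ 1 from `L_bound` for K. Let `g = r1 - r0 > 0`... choose ρ = r0/2 > 0. By `estE` (C1) for the compact set K: constants C2 ≥ 1, e0 with `|β γ b - b| ≤ C2 s`, `|β γ⁻¹ b - b| ≤ C2 s` for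
`b ∈ K` whenever `|β γ - id| ≤ s ≤ e0` on Ω.B. Let η be small (conditions below). Let `|β γ - id| ≤ η` on B for `γ = g i, g j` and `w = (g i)⁻¹ g j`.
(1) `β w b = β (g i)⁻¹ (β (g j) b)`: for `b ∈ B` the point `β (g j) b` is in K (η ≤ r1 - r0), so `|β w b - b| ≤ C2 η + η ≤ η1`. OK if `(C2 + 1) η ≤ η1`.
(2) `L (g i)⁻¹ (β (g j) b0) * L (g i) (β w b0) = 1`: `FibAct.L_inv_mul (g i)` at the point `β w b0` with `β (g i) (β w b0) = β (g j) b0`. And `L w b0 = L (g i)⁻¹ (β (g j) b0) * L (g j) b0` (`L_mul`). So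
`L w b0 - 1 = L (g i)⁻¹ (β (g j) b0) * (L (g j) b0 - L (g i) (β w b0))`. The first factor has norm `≤ C`: `β (g j) b0 ∈ K` and `β (g i)⁻¹ (β (g j) b0) = β w b0 ∈ K`.
(3) `L (g i)` is holomorphic on `ball b0 r0`, bounded by C there (for `b ∈ B`: b ∈ K and β (g i) b ∈ K), `|β w b0 - b0| ≤ (C2+1) η < r0/2`, so by `cauchy_lip` (A1) `‖L (g i) (β w b0) - L (g i) b0‖ ≤ (4C/r0)(C2+1) η`.
(4) All `L (g i) b0` lie in the compact ball of radius C of the finite dimensional space `E kk →L[ℂ] E kk`; cover it by N balls of radius `δ1/(8C)`... (total boundedness, `Metric.totallyBounded`/`IsCompact.finite_cover_balls`): among N+1 elements two, `i < j`, lie in the same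
ball (`Fintype.exists_ne_map_eq_of_card_lt`, then order i, j): `‖L (g j) b0 - L (g i) b0‖ ≤ δ1/(4C)`. (N does not depend on η.) Then `‖L w b0 - 1‖ ≤ C (δ1/(4C) + (4C/r0)(C2+1) η) ≤ δ1` for η small.
(5) `near_one` for w.
-/

open Set Filter Topology Metric
open scoped ComplexConjugate

namespace Pool.Agent.H.MP_e23cd6_ag.AK

open Pool.Agent.H.MP_e23cd6_ag.AB

variable {n kk : ℕ} {Ω : Dom n} {Γ : Type} [Group Γ] {A : FibAct Ω kk Γ}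

theorem Ep2_pair (M : FMet A) {δ : ℝ} (hδ : 0 < δ) :
    ∃ η C ε : ℝ, 0 < η ∧ 0 < C ∧ 0 < ε ∧
      (∀ γ, (∀ b ∈ Ω.B, ‖A.β γ b - b‖ ≤ η) → ‖A.L γ Ω.b0‖ ≤ C) ∧
      ∀ γ γ', (∀ b ∈ Ω.B, ‖A.β γ b - b‖ ≤ η) → (∀ b ∈ Ω.B, ‖A.β γ' b - b‖ ≤ η) →
        ‖A.L γ' Ω.b0 - A.L γ Ω.b0‖ ≤ ε →
        ∀ b ∈ closedBall Ω.b0 Ω.r1, ‖A.L (γ⁻¹ * γ') b - 1‖ ≤ δ := by
  obtain ⟨η1, δ1, hη1, hδ1, hnear⟩ := near_one M hδ
  have hKD : closedBall Ω.b0 Ω.r1 ⊆ Ω.D := Ω.hB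
  have hKc : IsCompact (closedBall Ω.b0 Ω.r1) := isCompact_closedBall _ _
  obtain ⟨C, hC, hLC⟩ := L_bound M hKD hKc
  obtain ⟨C2, e0, hC2, he0, hest⟩ := estE A.toBaseAct hKD hKc
  have hr0 := Ω.hr0
  have hr01 := Ω.hr01
  set q : ℝ := C2 + 1 with hq
  have hqp : 0 < q := by positivity
  set η : ℝ := min (min e0 (Ω.r1 - Ω.r0)) (min (η1 / q) (min (Ω.r0 / (4 * q))
    (δ1 * Ω.r0 / (8 * C ^ 2 * q)))) with hη
  have hηp : 0 < η := by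
    refine lt_min (lt_min he0 (sub_pos.2 hr01)) (lt_min (by positivity) (lt_min (by positivity) (by positivity)))
  have e1 : η ≤ e0 := (min_le_left _ _).trans (min_le_left _ _)
  have e2 : η ≤ Ω.r1 - Ω.r0 := (min_le_left _ _).trans (min_le_right _ _)
  have e3 : q * η ≤ η1 := by
    have : η ≤ η1 / q := (min_le_right _ _).trans (min_le_left _ _)
    rw [le_div_iff₀ hqp] at this
    linarith
  have e4 : q * η ≤ Ω.r0 / 4 := by
    have : η ≤ Ω.r0 / (4 * q) := (min_le_right _ _).trans ((min_le_right _ _).trans (min_le_left _ _))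
    rw [le_div_iff₀ (by positivity)] at this
    linarith
  have e5 : C * (4 * C / Ω.r0 * (q * η)) ≤ δ1 / 2 := by
    have : η ≤ δ1 * Ω.r0 / (8 * C ^ 2 * q) :=
      (min_le_right _ _).trans ((min_le_right _ _).trans (min_le_right _ _))
    rw [le_div_iff₀ (by positivity)] at this
    have h2 : C * (4 * C / Ω.r0 * (q * η)) = (η * (8 * C ^ 2 * q)) / (2 * Ω.r0) := by
      field_simp
      ring
    rw [h2, div_le_iff₀ (by positivity)]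
    linarith
  have hBK : Ω.B ⊆ closedBall Ω.b0 Ω.r1 := closedBall_subset_closedBall hr01.le
  -- points of the small ball stay in the big ball
  have hstay : ∀ γ, (∀ b ∈ Ω.B, ‖A.β γ b - b‖ ≤ η) → ∀ b ∈ Ω.B,
      A.β γ b ∈ closedBall Ω.b0 Ω.r1 := by
    intro γ hγ b hb
    have h1 := hγ b hb
    have h2 : ‖b - Ω.b0‖ ≤ Ω.r0 := by
      rw [← dist_eq_norm]; exact hb
    rw [mem_closedBall, dist_eq_norm]
    have h3 : A.β γ b - Ω.b0 = (A.β γ b - b) + (b - Ω.b0) := by abel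
    rw [h3]
    have h4 := norm_add_le (A.β γ b - b) (b - Ω.b0)
    linarith
  have hLB : ∀ γ, (∀ b ∈ Ω.B, ‖A.β γ b - b‖ ≤ η) → ∀ b ∈ Ω.B, ‖A.L γ b‖ ≤ C :=
    fun γ hγ b hb => hLC γ b (hBK hb) (hstay γ hγ b hb)
  refine ⟨η, C, δ1 / (2 * C), hηp, hC, by positivity,
    fun γ hγ => hLB γ hγ _ Ω.b0_mem_B, ?_⟩
  intro γ γ' hγ hγ' hclose
  have hmul : ∀ b ∈ Ω.D, A.β (γ⁻¹ * γ') b = A.β γ⁻¹ (A.β γ' b) := fun b hb => A.mul _ _ b hb
  have hw : ∀ b ∈ Ω.B, ‖A.β (γ⁻¹ * γ') b - b‖ ≤ q * η := by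
    intro b hb
    rw [hmul b (Ω.B_sub hb)]
    have h1 := (hest γ η hηp.le e1 hγ (A.β γ' b) (hstay γ' hγ' b hb)).2
    have h2 := hγ' b hb
    have h3 : A.β γ⁻¹ (A.β γ' b) - b = (A.β γ⁻¹ (A.β γ' b) - A.β γ' b) + (A.β γ' b - b) := by abel
    rw [h3]
    have h4 := norm_add_le (A.β γ⁻¹ (A.β γ' b) - A.β γ' b) (A.β γ' b - b)
    rw [hq]
    linarith
  refine hnear _ (fun b hb => (hw b hb).trans e3) ?_
  set w : Γ := γ⁻¹ * γ' with hwdef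
  set y : E n := A.β w Ω.b0 with hy
  have hyn : ‖y - Ω.b0‖ ≤ q * η := hw _ Ω.b0_mem_B
  have hyb : y ∈ ball Ω.b0 (Ω.r0 / 2) := by
    rw [mem_ball, dist_eq_norm]
    linarith
  have hyB : y ∈ Ω.B := by
    show dist y Ω.b0 ≤ Ω.r0
    rw [dist_eq_norm]
    linarith
  have hyD : y ∈ Ω.D := Ω.B_sub hyB
  have hγy : A.β γ y = A.β γ' Ω.b0 := by
    rw [hy, ← A.mul _ _ _ Ω.b0_mem, hwdef, mul_inv_cancel_left]
  have hinv := A.L_inv_mul γ hyD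
  rw [hγy] at hinv
  have hLw : A.L w Ω.b0 = A.L γ⁻¹ (A.β γ' Ω.b0) * A.L γ' Ω.b0 := A.L_mul _ _ Ω.b0_mem
  have hdiff : A.L w Ω.b0 - 1 = A.L γ⁻¹ (A.β γ' Ω.b0) * (A.L γ' Ω.b0 - A.L γ y) := by
    rw [mul_sub, hinv, hLw]
  have hb1 : ‖A.L γ⁻¹ (A.β γ' Ω.b0)‖ ≤ C := by
    refine hLC _ _ (hstay γ' hγ' _ Ω.b0_mem_B) ?_
    rw [← hmul _ Ω.b0_mem]
    exact hBK hyB
  have hlip : ‖A.L γ Ω.b0 - A.L γ y‖ ≤ 4 * C / Ω.r0 * (q * η) := by
    have h1 := cauchy_lip (f := A.L γ) (x := Ω.b0) (r := Ω.r0) (m := C) hr0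
      ((A.L_holo γ).mono (ball_subset_closedBall.trans Ω.B_sub))
      (fun y hy => hLB γ hγ y (ball_subset_closedBall hy))
      (y := Ω.b0) (z := y) (mem_ball_self (by positivity)) hyb
    refine h1.trans ?_
    rw [norm_sub_rev Ω.b0 y]
    gcongr
  have h2 : ‖A.L γ' Ω.b0 - A.L γ y‖ ≤ δ1 / (2 * C) + 4 * C / Ω.r0 * (q * η) := by
    have h3 : A.L γ' Ω.b0 - A.L γ y = (A.L γ' Ω.b0 - A.L γ Ω.b0) + (A.L γ Ω.b0 - A.L γ y) := by abel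
    rw [h3]
    have h4 := norm_add_le (A.L γ' Ω.b0 - A.L γ Ω.b0) (A.L γ Ω.b0 - A.L γ y)
    linarith
  rw [hdiff]
  calc ‖A.L γ⁻¹ (A.β γ' Ω.b0) * (A.L γ' Ω.b0 - A.L γ y)‖
      ≤ ‖A.L γ⁻¹ (A.β γ' Ω.b0)‖ * ‖A.L γ' Ω.b0 - A.L γ y‖ := norm_mul_le _ _
    _ ≤ C * (δ1 / (2 * C) + 4 * C / Ω.r0 * (q * η)) := by
        gcongr
    _ = δ1 / 2 + C * (4 * C / Ω.r0 * (q * η)) := by
        field_simp
    _ ≤ δ1 := by linarith

theorem pigeon (M : FMet A) {δ : ℝ} (hδ : 0 < δ) :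
    ∃ (η : ℝ) (N : ℕ), 0 < η ∧ ∀ g : Fin (N + 1) → Γ,
      (∀ i, ∀ b ∈ Ω.B, ‖A.β (g i) b - b‖ ≤ η) →
      ∃ i j, i < j ∧ ∀ b ∈ closedBall Ω.b0 Ω.r1, ‖A.L ((g i)⁻¹ * g j) b - 1‖ ≤ δ := by
  classical
  obtain ⟨η, C, ε, hη, hC, hε, hbd, hpair⟩ := Ep2_pair M hδ
  haveI : ProperSpace (E kk →L[ℂ] E kk) := FiniteDimensional.proper ℂ _
  obtain ⟨t, -, htf, htc⟩ := (isCompact_closedBall (0 : E kk →L[ℂ] E kk) C).finite_cover_balls
    (half_pos hε)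
  refine ⟨η, htf.toFinset.card, hη, fun g hg => ?_⟩
  have hex : ∀ i, ∃ x ∈ htf.toFinset, A.L (g i) Ω.b0 ∈ ball x (ε / 2) := by
    intro i
    have h1 : A.L (g i) Ω.b0 ∈ closedBall (0 : E kk →L[ℂ] E kk) C := by
      rw [mem_closedBall, dist_zero_right]
      exact hbd _ (hg i)
    have h2 := htc h1
    simp only [mem_iUnion] at h2
    obtain ⟨x, hx, hx2⟩ := h2
    exact ⟨x, htf.mem_toFinset.2 hx, hx2⟩
  choose f hf hf2 using hex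
  obtain ⟨i, -, j, -, hij, hfij⟩ := Finset.exists_ne_map_eq_of_card_lt_of_maps_to
    (s := (Finset.univ : Finset (Fin (htf.toFinset.card + 1)))) (t := htf.toFinset) (f := f)
    (by simp) (fun i _ => hf i)
  have hd : ∀ i j, f i = f j → ‖A.L (g j) Ω.b0 - A.L (g i) Ω.b0‖ ≤ ε := by
    intro i j h
    have h1 := hf2 i
    have h2 := hf2 j
    rw [← h] at h2
    rw [mem_ball] at h1 h2
    rw [← dist_eq_norm]
    have := dist_triangle_right (A.L (g j) Ω.b0) (A.L (g i) Ω.b0) (f i)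
    linarith
  rcases lt_or_gt_of_ne hij with h | h
  · exact ⟨i, j, h, hpair _ _ (hg i) (hg j) (hd i j hfij)⟩
  · exact ⟨j, i, h, hpair _ _ (hg j) (hg i) (hd j i hfij.symm)⟩

end Pool.Agent.H.MP_e23cd6_ag.AK
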