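import Pool.Agent.H.MP_e23cd6_ag.AB.E2

/-!
ABUK Ex: if no nonzero Ad-stable subspace of limit fields is perfect then nonzero limit fields lead to a nonzero abelian Ad-stable subspace.
-/

open Set Filter Topology Metric

namespace Pool.Agent.H.MP_e23cd6_ag.AK

open Pool.Agent.H.MP_e23cd6_ag.AB

variable {n : ℕ} {Ω : Dom n} {Γ : Type} [Group Γ]

theorem exists_abelian_of (A : BaseAct Ω Γ)
    (hnp : ∀ P : Submodule ℝ (Lie A), (∀ δ, ∀ X ∈ P, AdL A δ X ∈ P) →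
      P ≤ Submodule.span ℝ {Z | ∃ X ∈ P, ∃ Y ∈ P, Z = brL A X Y} → P = ⊥)
    (hL : ∃ X : Lie A, X ≠ 0) :
    ∃ P : Submodule ℝ (Lie A), P ≠ ⊥ ∧ (∀ δ, ∀ X ∈ P, AdL A δ X ∈ P) ∧
      ∀ X ∈ P, ∀ Y ∈ P, brL A X Y = 0 := by
  classical
  -- a nonzero Ad-stable subspace of minimal dimension
  let S : Set ℕ := {d | ∃ P : Submodule ℝ (Lie A), P ≠ ⊥ ∧
    (∀ δ, ∀ X ∈ P, AdL A δ X ∈ P) ∧ Module.finrank ℝ P = d}
  have hS : S.Nonempty := by
    refine ⟨_, ⊤, ?_, fun _ _ _ => Submodule.mem_top, rfl⟩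
    obtain ⟨X, hX⟩ := hL
    intro h
    exact hX (by simpa [h] using (Submodule.mem_top : X ∈ (⊤ : Submodule ℝ (Lie A))))
  obtain ⟨P, hne, hst, hd⟩ := Nat.sInf_mem hS
  refine ⟨P, hne, hst, ?_⟩
  set Q : Submodule ℝ (Lie A) :=
    Submodule.span ℝ {Z | ∃ X ∈ P, ∃ Y ∈ P, Z = brL A X Y} with hQ
  have hQP : Q ≤ P := by
    rw [hQ, Submodule.span_le]
    rintro Z ⟨X, hX, Y, -, rfl⟩
    exact br_mem hst hX Y
  have hQst : ∀ δ, ∀ X ∈ Q, AdL A δ X ∈ Q := by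
    intro δ X hX
    have : Q ≤ Q.comap (AdL A δ) := by
      conv_lhs => rw [hQ]
      rw [Submodule.span_le]
      rintro Z ⟨X, hX, Y, hY, rfl⟩
      show AdL A δ (brL A X Y) ∈ Q
      rw [Ad_br]
      exact Submodule.subset_span ⟨_, hst δ X hX, _, hst δ Y hY, rfl⟩
    exact this hX
  by_cases hQ0 : Q = ⊥
  · intro X hX Y hY
    have : brL A X Y ∈ Q := Submodule.subset_span ⟨X, hX, Y, hY, rfl⟩
    rw [hQ0] at this
    exact (Submodule.mem_bot ℝ).mp this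
  · exfalso
    have h1 : sInf S ≤ Module.finrank ℝ Q := Nat.sInf_le ⟨Q, hQ0, hQst, rfl⟩
    have h2 : Q = P := Submodule.eq_of_le_of_finrank_le hQP (by rw [hd]; exact h1)
    exact hne (hnp P hst (by rw [← hQ, h2]))

end Pool.Agent.H.MP_e23cd6_ag.AK
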