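import Pool.Agent.H.MP_3a36cd_an.SCV1
import Pool.Agent.H.MP_e23cd6_ag.AK.Defs

/-!
ABUN G4: the action on M = D × ℂ, a smooth partition of unity and a smooth potential for an additive character.

M = Ω.D ×ˢ univ is open in E n × E kk. `act A γ (b,z) = (β γ b, a γ b * z + c γ b)`.
* `act_holo`: act γ is holomorphic on M; `act_maps`, `act_mul`, `act_one` from the cocycle rules.
* `act_pd`: for K compact in M the set {γ | act γ '' K meets K} is finite: K ⊆ K1 × closedBall 0 R with K1 = image of K under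
  Prod.fst (compact in D), use `pd`.
* `act_pd2`: for K, K' compact in M: {γ | ∃ x ∈ K, act γ x ∈ K'} is finite (apply act_pd to K ∪ K').
* `exists_cutoff`: for K ⊆ U, K compact, U open in a finite dimensional real normed space there is a smooth compactly
  supported function with values in [0,1], equal to 1 on a neighbourhood of K, tsupport ⊆ U
  (Mathlib: `exists_contDiff_tsupport_subset`, `exists_contMDiff_...`, `exists_smooth_one_nhds_of_subset_interior`, ...).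
* `exists_chi`: Let K0, R from `cc`, ψ : E n × E kk → ℝ from exists_cutoff with ψ = 1 on K0 × closedBall 0 R, tsupport ψ compact ⊆ M.
  S x = Σᶠ_γ ψ(act γ x) for x ∈ M: near each point of M (compact neighbourhood N ⊆ M) only the finitely many γ with
  act γ N ∩ tsupport ψ ≠ ∅ contribute, so S is smooth on M, S ≥ 1 by cc (all terms ≥ 0 and one term equals 1),
  S(act δ x) = S x (reindex γ ↦ γ δ). χ x = ψ x / S x for x ∈ M, 0 outside: smooth (zero near the complement of tsupport ψ), compact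
  support in M, ≥ 0, Σᶠ_γ χ(act γ x) = 1.
  Normalization at a given point x1 ∈ M: choosing ψ(x1) = 1 too (replace the compact set by its union with {x1}) gives χ x1 > 0.
* `exists_u0`: u0 x = -Σᶠ_γ k γ * χ(act γ x) on M: smooth on M, u0 (act δ x) = -Σᶠ k γ χ(act (γδ) x) = -Σᶠ (k γ' - k δ) χ(act γ' x) =
  u0 x + k δ.
-/

open Set Filter Topology Metric
open scoped ContDiff

namespace Pool.Agent.H.MP_e23cd6_ag.AK

open Pool.Agent.H.MP_e23cd6_ag.AB

variable {n kk : ℕ} {Ω : Dom n} {Γ : Type} [Group Γ]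

/-- The action is smooth. -/
theorem G4_smooth (A : TotAct Ω kk Γ) (γ : Γ) : ContDiffOn ℝ ∞ (A.act γ) (TM Ω kk) :=
  (Pool.Agent.ParLeaf.scv_contDiffOn (TM_open Ω kk) (act_holo A γ)).restrict_scalars ℝ

/-- Smooth function with compact support in an open set, positive on a compact set. -/
theorem G4_bump {K U : Set (E n × E kk)} (hK : IsCompact K) (hU : IsOpen U) (hKU : K ⊆ U) :
    ∃ ψ : E n × E kk → ℝ, ContDiff ℝ ∞ ψ ∧ HasCompactSupport ψ ∧ tsupport ψ ⊆ U ∧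
      (∀ x, 0 ≤ ψ x) ∧ ∀ x ∈ K, 0 < ψ x := by
  refine hK.induction_on (p := fun T => ∃ ψ : E n × E kk → ℝ, ContDiff ℝ ∞ ψ ∧
    HasCompactSupport ψ ∧ tsupport ψ ⊆ U ∧ (∀ x, 0 ≤ ψ x) ∧ ∀ x ∈ T, 0 < ψ x) ?_ ?_ ?_ ?_
  · refine ⟨fun _ => 0, contDiff_const, HasCompactSupport.zero, ?_, fun _ => le_rfl,
      fun x hx => absurd hx (notMem_empty x)⟩
    have h0 : tsupport (fun _ : E n × E kk => (0 : ℝ)) = ∅ := by
      simp [tsupport]
    rw [h0]
    exact empty_subset _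
  · rintro S T hST ⟨ψ, h1, h2, h3, h4, h5⟩
    exact ⟨ψ, h1, h2, h3, h4, fun x hx => h5 x (hST hx)⟩
  · rintro S T ⟨ψ, h1, h2, h3, h4, h5⟩ ⟨φ, g1, g2, g3, g4, g5⟩
    refine ⟨fun x => ψ x + φ x, h1.add g1, h2.add g2, ?_, fun x => add_nonneg (h4 x) (g4 x), ?_⟩
    · exact (tsupport_add ψ φ).trans (union_subset h3 g3)
    · rintro x (hx | hx)
      · exact add_pos_of_pos_of_nonneg (h5 x hx) (g4 x)
      · exact add_pos_of_nonneg_of_pos (h4 x) (g5 x hx)
  · intro x hx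
    obtain ⟨f, h1, h2, h3, h4, h5⟩ := exists_contDiff_tsupport_subset (n := ⊤)
      (hU.mem_nhds (hKU hx))
    refine ⟨{y | 0 < f y}, ?_, f, h3, h2, h1, fun y => (h4 ⟨y, rfl⟩).1, fun y hy => hy⟩
    have ho : IsOpen {y | 0 < f y} := isOpen_lt continuous_const h3.continuous
    exact mem_nhdsWithin_of_mem_nhds (ho.mem_nhds (by show 0 < f x; rw [h5]; exact one_pos))

section locfin

variable (A : TotAct Ω kk Γ) {φ : E n × E kk → ℝ} (hφ : ContDiff ℝ ∞ φ) (hc : HasCompactSupport φ)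
  (hs : tsupport φ ⊆ (TM Ω kk))

include hc hs in
theorem G4_fin {x : E n × E kk} (hx : x ∈ (TM Ω kk)) : {γ | φ (A.act γ x) ≠ 0}.Finite := by
  refine (act_pd A (K := {x}) (singleton_subset_iff.2 hx) isCompact_singleton hs hc).subset ?_
  intro γ hγ
  exact ⟨x, rfl, subset_tsupport _ hγ⟩

include hc hs in
theorem G4_fin' (w : Γ → ℝ) {x : E n × E kk} (hx : x ∈ (TM Ω kk)) :
    (Function.support fun γ => w γ * φ (A.act γ x)).Finite := by
  refine (G4_fin A hc hs hx).subset ?_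
  intro γ hγ h0
  exact hγ (by simp only; rw [h0, mul_zero])

include hφ hc hs in
theorem G4_locfin (w : Γ → ℝ) :
    ContDiffOn ℝ ∞ (fun x => ∑ᶠ γ, w γ * φ (A.act γ x)) (TM Ω kk) := by
  classical
  intro x hx
  obtain ⟨N, hN, hxN, hNM⟩ := exists_compact_subset (TM_open Ω kk) hx
  have hfin := act_pd A hNM hN hs hc
  have hev : (fun x => ∑ᶠ γ, w γ * φ (A.act γ x)) =ᶠ[𝓝 x]
      fun y => ∑ γ ∈ hfin.toFinset, w γ * φ (A.act γ y) := by
    filter_upwards [isOpen_interior.mem_nhds hxN] with y hy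
    apply finsum_eq_sum_of_support_subset
    intro γ hγ
    rw [Finset.mem_coe, Set.Finite.mem_toFinset]
    refine ⟨y, interior_subset hy, subset_tsupport _ fun h0 => hγ ?_⟩
    simp only
    rw [h0, mul_zero]
  have h1 : ContDiffAt ℝ ∞ (fun y => ∑ γ ∈ hfin.toFinset, w γ * φ (A.act γ y)) x := by
    refine ContDiffAt.sum fun γ _ => ?_
    have h2 : ContDiffAt ℝ ∞ (A.act γ) x := (G4_smooth A γ).contDiffAt ((TM_open Ω kk).mem_nhds hx)
    exact contDiffAt_const.mul (hφ.contDiffAt.comp x h2)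
  exact (h1.congr_of_eventuallyEq hev).contDiffWithinAt

theorem G4_shift (F : Γ → E n × E kk → ℝ) (G : Γ → ℝ) (δ : Γ) {x : E n × E kk}
    (hFG : ∀ γ, F γ (A.act δ x) = G (γ * δ)) :
    ∑ᶠ γ, F γ (A.act δ x) = ∑ᶠ γ, G γ := by
  have h1 : (fun γ => F γ (A.act δ x)) = fun γ => G (Equiv.mulRight δ γ) := funext hFG
  rw [h1]
  exact finsum_comp_equiv (Equiv.mulRight δ)

end locfin

/-- smooth partition of unity for the action, positive at a given point -/
theorem exists_chi (A : TotAct Ω kk Γ) {x1 : E n × E kk} (hx1 : x1 ∈ (TM Ω kk)) :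
    ∃ χ : E n × E kk → ℝ, ContDiff ℝ ∞ χ ∧ HasCompactSupport χ ∧ tsupport χ ⊆ (TM Ω kk) ∧
      (∀ x, 0 ≤ χ x) ∧ 0 < χ x1 ∧ ∀ x ∈ (TM Ω kk), ∑ᶠ γ, χ (A.act γ x) = 1 := by
  obtain ⟨K0, hK0, hK0c, hR⟩ := A.cc
  obtain ⟨ψ, h1, h2, h3, h4, h5⟩ := G4_bump (K := K0 ∪ {x1})
    (hK0c.union isCompact_singleton) (TM_open Ω kk)
    (union_subset hK0 (singleton_subset_iff.2 hx1))
  set S : E n × E kk → ℝ := fun x => ∑ᶠ γ, ψ (A.act γ x) with hS
  have hSs : ContDiffOn ℝ ∞ S (TM Ω kk) := by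
    have := G4_locfin A h1 h2 h3 (fun _ => 1)
    simpa only [one_mul] using this
  have hSpos : ∀ x ∈ (TM Ω kk), 0 < S x := by
    intro x hx
    obtain ⟨γ, hγ⟩ := hR x hx
    have h6 : 0 < ψ (A.act γ x) := h5 _ (Or.inl hγ)
    exact h6.trans_le (single_le_finsum γ (G4_fin A h2 h3 hx) fun γ => h4 _)
  have hSinv : ∀ δ, ∀ x ∈ (TM Ω kk), S (A.act δ x) = S x := fun δ x hx =>
    G4_shift A (fun γ y => ψ (A.act γ y)) (fun γ => ψ (A.act γ x)) δ
      fun γ => by rw [act_mul A γ δ hx]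
  have hsup : tsupport (fun x => ψ x / S x) ⊆ tsupport ψ := by
    refine closure_mono fun x hx h0 => hx ?_
    simp only
    rw [h0, zero_div]
  refine ⟨fun x => ψ x / S x, ?_, ?_, hsup.trans h3, ?_, ?_, ?_⟩
  · rw [contDiff_iff_contDiffAt]
    intro x
    by_cases hx : x ∈ (TM Ω kk)
    · exact h1.contDiffAt.div (hSs.contDiffAt ((TM_open Ω kk).mem_nhds hx)) (hSpos x hx).ne'
    · have hx' : x ∉ tsupport ψ := fun h => hx (h3 h)
      have h6 : (fun x => ψ x / S x) =ᶠ[𝓝 x] fun _ => 0 := by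
        filter_upwards [(isClosed_tsupport ψ).isOpen_compl.mem_nhds hx'] with y hy
        rw [image_eq_zero_of_notMem_tsupport hy, zero_div]
      exact contDiffAt_const.congr_of_eventuallyEq h6
  · exact h2.of_isClosed_subset (isClosed_tsupport _) hsup
  · intro x
    by_cases hx : x ∈ (TM Ω kk)
    · exact div_nonneg (h4 x) (hSpos x hx).le
    · have hx' : x ∉ tsupport ψ := fun h => hx (h3 h)
      simp only
      rw [image_eq_zero_of_notMem_tsupport hx', zero_div]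
  · exact div_pos (h5 x1 (Or.inr rfl)) (hSpos x1 hx1)
  · intro x hx
    have h6 : ∀ γ, ψ (A.act γ x) / S (A.act γ x) = ψ (A.act γ x) * (S x)⁻¹ := by
      intro γ
      rw [hSinv γ x hx, div_eq_mul_inv]
    simp only [h6]
    rw [← finsum_mul]
    exact mul_inv_cancel₀ (hSpos x hx).ne'

/-- smooth potential for an additive character -/
theorem exists_u0 (A : TotAct Ω kk Γ) (k : Γ → ℝ) (hk : ∀ γ δ, k (γ * δ) = k γ + k δ)
    {χ : E n × E kk → ℝ} (hχ : ContDiff ℝ ∞ χ) (hc : HasCompactSupport χ) (hs : tsupport χ ⊆ (TM Ω kk))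
    (h1 : ∀ x ∈ (TM Ω kk), ∑ᶠ γ, χ (A.act γ x) = 1) :
    ∃ u0 : E n × E kk → ℝ, ContDiffOn ℝ ∞ u0 (TM Ω kk) ∧
      (∀ x ∈ (TM Ω kk), u0 x = - ∑ᶠ γ, k γ * χ (A.act γ x)) ∧
      ∀ δ, ∀ x ∈ (TM Ω kk), u0 (A.act δ x) = u0 x + k δ := by
  refine ⟨fun x => - ∑ᶠ γ, k γ * χ (A.act γ x), (G4_locfin A hχ hc hs k).neg,
    fun x _ => rfl, fun δ x hx => ?_⟩
  have h2 := G4_shift A (fun γ y => k γ * χ (A.act γ y))
    (fun γ => k γ * χ (A.act γ x) - k δ * χ (A.act γ x)) δ (fun γ => by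
      rw [act_mul A γ δ hx, hk]
      ring)
  show -∑ᶠ γ, k γ * χ (A.act γ (A.act δ x)) = -∑ᶠ γ, k γ * χ (A.act γ x) + k δ
  rw [h2, finsum_sub_distrib (G4_fin' A hc hs k hx) (G4_fin' A hc hs (fun _ => k δ) hx),
    ← mul_finsum, h1 x hx]
  ring

end Pool.Agent.H.MP_e23cd6_ag.AK
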