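import Pool.Agent.H.MP_e23cd6_ag.AB.G3
import Pool.Agent.H.MP_e23cd6_ag.AK.G4

/-!
ABUN G7c: sub-mean value inequalities for m_N(x) = log max(Q x.1, exp(u0 x - N)).

u0 is smooth on M, Q continuous on D (`Qdet_cont`), nonnegative. m_N is continuous on M.
* `u0_circle`: K ⊆ M compact. Choose r0 with cthickening r0 K ⊆ M (compact). |D²u0| ≤ C on it, so by Taylor (line segment
  y + z v, |z| ≤ s ≤ r0, ‖v‖ ≤ 1) u0(y + z v) ≥ u0 y + Du0(y)(z v) - C s²; average over the circle (linear term averages to 0).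
* `mN_submean`: r0, C from u0_circle, y ∈ K, ‖v‖ ≤ 1, 0 < s ≤ r0, v = (v', v''). If Q y.1 < exp(u0 y - N): m_N y = u0 y - N and
  m_N(y + z v) ≥ u0(y + z v) - N: the average is ≥ u0 y - C s² - N. Otherwise Q y.1 ≥ exp(u0 y - N) > 0 and m_N y = log Q y.1; apply
  `Q_submean` with b = y.1, v', g(z) = m_N(y + z v) (continuous on the circle, log Q ≤ g where Q > 0).
* `mN_strict`: Q b1 > 0, continuity: choose ρ and N0 with Q y.1 ≥ exp(u0 y - N) for all N ≥ N0, y ∈ closedBall (b1,0) ρ. Let c', ρ' from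
  `Q_strict`, v1 = λ X_{j0}(b1) with λ > 0 real, ‖v1‖ ≤ 1, λ ≤ 1; y + z (v1, 0) has first component y.1 + (λ z) X_{j0}(b1); g(z) = m_N(y + (z/λ)(v1,0)) on the
  circle of radius λ s (circleAverage under scaling z ↦ λ z: definition of circleMap). So m_N y + c' λ² s² ≤ average.
-/

open Set Filter Topology Metric Complex
open scoped ContDiff

namespace Pool.Agent.H.MP_e23cd6_ag.AK

open Pool.Agent.H.MP_e23cd6_ag.AB

variable {n kk : ℕ} {Ω : Dom n}

/-- the regularized potential -/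
noncomputable def mN (Q : E n → ℝ) (u0 : E n × E kk → ℝ) (N : ℝ) (x : E n × E kk) : ℝ :=
  Real.log (max (Q x.1) (Real.exp (u0 x - N)))

/-- the bad set, where the potential is not log Q -/
def ZN (Q : E n → ℝ) (u0 : E n × E kk → ℝ) (N : ℝ) : Set (E n × E kk) :=
  {x | Q x.1 < Real.exp (u0 x - N)}

theorem mN_cont {Q : E n → ℝ} {u0 : E n × E kk → ℝ} (hQ : ContinuousOn Q Ω.D)
    (hu : ContinuousOn u0 (TM Ω kk)) (N : ℝ) : ContinuousOn (mN Q u0 N) (TM Ω kk) := by
  have h1 : ContinuousOn (fun x : E n × E kk => Q x.1) (TM Ω kk) :=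
    hQ.comp continuous_fst.continuousOn fun x hx => hx.1
  have h2 : ContinuousOn (fun x : E n × E kk => Real.exp (u0 x - N)) (TM Ω kk) :=
    Real.continuous_exp.comp_continuousOn (hu.sub continuousOn_const)
  refine ContinuousOn.log (ContinuousOn.sup h1 h2) fun x _ => ?_
  exact ((Real.exp_pos _).trans_le (le_max_right _ _)).ne'

theorem mN_equiv {Γ : Type} [Group Γ] (A : TotAct Ω kk Γ) {Q : E n → ℝ} {u0 : E n × E kk → ℝ}
    (k : Γ → ℝ) (hQ : ∀ γ, ∀ b ∈ Ω.D, Q (A.β γ b) = Real.exp (k γ) * Q b)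
    (hu : ∀ γ, ∀ x ∈ (TM Ω kk), u0 (A.act γ x) = u0 x + k γ) (N : ℝ) (γ : Γ) {x : E n × E kk}
    (hx : x ∈ (TM Ω kk)) : mN Q u0 N (A.act γ x) = mN Q u0 N x + k γ := by
  unfold mN
  have h1 : (A.act γ x).1 = A.β γ x.1 := A.fst γ x hx
  rw [h1, hQ γ x.1 hx.1, hu γ x hx]
  have h2 : Real.exp (u0 x + k γ - N) = Real.exp (k γ) * Real.exp (u0 x - N) := by
    rw [← Real.exp_add]; congr 1; ring
  rw [h2, ← mul_max_of_nonneg _ _ (Real.exp_pos _).le, Real.log_mul (Real.exp_pos _).ne'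
    ((Real.exp_pos _).trans_le (le_max_right _ _)).ne', Real.log_exp]
  ring

/-- Circle averages are invariant under the reflection in the center. -/
theorem G7c_neg (f : ℂ → ℝ) (s : ℝ) :
    Real.circleAverage (fun z => f (-z)) 0 s = Real.circleAverage f 0 s := by
  rw [← Real.circleAverage_neg_radius (f := f), Real.circleAverage_def, Real.circleAverage_def]
  congr 1
  refine intervalIntegral.integral_congr fun θ _ => ?_
  simp [circleMap]

/-- Circle averages under scaling. -/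
theorem G7c_scale (f : ℂ → ℝ) (s l : ℝ) :
    Real.circleAverage (fun z => f ((l : ℂ) * z)) 0 s = Real.circleAverage f 0 (l * s) := by
  rw [Real.circleAverage_def, Real.circleAverage_def]
  congr 1
  refine intervalIntegral.integral_congr fun θ _ => ?_
  simp [circleMap, mul_assoc]

theorem G7c_integrable {u : E n × E kk → ℝ} (hu : ContinuousOn u (TM Ω kk)) {y v : E n × E kk} {s : ℝ}
    (hs : 0 ≤ s) (h : ∀ z : ℂ, ‖z‖ ≤ s → y + z • v ∈ (TM Ω kk)) :
    CircleIntegrable (fun z : ℂ => u (y + z • v)) 0 s := by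
  apply ContinuousOn.circleIntegrable hs
  apply hu.comp (by fun_prop)
  intro z hz
  exact h z (by rw [mem_sphere_zero_iff_norm] at hz; exact hz.le)

theorem G7c_cont {u : E n × E kk → ℝ} (hu : ContinuousOn u (TM Ω kk)) {y v : E n × E kk} {s : ℝ}
    (h : ∀ z : ℂ, ‖z‖ ≤ s → y + z • v ∈ (TM Ω kk)) :
    ContinuousOn (fun z : ℂ => u (y + z • v)) (sphere 0 s) := by
  apply hu.comp (by fun_prop)
  intro z hz
  exact h z (by rw [mem_sphere_zero_iff_norm] at hz; exact hz.le)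

/-- Symmetric second differences of a smooth function. -/
theorem G7c_second {V : Type*} [NormedAddCommGroup V] [NormedSpace ℝ V] [ProperSpace V]
    {U : Set V} (hMo : IsOpen U) {u0 : V → ℝ} (hu : ContDiffOn ℝ ∞ u0 U) {K : Set V}
    (hK : K ⊆ U) (hKc : IsCompact K) :
    ∃ L r0 : ℝ, 0 < L ∧ 0 < r0 ∧ ∀ y ∈ K, closedBall y r0 ⊆ U ∧ ∀ w : V, ∀ s : ℝ,
      ‖w‖ ≤ s → s ≤ r0 → 2 * u0 y - 2 * L * s ^ 2 ≤ u0 (y + w) + u0 (y - w) := by
  obtain ⟨r0, hr0, hr0D⟩ := hKc.exists_cthickening_subset_open hMo hK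
  have hK'c : IsCompact (cthickening r0 K) := hKc.cthickening
  have hball : ∀ y ∈ K, closedBall y r0 ⊆ cthickening r0 K := fun y hy =>
    closedBall_subset_cthickening hy r0
  have hd1 : ContDiffOn ℝ ∞ (fderiv ℝ u0) U := by
    have := hu
    rw [contDiffOn_infty_iff_fderiv_of_isOpen hMo] at this
    exact this.2
  have hd2 : ContDiffOn ℝ ∞ (fderiv ℝ (fderiv ℝ u0)) U := by
    have := hd1
    rw [contDiffOn_infty_iff_fderiv_of_isOpen hMo] at this
    exact this.2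
  obtain ⟨L, hL⟩ := IsCompact.exists_bound_of_continuousOn
    (f := fderiv ℝ (fderiv ℝ u0)) hK'c (hd2.continuousOn.mono hr0D)
  refine ⟨|L| + 1, r0, by positivity, hr0, fun y hy => ⟨(hball y hy).trans hr0D, ?_⟩⟩
  intro w s hws hs
  have hs0 : 0 ≤ s := (norm_nonneg w).trans hws
  have hsb : ∀ w' ∈ closedBall (0 : V) s, y + w' ∈ closedBall y r0 ∧
      y - w' ∈ closedBall y r0 := by
    intro w' hw'
    rw [mem_closedBall_zero_iff] at hw'
    constructor
    · rw [mem_closedBall, dist_eq_norm, add_sub_cancel_left]; linarith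
    · rw [mem_closedBall, dist_eq_norm]
      have : y - w' - y = -w' := by abel
      rw [this, norm_neg]; linarith
  have hLip : ∀ p ∈ closedBall y r0, ∀ q ∈ closedBall y r0,
      ‖fderiv ℝ u0 p - fderiv ℝ u0 q‖ ≤ (|L| + 1) * ‖p - q‖ := by
    intro p hp q hq
    refine Convex.norm_image_sub_le_of_norm_fderiv_le (𝕜 := ℝ) (s := closedBall y r0) ?_ ?_
      (convex_closedBall y r0) hq hp
    · intro x hx
      exact (hd1.differentiableOn (by simp)).differentiableAt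
        (hMo.mem_nhds (hr0D (hball y hy hx)))
    · intro x hx
      have := hL x (hball y hy hx)
      have h2 := le_abs_self L
      linarith
  have hG : ∀ w' ∈ closedBall (0 : V) s, HasFDerivAt (fun w' => u0 (y + w') + u0 (y - w'))
      (fderiv ℝ u0 (y + w') - fderiv ℝ u0 (y - w')) w' := by
    intro w' hw'
    obtain ⟨h1, h2⟩ := hsb w' hw'
    have d1 : HasFDerivAt u0 (fderiv ℝ u0 (y + w')) (y + w') :=
      ((hu.differentiableOn (by simp)).differentiableAt
        (hMo.mem_nhds (hr0D (hball y hy h1)))).hasFDerivAt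
    have d2 : HasFDerivAt u0 (fderiv ℝ u0 (y - w')) (y - w') :=
      ((hu.differentiableOn (by simp)).differentiableAt
        (hMo.mem_nhds (hr0D (hball y hy h2)))).hasFDerivAt
    have e1 : HasFDerivAt (fun w' : V => y + w') (ContinuousLinearMap.id ℝ _) w' :=
      (hasFDerivAt_id w').const_add y
    have e2 : HasFDerivAt (fun w' : V => y - w') (-ContinuousLinearMap.id ℝ _) w' :=
      (hasFDerivAt_id w').const_sub y
    have e3 := (d1.comp w' e1).add (d2.comp w' e2)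
    refine e3.congr_fderiv ?_
    rw [ContinuousLinearMap.comp_neg, ContinuousLinearMap.comp_id, ContinuousLinearMap.comp_id,
      ← sub_eq_add_neg]
  have hw0 : (0 : V) ∈ closedBall (0 : V) s := mem_closedBall_self hs0
  have hw1 : w ∈ closedBall (0 : V) s := by rw [mem_closedBall_zero_iff]; exact hws
  have hmv := Convex.norm_image_sub_le_of_norm_hasFDerivWithin_le (𝕜 := ℝ)
    (C := 2 * (|L| + 1) * s) (fun w' hw' => (hG w' hw').hasFDerivWithinAt)
    (fun w' hw' => by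
      obtain ⟨h1, h2⟩ := hsb w' hw'
      refine (hLip _ h1 _ h2).trans ?_
      have : y + w' - (y - w') = (2 : ℝ) • w' := by rw [two_smul]; abel
      rw [this, norm_smul, Real.norm_of_nonneg (by norm_num : (0 : ℝ) ≤ 2)]
      rw [mem_closedBall_zero_iff] at hw'
      have h3 : 0 ≤ |L| + 1 := by positivity
      nlinarith [mul_le_mul_of_nonneg_left hw' h3])
    (convex_closedBall (0 : V) s) hw0 hw1
  simp only [add_zero, sub_zero] at hmv
  rw [Real.norm_eq_abs] at hmv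
  have h4 := (abs_le.1 hmv).1
  have h5 : 2 * (|L| + 1) * s * ‖w‖ ≤ 2 * (|L| + 1) * s ^ 2 := by
    have h6 : 0 ≤ 2 * (|L| + 1) * s := by positivity
    calc 2 * (|L| + 1) * s * ‖w‖ ≤ 2 * (|L| + 1) * s * s := mul_le_mul_of_nonneg_left hws h6
      _ = _ := by ring
  linarith

theorem u0_circle {u0 : E n × E kk → ℝ} (hu : ContDiffOn ℝ ∞ u0 (TM Ω kk)) {K : Set (E n × E kk)}
    (hK : K ⊆ (TM Ω kk)) (hKc : IsCompact K) :
    ∃ C r0 : ℝ, 0 < C ∧ 0 < r0 ∧ ∀ y ∈ K, ∀ v : E n × E kk, ‖v‖ ≤ 1 → ∀ s : ℝ, 0 < s → s ≤ r0 →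
      (∀ z : ℂ, ‖z‖ ≤ s → y + z • v ∈ (TM Ω kk)) ∧
      u0 y - C * s ^ 2 ≤ Real.circleAverage (fun z : ℂ => u0 (y + z • v)) 0 s := by
  obtain ⟨L, r0, hL, hr0, h⟩ := G7c_second (TM_open Ω kk) hu hK hKc
  refine ⟨L, r0, hL, hr0, fun y hy v hv s hs hsr => ?_⟩
  obtain ⟨hb, h2⟩ := h y hy
  have hzv : ∀ z : ℂ, ‖z‖ ≤ s → ‖z • v‖ ≤ s := by
    intro z hz
    rw [norm_smul]
    calc ‖z‖ * ‖v‖ ≤ s * 1 := mul_le_mul hz hv (norm_nonneg _) hs.le
      _ = s := mul_one s
  have hmem : ∀ z : ℂ, ‖z‖ ≤ s → y + z • v ∈ (TM Ω kk) := by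
    intro z hz
    apply hb
    rw [mem_closedBall, dist_eq_norm, add_sub_cancel_left]
    exact (hzv z hz).trans hsr
  refine ⟨hmem, ?_⟩
  have hi := G7c_integrable (Ω := Ω) hu.continuousOn hs.le hmem
  have hmem' : ∀ z : ℂ, ‖z‖ ≤ s → y + z • (-v) ∈ (TM Ω kk) := by
    intro z hz
    have := hmem (-z) (by rw [norm_neg]; exact hz)
    rwa [neg_smul, ← smul_neg] at this
  have hi' := G7c_integrable (Ω := Ω) hu.continuousOn hs.le hmem'
  have e1 : Real.circleAverage (fun z : ℂ => u0 (y + z • (-v))) 0 s =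
      Real.circleAverage (fun z : ℂ => u0 (y + z • v)) 0 s := by
    rw [← G7c_neg (fun z : ℂ => u0 (y + z • v)) s]
    congr 1
    funext z
    rw [neg_smul, smul_neg]
  have e2 := Real.circleAverage_fun_add hi hi'
  rw [e1] at e2
  have e3 : Real.circleAverage (fun _ : ℂ => 2 * u0 y - 2 * L * s ^ 2) 0 s ≤
      Real.circleAverage (fun z : ℂ => u0 (y + z • v) + u0 (y + z • (-v))) 0 s := by
    refine Real.circleAverage_mono (circleIntegrable_const _ _ _) (hi.add hi') ?_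
    intro z hz
    have hz' : ‖z‖ = s := by
      rw [mem_sphere_zero_iff_norm, abs_of_pos hs] at hz; exact hz
    have := h2 (z • v) s (hzv z hz'.le) hsr
    rw [smul_neg, ← sub_eq_add_neg]
    exact this
  rw [Real.circleAverage_const, e2] at e3
  linarith

theorem mN_submean {r : ℕ} {X : Fin r → E n → E n} (hX : ∀ j, DifferentiableOn ℂ (X j) Ω.D)
    {u0 : E n × E kk → ℝ} (hu : ContDiffOn ℝ ∞ u0 (TM Ω kk)) {K : Set (E n × E kk)}
    (hK : K ⊆ (TM Ω kk)) (hKc : IsCompact K) :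
    ∃ C r0 : ℝ, 0 < C ∧ 0 < r0 ∧ ∀ N : ℝ, ∀ y ∈ K, ∀ v : E n × E kk, ‖v‖ ≤ 1 → ∀ s : ℝ, 0 < s →
      s ≤ r0 → mN (Qdet Ω X) u0 N y - C * s ^ 2 * (ZN (Qdet Ω X) u0 N).indicator (fun _ => 1) y ≤
        Real.circleAverage (fun z : ℂ => mN (Qdet Ω X) u0 N (y + z • v)) 0 s := by
  obtain ⟨C, r0, hC, hr0, h⟩ := u0_circle hu hK hKc
  refine ⟨C, r0, hC, hr0, fun N y hy v hv s hs hsr => ?_⟩
  obtain ⟨hmem, h2⟩ := h y hy v hv s hs hsr
  have hcont := mN_cont (Qdet_cont hX) hu.continuousOn N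
  have hi := G7c_integrable hcont hs.le hmem
  by_cases hZ : y ∈ ZN (Qdet Ω X) u0 N
  · rw [indicator_of_mem hZ, mul_one]
    have e1 : mN (Qdet Ω X) u0 N y = u0 y - N := by
      unfold mN
      rw [max_eq_right (le_of_lt hZ), Real.log_exp]
    have hiu := G7c_integrable (Ω := Ω) hu.continuousOn hs.le hmem
    have e2 : Real.circleAverage (fun z : ℂ => u0 (y + z • v) - N) 0 s ≤
        Real.circleAverage (fun z : ℂ => mN (Qdet Ω X) u0 N (y + z • v)) 0 s := by
      refine Real.circleAverage_mono (hiu.sub (circleIntegrable_const _ _ _)) hi ?_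
      intro z _
      unfold mN
      rw [← Real.log_exp (u0 (y + z • v) - N)]
      exact Real.log_le_log (Real.exp_pos _) (by rw [Real.log_exp]; exact le_max_right _ _)
    have e3 := Real.circleAverage_fun_sub hiu (circleIntegrable_const N 0 s)
    rw [e3, Real.circleAverage_const] at e2
    rw [e1]
    linarith
  · rw [indicator_of_notMem hZ, mul_zero, sub_zero]
    have hZ' : Real.exp (u0 y - N) ≤ Qdet Ω X y.1 := not_lt.1 hZ
    have hQ : 0 < Qdet Ω X y.1 := (Real.exp_pos _).trans_le hZ'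
    have e1 : mN (Qdet Ω X) u0 N y = Real.log (Qdet Ω X y.1) := by
      unfold mN
      rw [max_eq_left hZ']
    rw [e1]
    refine Q_submean hX (v := v.1) hs (fun z hz => (hmem z hz).1) hQ
      (G7c_cont hcont hmem) ?_
    intro z _ hpos
    exact Real.log_le_log hpos (le_max_left _ _)

theorem mN_strict {r : ℕ} {X : Fin r → E n → E n} (hX : ∀ j, DifferentiableOn ℂ (X j) Ω.D)
    {b1 : E n} (hb1 : b1 ∈ Ω.D) (hind : LinearIndependent ℂ (fun j => X j b1)) (j0 : Fin r)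
    {u0 : E n × E kk → ℝ} (hu : ContDiffOn ℝ ∞ u0 (TM Ω kk)) :
    ∃ (c ρ N0 : ℝ) (v1 : E n × E kk), 0 < c ∧ 0 < ρ ∧ ‖v1‖ ≤ 1 ∧
      closedBall (b1, (0 : E kk)) ρ ⊆ (TM Ω kk) ∧ ∀ N : ℝ, N0 ≤ N →
      ∀ y ∈ closedBall (b1, (0 : E kk)) ρ, y ∉ ZN (Qdet Ω X) u0 N ∧ ∀ s : ℝ, 0 < s → s ≤ ρ →
        mN (Qdet Ω X) u0 N y + c * s ^ 2 ≤
          Real.circleAverage (fun z : ℂ => mN (Qdet Ω X) u0 N (y + z • v1)) 0 s := by
  obtain ⟨c, ρ, hc, hρ, h⟩ := Q_strict hX hb1 hind j0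
  have hfst : ∀ y ∈ closedBall (b1, (0 : E kk)) ρ, ‖y.1 - b1‖ ≤ ρ := by
    intro y hy
    rw [mem_closedBall, dist_eq_norm] at hy
    exact (norm_fst_le (y - (b1, (0 : E kk)))).trans hy
  have hsub : closedBall (b1, (0 : E kk)) ρ ⊆ (TM Ω kk) := by
    intro y hy
    have := (h y.1 (hfst y hy) ρ hρ le_rfl).1 0 (by rw [norm_zero]; exact hρ.le)
    rw [zero_smul, add_zero] at this
    exact ⟨this, trivial⟩
  have hcomp : IsCompact (closedBall (b1, (0 : E kk)) ρ) := isCompact_closedBall _ _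
  have hne : (closedBall (b1, (0 : E kk)) ρ).Nonempty := ⟨_, mem_closedBall_self hρ.le⟩
  have hQc : ContinuousOn (fun y : E n × E kk => Qdet Ω X y.1) (closedBall (b1, (0 : E kk)) ρ) :=
    (Qdet_cont hX).comp continuous_fst.continuousOn fun y hy => (hsub hy).1
  obtain ⟨yq, hyq, hqmin⟩ := hcomp.exists_isMinOn hne hQc
  obtain ⟨yu, hyu, humax⟩ := hcomp.exists_isMaxOn hne (hu.continuousOn.mono hsub)
  have hq0 : 0 < Qdet Ω X yq.1 := (h yq.1 (hfst yq hyq) ρ hρ le_rfl).2.1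
  set V := X j0 b1 with hV
  set l : ℝ := 1 / (‖V‖ + 1) with hl
  have hl0 : 0 < l := by positivity
  have hl1 : l ≤ 1 := by
    rw [hl, div_le_one (by positivity)]
    have := norm_nonneg V
    linarith
  have hlV : ‖(l : ℂ) • V‖ ≤ 1 := by
    rw [norm_smul, Complex.norm_real, Real.norm_of_nonneg hl0.le, hl, one_div,
      inv_mul_le_iff₀ (by positivity)]
    linarith
  have hNe : ∀ N : ℝ, u0 yu - Real.log (Qdet Ω X yq.1) ≤ N →
      ∀ y ∈ closedBall (b1, (0 : E kk)) ρ, Real.exp (u0 y - N) ≤ Qdet Ω X y.1 := by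
    intro N hN y hy
    have h1 : u0 y ≤ u0 yu := humax hy
    have h2 : Qdet Ω X yq.1 ≤ Qdet Ω X y.1 := hqmin hy
    refine le_trans ?_ h2
    rw [← Real.le_log_iff_exp_le hq0]
    linarith
  refine ⟨c * l ^ 2, ρ, u0 yu - Real.log (Qdet Ω X yq.1), ((l : ℂ) • V, 0), by positivity, hρ,
    ?_, hsub, fun N hN y hy => ⟨?_, fun s hs hsρ => ?_⟩⟩
  · rw [Prod.norm_def]
    simp only [norm_zero]
    exact max_le hlV zero_le_one
  · intro hyZ
    exact absurd (hNe N hN y hy) (not_le.2 hyZ)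
  · have hcont := mN_cont (Qdet_cont hX) hu.continuousOn N
    have hls : 0 < l * s := by positivity
    have hlsρ : l * s ≤ ρ := by nlinarith
    obtain ⟨h1, h2, h3⟩ := h y.1 (hfst y hy) (l * s) hls hlsρ
    have hmem : ∀ z : ℂ, ‖z‖ ≤ l * s → y + z • ((V, 0) : E n × E kk) ∈ (TM Ω kk) := fun z hz =>
      ⟨h1 z hz, trivial⟩
    have h4 := h3 (fun z => mN (Qdet Ω X) u0 N (y + z • ((V, 0) : E n × E kk)))
      (G7c_cont hcont hmem) (fun z _ hpos => Real.log_le_log hpos (le_max_left _ _))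
    rw [← G7c_scale] at h4
    have e1 : mN (Qdet Ω X) u0 N y = Real.log (Qdet Ω X y.1) := by
      unfold mN
      rw [max_eq_left (hNe N hN y hy)]
    have e2 : (fun z : ℂ => mN (Qdet Ω X) u0 N (y + ((l : ℂ) * z) • ((V, 0) : E n × E kk))) =
        fun z : ℂ => mN (Qdet Ω X) u0 N (y + z • (((l : ℂ) • V, 0) : E n × E kk)) := by
      funext z
      congr 2
      rw [Prod.smul_mk, Prod.smul_mk, smul_zero, smul_zero, smul_smul, mul_comm]
    rw [e2] at h4
    rw [e1]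
    refine le_trans (le_of_eq ?_) h4
    ring

end Pool.Agent.H.MP_e23cd6_ag.AK
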