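import Pool.Agent.H.MP_e23cd6_ag.AB.G8
import Pool.Agent.H.MP_e23cd6_ag.AK.G7c

/-!
AK G8: the bad sets have small volume (as AB.G8, fibre ℂ^k).
-/

open Set Filter Topology Metric Complex MeasureTheory
open scoped ContDiff

namespace Pool.Agent.H.MP_e23cd6_ag.AK

open Pool.Agent.H.MP_e23cd6_ag.AB hiding mN ZN mN_cont mN_equiv vol_ZN

variable {n kk : ℕ} {Ω : Dom n}

theorem vol_ZN {r : ℕ} {X : Fin r → E n → E n} (hX : ∀ j, DifferentiableOn ℂ (X j) Ω.D)
    {b1 : E n} (hb1 : b1 ∈ Ω.D) (hind : LinearIndependent ℂ (fun j => X j b1))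
    {u0 : E n × E kk → ℝ} (hu : ContinuousOn u0 (TM Ω kk)) {K : Set (E n × E kk)} (hK : K ⊆ (TM Ω kk))
    (hKc : IsCompact K) :
    Tendsto (fun N : ℕ => (volume (ZN (Qdet Ω X) u0 N ∩ K)).toReal) atTop (𝓝 0) := by
  have hKt : volume K ≠ ⊤ := hKc.measure_lt_top.ne
  have hQc : ContinuousOn (fun x : E n × E kk => Qdet Ω X x.1) K :=
    (Qdet_cont hX).comp continuous_fst.continuousOn fun x hx => (hK hx).1
  have huK : ContinuousOn u0 K := hu.mono hK
  have hmeas : ∀ N : ℕ, NullMeasurableSet (ZN (Qdet Ω X) u0 N ∩ K) volume := by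
    intro N
    have hg : ContinuousOn (fun x : E n × E kk => Qdet Ω X x.1 - Real.exp (u0 x - N)) K :=
      hQc.sub (Real.continuous_exp.comp_continuousOn (huK.sub continuousOn_const))
    obtain ⟨u, huo, hue⟩ := continuousOn_iff'.1 hg (Iio 0) isOpen_Iio
    have : ZN (Qdet Ω X) u0 N ∩ K = u ∩ K := by
      rw [← hue]
      ext x
      simp only [ZN, mem_inter_iff, mem_ofPred_eq, mem_preimage, mem_Iio, sub_neg]
    rw [this]
    exact (huo.measurableSet.inter hKc.measurableSet).nullMeasurableSet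
  have hanti : Antitone (fun N : ℕ => ZN (Qdet Ω X) u0 N ∩ K) := by
    intro N N' hNN
    refine inter_subset_inter_left _ fun x hx => ?_
    refine lt_of_lt_of_le (show Qdet Ω X x.1 < Real.exp (u0 x - N') from hx) ?_
    refine Real.exp_le_exp.2 ?_
    have : (N : ℝ) ≤ N' := by exact_mod_cast hNN
    linarith
  have hlim := tendsto_measure_iInter_atTop hmeas hanti
    ⟨0, ((measure_mono inter_subset_right).trans_lt hKt.lt_top).ne⟩
  have hz : volume (⋂ N : ℕ, ZN (Qdet Ω X) u0 N ∩ K) = 0 := by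
    refine measure_mono_null (t := {b | b ∈ Ω.D ∧ Qdet Ω X b = 0} ×ˢ (univ : Set (E kk))) ?_ ?_
    · intro x hx
      rw [mem_iInter] at hx
      refine ⟨⟨(hK (hx 0).2).1, ?_⟩, mem_univ _⟩
      refine le_antisymm ?_ (Qdet_nonneg X x.1)
      have htend : Tendsto (fun N : ℕ => Real.exp (u0 x - N)) atTop (𝓝 0) := by
        refine Real.tendsto_exp_atBot.comp ?_
        exact tendsto_atBot_add_const_left _ _
          (tendsto_neg_atTop_atBot.comp tendsto_natCast_atTop_atTop)
      exact ge_of_tendsto' htend fun N => (show Qdet Ω X x.1 < _ from (hx N).1).le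
    · rw [Measure.volume_eq_prod, Measure.prod_prod, Q_null hX hb1 hind, zero_mul]
  rw [hz] at hlim
  have h2 := (ENNReal.tendsto_toReal ENNReal.zero_ne_top).comp hlim
  rw [ENNReal.toReal_zero] at h2
  exact h2

end Pool.Agent.H.MP_e23cd6_ag.AK
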