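import Pool.Agent.H.MP_e23cd6_ag.AB.H1
import Pool.Agent.H.MP_e23cd6_ag.AK.Ec
import Pool.Agent.H.MP_e23cd6_ag.AK.Ei
import Pool.Agent.H.MP_e23cd6_ag.AK.Ex
import Pool.Agent.H.MP_e23cd6_ag.AK.Ep2
import Pool.Agent.H.MP_e23cd6_ag.AK.G9

/-!
ABUK E9: an action with an invariant flat fibre metric and an invariant Kaehler metric has no limit fields.
-/

open Set Filter Topology Metric

namespace Pool.Agent.H.MP_e23cd6_ag.AK

open Pool.Agent.H.MP_e23cd6_ag.AB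

variable {n kk : ℕ} {Ω : Dom n} {Γ : Type} [Group Γ]

theorem no_perfect_fib (A : FibAct Ω kk Γ) (M : FMet A) (P : Submodule ℝ (Lie A.toBaseAct))
    (hP : ∀ δ, ∀ X ∈ P, AdL A.toBaseAct δ X ∈ P)
    (hperf : P ≤ Submodule.span ℝ {Z | ∃ X ∈ P, ∃ Y ∈ P, Z = brL A.toBaseAct X Y}) : P = ⊥ := by
  by_contra hne
  obtain ⟨q, δ, hq, hδ, h⟩ := comm_trivial_fib A
  obtain ⟨η, N, hη, hpig⟩ := pigeon M hδ
  obtain ⟨S0, hfin, hR, hS⟩ := small_comm_pred A.toBaseAct P hP hne hperf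
    (fun s => ∀ b ∈ closedBall Ω.b0 Ω.r1, ‖A.L s b - 1‖ ≤ δ) hη N hpig hq
  obtain ⟨k, hk⟩ := h S0 hfin hR (fun k => (hS k).1)
  obtain ⟨s, hs, b, hb, hne'⟩ := (hS k).2
  exact hne' (hk s hs b hb)

theorem no_fields_fib (A : FibAct Ω kk Γ) (M : FMet A) (h : KMet (TM Ω kk))
    (hinv : InvMet A.toTotAct h) (X : Lie A.toBaseAct) : X = 0 := by
  by_contra hX
  obtain ⟨P, hne, hst, hab⟩ := exists_abelian_of A.toBaseAct (no_perfect_fib A M) ⟨X, hX⟩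
  exact hne (no_abelian A.toTotAct h hinv P hst hab)

theorem base_pd_fib (A : FibAct Ω kk Γ) (M : FMet A) (h : KMet (TM Ω kk))
    (hinv : InvMet A.toTotAct h) : BasePD A.toBaseAct :=
  base_pd A.toBaseAct (no_fields_fib A M h hinv)

end Pool.Agent.H.MP_e23cd6_ag.AK
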