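import Pool.Agent.H.MP_e23cd6_ag.AK.Defs
import Pool.Agent.H.MP_e23cd6_ag.AB.I1

/-!
ABUK Defs2: positive definite Hermitian forms on `E kk`, translations, lattices, average data.
-/

open Set Filter Topology Metric
open scoped ContDiff ComplexConjugate

namespace Pool.Agent.H.MP_e23cd6_ag.AK

open Pool.Agent.H.MP_e23cd6_ag.AB

/-- a positive definite Hermitian form (complex linear in the first variable) -/
structure IsHerm {kk : ℕ} (H : E kk → E kk → ℂ) : Prop where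
  add_left : ∀ u v w, H (u + v) w = H u w + H v w
  smul_left : ∀ (a : ℂ) (v w : E kk), H (a • v) w = a * H v w
  herm : ∀ v w, H w v = conj (H v w)
  pos : ∀ v, v ≠ 0 → 0 < (H v v).re

namespace IsHerm

variable {kk : ℕ} {H : E kk → E kk → ℂ} (h : IsHerm H)
include h

theorem add_right (u v w : E kk) : H u (v + w) = H u v + H u w := by
  rw [h.herm (v + w) u, h.add_left, map_add, ← h.herm, ← h.herm]

theorem smul_right (a : ℂ) (v w : E kk) : H v (a • w) = conj a * H v w := by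
  rw [h.herm (a • w) v, h.smul_left, map_mul, ← h.herm]

theorem zero_left (w : E kk) : H 0 w = 0 := by
  have := h.smul_left 0 0 w
  simpa using this

theorem zero_right (v : E kk) : H v 0 = 0 := by
  rw [h.herm 0 v, h.zero_left, map_zero]

theorem neg_left (v w : E kk) : H (-v) w = -H v w := by
  have := h.smul_left (-1) v w
  simpa using this

theorem neg_right (v w : E kk) : H v (-w) = -H v w := by
  rw [h.herm (-w) v, h.neg_left, map_neg, ← h.herm]

theorem sub_left (u v w : E kk) : H (u - v) w = H u w - H v w := by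
  rw [sub_eq_add_neg, h.add_left, h.neg_left, sub_eq_add_neg]

theorem sub_right (u v w : E kk) : H u (v - w) = H u v - H u w := by
  rw [sub_eq_add_neg, h.add_right, h.neg_right, sub_eq_add_neg]

theorem sum_left {ι : Type*} (s : Finset ι) (f : ι → E kk) (w : E kk) :
    H (∑ i ∈ s, f i) w = ∑ i ∈ s, H (f i) w := by
  classical
  induction s using Finset.induction_on with
  | empty => simp [h.zero_left]
  | insert i s hi ih => rw [Finset.sum_insert hi, h.add_left, ih, Finset.sum_insert hi]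

theorem sum_right {ι : Type*} (s : Finset ι) (v : E kk) (f : ι → E kk) :
    H v (∑ i ∈ s, f i) = ∑ i ∈ s, H v (f i) := by
  rw [h.herm (∑ i ∈ s, f i) v, h.sum_left, map_sum]
  exact Finset.sum_congr rfl fun i _ => (h.herm _ _).symm

theorem rsmul_left (a : ℝ) (v w : E kk) : H (a • v) w = a * H v w := by
  rw [← Complex.coe_smul, h.smul_left]

theorem rsmul_right (a : ℝ) (v w : E kk) : H v (a • w) = a * H v w := by
  rw [← Complex.coe_smul, h.smul_right, Complex.conj_ofReal]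

theorem self_im (v : E kk) : (H v v).im = 0 := by
  have := h.herm v v
  have h2 := congrArg Complex.im this
  rw [Complex.conj_im] at h2
  linarith

theorem self_nonneg (v : E kk) : 0 ≤ (H v v).re := by
  by_cases hv : v = 0
  · rw [hv, h.zero_left]; simp
  · exact (h.pos v hv).le

/-- expansion in coordinates -/
theorem expand (v w : E kk) :
    H v w = ∑ p, ∑ q, v p * conj (w q) * H (Pi.single p 1) (Pi.single q 1) := by
  have hv : v = ∑ p, v p • (Pi.single p (1 : ℂ) : E kk) := by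
    ext j
    simp [Finset.sum_apply, Pi.single_apply]
  have hw : w = ∑ q, w q • (Pi.single q (1 : ℂ) : E kk) := by
    ext j
    simp [Finset.sum_apply, Pi.single_apply]
  conv_lhs => rw [hv, hw]
  rw [h.sum_left]
  refine Finset.sum_congr rfl fun p _ => ?_
  rw [h.sum_right]
  refine Finset.sum_congr rfl fun q _ => ?_
  rw [h.smul_left, h.smul_right]
  ring

end IsHerm

section

variable {n kk : ℕ} {Ω : Dom n} {Γ : Type} [Group Γ] {A : FibAct Ω kk Γ}

theorem FMet.isHerm (M : FMet A) {b : E n} (hb : b ∈ Ω.D) : IsHerm (M.H b) :=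
  ⟨M.add_left b hb, M.smul_left b hb, M.herm b hb, M.pos b hb⟩

theorem ker_L_mul {γ δ : Γ} (hδ : δ ∈ kerN A.toBaseAct) {b : E n} (hb : b ∈ Ω.D) :
    A.L (γ * δ) b = A.L γ b * A.L δ b := by
  have h : A.β δ b = b := hδ b hb
  rw [A.L_mul _ _ hb, h]

theorem ker_c_mul {γ δ : Γ} (hδ : δ ∈ kerN A.toBaseAct) {b : E n} (hb : b ∈ Ω.D) :
    A.c (γ * δ) b = A.L γ b (A.c δ b) + A.c γ b := by
  have h : A.β δ b = b := hδ b hb
  rw [A.c_mul _ _ hb, h]

variable (A)

/-- the translations: elements acting trivially on the base and with linear part `1` -/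
def trN : Subgroup Γ where
  carrier := {γ | γ ∈ kerN A.toBaseAct ∧ ∀ b ∈ Ω.D, A.L γ b = 1}
  mul_mem' := by
    rintro γ δ ⟨h1, h2⟩ ⟨h3, h4⟩
    refine ⟨mul_mem h1 h3, fun b hb => ?_⟩
    rw [ker_L_mul h3 hb, h2 b hb, h4 b hb, mul_one]
  one_mem' := ⟨one_mem _, fun b hb => A.L_one hb⟩
  inv_mem' := by
    rintro γ ⟨h1, h2⟩
    refine ⟨inv_mem h1, fun b hb => ?_⟩
    have h := A.L_mul_inv γ hb
    have h3 : A.β γ b = b := h1 b hb
    rw [h3, h2 b hb, one_mul] at h
    exact h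

variable {A}

theorem tr_ker {t : Γ} (ht : t ∈ trN A) : t ∈ kerN A.toBaseAct := ht.1

theorem tr_beta {t : Γ} (ht : t ∈ trN A) {b : E n} (hb : b ∈ Ω.D) : A.β t b = b := ht.1 b hb

theorem tr_L {t : Γ} (ht : t ∈ trN A) {b : E n} (hb : b ∈ Ω.D) : A.L t b = 1 := ht.2 b hb

theorem tr_act {t : Γ} (ht : t ∈ trN A) {b : E n} (hb : b ∈ Ω.D) (z : E kk) :
    A.act t (b, z) = (b, z + A.c t b) := by
  rw [A.act_eq t b hb, tr_beta ht hb, tr_L ht hb]
  rfl

theorem tr_c_mul {s t : Γ} (hs : s ∈ trN A) (ht : t ∈ trN A) {b : E n} (hb : b ∈ Ω.D) :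
    A.c (s * t) b = A.c s b + A.c t b := by
  rw [ker_c_mul ht.1 hb, tr_L hs hb, add_comm]
  rfl

theorem tr_c_inv {t : Γ} (ht : t ∈ trN A) {b : E n} (hb : b ∈ Ω.D) :
    A.c t⁻¹ b = -A.c t b := by
  have h := tr_c_mul (inv_mem ht) ht hb
  rw [inv_mul_cancel, A.c_one hb] at h
  exact eq_neg_of_add_eq_zero_left h.symm

theorem tr_conj {t : Γ} (ht : t ∈ trN A) (γ : Γ) :
    γ * t * γ⁻¹ ∈ trN A ∧ ∀ b ∈ Ω.D, A.c (γ * t * γ⁻¹) (A.β γ b) = A.L γ b (A.c t b) := by
  have hk : γ * t * γ⁻¹ ∈ kerN A.toBaseAct := by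
    intro b hb
    have hb' := A.mem γ⁻¹ hb
    rw [A.mul _ _ _ hb, A.mul _ _ _ hb', tr_beta ht hb', A.inv_right γ hb]
  have e : γ * t * γ⁻¹ * γ = γ * t := by group
  have hL : ∀ b ∈ Ω.D, A.L (γ * t * γ⁻¹) (A.β γ b) = 1 := by
    intro b hb
    have h1 := A.L_mul (γ * t * γ⁻¹) γ hb
    rw [e, ker_L_mul ht.1 hb, tr_L ht hb, mul_one] at h1
    have h2 := A.L_mul_inv γ hb
    calc A.L (γ * t * γ⁻¹) (A.β γ b)
        = A.L (γ * t * γ⁻¹) (A.β γ b) * (A.L γ b * A.L γ⁻¹ (A.β γ b)) := by rw [h2, mul_one]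
      _ = A.L γ b * A.L γ⁻¹ (A.β γ b) := by rw [← mul_assoc, ← h1]
      _ = 1 := h2
  have hmem : γ * t * γ⁻¹ ∈ trN A := by
    refine ⟨hk, fun b hb => ?_⟩
    have := hL (A.β γ⁻¹ b) (A.mem _ hb)
    rwa [A.inv_right γ hb] at this
  refine ⟨hmem, fun b hb => ?_⟩
  have h1 := A.c_mul (γ * t * γ⁻¹) γ hb
  rw [e, ker_c_mul ht.1 hb, hL b hb] at h1
  have h2 : A.L γ b (A.c t b) + A.c γ b = A.c γ b + A.c (γ * t * γ⁻¹) (A.β γ b) := h1
  have h3 : A.c γ b + A.L γ b (A.c t b) = A.c γ b + A.c (γ * t * γ⁻¹) (A.β γ b) := by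
    rw [← h2, add_comm]
  exact (add_left_cancel h3).symm

variable (A)

/-- the translations act cocompactly in the fibres -/
def TrCC : Prop := ∀ b ∈ Ω.D, ∃ R : ℝ, ∀ z : E kk, ∃ t ∈ trN A, ‖z + A.c t b‖ ≤ R

/-- a lattice basis of the translations, the same for all base points -/
structure Lat where
  t : Fin (2 * kk) → Γ
  mem : ∀ i, t i ∈ trN A
  li : ∀ b ∈ Ω.D, LinearIndependent ℝ (fun i => A.c (t i) b)
  span : ∀ b ∈ Ω.D, ⊤ ≤ Submodule.span ℝ (range fun i => A.c (t i) b)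
  int : ∀ s ∈ trN A, ∃ m : Fin (2 * kk) → ℤ, ∀ b ∈ Ω.D, A.c s b = ∑ i, (m i : ℝ) • A.c (t i) b

variable {A}

/-- the basis of the fibre given by the lattice -/
noncomputable def Lat.basis (Λ : Lat A) {b : E n} (hb : b ∈ Ω.D) :
    Module.Basis (Fin (2 * kk)) ℝ (E kk) :=
  Module.Basis.mk (Λ.li b hb) (Λ.span b hb)

theorem Lat.basis_apply (Λ : Lat A) {b : E n} (hb : b ∈ Ω.D) (i : Fin (2 * kk)) :
    Λ.basis hb i = A.c (Λ.t i) b := by
  simp [Lat.basis]

/-- the point of the fibre with coordinates `x` -/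
noncomputable def Lat.pt (Λ : Lat A) (b : E n) (x : Fin (2 * kk) → ℝ) : E kk :=
  ∑ i, x i • A.c (Λ.t i) b

/-- the derivative of `b ↦ pt b x` in the direction `u` -/
noncomputable def Lat.dpt (Λ : Lat A) (b u : E n) (x : Fin (2 * kk) → ℝ) : E kk :=
  ∑ i, x i • fderiv ℂ (A.c (Λ.t i)) b u

end

/-- the (0,1)-derivative of a complex valued function -/
noncomputable def dzb {V : Type} [NormedAddCommGroup V] [NormedSpace ℝ V] [NormedSpace ℂ V]
    (ψ : V → ℂ) (x u : V) : ℂ :=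
  (1 / 2 : ℂ) * (fderiv ℝ ψ x u + Complex.I * fderiv ℝ ψ x (Complex.I • u))

/-- An invariant metric in the fibres, constant along the fibres, which is part of Kaehler data:
`g b u w z` plays the role of `h_{(b,z)}((u,0),(0,w))` for an invariant Kaehler metric `h` with
`h_{(b,z)}((0,v),(0,w)) = H b v w`. -/
structure FKM {n kk : ℕ} {Ω : Dom n} {Γ : Type} [Group Γ] (A : FibAct Ω kk Γ) extends FMet A where
  diff : ∀ v w, DifferentiableOn ℝ (fun b => H b v w) Ω.D
  g : E n → E n → E kk → E kk → ℂ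
  g_diff : ∀ b ∈ Ω.D, ∀ u w, Differentiable ℝ (g b u w)
  g_dz : ∀ b ∈ Ω.D, ∀ u w z v, dz (g b u w) z v = dz (fun x => H x v w) b u
  g_dzb : ∀ b ∈ Ω.D, ∀ u w z v, dzb (g b u w) z v = dzb (g b u v) z w
  g_tr : ∀ t ∈ trN A, ∀ b ∈ Ω.D, ∀ u w z,
    g b u w (z + A.c t b) = g b u w z - H b (fderiv ℂ (A.c t) b u) w

end Pool.Agent.H.MP_e23cd6_ag.AK
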