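import Pool.Agent.H.MP_e23cd6_ag.AB.H1
import Pool.Agent.H.MP_e23cd6_ag.AK.Defs2

/-!
ABUK Hk: the elements acting trivially on the base act properly discontinuously and cocompactly on every fibre; countability of the group.

`fib_pd`: for `γ ∈ kerN` with `‖c γ b‖ ≤ R`: `act γ (b, 0) = (β γ b, L γ b 0 + c γ b) = (b, c γ b)` is in the compact set `{b} ×ˢ closedBall 0 |R|` of TM, which also contains `(b, 0)` (if R < 0 the set is empty): `A.pd`.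

`fib_cc`: b ∈ D. K0 ⊆ TM compact from `A.cc`, `K1 = insert b (Prod.fst '' K0)` compact in D, F from `hpd K1`. For z ∈ E kk take γ with `act γ (b, z) ∈ K0`; `β γ b ∈ K1`, `b ∈ K1`, so there is δ ∈ F with β γ = β δ on D, hence `δ⁻¹ * γ ∈ kerN`
(`β (δ⁻¹ γ) x = β δ⁻¹ (β γ x) = β δ⁻¹ (β δ x) = x`). `act (δ⁻¹ γ) (b,z) = act δ⁻¹ (act γ (b,z)) ∈ act δ⁻¹ '' K0`, and its second component is `L (δ⁻¹γ) b z + c (δ⁻¹γ) b`. The set `⋃_{δ∈F} act δ⁻¹ '' K0` is a finite union of compact sets, hence bounded.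

`countable_tot`: TM is σ-compact (open in a finite dimensional space; or `Ω.isOpen.exists_iUnion_isClosed` as in AB/I0 `countable_group`): TM = ⋃ K_j, K_j increasing or not; every γ lies in one of the countably many finite sets
`{γ | ∃ x ∈ K_i ∪ K_j ∪ {x0}, act γ x ∈ ...}`: take `x0 = (b0, 0)`, `act γ x0 ∈ K_j` for some j, and `x0 ∈ K_i`; use `A.pd (K_j ∪ {x0})`. (Concretely K_j = F_j ×ˢ closedBall 0 j with F_j as in `countable_group`.)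
-/

open Set Filter Topology Metric

namespace Pool.Agent.H.MP_e23cd6_ag.AK

open Pool.Agent.H.MP_e23cd6_ag.AB

variable {n kk : ℕ} {Ω : Dom n} {Γ : Type} [Group Γ]

theorem fib_pd (A : FibAct Ω kk Γ) {b : E n} (hb : b ∈ Ω.D) (R : ℝ) :
    {γ | γ ∈ kerN A.toBaseAct ∧ ‖A.c γ b‖ ≤ R}.Finite := by
  have hK : (({b} : Set (E n)) ×ˢ closedBall (0 : E kk) |R|) ⊆ TM Ω kk := by
    rintro ⟨x, z⟩ ⟨hx, _⟩
    have hx' : x = b := hx
    refine ⟨?_, trivial⟩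
    change x ∈ Ω.D
    rw [hx']
    exact hb
  have hKc : IsCompact (({b} : Set (E n)) ×ˢ closedBall (0 : E kk) |R|) :=
    isCompact_singleton.prod (isCompact_closedBall _ _)
  refine (A.pd _ hK hKc).subset ?_
  rintro γ ⟨hγ, hc⟩
  have hβ : A.β γ b = b := hγ b hb
  refine ⟨(b, 0), ⟨rfl, mem_closedBall_self (abs_nonneg R)⟩, ?_⟩
  rw [A.act_eq γ b hb, hβ, map_zero, zero_add]
  refine ⟨rfl, ?_⟩
  rw [mem_closedBall_zero_iff]
  exact hc.trans (le_abs_self R)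

theorem fib_cc (A : FibAct Ω kk Γ) (hpd : BasePD A.toBaseAct) {b : E n} (hb : b ∈ Ω.D) :
    ∃ R : ℝ, ∀ z : E kk, ∃ γ ∈ kerN A.toBaseAct, ‖A.L γ b z + A.c γ b‖ ≤ R := by
  obtain ⟨K0, hK0, hK0c, hcc⟩ := A.cc
  have hK1c : IsCompact (insert b (Prod.fst '' K0)) := (hK0c.image continuous_fst).insert b
  have hK1 : insert b (Prod.fst '' K0) ⊆ Ω.D := by
    refine insert_subset hb ?_
    rintro _ ⟨x, hx, rfl⟩
    exact (hK0 hx).1
  obtain ⟨F, hF, hFspec⟩ := hpd _ hK1 hK1c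
  have hcomp : IsCompact (⋃ δ ∈ F, A.act δ⁻¹ '' K0) := by
    refine hF.isCompact_biUnion fun δ _ => ?_
    exact hK0c.image_of_continuousOn ((A.tholo δ⁻¹).continuousOn.mono hK0)
  obtain ⟨R, hR⟩ := hcomp.isBounded.exists_norm_le
  refine ⟨R, fun z => ?_⟩
  have hx : (b, z) ∈ TM Ω kk := ⟨hb, trivial⟩
  obtain ⟨γ, hγ⟩ := hcc (b, z) hx
  have h1 : A.β γ b ∈ insert b (Prod.fst '' K0) :=
    mem_insert_of_mem _ ⟨_, hγ, A.fst γ _ hx⟩
  obtain ⟨δ, hδ, hδ2⟩ := hFspec γ ⟨b, mem_insert _ _, h1⟩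
  have hker : δ⁻¹ * γ ∈ kerN A.toBaseAct := by
    intro x hx
    rw [A.mul _ _ _ hx, hδ2 x hx, A.inv_left δ hx]
  refine ⟨δ⁻¹ * γ, hker, ?_⟩
  have h2 : A.act (δ⁻¹ * γ) (b, z) ∈ ⋃ δ ∈ F, A.act δ⁻¹ '' K0 :=
    mem_iUnion₂.2 ⟨δ, hδ, A.act γ (b, z), hγ, (A.tmul _ _ _ hx).symm⟩
  have h3 := hR _ h2
  rw [A.act_eq _ _ hb] at h3
  exact (norm_snd_le _).trans h3

theorem countable_tot (A : TotAct Ω kk Γ) : Countable Γ := by
  obtain ⟨F, hFc, hFD, hFU, -⟩ := Ω.isOpen.exists_iUnion_isClosed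
  have hK : ∀ j, IsCompact (insert Ω.b0 (F j)) := fun j =>
    (Metric.isCompact_of_isClosed_isBounded (hFc j) (Ω.bdd.subset (hFD j))).insert _
  have hKD : ∀ j, insert Ω.b0 (F j) ⊆ Ω.D := fun j => insert_subset Ω.b0_mem (hFD j)
  have hTM : ∀ j k : ℕ, (insert Ω.b0 (F j)) ×ˢ closedBall (0 : E kk) k ⊆ TM Ω kk :=
    fun j k => prod_mono (hKD j) (subset_univ _)
  have hTMc : ∀ j k : ℕ, IsCompact ((insert Ω.b0 (F j)) ×ˢ closedBall (0 : E kk) k) :=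
    fun j k => (hK j).prod (isCompact_closedBall _ _)
  have hx0 : ((Ω.b0, 0) : E n × E kk) ∈ TM Ω kk := ⟨Ω.b0_mem, trivial⟩
  have hun : (univ : Set Γ) = ⋃ j : ℕ, ⋃ k : ℕ,
      {γ | ∃ x ∈ (insert Ω.b0 (F j)) ×ˢ closedBall (0 : E kk) k,
        A.act γ x ∈ (insert Ω.b0 (F j)) ×ˢ closedBall (0 : E kk) k} := by
    symm
    rw [eq_univ_iff_forall]
    intro γ
    have h1 : (A.act γ (Ω.b0, 0)).1 ∈ ⋃ j, F j := by
      rw [hFU, A.fst γ _ hx0]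
      exact A.maps γ Ω.b0_mem
    obtain ⟨j, hj⟩ := mem_iUnion.mp h1
    obtain ⟨k, hk⟩ := exists_nat_ge ‖(A.act γ (Ω.b0, 0)).2‖
    refine mem_iUnion.mpr ⟨j, mem_iUnion.mpr ⟨k, (Ω.b0, 0), ⟨mem_insert _ _, ?_⟩,
      ⟨mem_insert_of_mem _ hj, ?_⟩⟩⟩
    · exact mem_closedBall_self (Nat.cast_nonneg k)
    · rw [mem_closedBall_zero_iff]
      exact hk
  have hc : (univ : Set Γ).Countable := by
    rw [hun]
    exact countable_iUnion fun j => countable_iUnion fun k =>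
      (A.pd _ (hTM j k) (hTMc j k)).countable
  exact countable_univ_iff.mp hc

end Pool.Agent.H.MP_e23cd6_ag.AK
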