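import Pool.Agent.H.MP_e23cd6_ag.AB.E3a
import Pool.Agent.H.MP_e23cd6_ag.AK.Defs2

/-!
ABUM Ma1: affine cocycles over an action on the base (one coordinate of an action by diagonal affine maps in the fibres): one step estimates for commutators,
as in AB/E3a.lean.
-/

open Set Filter Topology Metric

namespace Pool.Agent.H.MP_e23cd6_ag.AK

open Pool.Agent.H.MP_e23cd6_ag.AB

variable {n : ℕ} {Ω : Dom n} {Γ : Type} [Group Γ]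

/-- an affine cocycle: `z ↦ a γ b * z + c γ b` over `β γ` -/
structure Coc (A : BaseAct Ω Γ) where
  a : Γ → E n → ℂ
  c : Γ → E n → ℂ
  a_holo : ∀ γ, DifferentiableOn ℂ (a γ) Ω.D
  c_holo : ∀ γ, DifferentiableOn ℂ (c γ) Ω.D
  a_ne : ∀ γ, ∀ b ∈ Ω.D, a γ b ≠ 0
  a_mul : ∀ γ δ, ∀ b ∈ Ω.D, a (γ * δ) b = a γ (A.β δ b) * a δ b
  c_mul : ∀ γ δ, ∀ b ∈ Ω.D, c (γ * δ) b = a γ (A.β δ b) * c δ b + c γ (A.β δ b)

/-- The linear part of the commutator. -/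
theorem coc_a {A : BaseAct Ω Γ} (B : Coc A) (s t : Γ) {b b' : E n} (hb : b ∈ Ω.D)
    (hb' : A.β (t * s) b = b') :
    B.a (s * t * s⁻¹ * t⁻¹) b' * (B.a t (A.β s b) * B.a s b) = B.a s (A.β t b) * B.a t b := by
  have h1 := B.a_mul (s * t * s⁻¹ * t⁻¹) (t * s) b hb
  rw [show s * t * s⁻¹ * t⁻¹ * (t * s) = s * t by group, hb', B.a_mul s t b hb,
    B.a_mul t s b hb] at h1
  exact h1.symm

/-- The translation part of the commutator. -/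
theorem coc_c {A : BaseAct Ω Γ} (B : Coc A) (s t : Γ) {b b' : E n} (hb : b ∈ Ω.D)
    (hb' : A.β (t * s) b = b') :
    B.c (s * t * s⁻¹ * t⁻¹) b' = (B.a s (A.β t b) * B.c t b + B.c s (A.β t b)) -
      B.a (s * t * s⁻¹ * t⁻¹) b' * (B.a t (A.β s b) * B.c s b + B.c t (A.β s b)) := by
  have h1 := B.c_mul (s * t * s⁻¹ * t⁻¹) (t * s) b hb
  rw [show s * t * s⁻¹ * t⁻¹ * (t * s) = s * t by group, hb', B.c_mul s t b hb,
    B.c_mul t s b hb] at h1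
  rw [h1]; ring

theorem coc_log_step {A : BaseAct Ω Γ} (B : Coc A) :
    ∃ C κ : ℝ, 0 < C ∧ 0 < κ ∧ ∀ (s t : Γ) (ls lt : E n → ℂ) (ρ ρ' Λ e : ℝ),
      0 < ρ' → ρ' < ρ → ρ ≤ Ω.r1 → 0 ≤ e → e ≤ κ * (ρ - ρ') →
      (∀ b ∈ Ω.B, ‖A.β s b - b‖ ≤ e) → (∀ b ∈ Ω.B, ‖A.β t b - b‖ ≤ e) →
      DifferentiableOn ℂ ls (ball Ω.b0 ρ) → DifferentiableOn ℂ lt (ball Ω.b0 ρ) →
      (∀ b ∈ ball Ω.b0 ρ, Complex.exp (ls b) = B.a s b ∧ ‖ls b‖ ≤ Λ) →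
      (∀ b ∈ ball Ω.b0 ρ, Complex.exp (lt b) = B.a t b ∧ ‖lt b‖ ≤ Λ) →
      ∃ lw : E n → ℂ, DifferentiableOn ℂ lw (ball Ω.b0 ρ') ∧
        ∀ b ∈ ball Ω.b0 ρ', Complex.exp (lw b) = B.a (s * t * s⁻¹ * t⁻¹) b ∧
          ‖lw b‖ ≤ C * Λ * e / (ρ - ρ') := by
  obtain ⟨C1, κ, hC1, hκ, hcom⟩ := E3a_common A
  refine ⟨16 * C1, κ, by positivity, hκ, ?_⟩
  intro s t ls lt ρ ρ' Λ e hρ' hρ hρ1 he hek hs ht hls hlt hls2 hlt2
  have hcom' := hcom s t ρ ρ' e hρ' hρ hρ1 he hek hs ht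
  have hg : 0 < ρ - ρ' := by linarith
  have hsubD : ball Ω.b0 ρ' ⊆ Ω.D := fun y hy =>
    Ω.hB (ball_subset_closedBall (ball_subset_ball (hρ.le.trans hρ1) hy))
  have hhalf : ∀ x : E n, ball x ((ρ - ρ') / 2 / 2) ⊆ ball x ((ρ - ρ') / 2) := fun x =>
    ball_subset_ball (by linarith)
  refine ⟨fun b' => (ls (A.β t (A.β s⁻¹ (A.β t⁻¹ b'))) - ls (A.β s⁻¹ (A.β t⁻¹ b'))) +
    (lt (A.β s⁻¹ (A.β t⁻¹ b')) - lt (A.β s (A.β s⁻¹ (A.β t⁻¹ b')))), ?_, ?_⟩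
  · have hd1 : DifferentiableOn ℂ (fun b' => A.β s⁻¹ (A.β t⁻¹ b')) (ball Ω.b0 ρ') := by
      refine (A.holo s⁻¹).comp ((A.holo t⁻¹).mono hsubD) ?_
      exact fun y hy => A.maps _ (hsubD hy)
    have hd2 : DifferentiableOn ℂ (fun b' => A.β t (A.β s⁻¹ (A.β t⁻¹ b'))) (ball Ω.b0 ρ') :=
      (A.holo t).comp hd1 fun y hy => (hcom' y hy).2.1
    have hd3 : DifferentiableOn ℂ (fun b' => A.β s (A.β s⁻¹ (A.β t⁻¹ b'))) (ball Ω.b0 ρ') :=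
      (A.holo s).comp hd1 fun y hy => (hcom' y hy).2.1
    have hm1 : ∀ y ∈ ball Ω.b0 ρ', A.β s⁻¹ (A.β t⁻¹ y) ∈ ball Ω.b0 ρ := fun y hy =>
      (hcom' y hy).2.2.1 (mem_ball_self (by positivity))
    have hm2 : ∀ y ∈ ball Ω.b0 ρ', A.β t (A.β s⁻¹ (A.β t⁻¹ y)) ∈ ball Ω.b0 ρ := fun y hy =>
      (hcom' y hy).2.2.1 (hhalf _ (hcom' y hy).2.2.2.1)
    have hm3 : ∀ y ∈ ball Ω.b0 ρ', A.β s (A.β s⁻¹ (A.β t⁻¹ y)) ∈ ball Ω.b0 ρ := fun y hy =>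
      (hcom' y hy).2.2.1 (hhalf _ (hcom' y hy).2.2.2.2.1)
    exact ((hls.comp hd2 hm2).sub (hls.comp hd1 hm1)).add
      ((hlt.comp hd1 hm1).sub (hlt.comp hd3 hm3))
  · intro b' hb'
    obtain ⟨h1, hD, hsub, h3, h4, h5, h6, h7⟩ := hcom' b' hb'
    set b := A.β s⁻¹ (A.β t⁻¹ b') with hb
    have hg2 : 0 < (ρ - ρ') / 2 := by positivity
    have hbm : b ∈ ball b ((ρ - ρ') / 2 / 2) := mem_ball_self (by positivity)
    have hb0 : b ∈ ball Ω.b0 ρ := hsub (hhalf _ hbm)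
    have ht0 : A.β t b ∈ ball Ω.b0 ρ := hsub (hhalf _ h3)
    have hs0 : A.β s b ∈ ball Ω.b0 ρ := hsub (hhalf _ h4)
    have hΛ : 0 ≤ Λ := (norm_nonneg _).trans (hls2 b hb0).2
    constructor
    · have ha := coc_a B s t hD h7
      have hsbD : A.β s b ∈ Ω.D := A.maps s hD
      have hne : B.a t (A.β s b) * B.a s b ≠ 0 := mul_ne_zero (B.a_ne _ _ hsbD) (B.a_ne _ _ hD)
      rw [← eq_div_iff hne] at ha
      rw [ha, Complex.exp_add, Complex.exp_sub, Complex.exp_sub, (hls2 _ ht0).1, (hls2 _ hb0).1,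
        (hlt2 _ hb0).1, (hlt2 _ hs0).1]
      rw [div_mul_div_comm, mul_comm (B.a s b)]
    · have e1 := cauchy_lip hg2 (hls.mono hsub) (fun y hy => (hls2 y (hsub hy)).2) h3 hbm
      have e2 := cauchy_lip hg2 (hlt.mono hsub) (fun y hy => (hlt2 y (hsub hy)).2) hbm h4
      rw [norm_sub_rev b] at e2
      have e3 : 4 * Λ / ((ρ - ρ') / 2) * ‖A.β t b - b‖ ≤ 4 * Λ / ((ρ - ρ') / 2) * (C1 * e) :=
        mul_le_mul_of_nonneg_left h5 (by positivity)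
      have e4 : 4 * Λ / ((ρ - ρ') / 2) * ‖A.β s b - b‖ ≤ 4 * Λ / ((ρ - ρ') / 2) * (C1 * e) :=
        mul_le_mul_of_nonneg_left h6 (by positivity)
      have e5 : 16 * C1 * Λ * e / (ρ - ρ') = 4 * Λ / ((ρ - ρ') / 2) * (C1 * e) +
          4 * Λ / ((ρ - ρ') / 2) * (C1 * e) := by
        field_simp
        ring
      rw [e5]
      exact (norm_add_le _ _).trans (add_le_add (e1.trans e3) (e2.trans e4))

theorem coc_c_step {A : BaseAct Ω Γ} (B : Coc A) :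
    ∃ C κ : ℝ, 0 < C ∧ 0 < κ ∧ ∀ (s t : Γ) (ρ ρ' M e δ δ' : ℝ),
      0 < ρ' → ρ' < ρ → ρ ≤ Ω.r1 → 0 ≤ e → e ≤ κ * (ρ - ρ') →
      (∀ b ∈ Ω.B, ‖A.β s b - b‖ ≤ e) → (∀ b ∈ Ω.B, ‖A.β t b - b‖ ≤ e) →
      (∀ b ∈ ball Ω.b0 ρ, ‖B.a s b - 1‖ ≤ δ ∧ ‖B.c s b‖ ≤ M) →
      (∀ b ∈ ball Ω.b0 ρ, ‖B.a t b - 1‖ ≤ δ ∧ ‖B.c t b‖ ≤ M) →
      (∀ b ∈ ball Ω.b0 ρ', ‖B.a (s * t * s⁻¹ * t⁻¹) b - 1‖ ≤ δ') →
      ∀ b ∈ ball Ω.b0 ρ', ‖B.c (s * t * s⁻¹ * t⁻¹) b‖ ≤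
        (C * e / (ρ - ρ') + 2 * δ + δ' * (2 + δ)) * M := by
  obtain ⟨C1, κ, hC1, hκ, hcom⟩ := E3a_common A
  refine ⟨16 * C1, κ, by positivity, hκ, ?_⟩
  intro s t ρ ρ' M e δ δ' hρ' hρ hρ1 he hek hs ht hs2 ht2 hw b' hb'
  have hg : 0 < ρ - ρ' := by linarith
  have hhalf : ∀ x : E n, ball x ((ρ - ρ') / 2 / 2) ⊆ ball x ((ρ - ρ') / 2) := fun x =>
    ball_subset_ball (by linarith)
  obtain ⟨h1, hD, hsub, h3, h4, h5, h6, h7⟩ := hcom s t ρ ρ' e hρ' hρ hρ1 he hek hs ht b' hb'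
  set b := A.β s⁻¹ (A.β t⁻¹ b') with hb
  have hg2 : 0 < (ρ - ρ') / 2 := by positivity
  have hbm : b ∈ ball b ((ρ - ρ') / 2 / 2) := mem_ball_self (by positivity)
  have hb0 : b ∈ ball Ω.b0 ρ := hsub (hhalf _ hbm)
  have ht0 : A.β t b ∈ ball Ω.b0 ρ := hsub (hhalf _ h3)
  have hs0 : A.β s b ∈ ball Ω.b0 ρ := hsub (hhalf _ h4)
  have hM : 0 ≤ M := (norm_nonneg _).trans (hs2 b hb0).2
  have hδ : 0 ≤ δ := (norm_nonneg _).trans (hs2 b hb0).1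
  have hδ' : 0 ≤ δ' := (norm_nonneg _).trans (hw b' hb')
  have hρD : ball Ω.b0 ρ ⊆ Ω.D := fun y hy =>
    Ω.hB (ball_subset_closedBall (ball_subset_ball hρ1 hy))
  have e1 := cauchy_lip hg2 ((B.c_holo s).mono (hsub.trans hρD))
    (fun y hy => (hs2 y (hsub hy)).2) h3 hbm
  have e2 := cauchy_lip hg2 ((B.c_holo t).mono (hsub.trans hρD))
    (fun y hy => (ht2 y (hsub hy)).2) h4 hbm
  have e3 : 4 * M / ((ρ - ρ') / 2) * ‖A.β t b - b‖ ≤ 4 * M / ((ρ - ρ') / 2) * (C1 * e) :=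
    mul_le_mul_of_nonneg_left h5 (by positivity)
  have e4 : 4 * M / ((ρ - ρ') / 2) * ‖A.β s b - b‖ ≤ 4 * M / ((ρ - ρ') / 2) * (C1 * e) :=
    mul_le_mul_of_nonneg_left h6 (by positivity)
  have hat : ‖B.a t (A.β s b)‖ ≤ 1 + δ := by
    have h8 := (ht2 _ hs0).1
    have h9 := norm_add_le (B.a t (A.β s b) - 1) 1
    rw [sub_add_cancel, norm_one] at h9
    linarith
  have hcts : ‖B.a t (A.β s b) * B.c s b + B.c t (A.β s b)‖ ≤ (2 + δ) * M := by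
    refine (norm_add_le _ _).trans ?_
    rw [norm_mul]
    have h10 := mul_le_mul hat (hs2 b hb0).2 (norm_nonneg _) (by linarith)
    have h11 := (ht2 _ hs0).2
    linarith
  have hexp : B.c (s * t * s⁻¹ * t⁻¹) b' = ((B.c s (A.β t b) - B.c s b) -
      (B.c t (A.β s b) - B.c t b)) + ((B.a s (A.β t b) - 1) * B.c t b -
      (B.a t (A.β s b) - 1) * B.c s b) + (1 - B.a (s * t * s⁻¹ * t⁻¹) b') *
      (B.a t (A.β s b) * B.c s b + B.c t (A.β s b)) := by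
    rw [coc_c B s t hD h7]; ring
  rw [hexp]
  have n1 : ‖(B.a s (A.β t b) - 1) * B.c t b‖ ≤ δ * M := by
    rw [norm_mul]
    exact mul_le_mul (hs2 _ ht0).1 (ht2 b hb0).2 (norm_nonneg _) hδ
  have n2 : ‖(B.a t (A.β s b) - 1) * B.c s b‖ ≤ δ * M := by
    rw [norm_mul]
    exact mul_le_mul (ht2 _ hs0).1 (hs2 b hb0).2 (norm_nonneg _) hδ
  have n3 : ‖(1 - B.a (s * t * s⁻¹ * t⁻¹) b') *
      (B.a t (A.β s b) * B.c s b + B.c t (A.β s b))‖ ≤ δ' * ((2 + δ) * M) := by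
    rw [norm_mul, norm_sub_rev]
    exact mul_le_mul (hw b' hb') hcts (norm_nonneg _) hδ'
  have e5 : (16 * C1 * e / (ρ - ρ') + 2 * δ + δ' * (2 + δ)) * M =
      ((4 * M / ((ρ - ρ') / 2) * (C1 * e) + 4 * M / ((ρ - ρ') / 2) * (C1 * e)) +
        (δ * M + δ * M)) + δ' * ((2 + δ) * M) := by
    field_simp
    ring
  rw [e5]
  refine (norm_add_le _ _).trans (add_le_add ((norm_add_le _ _).trans (add_le_add ?_ ?_)) n3)
  · exact (norm_sub_le _ _).trans (add_le_add (e1.trans e3) (e2.trans e4))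
  · exact (norm_sub_le _ _).trans (add_le_add n1 n2)

end Pool.Agent.H.MP_e23cd6_ag.AK
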