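import Pool.Agent.H.MP_e23cd6_ag.AB.E2
import Pool.Agent.H.MP_e23cd6_ag.AK.Ma1

/-!
ABUM Ma2: translation parts of iterated commutators tend to zero (one coordinate of a diagonal affine action), as in AB/E3b.lean.
-/

open Set Filter Topology Metric

namespace Pool.Agent.H.MP_e23cd6_ag.AK

open Pool.Agent.H.MP_e23cd6_ag.AB

variable {n : ℕ} {Ω : Dom n} {Γ : Type} [Group Γ]

private theorem Ma2_tendsto {u r : ℕ → ℝ} (h0 : ∀ k, 0 ≤ u k)
    (h : ∀ k, u (k + 1) ≤ r k * u k) (hr : Tendsto r atTop (𝓝 0)) : Tendsto u atTop (𝓝 0) := by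
  have h1 : ∀ᶠ k in atTop, r k ≤ 1 / 2 := hr.eventually_le_const (by norm_num)
  have h2 : Summable u := by
    refine summable_of_ratio_norm_eventually_le (r := 1 / 2) (by norm_num) ?_
    filter_upwards [h1] with k hk
    rw [Real.norm_of_nonneg (h0 _), Real.norm_of_nonneg (h0 _)]
    exact (h k).trans (mul_le_mul_of_nonneg_right hk (h0 k))
  exact h2.tendsto_atTop_zero

private theorem Ma2_bound {S : Set Γ} (hS : S.Finite) {P : Γ → ℝ → Prop}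
    (hP : ∀ s ∈ S, ∃ M, P s M) (hmono : ∀ s M M', M ≤ M' → P s M → P s M') :
    ∃ M, 0 ≤ M ∧ ∀ s ∈ S, P s M := by
  classical
  choose! f hf using hP
  obtain ⟨B, hB⟩ := (hS.image f).bddAbove
  refine ⟨max B 0, le_max_right _ _, fun s hs => ?_⟩
  exact hmono s (f s) _ ((hB (mem_image_of_mem f hs)).trans (le_max_left _ _)) (hf s hs)

private theorem Ma2_exp {z : ℂ} {L : ℝ} (h : ‖z‖ ≤ L) : ‖Complex.exp z - 1‖ ≤ Real.exp L - 1 := by
  have h1 := Complex.norm_exp_sub_sum_le_exp_norm_sub_sum z 1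
  simp only [Finset.range_one, Finset.sum_singleton, pow_zero, Nat.factorial_zero, Nat.cast_one,
    div_one] at h1
  have h2 := Real.exp_le_exp.2 h
  linarith

theorem coc_small {A : BaseAct Ω Γ} (B : Coc A) :
    ∃ q0 : ℝ, 0 < q0 ∧ ∀ q : ℝ, 0 < q → q ≤ q0 → ∀ S0 : Set Γ, S0.Finite →
      (∀ k : ℕ, ∀ s ∈ comSet^[k] S0, ∀ b ∈ Ω.B, ‖A.β s b - b‖ ≤ q ^ (2 ^ k)) →
      ∃ M : ℕ → ℝ, Tendsto M atTop (𝓝 0) ∧ ∀ k, ∀ s ∈ comSet^[k] S0, ‖B.c s Ω.b0‖ ≤ M k := by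
  obtain ⟨C1, κ1, hC1, hκ1, hlog⟩ := coc_log_step B
  obtain ⟨C2, κ2, hC2, hκ2, hcs⟩ := coc_c_step B
  obtain ⟨κ, hκdef⟩ : ∃ κ : ℝ, κ = min κ1 κ2 := ⟨_, rfl⟩
  have hκ : 0 < κ := by rw [hκdef]; exact lt_min hκ1 hκ2
  have hκ1' : κ ≤ κ1 := by rw [hκdef]; exact min_le_left _ _
  have hκ2' : κ ≤ κ2 := by rw [hκdef]; exact min_le_right _ _
  have hr0 := Ω.hr0
  have hr01 := Ω.hr01
  obtain ⟨d, hd⟩ : ∃ d : ℝ, d = Ω.r1 - Ω.r0 := ⟨_, rfl⟩
  have hd0 : 0 < d := by rw [hd]; linarith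
  obtain ⟨ρ, hρ⟩ : ∃ ρ : ℕ → ℝ, ∀ k, ρ k = Ω.r0 + d / 2 ^ (k + 1) := ⟨_, fun k => rfl⟩
  have hρ0 : ∀ k, 0 < ρ k := fun k => by rw [hρ]; positivity
  have hgap : ∀ k, ρ k - ρ (k + 1) = d / 2 ^ (k + 2) := by
    intro k
    rw [hρ, hρ, pow_succ 2 (k + 1)]
    field_simp
    ring
  have hgap0 : ∀ k, 0 < ρ k - ρ (k + 1) := fun k => by rw [hgap]; positivity
  have hρlt : ∀ k, ρ (k + 1) < ρ k := fun k => by linarith [hgap0 k]
  have hρ1 : ∀ k, ρ k < Ω.r1 := by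
    intro k
    rw [hρ]
    have h1 : d / 2 ^ (k + 1) < d := by
      rw [div_lt_iff₀ (by positivity)]
      have : (1 : ℝ) < 2 ^ (k + 1) := one_lt_pow₀ (by norm_num) (by omega)
      nlinarith
    linarith
  refine ⟨min (1 / 4) (κ * d / 4), lt_min (by norm_num) (by positivity),
    fun q hq0 hqle S0 hS0 hsmall => ?_⟩
  have hq1 : q ≤ 1 / 4 := hqle.trans (min_le_left _ _)
  have hq2 : q ≤ κ * d / 4 := hqle.trans (min_le_right _ _)
  obtain ⟨e, he⟩ : ∃ e : ℕ → ℝ, ∀ k, e k = q ^ (2 ^ k) := ⟨_, fun k => rfl⟩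
  have he0 : ∀ k, 0 ≤ e k := fun k => by rw [he]; positivity
  have he1 : ∀ k, e k ≤ q * (1 / 4) ^ k := by
    intro k
    rw [he]
    have h1 : k + 1 ≤ 2 ^ k := Nat.lt_two_pow_self
    calc q ^ (2 ^ k) ≤ q ^ (k + 1) := pow_le_pow_of_le_one hq0.le (by linarith) h1
      _ = q * q ^ k := by rw [pow_succ, mul_comm]
      _ ≤ q * (1 / 4) ^ k := mul_le_mul_of_nonneg_left (pow_le_pow_left₀ hq0.le hq1 k) hq0.le
  have heq : ∀ k, e k ≤ q := by
    intro k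
    refine (he1 k).trans ?_
    have : (1 / 4 : ℝ) ^ k ≤ 1 := pow_le_one₀ (by norm_num) (by norm_num)
    nlinarith
  have hek : ∀ k, e k ≤ κ * (ρ k - ρ (k + 1)) := by
    intro k
    rw [hgap]
    refine (he1 k).trans ?_
    have h1 : q * (1 / 4) ^ k ≤ κ * d / 4 * (1 / 2) ^ k := by
      apply mul_le_mul hq2 _ (by positivity) (by positivity)
      exact pow_le_pow_left₀ (by norm_num) (by norm_num) k
    refine h1.trans (le_of_eq ?_)
    rw [pow_add, one_div, inv_pow]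
    field_simp
    norm_num
  have hratio : Tendsto (fun k => e k / (ρ k - ρ (k + 1))) atTop (𝓝 0) := by
    have h1 : ∀ k, e k / (ρ k - ρ (k + 1)) ≤ 4 * q / d * (1 / 2) ^ k := by
      intro k
      rw [hgap, div_le_iff₀ (by positivity)]
      refine (he1 k).trans (le_of_eq ?_)
      have h2 : (1 / 4 : ℝ) ^ k = (1 / 2) ^ k * (1 / 2) ^ k := by
        rw [← mul_pow]; norm_num
      have h3 : (2 : ℝ) ^ (k + 2) = 4 * 2 ^ k := by ring
      have h4 : (1 / 2 : ℝ) ^ k * 2 ^ k = 1 := by rw [← mul_pow]; norm_num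
      rw [h2, h3]
      field_simp
      ring_nf
      ring_nf at h4
      try nlinarith [h4]
    have h2 : Tendsto (fun k : ℕ => 4 * q / d * (1 / 2 : ℝ) ^ k) atTop (𝓝 0) := by
      have := (tendsto_pow_atTop_nhds_zero_of_lt_one (r := (1 / 2 : ℝ)) (by norm_num)
        (by norm_num)).const_mul (4 * q / d)
      simpa using this
    exact squeeze_zero (fun k => div_nonneg (he0 k) (hgap0 k).le) h1 h2
  have hsucc : ∀ k, comSet^[k + 1] S0 = comSet (comSet^[k] S0) := fun k =>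
    Function.iterate_succ_apply' _ _ _
  have hsub0 : closedBall Ω.b0 (ρ 0) ⊆ ball Ω.b0 Ω.r1 := closedBall_subset_ball (hρ1 0)
  have hbD : ball Ω.b0 Ω.r1 ⊆ Ω.D := ball_subset_closedBall.trans Ω.hB
  -- logarithms
  obtain ⟨L0, hL0, hL0'⟩ : ∃ M, 0 ≤ M ∧ ∀ s ∈ S0, ∃ l : E n → ℂ,
      DifferentiableOn ℂ l (ball Ω.b0 (ρ 0)) ∧
        ∀ b ∈ ball Ω.b0 (ρ 0), Complex.exp (l b) = B.a s b ∧ ‖l b‖ ≤ M := by
    refine Ma2_bound hS0 (P := fun s M => ∃ l : E n → ℂ,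
      DifferentiableOn ℂ l (ball Ω.b0 (ρ 0)) ∧
        ∀ b ∈ ball Ω.b0 (ρ 0), Complex.exp (l b) = B.a s b ∧ ‖l b‖ ≤ M) ?_ ?_
    · intro s _
      obtain ⟨l, hl, hl'⟩ := exists_log ((B.a_holo s).mono hbD) (fun b hb => B.a_ne s b (hbD hb))
      obtain ⟨M, hM⟩ := (isCompact_closedBall Ω.b0 (ρ 0)).exists_bound_of_continuousOn
        (hl.continuousOn.mono hsub0)
      exact ⟨M, l, hl.mono (ball_subset_ball (hρ1 0).le), fun b hb =>
        ⟨hl' b (ball_subset_ball (hρ1 0).le hb), hM b (ball_subset_closedBall hb)⟩⟩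
    · rintro s M M' hMM' ⟨l, hl, hl'⟩
      exact ⟨l, hl, fun b hb => ⟨(hl' b hb).1, (hl' b hb).2.trans hMM'⟩⟩
  obtain ⟨Λ, hΛ0, hΛ1⟩ : ∃ Λ : ℕ → ℝ, Λ 0 = L0 ∧
      ∀ k, Λ (k + 1) = C1 * Λ k * e k / (ρ k - ρ (k + 1)) :=
    ⟨fun k => Nat.rec (motive := fun _ => ℝ) L0
      (fun k x => C1 * x * e k / (ρ k - ρ (k + 1))) k, rfl, fun k => rfl⟩
  have hΛnn : ∀ k, 0 ≤ Λ k := by
    intro k
    induction k with
    | zero => rw [hΛ0]; exact hL0
    | succ k ih =>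
      rw [hΛ1]
      exact div_nonneg (mul_nonneg (mul_nonneg hC1.le ih) (he0 k)) (hgap0 k).le
  have hΛt : Tendsto Λ atTop (𝓝 0) := by
    refine Ma2_tendsto (r := fun k => C1 * (e k / (ρ k - ρ (k + 1)))) hΛnn ?_ ?_
    · intro k
      rw [hΛ1]
      apply le_of_eq
      ring
    · simpa using hratio.const_mul C1
  have hsm : ∀ k, ∀ s ∈ comSet^[k] S0, ∀ b ∈ Ω.B, ‖A.β s b - b‖ ≤ e k := by
    intro k s hs b hb
    rw [he]
    exact hsmall k s hs b hb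
  have hlogs : ∀ k, ∀ s ∈ comSet^[k] S0, ∃ l : E n → ℂ,
      DifferentiableOn ℂ l (ball Ω.b0 (ρ k)) ∧
        ∀ b ∈ ball Ω.b0 (ρ k), Complex.exp (l b) = B.a s b ∧ ‖l b‖ ≤ Λ k := by
    intro k
    induction k with
    | zero =>
      intro s hs
      rw [hΛ0]
      exact hL0' s hs
    | succ k ih =>
      intro w hw
      rw [hsucc] at hw
      obtain ⟨s, hs, t, ht, rfl⟩ := hw
      obtain ⟨ls, hls, hls'⟩ := ih s hs
      obtain ⟨lt', hlt, hlt'⟩ := ih t ht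
      rw [hΛ1]
      exact hlog s t ls lt' (ρ k) (ρ (k + 1)) (Λ k) (e k) (hρ0 _) (hρlt k) (hρ1 k).le (he0 k)
        ((hek k).trans (mul_le_mul_of_nonneg_right hκ1' (hgap0 k).le)) (hsm k s hs) (hsm k t ht)
        hls hlt hls' hlt'
  -- linear parts
  obtain ⟨δ, hδ⟩ : ∃ δ : ℕ → ℝ, ∀ k, δ k = Real.exp (Λ k) - 1 := ⟨_, fun k => rfl⟩
  have hδ0 : ∀ k, 0 ≤ δ k := by
    intro k
    rw [hδ]
    have := Real.one_le_exp (hΛnn k)
    linarith
  have hδt : Tendsto δ atTop (𝓝 0) := by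
    have h1 : Tendsto (fun k => Real.exp (Λ k) - 1) atTop (𝓝 (Real.exp 0 - 1)) :=
      ((Real.continuous_exp.tendsto 0).comp hΛt).sub_const 1
    rw [Real.exp_zero, sub_self] at h1
    exact h1.congr fun k => (hδ k).symm
  have has : ∀ k, ∀ s ∈ comSet^[k] S0, ∀ b ∈ ball Ω.b0 (ρ k), ‖B.a s b - 1‖ ≤ δ k := by
    intro k s hs b hb
    obtain ⟨l, _, hl⟩ := hlogs k s hs
    rw [← (hl b hb).1, hδ]
    exact Ma2_exp (hl b hb).2
  -- translation parts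
  obtain ⟨M0, hM0, hM0'⟩ : ∃ M, 0 ≤ M ∧ ∀ s ∈ S0, ∀ b ∈ ball Ω.b0 (ρ 0), ‖B.c s b‖ ≤ M := by
    refine Ma2_bound hS0 (P := fun s M => ∀ b ∈ ball Ω.b0 (ρ 0), ‖B.c s b‖ ≤ M) ?_ ?_
    · intro s _
      obtain ⟨M, hM⟩ := (isCompact_closedBall Ω.b0 (ρ 0)).exists_bound_of_continuousOn
        ((B.c_holo s).continuousOn.mono (hsub0.trans hbD))
      exact ⟨M, fun b hb => hM b (ball_subset_closedBall hb)⟩
    · intro s M M' hMM' h b hb
      exact (h b hb).trans hMM'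
  obtain ⟨M, hMz, hMs⟩ : ∃ M : ℕ → ℝ, M 0 = M0 ∧ ∀ k, M (k + 1) =
      (C2 * e k / (ρ k - ρ (k + 1)) + 2 * δ k + δ (k + 1) * (2 + δ k)) * M k :=
    ⟨fun k => Nat.rec (motive := fun _ => ℝ) M0
      (fun k x => (C2 * e k / (ρ k - ρ (k + 1)) + 2 * δ k + δ (k + 1) * (2 + δ k)) * x) k,
      rfl, fun k => rfl⟩
  have hMnn : ∀ k, 0 ≤ M k := by
    intro k
    induction k with
    | zero => rw [hMz]; exact hM0
    | succ k ih =>
      rw [hMs]
      have h1 := hδ0 k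
      have h2 := hδ0 (k + 1)
      have h3 : 0 ≤ C2 * e k / (ρ k - ρ (k + 1)) :=
        div_nonneg (mul_nonneg hC2.le (he0 k)) (hgap0 k).le
      positivity
  have hMt : Tendsto M atTop (𝓝 0) := by
    refine Ma2_tendsto (r := fun k => C2 * e k / (ρ k - ρ (k + 1)) + 2 * δ k +
      δ (k + 1) * (2 + δ k)) hMnn (fun k => (hMs k).le) ?_
    have h1 : Tendsto (fun k => C2 * e k / (ρ k - ρ (k + 1))) atTop (𝓝 0) := by
      have := hratio.const_mul C2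
      rw [mul_zero] at this
      exact this.congr fun k => by ring
    have h2 := hδt.const_mul 2
    have h3 := (hδt.comp (tendsto_add_atTop_nat 1)).mul (hδt.const_add 2)
    have h4 := (h1.add h2).add h3
    simpa using h4
  have hcb : ∀ k, ∀ s ∈ comSet^[k] S0, ∀ b ∈ ball Ω.b0 (ρ k), ‖B.c s b‖ ≤ M k := by
    intro k
    induction k with
    | zero =>
      intro s hs
      rw [hMz]
      exact hM0' s hs
    | succ k ih =>
      intro w hw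
      have hw' := hw
      rw [hsucc] at hw
      obtain ⟨s, hs, t, ht, rfl⟩ := hw
      rw [hMs]
      exact hcs s t (ρ k) (ρ (k + 1)) (M k) (e k) (δ k) (δ (k + 1)) (hρ0 _) (hρlt k) (hρ1 k).le
        (he0 k) ((hek k).trans (mul_le_mul_of_nonneg_right hκ2' (hgap0 k).le))
        (hsm k s hs) (hsm k t ht) (fun b hb => ⟨has k s hs b hb, ih s hs b hb⟩)
        (fun b hb => ⟨has k t ht b hb, ih t ht b hb⟩) (has (k + 1) _ hw')
  exact ⟨M, hMt, fun k s hs => hcb k s hs _ (mem_ball_self (hρ0 k))⟩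

end Pool.Agent.H.MP_e23cd6_ag.AK
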