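import Pool.Agent.H.MP_e23cd6_ag.AB.E2b
import Pool.Agent.H.MP_e23cd6_ag.AB.H1
import Pool.Agent.H.MP_e23cd6_ag.AK.Ex
import Pool.Agent.H.MP_e23cd6_ag.AK.G9
import Pool.Agent.H.MP_e23cd6_ag.AK.Ma2

/-!
ABUM Ma3: actions whose linear parts in the fibres are diagonal have no limit fields.

`exists_coc`. The i-th coordinate: `a γ b = dg A γ b i`, `c γ b = A.c γ b i`. holomorphic: `b ↦ A.L γ b (Pi.single i 1) i` (evaluation of the holomorphic A.L γ). a_mul from `A.L_mul` (apply to `Pi.single i 1`, coordinate i, IsDiag), c_mul from `A.c_mul` and IsDiag; a_ne: `a γ⁻¹ (β γ b) * a γ b = 1`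
from `A.L_inv_mul` (coordinate i of the value at `Pi.single i 1`).

`comm_trivial_diag`. For each i take q_i from `coc_small` (for the cocycle of `exists_coc`); q = the minimum of all q_i and of `Ω.r1`, `1/2` (finite set; if kk = 0 just min r1 (1/2)). Given S0: for each i a sequence M_i → 0 with `‖A.c s Ω.b0 i‖ ≤ M_i k` for s ∈ S_k = comSet^[k] S0. So there is k0 with
`‖A.c s Ω.b0‖ ≤ 1` for s ∈ S_k, k ≥ k0 (`pi_norm_le_iff_of_nonneg`, finitely many i). The rest is the end of the proof of `comm_trivial_fib` in AK/Ec.lean: `F = {γ | ∃ x ∈ K', act γ x ∈ K'}`, `K' = closedBall b0 r1 ×ˢ closedBall 0 1`, is finite (A.pd), contains all s ∈ S_k for k ≥ k0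
(x = (b0, 0), `|β s b0 - b0| ≤ q^(2^k) ≤ q ≤ r1`); a γ ∈ F not acting trivially on D moves some point of B (`ident`); for k large `q^(2^k)` is smaller than these finitely many displacements.
-/

open Set Filter Topology Metric

namespace Pool.Agent.H.MP_e23cd6_ag.AK

open Pool.Agent.H.MP_e23cd6_ag.AB

variable {n kk : ℕ} {Ω : Dom n} {Γ : Type} [Group Γ]

/-- the diagonal entries of the linear part -/
noncomputable def dg (A : FibAct Ω kk Γ) (γ : Γ) (b : E n) (i : Fin kk) : ℂ :=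
  A.L γ b (Pi.single i 1) i

/-- all linear parts are diagonal -/
def IsDiag (A : FibAct Ω kk Γ) : Prop :=
  ∀ γ, ∀ b ∈ Ω.D, ∀ (v : E kk) (i : Fin kk), A.L γ b v i = dg A γ b i * v i

theorem exists_coc (A : FibAct Ω kk Γ) (hA : IsDiag A) (i : Fin kk) :
    ∃ B : Coc A.toBaseAct, (∀ γ b, B.a γ b = dg A γ b i) ∧ ∀ γ b, B.c γ b = A.c γ b i := by
  have key : ∀ γ δ, ∀ b ∈ Ω.D, dg A (γ * δ) b i = dg A γ (A.β δ b) i * dg A δ b i := by
    intro γ δ b hb
    have h2 : A.L (γ * δ) b (Pi.single i 1) i =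
        A.L γ (A.β δ b) (A.L δ b (Pi.single i 1)) i := by
      rw [A.L_mul γ δ hb]
      rfl
    rw [hA γ _ (A.mem δ hb)] at h2
    exact h2
  refine ⟨⟨fun γ b => dg A γ b i, fun γ b => A.c γ b i, fun γ => ?_, fun γ => ?_,
    fun γ b hb h0 => ?_, key, fun γ δ b hb => ?_⟩, fun _ _ => rfl, fun _ _ => rfl⟩
  · have h1 : DifferentiableOn ℂ (fun b => A.L γ b (Pi.single i 1)) Ω.D :=
      (A.L_holo γ).clm_apply (differentiableOn_const _)
    exact differentiableOn_pi.1 h1 i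
  · exact differentiableOn_pi.1 (A.c_holo γ) i
  · have h := key γ⁻¹ γ b hb
    rw [h0, mul_zero, inv_mul_cancel] at h
    have h1 : dg A 1 b i = 1 := by
      unfold dg
      rw [A.L_one hb]
      simp
    rw [h1] at h
    exact one_ne_zero h
  · have h2 := congrFun (A.c_mul γ δ hb) i
    rw [Pi.add_apply, hA γ _ (A.mem δ hb)] at h2
    exact h2

theorem comm_trivial_diag (A : FibAct Ω kk Γ) (hA : IsDiag A) :
    ∃ q : ℝ, 0 < q ∧ ∀ S0 : Set Γ, S0.Finite →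
      (∀ k : ℕ, ∀ s ∈ comSet^[k] S0, ∀ b ∈ Ω.B, ‖A.β s b - b‖ ≤ q ^ (2 ^ k)) →
      ∃ k : ℕ, ∀ s ∈ comSet^[k] S0, ∀ b ∈ Ω.D, A.β s b = b := by
  choose B hBa hBc using fun i => exists_coc A hA i
  choose q0 hq0 hsm using fun i => coc_small (B i)
  have hr0 := Ω.hr0
  have hr01 := Ω.hr01
  have hsmallq : ∀ c : ℝ, 0 < c → ∀ᶠ q in 𝓝[>] (0 : ℝ), q ≤ c := by
    intro c hc
    filter_upwards [Ioc_mem_nhdsGT hc] with q hq using hq.2
  obtain ⟨q, ⟨hq1, hq2, hq3⟩, hq⟩ : ∃ q : ℝ, (q ≤ 1 / 4 ∧ q ≤ Ω.r1 ∧ ∀ i, q ≤ q0 i) ∧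
      q ∈ Ioi (0 : ℝ) :=
    (((hsmallq (1 / 4) (by norm_num)).and ((hsmallq Ω.r1 (by linarith)).and
      (eventually_all.2 fun i => hsmallq (q0 i) (hq0 i)))).and self_mem_nhdsWithin).exists
  have hq0' : 0 < q := hq
  refine ⟨q, hq0', fun S0 hS0 hsmall => ?_⟩
  choose M hMt hM using fun i => hsm i q hq0' (hq3 i) S0 hS0 hsmall
  obtain ⟨e, he⟩ : ∃ e : ℕ → ℝ, ∀ k, e k = q ^ (2 ^ k) := ⟨_, fun k => rfl⟩
  have he0 : ∀ k, 0 ≤ e k := fun k => by rw [he]; positivity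
  have he1 : ∀ k, e k ≤ q * (1 / 4) ^ k := by
    intro k
    rw [he]
    have h1 : k + 1 ≤ 2 ^ k := Nat.lt_two_pow_self
    calc q ^ (2 ^ k) ≤ q ^ (k + 1) := pow_le_pow_of_le_one hq0'.le (by linarith) h1
      _ = q * q ^ k := by rw [pow_succ, mul_comm]
      _ ≤ q * (1 / 4) ^ k :=
        mul_le_mul_of_nonneg_left (pow_le_pow_left₀ hq0'.le hq1 k) hq0'.le
  have heq : ∀ k, e k ≤ q := by
    intro k
    refine (he1 k).trans ?_
    have : (1 / 4 : ℝ) ^ k ≤ 1 := pow_le_one₀ (by norm_num) (by norm_num)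
    nlinarith
  have hsm' : ∀ k, ∀ s ∈ comSet^[k] S0, ∀ b ∈ Ω.B, ‖A.β s b - b‖ ≤ e k := by
    intro k s hs b hb
    rw [he]
    exact hsmall k s hs b hb
  have hF := A.pd (closedBall Ω.b0 Ω.r1 ×ˢ closedBall (0 : E kk) 1)
    (prod_mono Ω.hB (subset_univ _)) ((isCompact_closedBall _ _).prod (isCompact_closedBall _ _))
  have het : Tendsto e atTop (𝓝 0) := by
    have h2 : Tendsto (fun k : ℕ => q * (1 / 4 : ℝ) ^ k) atTop (𝓝 0) := by
      have := (tendsto_pow_atTop_nhds_zero_of_lt_one (r := (1 / 4 : ℝ)) (by norm_num)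
        (by norm_num)).const_mul q
      simpa using this
    exact squeeze_zero he0 he1 h2
  have hev : ∀ᶠ k in atTop, ∀ γ ∈ {γ | ∃ x ∈ closedBall Ω.b0 Ω.r1 ×ˢ closedBall (0 : E kk) 1,
      A.act γ x ∈ closedBall Ω.b0 Ω.r1 ×ˢ closedBall (0 : E kk) 1},
      (∀ b ∈ Ω.B, ‖A.β γ b - b‖ ≤ e k) → ∀ b ∈ Ω.D, A.β γ b = b := by
    rw [eventually_all_finite hF]
    intro γ _
    by_cases hγ : ∀ b ∈ Ω.D, A.β γ b = b
    · exact Eventually.of_forall fun k _ => hγ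
    · obtain ⟨b, hb, hne⟩ : ∃ b ∈ Ω.B, A.β γ b ≠ b := by
        by_contra hcon
        push Not at hcon
        apply hγ
        have h1 := ident Ω.isOpen Ω.conn (A.holo γ) (differentiableOn_id) hr0
          (ball_subset_closedBall.trans Ω.B_sub)
          (fun y hy => hcon y (ball_subset_closedBall hy))
        exact fun b hb => h1 hb
      have hpos : 0 < ‖A.β γ b - b‖ := norm_pos_iff.2 (sub_ne_zero.2 hne)
      filter_upwards [het.eventually_lt_const hpos] with k hk hall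
      exact absurd (hall b hb) (not_le.2 hk)
  have hev2 : ∀ᶠ k in atTop, ∀ i, M i k ≤ 1 :=
    eventually_all.2 fun i => (hMt i).eventually_le_const (by norm_num)
  obtain ⟨k, hk1, hk2⟩ := (hev.and hev2).exists
  refine ⟨k, fun s hs => hk1 s ?_ (hsm' k s hs)⟩
  have hmem : Ω.b0 ∈ closedBall Ω.b0 Ω.r1 := mem_closedBall_self (by linarith)
  refine ⟨(Ω.b0, 0), ⟨hmem, mem_closedBall_self (by norm_num)⟩, ?_⟩
  rw [A.act_eq s _ (Ω.hB hmem), map_zero, zero_add]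
  refine ⟨?_, ?_⟩
  · show A.β s Ω.b0 ∈ closedBall Ω.b0 Ω.r1
    rw [mem_closedBall, dist_eq_norm]
    exact ((hsm' k s hs _ Ω.b0_mem_B).trans (heq k)).trans hq2
  · show A.c s Ω.b0 ∈ closedBall (0 : E kk) 1
    rw [mem_closedBall, dist_zero_right, pi_norm_le_iff_of_nonneg zero_le_one]
    intro i
    have h1 := hM i k s hs
    rw [hBc i] at h1
    exact h1.trans (hk2 i)

theorem no_perfect_diag (A : FibAct Ω kk Γ) (hA : IsDiag A)
    (P : Submodule ℝ (Lie A.toBaseAct))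
    (hP : ∀ δ, ∀ X ∈ P, AdL A.toBaseAct δ X ∈ P)
    (hperf : P ≤ Submodule.span ℝ {Z | ∃ X ∈ P, ∃ Y ∈ P, Z = brL A.toBaseAct X Y}) : P = ⊥ := by
  by_contra hne
  obtain ⟨q, hq, h⟩ := comm_trivial_diag A hA
  obtain ⟨S0, hfin, hS⟩ := small_comm A.toBaseAct P hP hne hperf hq
  obtain ⟨k, hk⟩ := h S0 hfin (fun k => (hS k).1)
  obtain ⟨s, hs, b, hb, hne'⟩ := (hS k).2
  exact hne' (hk s hs b hb)

theorem base_pd_diag (A : FibAct Ω kk Γ) (hA : IsDiag A) (h : KMet (TM Ω kk))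
    (hinv : InvMet A.toTotAct h) : BasePD A.toBaseAct := by
  refine base_pd A.toBaseAct fun X => ?_
  by_contra hX
  obtain ⟨P, hne, hst, hab⟩ := exists_abelian_of A.toBaseAct (no_perfect_diag A hA) ⟨X, hX⟩
  exact hne (no_abelian A.toTotAct h hinv P hst hab)

end Pool.Agent.H.MP_e23cd6_ag.AK
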