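import Pool.Agent.H.MP_e23cd6_ag.AK.Mb3a

/-!
ABUM Mb3b: the linear parts of a properly discontinuous cocompact group of diagonal affine maps preserving a Kaehler metric are unitary.

Notation: r, w from `exists_basis` (AK/Mb1b), `pt x = Σ_j x_j • w_j`, `av v v' z` the average (AK/Mb3a).

`av_inv`: `av (a γ * v) (a γ * v') (a γ * z + c γ) = av v v' z`. `a γ⁻¹ * w j ∈ lam` so `= Σ_l N_{lj} w l` with integers, `a γ * w j = Σ_l N'_{lj} w l`; N N' = N' N = 1 by linear independence (a γ * a γ⁻¹ = 1). `a γ⁻¹ * pt x = pt (N x)`, so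
`a γ * z + c γ + pt x = a γ * (z + pt (N x)) + c γ` and the integrand is `h.h (a γ * (z + pt (N x)) + c γ) (a γ * v) (a γ * v') = h.h (z + pt (N x)) v v'`; `per_int` with N (y = 0).

`diag_unit`. Let γ, i be given with `a γ i ≠ 1` (otherwise ‖1‖ = 1). For ζ ∈ ℂ: `Pi.single i ζ = (a γ - 1) * Pi.single i (ζ/(a γ i - 1)) ∈ W` (`sub_one_mem`). Put `ei = Pi.single i 1`, `f z = av ei ei z`. For all u, z: `dz f z u = dz (av u ei) z ei = 0`, because `av u ei (z + s • ei) = av u ei z` and
`av u ei (z + s • (I • ei)) = av u ei z` for real s (av_W), so both directional derivatives vanish. f has values with imaginary part 0, so `fderiv ℝ f z u` and `fderiv ℝ f z (I u)` are real (imaginary part zero), and `dz f z u = ½ (Df u - I Df (I u)) = 0` gives `Df u = 0`. So f is constant (`is_const_of_fderiv_eq_zero`), f = C with Re C > 0.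
`av_inv` with v = v' = ei, z = 0: `a γ * ei = (a γ i) • ei`, so `|a γ i|² C = C`, `‖a γ i‖ = 1`.
-/

open Set Filter Topology Metric MeasureTheory
open scoped ContDiff ComplexConjugate

namespace Pool.Agent.H.MP_e23cd6_ag.AK

open Pool.Agent.H.MP_e23cd6_ag.AB

variable {kk : ℕ} {N : Type} [Group N]

/-- multiplication by a linear part in the coordinates of a lattice basis -/
theorem mul_sum_smul {r : ℕ} (a : E kk) (w : Fin r → E kk) (x : Fin r → ℝ) :
    a * ∑ j, x j • w j = ∑ j, x j • (a * w j) := by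
  rw [Finset.mul_sum]
  exact Finset.sum_congr rfl fun j _ => mul_smul_comm _ _ _

theorem av_inv (B : FAct kk N) (h : KMet (univ : Set (E kk)))
    (hinv : ∀ γ z v v', h.h (B.a γ * z + B.c γ) (B.a γ * v) (B.a γ * v') = h.h z v v')
    {r : ℕ} (w : Fin r → E kk) (hw : ∀ j, w j ∈ B.lam) (hli : LinearIndependent ℝ w)
    (hb : ∀ z ∈ B.lam, ∃ m : Fin r → ℤ, z = ∑ j, (m j : ℝ) • w j) (γ : N) (v v' z : E kk) :
    av w h (B.a γ * v) (B.a γ * v') (B.a γ * z + B.c γ) = av w h v v' z := by
  have haa : ∀ δ : N, ∃ Nm : Matrix (Fin r) (Fin r) ℤ, ∀ j,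
      B.a δ * w j = ∑ l, (Nm l j : ℝ) • w l := by
    intro δ
    choose m hm using fun j => hb _ (B.lam_mul δ (hw j))
    exact ⟨fun l j => m j l, fun j => hm j⟩
  have hcomp : ∀ (δ δ' : N), B.a δ * B.a δ' = 1 → ∀ Nm Nm' : Matrix (Fin r) (Fin r) ℤ,
      (∀ j, B.a δ * w j = ∑ l, (Nm l j : ℝ) • w l) →
      (∀ j, B.a δ' * w j = ∑ l, (Nm' l j : ℝ) • w l) → Nm * Nm' = 1 := by
    intro δ δ' hδ Nm Nm' h1 h2
    ext i j
    have h3 : w j = ∑ i, (((Nm * Nm') i j : ℤ) : ℝ) • w i := by
      calc w j = B.a δ * (B.a δ' * w j) := by rw [← mul_assoc, hδ, one_mul]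
        _ = ∑ l, (Nm' l j : ℝ) • (B.a δ * w l) := by
            rw [h2 j]; exact mul_sum_smul _ _ _
        _ = ∑ l, ∑ i, ((Nm' l j : ℝ) * (Nm i l : ℝ)) • w i := by
            refine Finset.sum_congr rfl fun l _ => ?_
            rw [h1 l, Finset.smul_sum]
            exact Finset.sum_congr rfl fun i _ => smul_smul _ _ _
        _ = ∑ i, (((Nm * Nm') i j : ℤ) : ℝ) • w i := by
            rw [Finset.sum_comm]
            refine Finset.sum_congr rfl fun i _ => ?_
            rw [← Finset.sum_smul, Matrix.mul_apply]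
            congr 1
            push_cast
            exact Finset.sum_congr rfl fun l _ => mul_comm _ _
    have h4 : ∑ i, ((((Nm * Nm') i j : ℤ) : ℝ) - (if i = j then 1 else 0)) • w i = 0 := by
      simp only [sub_smul, Finset.sum_sub_distrib, ite_smul, one_smul, zero_smul,
        Finset.sum_ite_eq', Finset.mem_univ, if_true]
      rw [← h3, sub_self]
    have h5 := Fintype.linearIndependent_iff.1 hli _ h4 i
    rw [Matrix.one_apply]
    have h6 : (((Nm * Nm') i j : ℤ) : ℝ) = if i = j then 1 else 0 := by linarith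
    split_ifs with hij
    · rw [if_pos hij] at h6
      exact_mod_cast h6
    · rw [if_neg hij] at h6
      exact_mod_cast h6
  have hinv1 : B.a γ⁻¹ * B.a γ = 1 := by
    rw [← B.a_mul, inv_mul_cancel, B.a_one]
  have hinv2 : B.a γ * B.a γ⁻¹ = 1 := by
    rw [← B.a_mul, mul_inv_cancel, B.a_one]
  obtain ⟨Nm, hNm⟩ := haa γ⁻¹
  obtain ⟨Nm', hNm'⟩ := haa γ
  have hN := hcomp _ _ hinv1 Nm Nm' hNm hNm'
  have hN' := hcomp _ _ hinv2 Nm' Nm hNm' hNm
  have hpt : ∀ x : Fin r → ℝ, B.a γ⁻¹ * ∑ j, x j • w j =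
      ∑ l, ((Nm.map (Int.cast : ℤ → ℝ)).mulVec x) l • w l := by
    intro x
    rw [mul_sum_smul]
    calc ∑ j, x j • (B.a γ⁻¹ * w j) = ∑ j, ∑ l, (x j * (Nm l j : ℝ)) • w l := by
          refine Finset.sum_congr rfl fun j _ => ?_
          rw [hNm j, Finset.smul_sum]
          exact Finset.sum_congr rfl fun l _ => smul_smul _ _ _
      _ = ∑ l, ((Nm.map (Int.cast : ℤ → ℝ)).mulVec x) l • w l := by
          rw [Finset.sum_comm]
          refine Finset.sum_congr rfl fun l _ => ?_
          rw [← Finset.sum_smul]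
          congr 1
          simp only [Matrix.mulVec, dotProduct, Matrix.map_apply]
          exact Finset.sum_congr rfl fun j _ => mul_comm _ _
  set F : (Fin r → ℝ) → ℂ := fun x => h.h (z + ∑ j, x j • w j) v v' with hF
  have hFc : Continuous F := by
    have h1 : Continuous fun y => h.h y v v' := by
      have := (h.smooth v v').continuousOn
      rwa [continuousOn_univ] at this
    refine h1.comp ?_
    fun_prop
  have hFp : ∀ i x, F (x + Pi.single i 1) = F x := by
    intro i x
    obtain ⟨t, ht1, ht2⟩ := hw i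
    have h1 := hinv t (z + ∑ j, x j • w j) v v'
    rw [ht1, ht2, one_mul, one_mul, one_mul] at h1
    rw [hF]
    simp only
    rw [← h1]
    congr 1
    simp only [Pi.add_apply, add_smul, Finset.sum_add_distrib]
    rw [add_assoc]
    congr 2
    simp [Pi.single_apply]
  have hper := per_int hFc hFp Nm Nm' hN hN' 0
  unfold av
  rw [← hper]
  refine setIntegral_congr_fun measurableSet_Icc fun x _ => ?_
  simp only [hF, add_zero]
  rw [← hpt x]
  have h1 := hinv γ (z + B.a γ⁻¹ * ∑ j, x j • w j) v v'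
  rw [← h1]
  congr 1
  rw [mul_add, ← mul_assoc, hinv2, one_mul]
  abel

theorem diag_unit (B : FAct kk N) (h : KMet (univ : Set (E kk)))
    (hinv : ∀ γ z v v', h.h (B.a γ * z + B.c γ) (B.a γ * v) (B.a γ * v') = h.h z v v')
    (γ : N) (i : Fin kk) : ‖B.a γ i‖ = 1 := by
  by_cases hone : B.a γ i = 1
  · rw [hone, norm_one]
  obtain ⟨r, w, hw, hli, hb⟩ := B.exists_basis
  have hne : B.a γ i - 1 ≠ 0 := sub_ne_zero.2 hone
  have hW : ∀ ζ : ℂ, (Pi.single i ζ : E kk) ∈ B.W := by
    intro ζ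
    have h1 := B.sub_one_mem γ (Pi.single i (ζ / (B.a γ i - 1)))
    have h2 : (B.a γ - 1) * (Pi.single i (ζ / (B.a γ i - 1)) : E kk) = Pi.single i ζ := by
      ext j
      rcases eq_or_ne j i with rfl | hj
      · simp only [Pi.mul_apply, Pi.sub_apply, Pi.one_apply, Pi.single_eq_same]
        field_simp
      · simp [Pi.single_eq_of_ne hj]
    rwa [h2] at h1
  set ei : E kk := Pi.single i 1 with hei
  have hei0 : ei ≠ 0 := by
    intro h0
    have := congrFun h0 i
    simp [hei] at this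
  have hline : ∀ (ψ : E kk → ℂ), Differentiable ℝ ψ → ∀ z y,
      HasDerivAt (fun t : ℝ => ψ (z + t • y)) (fderiv ℝ ψ z y) 0 := by
    intro ψ hψ z y
    exact (hψ z).hasFDerivAt.hasLineDerivAt y
  have hzero : ∀ u z y, y ∈ B.W → fderiv ℝ (av w h u ei) z y = 0 := by
    intro u z y hy
    have h1 := hline _ (av_diff w h u ei) z y
    have h2 : (fun t : ℝ => av w h u ei (z + t • y)) = fun _ => av w h u ei z := by
      funext t
      exact av_W B h hinv w hw hb u ei z (B.W.smul_mem t hy)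
    rw [h2] at h1
    exact h1.unique (hasDerivAt_const 0 _)
  have hI : Complex.I • ei = Pi.single i Complex.I := by
    ext j
    rcases eq_or_ne j i with rfl | hj
    · simp [hei]
    · simp [hei, Pi.single_eq_of_ne hj]
  have hdz : ∀ z u, dz (av w h ei ei) z u = 0 := by
    intro z u
    rw [av_kahler w h u ei ei z]
    unfold dz
    rw [hzero u z ei (hW 1), hI, hzero u z _ (hW Complex.I)]
    ring
  have hreal : ∀ z u, (fderiv ℝ (av w h ei ei) z u).im = 0 := by
    intro z u
    have h1 := hline _ (av_diff w h ei ei) z u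
    have h2 := (Complex.imCLM.hasFDerivAt (x := av w h ei ei (z + (0 : ℝ) • u))).comp_hasDerivAt
      (0 : ℝ) h1
    have h3 : (Complex.imCLM ∘ fun t : ℝ => av w h ei ei (z + t • u)) = fun _ => (0 : ℝ) := by
      funext t
      exact (av_real w h ei _).1
    rw [h3] at h2
    exact h2.unique (hasDerivAt_const 0 _)
  have hfd : ∀ z, fderiv ℝ (av w h ei ei) z = 0 := by
    intro z
    ext u
    have h1 := hdz z u
    unfold dz at h1
    have h2 : fderiv ℝ (av w h ei ei) z u = Complex.I * fderiv ℝ (av w h ei ei) z (Complex.I • u) := by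
      have h3 : (1 / 2 : ℂ) ≠ 0 := by norm_num
      exact sub_eq_zero.1 ((mul_eq_zero.1 h1).resolve_left h3)
    have h4 : (fderiv ℝ (av w h ei ei) z u).re = 0 := by
      rw [h2, Complex.mul_re, Complex.I_re, Complex.I_im, hreal z (Complex.I • u)]
      ring
    simp only [_root_.zero_apply]
    exact Complex.ext h4 (hreal z u)
  have hconst := is_const_of_fderiv_eq_zero (av_diff w h ei ei) hfd
  have h1 := av_inv B h hinv w hw hli hb γ ei ei 0
  have h2 : B.a γ * ei = (B.a γ i) • ei := by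
    ext j
    rcases eq_or_ne j i with rfl | hj
    · simp [hei]
    · simp [hei, Pi.single_eq_of_ne hj]
  rw [h2, (av_real w h ei _).2.2 (B.a γ i), hconst 0 (B.a γ * 0 + B.c γ)] at h1
  have h3 := (av_real w h ei (B.a γ * 0 + B.c γ)).2.1 hei0
  have h4 : av w h ei ei (B.a γ * 0 + B.c γ) ≠ 0 := by
    intro h0
    rw [h0, Complex.zero_re] at h3
    exact lt_irrefl _ h3
  have h5 : (((‖B.a γ i‖ ^ 2 : ℝ)) : ℂ) = 1 := by
    have h6 : (((‖B.a γ i‖ ^ 2 : ℝ)) : ℂ) * av w h ei ei (B.a γ * 0 + B.c γ) =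
        1 * av w h ei ei (B.a γ * 0 + B.c γ) := by rw [one_mul]; exact h1
    exact mul_right_cancel₀ h4 h6
  have h7 : ‖B.a γ i‖ ^ 2 = 1 := by exact_mod_cast h5
  have h8 := norm_nonneg (B.a γ i)
  nlinarith

end Pool.Agent.H.MP_e23cd6_ag.AK
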