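import Pool.Agent.H.MP_e23cd6_ag.AK.Av3a
import Pool.Agent.H.MP_e23cd6_ag.AK.Hk
import Pool.Agent.H.MP_e23cd6_ag.AK.Ma3
import Pool.Agent.H.MP_e23cd6_ag.AK.Mb3b

/-!
ABUM Mc1: diagonal actions: the elements acting trivially on the base have unitary linear parts.

`exists_fact`: for b ∈ D the group `kerN A.toBaseAct` acts on the fibre: `a γ = fun i => dg A γ b i`, `c γ = A.c γ b`; a_ne, a_mul, c_mul as in `exists_coc` (with β γ b = b, ker_L_mul, ker_c_mul); pd: `act γ (b,z) = (b, a γ * z + c γ)` (A.act_eq, IsDiag), A.pd (or `act_pd`) for the compact set `{b} ×ˢ closedBall 0 R`, and the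
coercion kerN → Γ is injective; cc: `fib_cc`.
`exists_fibKMet`: `h' z v w = h.h (b, z) (0, v) (0, w)`: smooth: composition with the affine map z ↦ (b,z); kahler: `fderiv ℝ (fun z => h.h (b,z) (0,v) (0,w)) z u = fderiv ℝ (fun y => h.h y (0,v) (0,w)) (b,z) (0,u)`, so `dz` agrees with `dz (h.h · (0,v) (0,w)) (b,z) (0,u)`; herm, pos, add_left, smul_left clear.
`dg_unit`: `diag_unit` for these; invariance from `met_ver` (AK/Av3a): `h.h (act γ (b,z)) (0, L γ b v) (0, L γ b w) = h.h (b,z) (0,v) (0,w)`.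
-/

open Set Filter Topology Metric
open scoped ContDiff ComplexConjugate

namespace Pool.Agent.H.MP_e23cd6_ag.AK

open Pool.Agent.H.MP_e23cd6_ag.AB

variable {n kk : ℕ} {Ω : Dom n} {Γ : Type} [Group Γ]

theorem Mc1_L (A : FibAct Ω kk Γ) (hA : IsDiag A) (γ : Γ) {b : E n} (hb : b ∈ Ω.D) (v : E kk) :
    A.L γ b v = (fun i => dg A γ b i) * v := by
  funext i
  exact hA γ b hb v i

theorem Mc1_dg_mul (A : FibAct Ω kk Γ) (hA : IsDiag A) {γ δ : Γ} (hδ : δ ∈ kerN A.toBaseAct)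
    {b : E n} (hb : b ∈ Ω.D) (i : Fin kk) :
    dg A (γ * δ) b i = dg A γ b i * dg A δ b i := by
  unfold dg
  rw [ker_L_mul hδ hb]
  exact hA γ b hb (A.L δ b (Pi.single i 1)) i

theorem Mc1_dg_ne (A : FibAct Ω kk Γ) (hA : IsDiag A) (γ : Γ) {b : E n} (hb : b ∈ Ω.D)
    (i : Fin kk) : dg A γ b i ≠ 0 := by
  have h1 : (A.L γ⁻¹ (A.β γ b) * A.L γ b) (Pi.single i 1) i = 1 := by
    rw [A.L_inv_mul γ hb]
    show (Pi.single i (1 : ℂ) : E kk) i = 1
    exact Pi.single_eq_same i 1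
  have h2 : (A.L γ⁻¹ (A.β γ b) * A.L γ b) (Pi.single i 1) i =
      dg A γ⁻¹ (A.β γ b) i * dg A γ b i :=
    hA γ⁻¹ (A.β γ b) (A.mem γ hb) (A.L γ b (Pi.single i 1)) i
  intro h0
  rw [h2, h0, mul_zero] at h1
  exact zero_ne_one h1

theorem exists_fact (A : FibAct Ω kk Γ) (hA : IsDiag A) (hpd : BasePD A.toBaseAct) {b : E n}
    (hb : b ∈ Ω.D) :
    ∃ B : FAct kk (kerN A.toBaseAct), (∀ γ : kerN A.toBaseAct, B.a γ = fun i => dg A γ.1 b i) ∧
      ∀ γ : kerN A.toBaseAct, B.c γ = A.c γ.1 b := by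
  refine ⟨{ a := fun γ => fun i => dg A γ.1 b i
            c := fun γ => A.c γ.1 b
            a_ne := fun γ i => Mc1_dg_ne A hA γ.1 hb i
            a_mul := ?_
            c_mul := ?_
            pd := ?_
            cc := ?_ }, fun _ => rfl, fun _ => rfl⟩
  · intro γ δ
    funext i
    exact Mc1_dg_mul A hA δ.2 hb i
  · intro γ δ
    show A.c (γ.1 * δ.1) b = (fun i => dg A γ.1 b i) * A.c δ.1 b + A.c γ.1 b
    rw [ker_c_mul δ.2 hb, Mc1_L A hA γ.1 hb]
  · intro R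
    have hK : (({b} : Set (E n)) ×ˢ closedBall (0 : E kk) R) ⊆ TM Ω kk := by
      rintro ⟨x, z⟩ ⟨hx, _⟩
      have hx' : x = b := hx
      refine ⟨?_, trivial⟩
      change x ∈ Ω.D
      rw [hx']
      exact hb
    have hKc : IsCompact (({b} : Set (E n)) ×ˢ closedBall (0 : E kk) R) :=
      isCompact_singleton.prod (isCompact_closedBall _ _)
    refine ((A.pd _ hK hKc).preimage (f := fun γ : kerN A.toBaseAct => γ.1)
      Subtype.val_injective.injOn).subset ?_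
    rintro γ ⟨z, hz, hz2⟩
    have hβ : A.β γ.1 b = b := γ.2 b hb
    refine ⟨(b, z), ⟨rfl, mem_closedBall_zero_iff.2 hz⟩, ?_⟩
    rw [A.act_eq γ.1 b hb, hβ, Mc1_L A hA γ.1 hb]
    exact ⟨rfl, mem_closedBall_zero_iff.2 hz2⟩
  · obtain ⟨R, hR⟩ := fib_cc A hpd hb
    refine ⟨R, fun z => ?_⟩
    obtain ⟨γ, hγ, h1⟩ := hR z
    refine ⟨⟨γ, hγ⟩, ?_⟩
    rw [Mc1_L A hA γ hb] at h1
    exact h1

theorem Mc1_dz (h : KMet (TM Ω kk)) {b : E n} (hb : b ∈ Ω.D) (v w x u : E kk) :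
    dz (fun y : E kk => h.h (b, y) (0, v) (0, w)) x u =
      dz (fun y => h.h y (0, v) (0, w)) (b, x) (0, u) := by
  have hx : (b, x) ∈ TM Ω kk := ⟨hb, trivial⟩
  have h1 : HasFDerivAt (fun y => h.h y (0, v) (0, w))
      (fderiv ℝ (fun y => h.h y (0, v) (0, w)) (b, x)) (b, x) :=
    (((h.smooth (0, v) (0, w)).differentiableOn (by simp)).differentiableAt
      ((TM_open Ω kk).mem_nhds hx)).hasFDerivAt
  have h2 : HasFDerivAt (fun y : E kk => (b, y)) (ContinuousLinearMap.inr ℝ (E n) (E kk)) x :=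
    hasFDerivAt_prodMk_right b x
  have h3 := (h1.comp x h2).fderiv
  have h4 : ∀ u : E kk, fderiv ℝ (fun y : E kk => h.h (b, y) (0, v) (0, w)) x u =
      fderiv ℝ (fun y => h.h y (0, v) (0, w)) (b, x) (0, u) := fun u =>
    congrArg (fun F : E kk →L[ℝ] ℂ => F u) h3
  have h5 : (Complex.I • ((0 : E n), u) : E n × E kk) = (0, Complex.I • u) := by
    rw [Prod.smul_mk, smul_zero]
  unfold dz
  rw [h4, h4, h5]

theorem exists_fibKMet (h : KMet (TM Ω kk)) {b : E n} (hb : b ∈ Ω.D) :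
    ∃ h' : KMet (univ : Set (E kk)), ∀ z v w, h'.h z v w = h.h (b, z) (0, v) (0, w) := by
  have hm : ∀ z : E kk, (b, z) ∈ TM Ω kk := fun z => ⟨hb, trivial⟩
  refine ⟨{ h := fun z v w => h.h (b, z) (0, v) (0, w)
            smooth := ?_
            add_left := ?_
            smul_left := ?_
            herm := fun z _ v w => h.herm (b, z) (hm z) (0, v) (0, w)
            pos := ?_
            kahler := ?_ }, fun _ _ _ => rfl⟩
  · intro v w
    exact (h.smooth (0, v) (0, w)).comp (contDiff_prodMk_right b).contDiffOn fun z _ => hm z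
  · intro z _ u v w
    have := h.add_left (b, z) (hm z) (0, u) (0, v) (0, w)
    rwa [Prod.mk_add_mk, add_zero] at this
  · intro z _ c v w
    have := h.smul_left (b, z) (hm z) c (0, v) (0, w)
    rwa [Prod.smul_mk, smul_zero] at this
  · intro z _ v hv
    refine h.pos (b, z) (hm z) (0, v) fun h0 => hv ?_
    exact (Prod.ext_iff.1 h0).2
  · intro z _ u v w
    show dz (fun y : E kk => h.h (b, y) (0, v) (0, w)) z u =
      dz (fun y : E kk => h.h (b, y) (0, u) (0, w)) z v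
    rw [Mc1_dz h hb, Mc1_dz h hb]
    exact h.kahler (b, z) (hm z) (0, u) (0, v) (0, w)

theorem dg_unit (A : FibAct Ω kk Γ) (hA : IsDiag A) (hpd : BasePD A.toBaseAct)
    (h : KMet (TM Ω kk)) (hinv : InvMet A.toTotAct h) {γ : Γ} (hγ : γ ∈ kerN A.toBaseAct)
    {b : E n} (hb : b ∈ Ω.D) (i : Fin kk) : ‖dg A γ b i‖ = 1 := by
  obtain ⟨B, hBa, hBc⟩ := exists_fact A hA hpd hb
  obtain ⟨h', hh'⟩ := exists_fibKMet h hb
  have hi : ∀ (δ : kerN A.toBaseAct) (z v v' : E kk),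
      h'.h (B.a δ * z + B.c δ) (B.a δ * v) (B.a δ * v') = h'.h z v v' := by
    intro δ z v v'
    have h1 := met_ver h hinv δ.1 hb z v v'
    have hβ : A.β δ.1 b = b := δ.2 b hb
    rw [A.act_eq δ.1 b hb, hβ, Mc1_L A hA δ.1 hb, Mc1_L A hA δ.1 hb, Mc1_L A hA δ.1 hb] at h1
    rw [hh', hh', hBa, hBc]
    exact h1
  have h2 := diag_unit B h' hi ⟨γ, hγ⟩ i
  rw [hBa] at h2
  exact h2

end Pool.Agent.H.MP_e23cd6_ag.AK
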