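import Pool.Agent.H.MP_e23cd6_ag.AK.Bi4
import Pool.Agent.H.MP_e23cd6_ag.AK.Mc1

/-!
ABUM Mc2: diagonal actions: constancy of the linear parts, the translations have finite index.

`ker_L_const`: for γ ∈ kerN the function `b ↦ dg A γ b i` is holomorphic on the connected open D with constant absolute value 1, so constant (maximum principle `Complex.eqOn_of_isPreconnected_of_isMaxOn_norm`), hence `A.L γ b = A.L γ Ω.b0` for b ∈ D.
`exists_eact_diag`: (compare AK/Tr1 `exists_eact`) with `S v = WithLp.toLp 2 v`: `L' γ = S ∘ L γ b0 ∘ S⁻¹` preserves the Euclidean norm: `‖S (L v)‖² = Σ |dg i|² |v i|² = Σ |v i|²` (`EuclideanSpace.norm_eq`).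
`tr_index_diag`: `bieb_index`: finite F ⊆ kerN with: for γ ∈ kerN there is δ ∈ F with `L (δ⁻¹ γ) b0 = 1`, so `L (δ⁻¹γ) b = 1` for all b ∈ D by `ker_L_const`: δ⁻¹ γ ∈ trN.
-/

open Set Filter Topology Metric
open scoped ContDiff ComplexConjugate

namespace Pool.Agent.H.MP_e23cd6_ag.AK

open Pool.Agent.H.MP_e23cd6_ag.AB

variable {n kk : ℕ} {Ω : Dom n} {Γ : Type} [Group Γ]

theorem ker_L_const (A : FibAct Ω kk Γ) (hA : IsDiag A) (hpd : BasePD A.toBaseAct)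
    (h : KMet (TM Ω kk)) (hinv : InvMet A.toTotAct h) {γ : Γ} (hγ : γ ∈ kerN A.toBaseAct)
    {b : E n} (hb : b ∈ Ω.D) : A.L γ b = A.L γ Ω.b0 := by
  have hmem0 : Ω.b0 ∈ Ω.D := Ω.b0_mem
  have hdg : ∀ i, dg A γ b i = dg A γ Ω.b0 i := by
    intro i
    have hd : DifferentiableOn ℂ (fun b => dg A γ b i) Ω.D := by
      have h1 : DifferentiableOn ℂ (fun b => A.L γ b (Pi.single i 1)) Ω.D :=
        (A.L_holo γ).clm_apply (differentiableOn_const _)
      exact differentiableOn_pi.1 h1 i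
    have hmax : IsMaxOn (norm ∘ fun b => dg A γ b i) Ω.D Ω.b0 := by
      intro x hx
      show ‖dg A γ x i‖ ≤ ‖dg A γ Ω.b0 i‖
      rw [dg_unit A hA hpd h hinv hγ hx i, dg_unit A hA hpd h hinv hγ hmem0 i]
    exact Complex.eqOn_of_isPreconnected_of_isMaxOn_norm Ω.conn Ω.isOpen hd hmem0 hmax hb
  ext1 v
  funext i
  rw [hA γ b hb v i, hA γ Ω.b0 hmem0 v i, hdg i]

/-- the kernel acts on the marked fibre as a crystallographic group, in Euclidean coordinates -/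
theorem exists_eact_diag (A : FibAct Ω kk Γ) (hA : IsDiag A) (hpd : BasePD A.toBaseAct)
    (h : KMet (TM Ω kk)) (hinv : InvMet A.toTotAct h) {b : E n} (hb : b ∈ Ω.D) :
    ∃ (S : E kk ≃ₗ[ℂ] EuclideanSpace ℂ (Fin kk))
      (B : EAct (EuclideanSpace ℂ (Fin kk)) (kerN A.toBaseAct)),
      ∀ (γ : kerN A.toBaseAct) (v : E kk), B.L γ (S v) = S (A.L γ.1 b v) := by
  let S : E kk ≃ₗ[ℂ] EuclideanSpace ℂ (Fin kk) := (WithLp.linearEquiv 2 ℂ (Fin kk → ℂ)).symm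
  have hSn : ∀ w : E kk, ‖S w‖ ^ 2 = ∑ i, ‖w i‖ ^ 2 := by
    intro w
    rw [EuclideanSpace.norm_eq, Real.sq_sqrt (Finset.sum_nonneg fun i _ => sq_nonneg _)]
    rfl
  have hiso : ∀ (γ : kerN A.toBaseAct) (w : E kk), ‖S (A.L γ.1 b w)‖ = ‖S w‖ := by
    intro γ w
    have h2 : ‖S (A.L γ.1 b w)‖ ^ 2 = ‖S w‖ ^ 2 := by
      rw [hSn, hSn]
      refine Finset.sum_congr rfl fun i _ => ?_
      rw [hA γ.1 b hb w i, norm_mul, dg_unit A hA hpd h hinv γ.2 hb i, one_mul]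
    exact (pow_left_inj₀ (norm_nonneg _) (norm_nonneg _) two_ne_zero).1 h2
  obtain ⟨C, hC0, hC⟩ : ∃ C : ℝ, 0 ≤ C ∧ ∀ w : E kk, ‖S w‖ ≤ C * ‖w‖ :=
    ⟨‖LinearMap.toContinuousLinearMap S.toLinearMap‖, norm_nonneg _,
      fun w => (LinearMap.toContinuousLinearMap S.toLinearMap).le_opNorm w⟩
  obtain ⟨C', hC'0, hC'⟩ : ∃ C : ℝ, 0 ≤ C ∧ ∀ w : E kk, ‖w‖ ≤ C * ‖S w‖ :=
    ⟨‖LinearMap.toContinuousLinearMap S.symm.toLinearMap‖, norm_nonneg _, fun w => by
      have h := (LinearMap.toContinuousLinearMap S.symm.toLinearMap).le_opNorm (S w)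
      have e : (LinearMap.toContinuousLinearMap S.symm.toLinearMap) (S w) = w :=
        S.symm_apply_apply w
      rwa [e] at h⟩
  let B : EAct (EuclideanSpace ℂ (Fin kk)) (kerN A.toBaseAct) :=
    { L := fun γ => (S.toLinearMap ∘ₗ (A.L γ.1 b).toLinearMap ∘ₗ
        S.symm.toLinearMap).restrictScalars ℝ
      c := fun γ => S (A.c γ.1 b)
      L_one := by
        ext1 v
        show S (A.L 1 b (S.symm v)) = v
        rw [A.L_one hb]
        exact S.apply_symm_apply v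
      L_mul := by
        intro γ δ
        ext1 v
        show S (A.L (γ.1 * δ.1) b (S.symm v)) = S (A.L γ.1 b (S.symm (S (A.L δ.1 b (S.symm v)))))
        rw [ker_L_mul δ.2 hb, S.symm_apply_apply]
        rfl
      c_one := by
        show S (A.c 1 b) = 0
        rw [A.c_one hb, map_zero]
      c_mul := by
        intro γ δ
        show S (A.c (γ.1 * δ.1) b) = S (A.L γ.1 b (S.symm (S (A.c δ.1 b)))) + S (A.c γ.1 b)
        rw [ker_c_mul δ.2 hb, map_add, S.symm_apply_apply]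
      iso := by
        intro γ v
        show ‖S (A.L γ.1 b (S.symm v))‖ = ‖v‖
        rw [hiso, S.apply_symm_apply]
      pd := by
        intro R
        refine ((fib_pd A hb (C' * R)).preimage Subtype.val_injective.injOn).subset fun γ hγ => ?_
        refine ⟨γ.2, (hC' _).trans (mul_le_mul_of_nonneg_left ?_ hC'0)⟩
        exact hγ
      cc := by
        obtain ⟨R, hR⟩ := fib_cc A hpd hb
        refine ⟨C * R, fun z => ?_⟩
        obtain ⟨γ, hγ, h⟩ := hR (S.symm z)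
        refine ⟨⟨γ, hγ⟩, ?_⟩
        show ‖S (A.L γ b (S.symm z)) + S (A.c γ b)‖ ≤ C * R
        rw [← map_add]
        exact (hC _).trans (mul_le_mul_of_nonneg_left h hC0) }
  refine ⟨S, B, fun γ v => ?_⟩
  show S (A.L γ.1 b (S.symm (S v))) = _
  rw [S.symm_apply_apply]

theorem tr_index_diag (A : FibAct Ω kk Γ) (hA : IsDiag A) (hpd : BasePD A.toBaseAct)
    (h : KMet (TM Ω kk)) (hinv : InvMet A.toTotAct h) :
    ∃ F : Set Γ, F.Finite ∧ (∀ δ ∈ F, δ ∈ kerN A.toBaseAct) ∧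
      ∀ γ ∈ kerN A.toBaseAct, ∃ δ ∈ F, δ⁻¹ * γ ∈ trN A := by
  obtain ⟨S, B, hBL⟩ := exists_eact_diag A hA hpd h hinv Ω.b0_mem
  obtain ⟨F, hF, hFi⟩ := bieb_index B
  refine ⟨Subtype.val '' F, hF.image _, ?_, fun γ hγ => ?_⟩
  · rintro _ ⟨δ, _, rfl⟩
    exact δ.2
  · obtain ⟨δ, hδ, h1⟩ := hFi ⟨γ, hγ⟩
    refine ⟨δ.1, ⟨δ, hδ, rfl⟩, ?_⟩
    have hk : δ.1⁻¹ * γ ∈ kerN A.toBaseAct := mul_mem (inv_mem δ.2) hγ
    have h2 : A.L (δ.1⁻¹ * γ) Ω.b0 = 1 := by
      ext1 v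
      have h3 := hBL (δ⁻¹ * ⟨γ, hγ⟩) v
      rw [h1] at h3
      exact (S.injective h3).symm
    refine ⟨hk, fun b hb => ?_⟩
    rw [ker_L_const A hA hpd h hinv hk hb, h2]

end Pool.Agent.H.MP_e23cd6_ag.AK
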