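import Pool.Agent.H.MP_e23cd6_ag.AB.H1
import Pool.Agent.H.MP_e23cd6_ag.AK.Defs2

/-!
ABUM Md: restriction of an action to a subgroup of finite index.

`resTot`: all fields are those of A for `γ.1`, `γ : H`. pd: the coercion H → Γ is injective (preimage of a finite set, `Set.Finite.preimage`). cc: K0 from A.cc; R a finite set of representatives: for every γ ∈ Γ there is r ∈ R with `r * γ ∈ H` (finite index: Γ ⧸ H finite, `r⁻¹` running through `Quotient.out` representatives of the left cosets: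
γ = q.out * h... i.e. `(q.out)⁻¹ * γ ∈ H` for q = class of γ, `QuotientGroup.mk_out_eq_mul` / `QuotientGroup.eq`). K = ⋃_{r∈R} act r '' K0: compact, contained in TM, and `act (r γ) x = act r (act γ x) ∈ K`.
`resFib`: L, c restricted.
`basePD_of_res`: K compact ⊆ D. With R as above (r γ ∈ H): K' = K ∪ ⋃_{r∈R} β r '' K compact ⊆ D; F' finite from BasePD of the restriction for K'. If b ∈ K, β γ b ∈ K and r ∈ R with `h = r γ ∈ H`: `β h b = β r (β γ b) ∈ K'`, so β h = β δ on D for some δ ∈ F', and `β γ = β (r⁻¹ δ)` on D. F = {r⁻¹ δ}.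
`tr_index_of_res`: F1 for the restriction (elements of kerN ∩ H). For γ ∈ kerN A the coset `H γ`-classes of elements of kerN A are finitely many: choose a finite set R' ⊆ kerN A such that for all γ ∈ kerN A there is r ∈ R' with `r⁻¹ * γ ∈ H` (choose, for each class in the finite set Γ ⧸ H meeting kerN A, an element of kerN A in it). Then `r⁻¹ γ ∈ H ∩ kerN A`,
so there is δ ∈ F1 with `δ⁻¹ r⁻¹ γ ∈ trN (res)`, i.e. in `trN A`. F = {r δ}.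
-/

open Set Filter Topology Metric

namespace Pool.Agent.H.MP_e23cd6_ag.AK

open Pool.Agent.H.MP_e23cd6_ag.AB

variable {n kk : ℕ} {Ω : Dom n} {Γ : Type} [Group Γ]

/-- representatives of the cosets of a subgroup of finite index -/
theorem exists_reps (H : Subgroup Γ) [H.FiniteIndex] :
    ∃ R : Set Γ, R.Finite ∧ ∀ γ : Γ, ∃ r ∈ R, r * γ ∈ H := by
  haveI : Finite (Γ ⧸ H) := Subgroup.finite_quotient_of_finiteIndex
  refine ⟨range fun q : Γ ⧸ H => (q.out)⁻¹, finite_range _, fun γ => ?_⟩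
  refine ⟨_, ⟨(γ : Γ ⧸ H), rfl⟩, ?_⟩
  have h : (((γ : Γ ⧸ H).out : Γ) : Γ ⧸ H) = (γ : Γ ⧸ H) := QuotientGroup.out_eq' _
  exact QuotientGroup.eq.1 h

/-- restriction of an action to a subgroup of finite index -/
def resFib (A : FibAct Ω kk Γ) (H : Subgroup Γ) [H.FiniteIndex] : FibAct Ω kk H where
  β γ := A.β γ.1
  maps γ := A.maps γ.1
  holo γ := A.holo γ.1
  one := A.one
  mul γ δ := A.mul γ.1 δ.1
  act γ := A.act γ.1
  fst γ := A.fst γ.1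
  tholo γ := A.tholo γ.1
  tone := A.tone
  tmul γ δ := A.tmul γ.1 δ.1
  pd := by
    intro K hK hKc
    have h := Set.Finite.preimage (f := fun γ : H => γ.1) (s := {γ | ∃ x ∈ K, A.act γ x ∈ K})
      Subtype.val_injective.injOn (A.pd K hK hKc)
    exact h
  cc := by
    obtain ⟨K0, hK0, hK0c, h0⟩ := A.cc
    obtain ⟨R, hR, hrep⟩ := exists_reps H
    refine ⟨⋃ r ∈ R, A.act r '' K0, ?_, ?_, ?_⟩
    · refine iUnion₂_subset fun r _ => ?_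
      rintro _ ⟨x, hx, rfl⟩
      exact act_maps A.toTotAct r (hK0 hx)
    · exact hR.isCompact_biUnion fun r _ =>
        hK0c.image_of_continuousOn ((A.tholo r).continuousOn.mono hK0)
    · intro x hx
      obtain ⟨γ, hγ⟩ := h0 x hx
      obtain ⟨r, hr, hrγ⟩ := hrep γ
      refine ⟨⟨r * γ, hrγ⟩, mem_iUnion₂.2 ⟨r, hr, A.act γ x, hγ, ?_⟩⟩
      exact (A.tmul r γ x hx).symm
  L γ := A.L γ.1
  c γ := A.c γ.1
  L_holo γ := A.L_holo γ.1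
  c_holo γ := A.c_holo γ.1
  act_eq γ := A.act_eq γ.1

theorem basePD_of_res (A : FibAct Ω kk Γ) (H : Subgroup Γ) [H.FiniteIndex]
    (h : BasePD (resFib A H).toBaseAct) : BasePD A.toBaseAct := by
  intro K hK hKc
  obtain ⟨R, hR, hrep⟩ := exists_reps H
  have hsub : K ∪ ⋃ r ∈ R, A.β r '' K ⊆ Ω.D := by
    refine union_subset hK (iUnion₂_subset fun r _ => ?_)
    rintro _ ⟨x, hx, rfl⟩
    exact A.mem r (hK hx)
  have hc : IsCompact (K ∪ ⋃ r ∈ R, A.β r '' K) :=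
    hKc.union (hR.isCompact_biUnion fun r _ =>
      hKc.image_of_continuousOn ((A.holo r).continuousOn.mono hK))
  obtain ⟨F', hF', hF2⟩ := h _ hsub hc
  refine ⟨Set.image2 (fun r (δ : H) => r⁻¹ * δ.1) R F', hR.image2 _ hF', ?_⟩
  rintro γ ⟨b, hb, hγb⟩
  obtain ⟨r, hr, hrγ⟩ := hrep γ
  obtain ⟨δ, hδ, hδ2⟩ := hF2 ⟨r * γ, hrγ⟩ ⟨b, Or.inl hb, Or.inr (mem_iUnion₂.2
    ⟨r, hr, A.β γ b, hγb, (A.mul r γ b (hK hb)).symm⟩)⟩
  refine ⟨r⁻¹ * δ.1, ⟨r, hr, δ, hδ, rfl⟩, fun x hx => ?_⟩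
  have h1 : A.β (r * γ) x = A.β δ.1 x := hδ2 x hx
  have h2 : γ = r⁻¹ * (r * γ) := by group
  calc A.β γ x = A.β (r⁻¹ * (r * γ)) x := by rw [← h2]
    _ = A.β r⁻¹ (A.β (r * γ) x) := A.mul _ _ x hx
    _ = A.β r⁻¹ (A.β δ.1 x) := by rw [h1]
    _ = A.β (r⁻¹ * δ.1) x := (A.mul _ _ x hx).symm

theorem tr_index_of_res (A : FibAct Ω kk Γ) (H : Subgroup Γ) [H.FiniteIndex]
    (h : ∃ F : Set H, F.Finite ∧ (∀ δ ∈ F, δ ∈ kerN (resFib A H).toBaseAct) ∧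
      ∀ γ ∈ kerN (resFib A H).toBaseAct, ∃ δ ∈ F, δ⁻¹ * γ ∈ trN (resFib A H)) :
    ∃ F : Set Γ, F.Finite ∧ (∀ δ ∈ F, δ ∈ kerN A.toBaseAct) ∧
      ∀ γ ∈ kerN A.toBaseAct, ∃ δ ∈ F, δ⁻¹ * γ ∈ trN A := by
  classical
  obtain ⟨F1, hF1, hk1, h1⟩ := h
  haveI : Finite (Γ ⧸ H) := Subgroup.finite_quotient_of_finiteIndex
  have hch : ∀ q : Γ ⧸ H, ∃ g : Γ, g ∈ kerN A.toBaseAct ∧
      ∀ γ ∈ kerN A.toBaseAct, (γ : Γ ⧸ H) = q → g⁻¹ * γ ∈ H := by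
    intro q
    by_cases hq : ∃ g ∈ kerN A.toBaseAct, (g : Γ ⧸ H) = q
    · obtain ⟨g, hg, hgq⟩ := hq
      exact ⟨g, hg, fun γ _ hγq => QuotientGroup.eq.1 (hgq.trans hγq.symm)⟩
    · exact ⟨1, one_mem _, fun γ hγ hγq => absurd ⟨γ, hγ, hγq⟩ hq⟩
  choose f hf1 hf2 using hch
  refine ⟨Set.image2 (fun r (δ : H) => r * δ.1) (range f) F1, (finite_range f).image2 _ hF1,
    ?_, ?_⟩
  · rintro _ ⟨_, ⟨q, rfl⟩, δ, hδ, rfl⟩
    have h2 : δ.1 ∈ kerN A.toBaseAct := fun b hb => hk1 δ hδ b hb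
    exact mul_mem (hf1 q) h2
  · intro γ hγ
    have h3 := hf2 (γ : Γ ⧸ H) γ hγ rfl
    have h4 : (f (γ : Γ ⧸ H))⁻¹ * γ ∈ kerN A.toBaseAct := mul_mem (inv_mem (hf1 _)) hγ
    obtain ⟨δ, hδ, hδ2⟩ := h1 ⟨(f (γ : Γ ⧸ H))⁻¹ * γ, h3⟩ (fun b hb => h4 b hb)
    refine ⟨_, ⟨_, ⟨(γ : Γ ⧸ H), rfl⟩, δ, hδ, rfl⟩, ?_⟩
    have e : (f (γ : Γ ⧸ H) * δ.1)⁻¹ * γ = (δ.1)⁻¹ * ((f (γ : Γ ⧸ H))⁻¹ * γ) := by group
    rw [e]
    exact ⟨fun b hb => hδ2.1 b hb, fun b hb => hδ2.2 b hb⟩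

end Pool.Agent.H.MP_e23cd6_ag.AK
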