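import Pool.Agent.H.MP_e23cd6_ag.AB.B1
import Pool.Agent.H.MP_e23cd6_ag.AK.Defs2

/-!
ABUM Me1: maps preserving the product structure of the fibres up to permutation are affine.

Fix γ ∈ Γ, b ∈ D, σ for γ and τ for γ⁻¹ from hσ. `f z = (A.act γ (b, z)).2`, `g w = (A.act γ⁻¹ (A.β γ b, w)).2` are entire maps E kk → E kk, `g (f z) = z`, `f (g w) = w` (tmul, tone, A.fst). `f z i = φ_i (z (σ i))` with `φ_i x = f (Pi.single (σ i) x) i` entire (hσ: f z i depends only on z (σ i)), `g w j = ψ_j (w (τ j))`.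
`z j = g (f z) j = ψ_j (φ_{τ j} (z (σ (τ j))))` for all z: so `σ (τ j) = j` (otherwise the right side does not change when z j changes), and `ψ_j (φ_{τ j} x) = x`. In the same way `φ_i (ψ_{σ i} x) = x` and τ (σ i) = i. So for every i the entire functions φ_i, ψ_{σ i} are mutually inverse (j = σ i, τ j = i), and by `entire_affine` (AB/B1)
`φ_i x = a_i x + c_i`, a_i ≠ 0. So `f z i = a_i z (σ i) + c_i`.
-/

open Set Filter Topology Metric

namespace Pool.Agent.H.MP_e23cd6_ag.AK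

open Pool.Agent.H.MP_e23cd6_ag.AB

variable {n kk : ℕ} {Ω : Dom n} {Γ : Type} [Group Γ]

/-- the fibre maps permute the coordinate directions: the `i`-th coordinate of the image depends only on
the `σ i`-th fibre coordinate -/
def PermProd (A : TotAct Ω kk Γ) : Prop :=
  ∀ γ, ∃ σ : Equiv.Perm (Fin kk), ∀ b ∈ Ω.D, ∀ z z' : E kk, ∀ i, z (σ i) = z' (σ i) →
    (A.act γ (b, z)).2 i = (A.act γ (b, z')).2 i

/-- a holomorphic automorphism of complex `kk`-space which, with its inverse, permutes the coordinate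
directions, is affine in every coordinate -/
theorem perm_affine {kk : ℕ} {f g : E kk → E kk} (hf : Differentiable ℂ f) (hg : Differentiable ℂ g)
    (h1 : ∀ z, g (f z) = z) (h2 : ∀ w, f (g w) = w) (σ τ : Equiv.Perm (Fin kk))
    (hσ : ∀ z z' : E kk, ∀ i, z (σ i) = z' (σ i) → f z i = f z' i)
    (hτ : ∀ z z' : E kk, ∀ i, z (τ i) = z' (τ i) → g z i = g z' i) (i : Fin kk) :
    ∃ a c : ℂ, a ≠ 0 ∧ ∀ z : E kk, f z i = a * z (σ i) + c := by
  have hc : Differentiable ℂ (fun x : ℂ => (fun _ => x : E kk)) :=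
    differentiable_pi.2 fun _ => differentiable_id
  have hφ : Differentiable ℂ (fun x : ℂ => f (fun _ => x) i) :=
    differentiable_pi.1 (hf.comp hc) i
  have hψ : Differentiable ℂ (fun x : ℂ => g (fun _ => x) (σ i)) :=
    differentiable_pi.1 (hg.comp hc) (σ i)
  have e1 : ∀ (z : E kk) (j : Fin kk), z j = g (fun _ => f (fun _ => z (σ (τ j))) (τ j)) j := by
    intro z j
    have a1 : g (f z) j = g (fun _ => f z (τ j)) j := hτ _ _ _ rfl
    have a2 : f z (τ j) = f (fun _ => z (σ (τ j))) (τ j) := hσ _ _ _ rfl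
    rw [← a2, ← a1, h1]
  have e2 : ∀ (w : E kk) (j : Fin kk), w j = f (fun _ => g (fun _ => w (τ (σ j))) (σ j)) j := by
    intro z j
    have a1 : f (g z) j = f (fun _ => g z (σ j)) j := hσ _ _ _ rfl
    have a2 : g z (σ j) = g (fun _ => z (τ (σ j))) (σ j) := hτ _ _ _ rfl
    rw [← a2, ← a1, h2]
  have e3 : ∀ j, τ (σ j) = j := by
    intro j
    by_contra hne
    have b1 := e2 0 j
    have b2 := e2 (Pi.single j 1) j
    rw [Pi.single_eq_of_ne hne, Pi.single_eq_same] at b2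
    rw [Pi.zero_apply, Pi.zero_apply] at b1
    exact one_ne_zero (b2.trans b1.symm)
  have k1 : ∀ x : ℂ, g (fun _ => f (fun _ => x) i) (σ i) = x := by
    intro x
    have h := e1 (fun _ => x) (σ i)
    rw [e3] at h
    exact h.symm
  have k2 : ∀ x : ℂ, f (fun _ => g (fun _ => x) (σ i)) i = x := by
    intro x
    exact (e2 (fun _ => x) i).symm
  obtain ⟨a, c, ha, hac⟩ := entire_affine hφ hψ k1 k2
  refine ⟨a, c, ha, fun z => ?_⟩
  rw [← hac (z (σ i))]
  exact hσ _ _ _ rfl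

theorem fib_affine (A : TotAct Ω kk Γ) (γ : Γ) (σ τ : Equiv.Perm (Fin kk))
    (hσ : ∀ b ∈ Ω.D, ∀ z z' : E kk, ∀ i, z (σ i) = z' (σ i) →
      (A.act γ (b, z)).2 i = (A.act γ (b, z')).2 i)
    (hτ : ∀ b ∈ Ω.D, ∀ z z' : E kk, ∀ i, z (τ i) = z' (τ i) →
      (A.act γ⁻¹ (b, z)).2 i = (A.act γ⁻¹ (b, z')).2 i) {b : E n} (hb : b ∈ Ω.D) (i : Fin kk) :
    ∃ a c : ℂ, a ≠ 0 ∧ ∀ z : E kk, (A.act γ (b, z)).2 i = a * z (σ i) + c := by
  have hd : ∀ (δ : Γ) {b' : E n}, b' ∈ Ω.D → Differentiable ℂ fun z : E kk => (A.act δ (b', z)).2 := by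
    intro δ b' hb' z
    have hx : (b', z) ∈ TM Ω kk := ⟨hb', trivial⟩
    have h1 : DifferentiableAt ℂ (A.act δ) (b', z) :=
      (A.tholo δ).differentiableAt ((TM_open Ω kk).mem_nhds hx)
    have h2 : DifferentiableAt ℂ (fun z : E kk => ((b', z) : E n × E kk)) z :=
      (differentiableAt_const _).prodMk differentiableAt_id
    exact (h1.comp z h2).snd
  have hb' := A.mem γ hb
  refine perm_affine (f := fun z => (A.act γ (b, z)).2) (g := fun w => (A.act γ⁻¹ (A.β γ b, w)).2)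
    (hd γ hb) (hd γ⁻¹ hb') (fun z => ?_) (fun w => ?_) σ τ (hσ b hb) (hτ _ hb') i
  · have hx : (b, z) ∈ TM Ω kk := ⟨hb, trivial⟩
    have e : ((A.β γ b, (A.act γ (b, z)).2) : E n × E kk) = A.act γ (b, z) :=
      Prod.ext (A.fst γ _ hx).symm rfl
    show (A.act γ⁻¹ (A.β γ b, (A.act γ (b, z)).2)).2 = z
    rw [e, ← A.tmul _ _ _ hx, inv_mul_cancel, A.tone _ hx]
  · have hx : (A.β γ b, w) ∈ TM Ω kk := ⟨hb', trivial⟩
    have e : ((b, (A.act γ⁻¹ (A.β γ b, w)).2) : E n × E kk) = A.act γ⁻¹ (A.β γ b, w) := by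
      refine Prod.ext ?_ rfl
      rw [A.fst γ⁻¹ _ hx]
      exact (A.inv_left γ hb).symm
    show (A.act γ (b, (A.act γ⁻¹ (A.β γ b, w)).2)).2 = w
    rw [e, ← A.tmul _ _ _ hx, mul_inv_cancel, A.tone _ hx]

end Pool.Agent.H.MP_e23cd6_ag.AK
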