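import Pool.Agent.H.MP_e23cd6_ag.AK.Ma3
import Pool.Agent.H.MP_e23cd6_ag.AK.Md
import Pool.Agent.H.MP_e23cd6_ag.AK.Me1

/-!
ABUM Me2: actions preserving the product structure of the fibres up to permutation: monomial linear parts, diagonal on a subgroup of finite index.

Notation as in AK/Me1: for γ there is a permutation σ such that for b ∈ D `(A.act γ (b, z)).2 i = a_i(b) * z (σ i) + c_i(b)`, a_i(b) ≠ 0 (`fib_affine`).
`exists_mon`: `c γ b = (A.act γ (b, 0)).2`; `L γ b v = (fun i => ((A.act γ (b, Pi.single (σ i) 1)).2 i - (A.act γ (b, 0)).2 i) * v (σ i))` with σ = σ_γ chosen for γ: linear in v, holomorphic in b (a map into E kk →L[ℂ] E kk all of whose entries are holomorphic; write it as a finite sum of (holomorphic function) • (constant map)), act_eq from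
the first part. The entries a_i(b) are nonzero on D. (For b ∉ D the value of L γ b does not matter.)
Subgroup H = {γ | ∀ b ∈ D, ∀ v i, L γ b v i = L γ b (single i 1) i * v i}: closed under products (`B.L_mul`: products of diagonal maps) and inverses (`B.L_inv_mul`, `B.L_mul_inv`: the inverse of an invertible diagonal map is diagonal; use the point β γ⁻¹ b), contains 1 (`B.L_one`). Finite index: the map γ ↦ σ_γ ∈ Equiv.Perm (Fin kk):
if σ_γ = σ_δ then γ⁻¹ δ ∈ H: `L (γ⁻¹ δ) b = L γ⁻¹ (β δ b) * L δ b`, and with x = β γ⁻¹ (β δ b): `L γ⁻¹ (β δ b)` is the inverse of `L γ x` (β γ x = β δ b), so for v: u = L (γ⁻¹δ) b v satisfies `L γ x u = L δ b v`, i.e. `a^γ_i(x) u (σ i) = a^δ_i(b) v (σ i)` for all i: u (σ i) is a multiple of v (σ i). So Γ ⧸ H injects into the finite set of permutations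
(choose representatives): `Subgroup.FiniteIndex` from `Finite (Γ ⧸ H)` (`Subgroup.finiteIndex_of_finite_quotient`).
-/

open Set Filter Topology Metric

namespace Pool.Agent.H.MP_e23cd6_ag.AK

open Pool.Agent.H.MP_e23cd6_ag.AB

variable {n kk : ℕ} {Ω : Dom n} {Γ : Type} [Group Γ]

/-- a monomial linear map: `(L v) i = a i * v (s i)` -/
noncomputable def Me2_mon (a : Fin kk → ℂ) (s : Equiv.Perm (Fin kk)) : E kk →L[ℂ] E kk :=
  ∑ i, a i • ((ContinuousLinearMap.proj (R := ℂ) (φ := fun _ : Fin kk => ℂ) (s i)).smulRight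
    (Pi.single i (1 : ℂ) : E kk))

theorem Me2_mon_apply (a : Fin kk → ℂ) (s : Equiv.Perm (Fin kk)) (v : E kk) (j : Fin kk) :
    Me2_mon a s v j = a j * v (s j) := by
  unfold Me2_mon
  rw [ContinuousLinearMap.sum_apply, Finset.sum_apply]
  rw [Finset.sum_eq_single j]
  · simp
  · intro i _ hij
    simp [Ne.symm hij]
  · intro h
    exact absurd (Finset.mem_univ j) h

/-- the holomorphic slice `b ↦ (A.act γ (b, z)).2 i` -/
theorem Me2_slice (A : TotAct Ω kk Γ) (γ : Γ) (z : E kk) :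
    DifferentiableOn ℂ (fun b => (A.act γ (b, z)).2) Ω.D := by
  have h1 : DifferentiableOn ℂ (fun b : E n => ((b, z) : E n × E kk)) Ω.D :=
    (differentiable_id.prodMk (differentiable_const z)).differentiableOn
  exact ((A.tholo γ).comp h1 fun b hb => ⟨hb, trivial⟩).snd

/-- cancellation: from `x * u = y * v` and `x * d = y` (`x ≠ 0`) get `u = d * v` -/
theorem Me2_cancel {x y u v d : ℂ} (hx : x ≠ 0) (h1 : x * u = y * v) (h2 : x * d = y) :
    u = d * v := by
  refine mul_left_cancel₀ hx ?_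
  rw [h1, ← h2, mul_assoc]

theorem exists_mon (A : TotAct Ω kk Γ) (hA : PermProd A) :
    ∃ B : FibAct Ω kk Γ, B.toTotAct = A ∧
      ∃ (H : Subgroup Γ) (_ : H.FiniteIndex), IsDiag (resFib B H) := by
  choose σ hσ using hA
  have hfib : ∀ (γ : Γ) (b : E n), b ∈ Ω.D → ∀ i : Fin kk, ∃ a c : ℂ, a ≠ 0 ∧ ∀ z : E kk,
      (A.act γ (b, z)).2 i = a * z (σ γ i) + c := fun γ b hb i =>
    fib_affine A γ (σ γ) (σ γ⁻¹) (hσ γ) (hσ γ⁻¹) hb i
  -- the coefficients
  obtain ⟨aa, haa⟩ : ∃ aa : Γ → E n → Fin kk → ℂ, ∀ γ b i, aa γ b i =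
      (A.act γ (b, Pi.single (σ γ i) 1)).2 i - (A.act γ (b, 0)).2 i := ⟨_, fun _ _ _ => rfl⟩
  have hval : ∀ (γ : Γ) (b : E n), b ∈ Ω.D → ∀ i : Fin kk, aa γ b i ≠ 0 ∧ ∀ z : E kk,
      (A.act γ (b, z)).2 i = aa γ b i * z (σ γ i) + (A.act γ (b, 0)).2 i := by
    intro γ b hb i
    obtain ⟨a, c, ha, h⟩ := hfib γ b hb i
    have h0 : (A.act γ (b, 0)).2 i = c := by
      rw [h 0]
      simp
    have h1 : aa γ b i = a := by
      rw [haa, h0, h]
      simp
    refine ⟨by rw [h1]; exact ha, fun z => ?_⟩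
    rw [h1, h0, h z]
  have haad : ∀ γ i, DifferentiableOn ℂ (fun b => aa γ b i) Ω.D := by
    intro γ i
    have h1 := differentiableOn_pi.1 (Me2_slice A γ (Pi.single (σ γ i) 1)) i
    have h2 := differentiableOn_pi.1 (Me2_slice A γ 0) i
    refine (h1.sub h2).congr fun b _ => ?_
    rw [haa]
    rfl
  -- the action with affine fibre maps
  let B : FibAct Ω kk Γ :=
    { A with
      L := fun γ b => Me2_mon (aa γ b) (σ γ)
      c := fun γ b => (A.act γ (b, 0)).2
      L_holo := fun γ => by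
        show DifferentiableOn ℂ (fun b => ∑ i, aa γ b i •
          ((ContinuousLinearMap.proj (R := ℂ) (φ := fun _ : Fin kk => ℂ) (σ γ i)).smulRight
            (Pi.single i (1 : ℂ) : E kk))) Ω.D
        exact DifferentiableOn.fun_sum fun i _ => (haad γ i).smul_const _
      c_holo := fun γ => Me2_slice A γ 0
      act_eq := fun γ b hb z => by
        refine Prod.ext (A.fst γ (b, z) ⟨hb, trivial⟩) ?_
        funext i
        show (A.act γ (b, z)).2 i = Me2_mon (aa γ b) (σ γ) z i + (A.act γ (b, 0)).2 i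
        rw [Me2_mon_apply, (hval γ b hb i).2 z] }
  have hBL : ∀ γ b (v : E kk) i, B.L γ b v i = aa γ b i * v (σ γ i) := fun γ b v i =>
    Me2_mon_apply _ _ _ _
  -- the linear part of the inverse
  have hinv : ∀ γ b, b ∈ Ω.D → ∀ v, B.L γ (B.β γ⁻¹ b) (B.L γ⁻¹ b v) = v := by
    intro γ b hb v
    have hx := B.mem γ⁻¹ hb
    have h1 := B.L_mul_inv γ hx
    rw [B.inv_right γ hb] at h1
    exact congrArg (fun T : E kk →L[ℂ] E kk => T v) h1
  let H : Subgroup Γ :=
    { carrier := {γ | ∀ b ∈ Ω.D, ∀ (v : E kk) (i : Fin kk),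
        B.L γ b v i = B.L γ b (Pi.single i 1) i * v i}
      mul_mem' := by
        intro γ δ hγ hδ b hb v i
        have h1 : ∀ w : E kk, B.L (γ * δ) b w = B.L γ (B.β δ b) (B.L δ b w) := fun w =>
          congrArg (fun T : E kk →L[ℂ] E kk => T w) (B.L_mul γ δ hb)
        rw [h1, h1, hγ _ (B.mem δ hb) (B.L δ b v) i, hγ _ (B.mem δ hb) (B.L δ b (Pi.single i 1)) i,
          hδ b hb v i]
        ring
      one_mem' := by
        intro b hb v i
        rw [B.L_one hb]
        show v i = (Pi.single i (1 : ℂ) : E kk) i * v i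
        simp
      inv_mem' := by
        intro γ hγ b hb v i
        have hx := B.mem γ⁻¹ hb
        have h1 : ∀ w : E kk, B.L γ (B.β γ⁻¹ b) (Pi.single i 1) i * (B.L γ⁻¹ b w) i = w i := by
          intro w
          have h2 := congrFun (hinv γ b hb w) i
          rw [hγ _ hx] at h2
          exact h2
        have h3 : B.L γ (B.β γ⁻¹ b) (Pi.single i 1) i ≠ 0 := by
          intro h0
          have h4 := h1 (Pi.single i 1)
          rw [h0, zero_mul, Pi.single_eq_same] at h4
          exact zero_ne_one h4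
        refine Me2_cancel (y := 1) h3 ?_ ?_
        · rw [h1, one_mul]
        · rw [h1, Pi.single_eq_same] }
  have hHmem : ∀ γ δ, σ γ = σ δ → γ⁻¹ * δ ∈ H := by
    intro γ δ hs b hb v i
    have hy := B.mem δ hb
    have hx := B.mem γ⁻¹ hy
    obtain ⟨j, hj⟩ : ∃ j, σ γ j = i := ⟨(σ γ).symm i, (σ γ).apply_symm_apply i⟩
    have h1 : ∀ w : E kk, aa γ (B.β γ⁻¹ (B.β δ b)) j * (B.L (γ⁻¹ * δ) b w) i =
        aa δ b j * w i := by
      intro w
      have h2 : B.L (γ⁻¹ * δ) b w = B.L γ⁻¹ (B.β δ b) (B.L δ b w) :=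
        congrArg (fun T : E kk →L[ℂ] E kk => T w) (B.L_mul γ⁻¹ δ hb)
      have h3 := congrFun (hinv γ (B.β δ b) hy (B.L δ b w)) j
      rw [← h2, hBL γ, hBL δ, ← hs, hj] at h3
      exact h3
    have h4 : aa γ (B.β γ⁻¹ (B.β δ b)) j ≠ 0 := (hval γ _ hx j).1
    refine Me2_cancel h4 (h1 v) ?_
    rw [h1, Pi.single_eq_same, mul_one]
  have hfin : Finite (Γ ⧸ H) := by
    refine Finite.of_injective (β := Equiv.Perm (Fin kk)) (fun q : Γ ⧸ H => σ q.out) ?_
    intro q q' h
    have h1 := hHmem q.out q'.out h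
    have h2 : ((q.out : Γ) : Γ ⧸ H) = ((q'.out : Γ) : Γ ⧸ H) := QuotientGroup.eq.2 h1
    rwa [QuotientGroup.out_eq', QuotientGroup.out_eq'] at h2
  have hidx : H.FiniteIndex := Subgroup.finiteIndex_of_finite_quotient
  exact ⟨B, rfl, H, hidx, fun γ b hb v i => γ.2 b hb v i⟩

end Pool.Agent.H.MP_e23cd6_ag.AK
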