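import Pool.Agent.H.MP_e23cd6_ag.AB.A6
import Pool.Agent.H.MP_e23cd6_ag.AK.Her

/-!
ABUK S0: a group of holomorphic maps of (bounded domain) × ℂ^k which preserves flat metrics on the leaves acts by maps
which are affine in the fibres (Liouville's theorem for the first component and for the derivative of the second).
-/

open Set Filter Topology Metric
open scoped ComplexConjugate

namespace Pool.Agent.H.MP_e23cd6_ag.AK

open Pool.Agent.H.MP_e23cd6_ag.AB

variable {n kk : ℕ} {Ω : Dom n} {Γ : Type} [Group Γ]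

/-- A group of holomorphic maps of (bounded domain) × ℂ^k acts over an action on the domain. -/
theorem exists_totAct (Ω : Dom n) (kk : ℕ) (g : Γ → E n × E kk → E n × E kk)
    (maps : ∀ γ, MapsTo (g γ) (Ω.D ×ˢ univ) (Ω.D ×ˢ univ))
    (holo : ∀ γ, DifferentiableOn ℂ (g γ) (Ω.D ×ˢ univ))
    (one : ∀ x ∈ Ω.D ×ˢ (univ : Set (E kk)), g 1 x = x)
    (mul : ∀ γ δ, ∀ x ∈ Ω.D ×ˢ (univ : Set (E kk)), g (γ * δ) x = g γ (g δ x))
    (pd : ∀ K ⊆ Ω.D ×ˢ (univ : Set (E kk)), IsCompact K → {γ | (g γ '' K ∩ K).Nonempty}.Finite)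
    (cc : ∃ K ⊆ Ω.D ×ˢ (univ : Set (E kk)), IsCompact K ∧
      ∀ x ∈ Ω.D ×ˢ (univ : Set (E kk)), ∃ γ, g γ x ∈ K) :
    ∃ A : TotAct Ω kk Γ, A.act = g := by
  have hin : ∀ b ∈ Ω.D, ∀ z : E kk, ((b, z) : E n × E kk) ∈ Ω.D ×ˢ (univ : Set (E kk)) :=
    fun b hb z => ⟨hb, trivial⟩
  have hline : ∀ γ, ∀ b ∈ Ω.D, Differentiable ℂ (fun z : E kk => g γ (b, z)) := by
    intro γ b hb z
    have h1 : DifferentiableAt ℂ (g γ) (b, z) :=
      (holo γ).differentiableAt ((Ω.isOpen.prod isOpen_univ).mem_nhds (hin b hb z))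
    exact h1.comp z ((differentiableAt_const b).prodMk differentiableAt_id)
  have hfst : ∀ γ, ∀ b ∈ Ω.D, ∀ z w : E kk, (g γ (b, z)).1 = (g γ (b, w)).1 := by
    intro γ b hb z w
    have hd : Differentiable ℂ (fun z : E kk => (g γ (b, z)).1) := fun z => (hline γ b hb z).fst
    refine hd.apply_eq_apply_of_bounded ?_ z w
    refine Ω.bdd.subset ?_
    rintro _ ⟨z, rfl⟩
    exact (maps γ (hin b hb z)).1
  have hslice : ∀ γ, ∀ z : E kk, DifferentiableOn ℂ (fun b : E n => g γ (b, z)) Ω.D := by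
    intro γ z
    refine (holo γ).comp (f := fun b : E n => (b, z)) ?_ (fun b hb => hin b hb z)
    exact (differentiable_id.prodMk (differentiable_const z)).differentiableOn
  refine ⟨{
    β := fun γ b => (g γ (b, 0)).1
    maps := fun γ b hb => (maps γ (hin b hb 0)).1
    holo := fun γ => (hslice γ 0).fst
    one := fun b hb => by rw [one _ (hin b hb 0)]
    mul := ?_
    act := g
    fst := ?_
    tholo := holo
    tone := one
    tmul := mul
    pd := ?_
    cc := cc }, rfl⟩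
  · intro γ δ b hb
    have h1 : (g δ (b, 0)).1 ∈ Ω.D := (maps δ (hin b hb 0)).1
    show (g (γ * δ) (b, 0)).1 = (g γ ((g δ (b, 0)).1, 0)).1
    rw [mul γ δ _ (hin b hb 0), ← hfst γ _ h1 (g δ (b, 0)).2 0]
  · rintro γ ⟨b, z⟩ hx
    exact hfst γ b hx.1 z 0
  · intro K hK hKc
    refine (pd K hK hKc).subset ?_
    rintro γ ⟨x, hx, hx'⟩
    exact ⟨g γ x, ⟨x, hx, rfl⟩, hx'⟩

/-- Constants comparing a positive definite Hermitian form with the norm. -/
theorem s0_frame {H : E kk → E kk → ℂ} (h : IsHerm H) :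
    ∃ (N : E kk → ℝ) (C C' : ℝ), 0 ≤ C' ∧ (∀ v, 0 ≤ N v) ∧ (∀ v, N v ^ 2 = (H v v).re) ∧
      (∀ v, N v ≤ C * ‖v‖) ∧ ∀ v, ‖v‖ ≤ C' * N v := by
  obtain ⟨S, hS⟩ := herm_frame h
  refine ⟨fun v => ‖S v‖, ‖LinearMap.toContinuousLinearMap S.toLinearMap‖,
    ‖LinearMap.toContinuousLinearMap S.symm.toLinearMap‖, norm_nonneg _,
    fun v => norm_nonneg _, fun v => ?_, fun v =>
      (LinearMap.toContinuousLinearMap S.toLinearMap).le_opNorm v, fun v => ?_⟩
  · rw [← hS v v, ← inner_self_eq_norm_sq (𝕜 := ℂ)]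
    rfl
  · have h := (LinearMap.toContinuousLinearMap S.symm.toLinearMap).le_opNorm (S v)
    have e : (LinearMap.toContinuousLinearMap S.symm.toLinearMap) (S v) = v :=
      S.symm_apply_apply v
    rwa [e] at h

/-- An action which preserves flat metrics on the leaves is affine in the fibres. -/
theorem exists_fibAct (A : TotAct Ω kk Γ) (H : E n → E kk → E kk → ℂ)
    (hcont : ∀ v w, ContinuousOn (fun b => H b v w) Ω.D) (hherm : ∀ b ∈ Ω.D, IsHerm (H b))
    (hinv : ∀ γ, ∀ x ∈ TM Ω kk, ∀ v w, H (A.act γ x).1 (fderiv ℂ (A.act γ) x (0, v)).2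
      (fderiv ℂ (A.act γ) x (0, w)).2 = H x.1 v w) :
    ∃ (B : FibAct Ω kk Γ) (M : FMet B), B.toTotAct = A ∧ M.H = H := by
  have hin : ∀ b ∈ Ω.D, ∀ z : E kk, ((b, z) : E n × E kk) ∈ TM Ω kk :=
    fun b hb z => ⟨hb, trivial⟩
  have hf : ∀ γ, ∀ b ∈ Ω.D, ∀ z : E kk, HasFDerivAt (fun z : E kk => (A.act γ (b, z)).2)
      ((ContinuousLinearMap.snd ℂ (E n) (E kk)).comp
        ((fderiv ℂ (A.act γ) (b, z)).comp (ContinuousLinearMap.inr ℂ (E n) (E kk)))) z := by
    intro γ b hb z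
    have h1 : HasFDerivAt (A.act γ) (fderiv ℂ (A.act γ) (b, z)) (b, z) :=
      ((act_holo A γ).differentiableAt ((TM_open Ω kk).mem_nhds (hin b hb z))).hasFDerivAt
    have h2 := h1.comp z (hasFDerivAt_prodMk_right b z)
    exact (hasFDerivAt_snd (𝕜 := ℂ) (E := E n) (F := E kk) (p := A.act γ (b, z))).comp z h2
  have hfd : ∀ γ, ∀ b ∈ Ω.D, Differentiable ℂ (fun z : E kk => (A.act γ (b, z)).2) :=
    fun γ b hb z => (hf γ b hb z).differentiableAt
  have hfv : ∀ γ, ∀ b ∈ Ω.D, ∀ z v : E kk, fderiv ℂ (fun z : E kk => (A.act γ (b, z)).2) z v =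
      (fderiv ℂ (A.act γ) (b, z) (0, v)).2 := by
    intro γ b hb z v
    rw [(hf γ b hb z).fderiv]
    rfl
  have hH : ∀ γ, ∀ b ∈ Ω.D, ∀ z v w : E kk,
      H (A.β γ b) (fderiv ℂ (fun z : E kk => (A.act γ (b, z)).2) z v)
        (fderiv ℂ (fun z : E kk => (A.act γ (b, z)).2) z w) = H b v w := by
    intro γ b hb z v w
    have h := hinv γ (b, z) (hin b hb z) v w
    rw [A.fst γ _ (hin b hb z)] at h
    rw [hfv γ b hb, hfv γ b hb]
    exact h
  have hconst : ∀ γ, ∀ b ∈ Ω.D, ∀ z : E kk, fderiv ℂ (fun z : E kk => (A.act γ (b, z)).2) z =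
      fderiv ℂ (fun z : E kk => (A.act γ (b, z)).2) 0 := by
    intro γ b hb z
    obtain ⟨N, C, -, -, hN0', hN1, hN2, -⟩ := s0_frame (hherm b hb)
    obtain ⟨N', -, C', hC', hN0, hN1', -, hN3'⟩ := s0_frame (hherm _ (A.maps γ hb))
    have hd : Differentiable ℂ (fderiv ℂ (fun z : E kk => (A.act γ (b, z)).2)) := by
      have h1 := holo_fderiv isOpen_univ (hfd γ b hb).differentiableOn
      rwa [differentiableOn_univ] at h1
    refine hd.apply_eq_apply_of_bounded ?_ z 0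
    refine isBounded_iff_forall_norm_le.2 ⟨max (C' * C) 0, ?_⟩
    rintro _ ⟨z, rfl⟩
    refine ContinuousLinearMap.opNorm_le_bound _ (le_max_right _ _) fun v => ?_
    set u := fderiv ℂ (fun z : E kk => (A.act γ (b, z)).2) z v with hu
    have h1 : N' u ^ 2 = N v ^ 2 := by
      rw [hN1', hN1, hu, hH γ b hb]
    have h2 : N' u = N v := (pow_left_inj₀ (hN0 u) (hN0' v) two_ne_zero).1 h1
    calc ‖u‖ ≤ C' * N' u := hN3' u
      _ ≤ C' * (C * ‖v‖) := mul_le_mul_of_nonneg_left (h2.le.trans (hN2 v)) hC'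
      _ = C' * C * ‖v‖ := by ring
      _ ≤ max (C' * C) 0 * ‖v‖ := mul_le_mul_of_nonneg_right (le_max_left _ _) (norm_nonneg _)
  -- the pieces
  set L : Γ → E n → (E kk →L[ℂ] E kk) := fun γ b =>
    fderiv ℂ (fun z : E kk => (A.act γ (b, z)).2) 0 with hL
  set c : Γ → E n → E kk := fun γ b => (A.act γ (b, 0)).2 with hc
  have haff : ∀ γ, ∀ b ∈ Ω.D, ∀ z : E kk, (A.act γ (b, z)).2 = L γ b z + c γ b := by
    intro γ b hb z
    have h1 : Differentiable ℂ (fun z : E kk => (A.act γ (b, z)).2 - L γ b z) :=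
      (hfd γ b hb).sub (L γ b).differentiable
    have h2 := is_const_of_fderiv_eq_zero (𝕜 := ℂ) h1 (fun z => by
      have h3 : HasFDerivAt (fun z : E kk => (A.act γ (b, z)).2 - L γ b z)
          (fderiv ℂ (fun z : E kk => (A.act γ (b, z)).2) z - L γ b) z :=
        ((hfd γ b hb) z).hasFDerivAt.sub (L γ b).hasFDerivAt
      rw [h3.fderiv, hconst γ b hb z, sub_self]) z 0
    simp only [map_zero, sub_zero] at h2
    rw [sub_eq_iff_eq_add] at h2
    rw [h2, add_comm]
  have hslice : ∀ γ, ∀ z : E kk, DifferentiableOn ℂ (fun b : E n => A.act γ (b, z)) Ω.D := by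
    intro γ z
    refine (act_holo A γ).comp (f := fun b : E n => (b, z)) ?_ (fun b hb => hin b hb z)
    exact (differentiable_id.prodMk (differentiable_const z)).differentiableOn
  have hcholo : ∀ γ, DifferentiableOn ℂ (c γ) Ω.D := fun γ => (hslice γ 0).snd
  have hLholo : ∀ γ, DifferentiableOn ℂ (L γ) Ω.D := by
    intro γ
    have h1 : DifferentiableOn ℂ (fun b => ∑ p : Fin kk,
        ContinuousLinearMap.smulRightL ℂ (E kk) (E kk)
          (ContinuousLinearMap.proj p : E kk →L[ℂ] ℂ)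
          ((A.act γ (b, Pi.single p 1)).2 - c γ b)) Ω.D := by
      refine DifferentiableOn.fun_sum fun p _ => ?_
      exact (ContinuousLinearMap.smulRightL ℂ (E kk) (E kk)
        (ContinuousLinearMap.proj p : E kk →L[ℂ] ℂ)).differentiable.comp_differentiableOn
        (((hslice γ (Pi.single p 1)).snd).sub (hcholo γ))
    refine h1.congr fun b hb => ?_
    ext1 z
    have h2 : z = ∑ p, z p • (Pi.single p (1 : ℂ) : E kk) := by
      ext j
      simp [Finset.sum_apply, Pi.single_apply]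
    conv_lhs => rw [h2]
    rw [map_sum, ContinuousLinearMap.sum_apply]
    refine Finset.sum_congr rfl fun p _ => ?_
    rw [map_smul, haff γ b hb, add_sub_cancel_right]
    rfl
  have hone : ∀ γ, ∀ b ∈ Ω.D, ∀ z : E kk, A.act γ (b, z) = (A.β γ b, L γ b z + c γ b) :=
    fun γ b hb z => Prod.ext (A.fst γ _ (hin b hb z)) (haff γ b hb z)
  refine ⟨{ toTotAct := A, L := L, c := c, L_holo := hLholo, c_holo := hcholo, act_eq := hone },
    { H := H
      cont := hcont
      add_left := fun b hb => (hherm b hb).add_left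
      smul_left := fun b hb => (hherm b hb).smul_left
      herm := fun b hb => (hherm b hb).herm
      pos := fun b hb => (hherm b hb).pos
      inv := fun γ b hb v w => hH γ b hb 0 v w }, rfl, rfl⟩

end Pool.Agent.H.MP_e23cd6_ag.AK
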