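import Pool.Agent.H.MP_e23cd6_ag.AK.Tr1

/-!
ABUK Tr2: the translations have finite index in the group acting trivially on the base and act cocompactly in the fibres.

`tr_index`: apply `bieb_index` to the action at b0: a finite set F ⊆ kerN (image in Γ) such that for every γ ∈ kerN there is δ ∈ F with `L (δ⁻¹ γ) b0 = 1`. With `T b = L (δ⁻¹γ) b`: holomorphic, `M.H b (T b v) (T b w) = M.H b v w` (M.inv, β = id), T b0 = 1, so T = 1 on D (`rigid`): `δ⁻¹ γ ∈ trN`.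

`tr_cc_of_index` (first part): let b ∈ D, R from `fib_cc`. For z take γ ∈ kerN with `‖L γ b z + c γ b‖ ≤ R`, δ ∈ F with `t = δ⁻¹γ ∈ trN`, γ = δ t: `L γ b z + c γ b = L δ b (z + c t b) + c δ b` (ker_L_mul, ker_c_mul, tr_L). So
`z + c t b = L δ⁻¹ b ((L γ b z + c γ b) - c δ b)` (`A.L_inv_mul δ` with β δ b = b), of norm `≤ ‖L δ⁻¹ b‖ (R + ‖c δ b‖) ≤` maximum over the finite set F.
Second part: `trN` is a normal subgroup of Γ (`tr_conj`), contained in kerN, and kerN is the union of the finitely many cosets δ trN, δ ∈ F. So `(trN A).subgroupOf (kerN A)` has finite index (e.g. the map kerN ⧸ ... → F choosing δ is injective: if γ, γ' have the same δ then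
γ⁻¹γ' = (δ⁻¹γ)⁻¹(δ⁻¹γ') ∈ trN; `Finite (kerN ⧸ _)`), normal, and `m0 = index`, `γ^m0 ∈ trN` by `Subgroup.pow_index_mem`.
-/

open Set Filter Topology Metric

namespace Pool.Agent.H.MP_e23cd6_ag.AK

open Pool.Agent.H.MP_e23cd6_ag.AB

variable {n kk : ℕ} {Ω : Dom n} {Γ : Type} [Group Γ]

theorem tr_index (A : FibAct Ω kk Γ) (M : FMet A) (hpd : BasePD A.toBaseAct) :
    ∃ F : Set Γ, F.Finite ∧ (∀ δ ∈ F, δ ∈ kerN A.toBaseAct) ∧
      ∀ γ ∈ kerN A.toBaseAct, ∃ δ ∈ F, δ⁻¹ * γ ∈ trN A := by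
  obtain ⟨S, B, hBL, _⟩ := exists_eact A M hpd Ω.b0_mem
  obtain ⟨F, hF, h⟩ := bieb_index B
  refine ⟨Subtype.val '' F, hF.image _, ?_, fun γ hγ => ?_⟩
  · rintro _ ⟨δ, _, rfl⟩
    exact δ.2
  · obtain ⟨δ, hδ, h1⟩ := h ⟨γ, hγ⟩
    refine ⟨δ.1, ⟨δ, hδ, rfl⟩, ?_⟩
    have hk : δ.1⁻¹ * γ ∈ kerN A.toBaseAct := mul_mem (inv_mem δ.2) hγ
    have h2 : A.L (δ.1⁻¹ * γ) Ω.b0 = 1 := by
      ext1 v
      have h3 := hBL (δ⁻¹ * ⟨γ, hγ⟩) v
      rw [h1] at h3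
      exact (S.injective h3).symm
    refine ⟨hk, ?_⟩
    refine rigid M (A.L_holo _) (fun b hb v w => ?_) Ω.b0_mem h2
    have h4 := M.inv (δ.1⁻¹ * γ) b hb v w
    rwa [show A.β (δ.1⁻¹ * γ) b = b from hk b hb] at h4

theorem tr_cc_of_index (A : FibAct Ω kk Γ) (hpd : BasePD A.toBaseAct) {F : Set Γ} (hF : F.Finite)
    (hFk : ∀ δ ∈ F, δ ∈ kerN A.toBaseAct)
    (h : ∀ γ ∈ kerN A.toBaseAct, ∃ δ ∈ F, δ⁻¹ * γ ∈ trN A) :
    TrCC A ∧ ∃ m0 : ℕ, 0 < m0 ∧ ∀ γ ∈ kerN A.toBaseAct, γ ^ m0 ∈ trN A := by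
  classical
  constructor
  · intro b hb
    obtain ⟨R, hR⟩ := fib_cc A hpd hb
    obtain ⟨R', hR'⟩ := (hF.image fun δ => ‖A.L δ⁻¹ b‖ * (|R| + ‖A.c δ b‖)).bddAbove
    refine ⟨R', fun z => ?_⟩
    obtain ⟨γ, hγ, hz⟩ := hR z
    obtain ⟨δ, hδ, ht⟩ := h γ hγ
    refine ⟨δ⁻¹ * γ, ht, ?_⟩
    have hδk := hFk δ hδ
    have hβ : A.β δ b = b := hδk b hb
    have e : δ * (δ⁻¹ * γ) = γ := by group
    have h1 : A.L γ b z + A.c γ b = A.L δ b (z + A.c (δ⁻¹ * γ) b) + A.c δ b := by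
      have hL := ker_L_mul (γ := δ) ht.1 hb
      have hc := ker_c_mul (γ := δ) ht.1 hb
      rw [e] at hL hc
      rw [hL, hc, tr_L ht hb, mul_one, map_add, add_assoc]
    have h2 : A.L δ⁻¹ b * A.L δ b = 1 := by
      have := A.L_inv_mul δ hb
      rwa [hβ] at this
    have h3 : z + A.c (δ⁻¹ * γ) b = A.L δ⁻¹ b ((A.L γ b z + A.c γ b) - A.c δ b) := by
      rw [h1, add_sub_cancel_right]
      have h4 := congrArg (fun T : E kk →L[ℂ] E kk => T (z + A.c (δ⁻¹ * γ) b)) h2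
      exact h4.symm
    rw [h3]
    calc ‖A.L δ⁻¹ b ((A.L γ b z + A.c γ b) - A.c δ b)‖
        ≤ ‖A.L δ⁻¹ b‖ * ‖(A.L γ b z + A.c γ b) - A.c δ b‖ := (A.L δ⁻¹ b).le_opNorm _
      _ ≤ ‖A.L δ⁻¹ b‖ * (|R| + ‖A.c δ b‖) := by
          refine mul_le_mul_of_nonneg_left ?_ (norm_nonneg _)
          exact (norm_sub_le _ _).trans (add_le_add (hz.trans (le_abs_self R)) le_rfl)
      _ ≤ R' := hR' ⟨δ, hδ, rfl⟩
  · refine ⟨(hF.toFinset.card).factorial, Nat.factorial_pos _, fun γ hγ => ?_⟩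
    have hex : ∀ i : ℕ, ∃ δ ∈ F, δ⁻¹ * γ ^ i ∈ trN A := fun i => h _ (pow_mem hγ i)
    choose d hd hdt using hex
    obtain ⟨i, hi, j, hj, hij, hdij⟩ := Finset.exists_ne_map_eq_of_card_lt_of_maps_to
      (s := Finset.range (hF.toFinset.card + 1)) (t := hF.toFinset) (f := d)
      (by rw [Finset.card_range]; omega) (fun i _ => hF.mem_toFinset.2 (hd i))
    have key : ∀ i j : ℕ, i < j → j < hF.toFinset.card + 1 → d i = d j →
        γ ^ (hF.toFinset.card).factorial ∈ trN A := by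
      intro i j hlt hjc hd'
      have h1 : (d i)⁻¹ * γ ^ j ∈ trN A := by
        rw [hd']
        exact hdt j
      have h2 : γ ^ (j - i) ∈ trN A := by
        have h3 := mul_mem (inv_mem (hdt i)) h1
        have e : ((d i)⁻¹ * γ ^ i)⁻¹ * ((d i)⁻¹ * γ ^ j) = γ ^ (j - i) := by
          have e2 : γ ^ j = γ ^ i * γ ^ (j - i) := by
            rw [← pow_add]
            congr 1
            omega
          rw [e2]
          group
        rwa [e] at h3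
      have h4 : (j - i) ∣ (hF.toFinset.card).factorial := Nat.dvd_factorial (by omega) (by omega)
      obtain ⟨c, hc⟩ := h4
      rw [hc, pow_mul]
      exact pow_mem h2 c
    rw [Finset.mem_range] at hi hj
    rcases lt_or_gt_of_ne hij with hlt | hlt
    · exact key i j hlt hj hdij
    · exact key j i hlt hi hdij.symm

end Pool.Agent.H.MP_e23cd6_ag.AK
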