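import Pool.Agent.H.MP_e23cd6_ag.AK.Bnd

/-!
ABUK K6b: the determinant of the comparison maps gives a bounded cocycle.

`exists_p`. `p b = (P b).det` (`ContinuousLinearMap.det`): holomorphic (a polynomial in the entries).
Nonzero: if `P b v = 0` then `(H0 v v).re ≤ (H 0 0).re = 0`, `v = 0`; injective on a finite
dimensional space, so the determinant is not 0. Bound: let `K ⊆ D` be compact, `C1` from
`FMet.bounds` for `K ∪ {b0}`, `‖P b‖ ≤ C2` on `K`. For `b ∈ K`, `γ ∈ Γ`, `b' = β γ b` let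
`Q = (P b')⁻¹ ∘ L γ b ∘ P b`. `(H_{b0}(Qv,Qv)).re ≤ (H_{b'}(P b' Q v, P b' Q v)).re
= (H_{b'}(L γ b (P b v), L γ b (P b v))).re = (H_b(P b v, P b v)).re ≤ C1 C2² ‖v‖²`, and
`‖Q v‖² ≤ C1 (H_{b0}(Qv,Qv)).re`: `‖Q‖ ≤ C1 C2`. The determinant is continuous on the compact ball
of radius `C1 C2`, so `|det Q| ≤ C`, and `det L γ b * det P b = det P b' * det Q`.
-/

open Set Filter Topology Metric
open scoped ComplexConjugate

namespace Pool.Agent.H.MP_e23cd6_ag.AK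

open Pool.Agent.H.MP_e23cd6_ag.AB

variable {n kk : ℕ} {Ω : Dom n} {Γ : Type} [Group Γ] {A : FibAct Ω kk Γ}

theorem K6b_det_eq (T : E kk →L[ℂ] E kk) :
    T.det = ∑ σ : Equiv.Perm (Fin kk), ((Equiv.Perm.sign σ : ℤ) : ℂ) *
      ∏ i, T (Pi.single i 1) (σ i) := by
  show LinearMap.det (T : E kk →ₗ[ℂ] E kk) = _
  rw [← LinearMap.det_toMatrix', Matrix.det_apply']
  refine Finset.sum_congr rfl fun σ _ => ?_
  congr 1

theorem K6b_det_holo {P : E n → (E kk →L[ℂ] E kk)} {D : Set (E n)}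
    (hP : DifferentiableOn ℂ P D) : DifferentiableOn ℂ (fun b => (P b).det) D := by
  have h1 : (fun b => (P b).det) = fun b => ∑ σ : Equiv.Perm (Fin kk),
      ((Equiv.Perm.sign σ : ℤ) : ℂ) * ∏ i, P b (Pi.single i 1) (σ i) := by
    funext b
    exact K6b_det_eq (P b)
  rw [h1]
  refine DifferentiableOn.fun_sum fun σ _ => ?_
  refine DifferentiableOn.const_mul ?_ _
  have h3 : ∀ i ∈ (Finset.univ : Finset (Fin kk)),
      DifferentiableOn ℂ (fun b => P b (Pi.single i (1 : ℂ)) (σ i)) D := by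
    intro i _
    have h2 : DifferentiableOn ℂ (fun b => P b (Pi.single i 1)) D :=
      hP.clm_apply (differentiableOn_const _)
    exact (differentiableOn_pi.1 h2) (σ i)
  intro x hx
  exact (HasFDerivWithinAt.finsetProd (u := Finset.univ)
    (g := fun i b => P b (Pi.single i (1 : ℂ)) (σ i))
    (fun i hi => (h3 i hi x hx).hasFDerivWithinAt)).differentiableWithinAt

theorem exists_p (M : FMet A) {P : E n → (E kk →L[ℂ] E kk)} (hP : DifferentiableOn ℂ P Ω.D)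
    (hPi : ∀ b ∈ Ω.D, ∀ v, (M.H Ω.b0 v v).re ≤ (M.H b (P b v) (P b v)).re) :
    ∃ p : E n → ℂ, DifferentiableOn ℂ p Ω.D ∧ (∀ b ∈ Ω.D, p b ≠ 0) ∧
      ∀ K ⊆ Ω.D, IsCompact K → ∃ C : ℝ, ∀ γ, ∀ b ∈ K,
        ‖(A.L γ b).det * p b‖ ≤ C * ‖p (A.β γ b)‖ := by
  have hb0 : Ω.b0 ∈ Ω.D := Ω.hB (mem_closedBall_self (Ω.hr0.trans Ω.hr01).le)
  have hinj : ∀ b ∈ Ω.D, Function.Injective (P b) := by
    intro b hb
    refine (injective_iff_map_eq_zero (P b)).2 fun v hv => ?_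
    by_contra hv0
    have h1 := M.pos _ hb0 v hv0
    have h2 := hPi b hb v
    rw [hv, (M.isHerm hb).zero_left] at h2
    simp only [Complex.zero_re] at h2
    linarith
  have hdet : ∀ b ∈ Ω.D, (P b).det ≠ 0 := by
    intro b hb h0
    have h1 := LinearMap.bot_lt_ker_of_det_eq_zero (f := (P b : E kk →ₗ[ℂ] E kk)) h0
    have h2 : LinearMap.ker (P b : E kk →ₗ[ℂ] E kk) = ⊥ := LinearMap.ker_eq_bot.2 (hinj b hb)
    rw [h2] at h1
    exact lt_irrefl _ h1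
  refine ⟨fun b => (P b).det, K6b_det_holo hP, hdet, fun K hK hKc => ?_⟩
  obtain ⟨C1, hC1, hb1⟩ := M.bounds (K := K ∪ {Ω.b0})
    (union_subset hK (singleton_subset_iff.2 hb0)) (hKc.union isCompact_singleton)
  obtain ⟨C2, hC2⟩ := hKc.exists_bound_of_continuousOn (hP.continuousOn.mono hK)
  have : ProperSpace (E kk →L[ℂ] E kk) := FiniteDimensional.proper ℂ _
  obtain ⟨C3, hC3⟩ := (isCompact_closedBall (0 : E kk →L[ℂ] E kk)
    (C1 * C2)).exists_bound_of_continuousOn (ContinuousLinearMap.continuous_det (𝕜 := ℂ)).continuousOn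
  refine ⟨C3, fun γ b hb => ?_⟩
  have hbD := hK hb
  have hb' := A.mem γ hbD
  have hC20 : 0 ≤ C2 := (norm_nonneg _).trans (hC2 b hb)
  let e : E kk ≃ₗ[ℂ] E kk :=
    LinearEquiv.ofInjectiveEndo (P (A.β γ b) : E kk →ₗ[ℂ] E kk) (hinj _ hb')
  let Q : E kk →L[ℂ] E kk :=
    (LinearMap.toContinuousLinearMap (e.symm : E kk →ₗ[ℂ] E kk)).comp ((A.L γ b).comp (P b))
  have hPQ : ∀ v, P (A.β γ b) (Q v) = A.L γ b (P b v) := by
    intro v
    have h1 : e (e.symm (A.L γ b (P b v))) = A.L γ b (P b v) := e.apply_symm_apply _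
    exact h1
  have hQ : ‖Q‖ ≤ C1 * C2 := by
    refine ContinuousLinearMap.opNorm_le_bound _ (by positivity) fun v => ?_
    have h1 := (hb1 Ω.b0 (Or.inr rfl) (Q v)).2
    have h2 := hPi _ hb' (Q v)
    rw [hPQ v, M.inv γ b hbD] at h2
    have h3 := (hb1 b (Or.inl hb) (P b v)).1
    have h4 : ‖P b v‖ ≤ C2 * ‖v‖ :=
      ((P b).le_opNorm v).trans (mul_le_mul_of_nonneg_right (hC2 b hb) (norm_nonneg _))
    have h5 : ‖P b v‖ ^ 2 ≤ (C2 * ‖v‖) ^ 2 := pow_le_pow_left₀ (norm_nonneg _) h4 2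
    have h6 : ‖Q v‖ ^ 2 ≤ (C1 * C2 * ‖v‖) ^ 2 := by
      calc ‖Q v‖ ^ 2 ≤ C1 * (M.H Ω.b0 (Q v) (Q v)).re := h1
        _ ≤ C1 * (C1 * (C2 * ‖v‖) ^ 2) :=
            mul_le_mul_of_nonneg_left (h2.trans (h3.trans (mul_le_mul_of_nonneg_left h5 hC1.le)))
              hC1.le
        _ = _ := by ring
    exact (pow_le_pow_iff_left₀ (norm_nonneg _) (by positivity) two_ne_zero).1 h6
  have hdQ : ‖Q.det‖ ≤ C3 := hC3 Q (by simpa using hQ)
  have hmul : (A.L γ b).det * (P b).det = (P (A.β γ b)).det * Q.det := by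
    show LinearMap.det (A.L γ b : E kk →ₗ[ℂ] E kk) * LinearMap.det (P b : E kk →ₗ[ℂ] E kk) =
      LinearMap.det (P (A.β γ b) : E kk →ₗ[ℂ] E kk) * LinearMap.det (Q : E kk →ₗ[ℂ] E kk)
    rw [← LinearMap.det_comp, ← LinearMap.det_comp]
    congr 1
    exact LinearMap.ext fun v => (hPQ v).symm
  show ‖(A.L γ b).det * (P b).det‖ ≤ C3 * ‖(P (A.β γ b)).det‖
  rw [hmul, norm_mul, mul_comm]
  exact mul_le_mul_of_nonneg_right hdQ (norm_nonneg _)

end Pool.Agent.H.MP_e23cd6_ag.AK
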