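import Pool.Agent.H.MP_e23cd6_ag.AB.I4

/-!
ABUK K7: Poincaré series for a bounded multiple of the Jacobian cocycle. The proof follows the case
of the Jacobian itself (file AB/I4.lean).
-/

open Set Filter Topology Metric MeasureTheory

namespace Pool.Agent.H.MP_e23cd6_ag.AK

open Pool.Agent.H.MP_e23cd6_ag.AB

variable {n : ℕ} {Ω : Dom n} {Γ : Type} [Group Γ]

theorem K7_ne (A : BaseAct Ω Γ) (j : Γ → E n → ℂ) (hone : ∀ b ∈ Ω.D, j 1 b = 1)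
    (hmul : ∀ γ δ, ∀ b ∈ Ω.D, j (γ * δ) b = j γ (A.β δ b) * j δ b) (γ : Γ) {b : E n}
    (hb : b ∈ Ω.D) : j γ b ≠ 0 := by
  have h1 := hmul γ⁻¹ γ b hb
  rw [inv_mul_cancel, hone b hb] at h1
  exact right_ne_zero_of_mul (h1 ▸ one_ne_zero)

theorem K7_out (A : BaseAct Ω Γ) (j : Γ → E n → ℂ)
    (hmul : ∀ γ δ, ∀ b ∈ Ω.D, j (γ * δ) b = j γ (A.β δ b) * j δ b)
    {m0 : ℕ} (hker : ∀ γ ∈ kerN A, ∀ b ∈ Ω.D, j γ b ^ m0 = 1) {m : ℕ} (hm : m0 ∣ m) (g : Γ)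
    {b : E n} (hb : b ∈ Ω.D) : j (Quotient.out (g : Γ ⧸ kerN A)) b ^ m = j g b ^ m := by
  obtain ⟨h, hh⟩ := QuotientGroup.mk_out_eq_mul (kerN A) g
  obtain ⟨d, hd⟩ := hm
  rw [hh, hmul _ _ _ hb, h.2 b hb, mul_pow]
  have h1 : j (h : Γ) b ^ m = 1 := by
    rw [hd, pow_mul, hker _ h.2 b hb, one_pow]
  rw [h1, mul_one]

theorem K7_bound (A : BaseAct Ω Γ) (hpd : BasePD A) (j : Γ → E n → ℂ)
    (hbd : ∀ K ⊆ Ω.D, IsCompact K → ∃ C : ℝ, ∀ γ, ∀ b ∈ K, ‖j γ b‖ ≤ C * ‖Jac A γ b‖)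
    {K : Set (E n)} (hK : K ⊆ Ω.D) (hKc : IsCompact K) :
    ∃ C : ℝ, 0 ≤ C ∧ ∀ b ∈ K, ∀ s : Finset (Γ ⧸ kerN A), ∑ q ∈ s, ‖j q.out b‖ ^ 2 ≤ C := by
  obtain ⟨C, hC⟩ := poin_bound A hpd hK hKc
  obtain ⟨C1, hC1⟩ := hbd K hK hKc
  refine ⟨C1 ^ 2 * |C|, by positivity, fun b hb s => ?_⟩
  have h1 : ∀ q ∈ s, ‖j q.out b‖ ^ 2 ≤ C1 ^ 2 * ‖Jac A q.out b‖ ^ 2 := by
    intro q _
    have h2 := hC1 q.out b hb
    calc ‖j q.out b‖ ^ 2 ≤ (C1 * ‖Jac A q.out b‖) ^ 2 := pow_le_pow_left₀ (norm_nonneg _) h2 2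
      _ = C1 ^ 2 * ‖Jac A q.out b‖ ^ 2 := mul_pow _ _ _
  refine (Finset.sum_le_sum h1).trans ?_
  rw [← Finset.mul_sum]
  exact mul_le_mul_of_nonneg_left ((hC b hb s).trans (le_abs_self C)) (sq_nonneg _)

theorem K7_holo [Countable Γ] (A : BaseAct Ω Γ) (hpd : BasePD A) (j : Γ → E n → ℂ)
    (hj : ∀ γ, DifferentiableOn ℂ (j γ) Ω.D)
    (hbd : ∀ K ⊆ Ω.D, IsCompact K → ∃ C : ℝ, ∀ γ, ∀ b ∈ K, ‖j γ b‖ ≤ C * ‖Jac A γ b‖)
    {φ : E n → ℂ} (hφ : Differentiable ℂ φ) {m : ℕ} (hm : 2 ≤ m) :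
    DifferentiableOn ℂ (fun b => ∑' q : Γ ⧸ kerN A, φ (A.β q.out b) * j q.out b ^ m) Ω.D := by
  obtain ⟨Cφ, hCφ, hφD⟩ := I4_phi_bound Ω hφ
  have hcount : Countable (Γ ⧸ kerN A) := QuotientGroup.mk_surjective.countable
  refine tsum_holo (f := fun (q : Γ ⧸ kerN A) b => φ (A.β q.out b) * j q.out b ^ m)
    (fun q => ?_) ?_
  · exact (hφ.comp_differentiableOn (A.holo q.out)).mul ((hj q.out).pow m)
  · intro K hK hKc
    obtain ⟨C, hC0, hC⟩ := K7_bound A hpd j hbd hK hKc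
    refine ⟨Cφ * ((max 1 C) ^ (m - 2) * C), fun b hb s => ?_⟩
    have h1 : ∀ q : Γ ⧸ kerN A, ‖j q.out b‖ ≤ max 1 C := by
      intro q
      have h2 := hC b hb {q}
      rw [Finset.sum_singleton] at h2
      rcases le_total ‖j q.out b‖ 1 with h3 | h3
      · exact h3.trans (le_max_left _ _)
      · refine le_trans ?_ (le_max_right 1 C)
        nlinarith
    have h4 : ∀ q ∈ s, ‖φ (A.β q.out b) * j q.out b ^ m‖
        ≤ Cφ * ((max 1 C) ^ (m - 2) * ‖j q.out b‖ ^ 2) := by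
      intro q _
      rw [norm_mul, norm_pow]
      refine mul_le_mul (hφD _ (A.mem _ (hK hb))) ?_ (by positivity) hCφ
      have h5 : ‖j q.out b‖ ^ m = ‖j q.out b‖ ^ (m - 2) * ‖j q.out b‖ ^ 2 := by
        rw [← pow_add]
        congr 1
        omega
      rw [h5]
      exact mul_le_mul_of_nonneg_right (pow_le_pow_left₀ (norm_nonneg _) (h1 q) _) (by positivity)
    refine (Finset.sum_le_sum h4).trans ?_
    rw [← Finset.mul_sum, ← Finset.mul_sum]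
    refine mul_le_mul_of_nonneg_left ?_ hCφ
    exact mul_le_mul_of_nonneg_left (hC b hb s) (by positivity)

theorem K7_trans (A : BaseAct Ω Γ) (j : Γ → E n → ℂ)
    (hmul : ∀ γ δ, ∀ b ∈ Ω.D, j (γ * δ) b = j γ (A.β δ b) * j δ b)
    {m0 : ℕ} (hker : ∀ γ ∈ kerN A, ∀ b ∈ Ω.D, j γ b ^ m0 = 1) {m : ℕ} (hm : m0 ∣ m)
    (φ : E n → ℂ) (γ : Γ) {b : E n} (hb : b ∈ Ω.D) :
    (∑' q : Γ ⧸ kerN A, φ (A.β q.out (A.β γ b)) * j q.out (A.β γ b) ^ m) * j γ b ^ m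
      = ∑' q : Γ ⧸ kerN A, φ (A.β q.out b) * j q.out b ^ m := by
  rw [← tsum_mul_right, ← Equiv.tsum_eq (Equiv.mulRight ((γ : Γ) : Γ ⧸ kerN A))
    (fun q => φ (A.β q.out b) * j q.out b ^ m)]
  refine tsum_congr fun q => ?_
  have h1 : (Equiv.mulRight ((γ : Γ) : Γ ⧸ kerN A)) q = ((q.out * γ : Γ) : Γ ⧸ kerN A) := by
    show q * (γ : Γ ⧸ kerN A) = _
    rw [QuotientGroup.mk_mul, QuotientGroup.out_eq']
  rw [h1, I4_out A _ hb, K7_out A j hmul hker hm _ hb, A.mul _ _ _ hb, hmul _ _ _ hb, mul_pow,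
    mul_assoc]

theorem K7_pow (A : BaseAct Ω Γ) (j : Γ → E n → ℂ) (hone : ∀ b ∈ Ω.D, j 1 b = 1)
    (hmul : ∀ γ δ, ∀ b ∈ Ω.D, j (γ * δ) b = j γ (A.β δ b) * j δ b) {γ : Γ} {b : E n}
    (hb : b ∈ Ω.D) (h : A.β γ b = b) (k : ℕ) :
    A.β (γ ^ k) b = b ∧ j (γ ^ k) b = j γ b ^ k := by
  induction k with
  | zero =>
    rw [pow_zero, pow_zero]
    exact ⟨A.one b hb, hone b hb⟩
  | succ k ih =>
    rw [pow_succ, pow_succ]
    refine ⟨?_, ?_⟩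
    · rw [A.mul _ _ _ hb, h, ih.1]
    · rw [hmul _ _ _ hb, h, ih.2]

/-- the values of the cocycle at fixed points are roots of unity of bounded order -/
theorem K7_root (A : BaseAct Ω Γ) (hpd : BasePD A) (j : Γ → E n → ℂ)
    (hone : ∀ b ∈ Ω.D, j 1 b = 1)
    (hmul : ∀ γ δ, ∀ b ∈ Ω.D, j (γ * δ) b = j γ (A.β δ b) * j δ b)
    {m0 : ℕ} (hm0 : 0 < m0) (hker : ∀ γ ∈ kerN A, ∀ b ∈ Ω.D, j γ b ^ m0 = 1) {b : E n}
    (hb : b ∈ Ω.D) :
    ∃ w : ℕ, 0 < w ∧ m0 ∣ w ∧ ∀ γ, A.β γ b = b → j γ b ^ w = 1 := by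
  classical
  obtain ⟨F, hF, hF2⟩ := hpd {b} (Set.singleton_subset_iff.mpr hb) isCompact_singleton
  refine ⟨(hF.toFinset.card).factorial * m0, Nat.mul_pos (Nat.factorial_pos _) hm0,
    Dvd.intro_left _ rfl, fun γ hγ => ?_⟩
  have h1 : ∀ k : ℕ, ∃ δ ∈ F, ∀ x ∈ Ω.D, A.β (γ ^ k) x = A.β δ x := fun k =>
    hF2 _ ⟨b, rfl, (K7_pow A j hone hmul hb hγ k).1⟩
  choose f hf hf2 using h1
  have h2 : ∃ i ∈ Finset.range (hF.toFinset.card + 1), ∃ k ∈ Finset.range (hF.toFinset.card + 1),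
      i ≠ k ∧ f i = f k := by
    refine Finset.exists_ne_map_eq_of_card_lt_of_maps_to (t := hF.toFinset) ?_ ?_
    · rw [Finset.card_range]
      exact Nat.lt_succ_self _
    · intro i _
      rw [Finset.mem_coe, Set.Finite.mem_toFinset]
      exact hf i
  have h3 : ∃ i k : ℕ, i < k ∧ k ≤ hF.toFinset.card ∧ f i = f k := by
    obtain ⟨i, hi, k, hk, hik, hfik⟩ := h2
    rw [Finset.mem_range] at hi hk
    rcases lt_or_gt_of_ne hik with h | h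
    · exact ⟨i, k, h, by omega, hfik⟩
    · exact ⟨k, i, h, by omega, hfik.symm⟩
  obtain ⟨i, k, hik, hkc, hfik⟩ := h3
  have h4 : γ ^ (k - i) ∈ kerN A := by
    intro x hx
    have h5 : ∀ y ∈ Ω.D, A.β (γ ^ i) y = A.β (γ ^ k) y := fun y hy => by
      rw [hf2 i y hy, hf2 k y hy, hfik]
    have h6 : A.β (γ ^ k) x = A.β (γ ^ i) (A.β (γ ^ (k - i)) x) := by
      rw [← A.mul _ _ _ hx, ← pow_add]
      congr 2
      omega
    have h7 : A.β (γ ^ i) (A.β (γ ^ (k - i)) x) = A.β (γ ^ i) x := by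
      rw [← h6, h5 x hx]
    have h8 := congrArg (A.β (γ ^ i)⁻¹) h7
    rwa [A.inv_left _ (A.mem _ hx), A.inv_left _ hx] at h8
  have h6 : j γ b ^ ((k - i) * m0) = 1 := by
    rw [pow_mul, ← (K7_pow A j hone hmul hb hγ (k - i)).2]
    exact hker _ h4 b hb
  have h9 : (k - i) ∣ (hF.toFinset.card).factorial :=
    Nat.dvd_factorial (by omega) (by omega)
  obtain ⟨d, hd⟩ := h9
  have h10 : (hF.toFinset.card).factorial * m0 = ((k - i) * m0) * d := by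
    rw [hd]
    ring
  rw [h10, pow_mul, h6, one_pow]

theorem K7_poin_ne (A : BaseAct Ω Γ) (hpd : BasePD A) (j : Γ → E n → ℂ)
    (hbd : ∀ K ⊆ Ω.D, IsCompact K → ∃ C : ℝ, ∀ γ, ∀ b ∈ K, ‖j γ b‖ ≤ C * ‖Jac A γ b‖)
    {b : E n} (hb : b ∈ Ω.D) {w : ℕ} (hw : 0 < w) (hwr : ∀ γ, A.β γ b = b → j γ b ^ w = 1) :
    ∃ (m' : ℕ) (φ : E n → ℂ), Differentiable ℂ φ ∧ ∀ m, m' ≤ m → w ∣ m →
      ∑' q : Γ ⧸ kerN A, φ (A.β q.out b) * j q.out b ^ m ≠ 0 := by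
  classical
  obtain ⟨C, hC0, hC⟩ := K7_bound A hpd j hbd (Set.singleton_subset_iff.mpr hb) isCompact_singleton
  have hCb := hC b rfl
  have hsum : Summable fun q : Γ ⧸ kerN A => ‖j q.out b‖ ^ 2 :=
    summable_of_sum_le (fun q => by positivity) hCb
  have htsum : ∑' q : Γ ⧸ kerN A, ‖j q.out b‖ ^ 2 ≤ C := hsum.tsum_le_of_sum_le hCb
  have hSfin : {q : Γ ⧸ kerN A | 1 / 2 ≤ ‖j q.out b‖}.Finite := by
    have h1 := hsum.tendsto_cofinite_zero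
    have h2 : ∀ᶠ q : Γ ⧸ kerN A in cofinite, ‖j q.out b‖ ^ 2 < 1 / 4 :=
      h1.eventually (gt_mem_nhds (by norm_num))
    rw [Filter.eventually_cofinite] at h2
    refine h2.subset fun q hq => ?_
    have hq' : 1 / 2 ≤ ‖j q.out b‖ := hq
    show ¬ ‖j q.out b‖ ^ 2 < 1 / 4
    rw [not_lt]
    nlinarith
  have hstab : ∀ q : Γ ⧸ kerN A, A.β q.out b = b → ‖j q.out b‖ = 1 := by
    intro q hq
    have h1 := congrArg norm (hwr _ hq)
    rw [norm_pow, norm_one] at h1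
    exact (pow_eq_one_iff_of_nonneg (norm_nonneg _) hw.ne').mp h1
  set T : Finset (E n) := (hSfin.toFinset.image fun q => A.β q.out b).erase b with hTdef
  obtain ⟨φ, hφ, hφb, hφT⟩ := I4_sep T (Finset.notMem_erase b _)
  obtain ⟨Cφ, hCφ, hφD⟩ := I4_phi_bound Ω hφ
  obtain ⟨k, hk⟩ := exists_pow_lt_of_lt_one (x := 1 / (2 * (Cφ * C + 1)))
    (y := (1 / 2 : ℝ)) (by positivity) (by norm_num)
  refine ⟨k + 2, φ, hφ, fun m hm hwm => ?_⟩
  set a : Γ ⧸ kerN A → ℂ := fun q => if A.β q.out b = b then 1 else 0 with ha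
  set R : Γ ⧸ kerN A → ℂ := fun q => φ (A.β q.out b) * j q.out b ^ m with hR
  have hafin : {q : Γ ⧸ kerN A | A.β q.out b = b}.Finite := by
    refine hSfin.subset fun q hq => ?_
    show 1 / 2 ≤ ‖j q.out b‖
    rw [hstab q hq]
    norm_num
  have hbound : ∀ q, ‖R q - a q‖ ≤ Cφ * (1 / 2) ^ (m - 2) * ‖j q.out b‖ ^ 2 := by
    intro q
    by_cases hq : A.β q.out b = b
    · have h1 : R q - a q = 0 := by
        obtain ⟨d, hd⟩ := hwm
        rw [hR, ha]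
        show φ (A.β q.out b) * j q.out b ^ m - (if A.β q.out b = b then 1 else 0) = 0
        rw [if_pos hq, hq, hφb, hd, pow_mul, hwr _ hq, one_pow, mul_one, sub_self]
      rw [h1, norm_zero]
      positivity
    · have h2 : a q = 0 := if_neg hq
      rw [h2, sub_zero]
      by_cases hS : 1 / 2 ≤ ‖j q.out b‖
      · have h3 : φ (A.β q.out b) = 0 := by
          apply hφT
          rw [hTdef, Finset.mem_erase]
          refine ⟨hq, Finset.mem_image.mpr ⟨q, ?_, rfl⟩⟩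
          rw [Set.Finite.mem_toFinset]
          exact hS
        have h4 : R q = 0 := by
          show φ (A.β q.out b) * j q.out b ^ m = 0
          rw [h3, zero_mul]
        rw [h4, norm_zero]
        positivity
      · have hS' : ‖j q.out b‖ ≤ 1 / 2 := le_of_lt (not_le.mp hS)
        show ‖φ (A.β q.out b) * j q.out b ^ m‖ ≤ _
        rw [norm_mul, norm_pow, mul_assoc]
        refine mul_le_mul (hφD _ (A.mem _ hb)) ?_ (by positivity) hCφ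
        have h5 : ‖j q.out b‖ ^ m = ‖j q.out b‖ ^ (m - 2) * ‖j q.out b‖ ^ 2 := by
          rw [← pow_add]
          congr 1
          omega
        rw [h5]
        exact mul_le_mul_of_nonneg_right (pow_le_pow_left₀ (norm_nonneg _) hS' _)
          (by positivity)
  have hsum2 : Summable fun q : Γ ⧸ kerN A => Cφ * (1 / 2) ^ (m - 2) * ‖j q.out b‖ ^ 2 :=
    hsum.mul_left _
  have hsd : Summable fun q => R q - a q := Summable.of_norm_bounded hsum2 hbound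
  have hsa : Summable a := by
    refine summable_of_hasFiniteSupport (hafin.subset fun q hq => ?_)
    by_contra hn
    exact hq (if_neg hn)
  have hd : ‖∑' q, (R q - a q)‖ ≤ 1 / 2 := by
    refine (tsum_of_norm_bounded hsum2.hasSum hbound).trans ?_
    rw [tsum_mul_left]
    have h6 : (1 / 2 : ℝ) ^ (m - 2) ≤ (1 / 2) ^ k :=
      pow_le_pow_of_le_one (by norm_num) (by norm_num) (by omega)
    have h7 : (1 / 2 : ℝ) ^ (m - 2) ≤ 1 / (2 * (Cφ * C + 1)) := h6.trans hk.le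
    have h8 : 0 < 2 * (Cφ * C + 1) := by positivity
    rw [le_div_iff₀ h8] at h7
    have h9 : 0 ≤ (1 / 2 : ℝ) ^ (m - 2) := by positivity
    calc Cφ * (1 / 2) ^ (m - 2) * ∑' q : Γ ⧸ kerN A, ‖j q.out b‖ ^ 2
        ≤ Cφ * (1 / 2) ^ (m - 2) * C := mul_le_mul_of_nonneg_left htsum (by positivity)
      _ ≤ 1 / 2 := by nlinarith
  have hasum : ∑' q, a q = ((hafin.toFinset.card : ℕ) : ℂ) := by
    rw [tsum_eq_sum (s := hafin.toFinset)]
    · have h1 : ∀ q ∈ hafin.toFinset, a q = 1 := fun q hq =>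
        if_pos ((Set.Finite.mem_toFinset hafin).mp hq)
      rw [Finset.sum_congr rfl h1, Finset.sum_const, nsmul_eq_mul, mul_one]
    · intro q hq
      exact if_neg fun h => hq ((Set.Finite.mem_toFinset hafin).mpr h)
  have hcard : 1 ≤ hafin.toFinset.card := by
    refine Finset.card_pos.mpr ⟨((1 : Γ) : Γ ⧸ kerN A), ?_⟩
    rw [Set.Finite.mem_toFinset]
    show A.β (Quotient.out ((1 : Γ) : Γ ⧸ kerN A)) b = b
    rw [I4_out A 1 hb, A.one b hb]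
  have hP : ∑' q, R q = ∑' q, a q + ∑' q, (R q - a q) := by
    rw [← hsa.tsum_add hsd]
    refine tsum_congr fun q => ?_
    ring
  intro h0
  change ∑' q, R q = 0 at h0
  rw [hP, hasum] at h0
  have h1 : ((hafin.toFinset.card : ℕ) : ℂ) = - ∑' q, (R q - a q) := eq_neg_of_add_eq_zero_left h0
  have h2 := congrArg norm h1
  rw [norm_neg, Complex.norm_natCast] at h2
  have h3 : (1 : ℝ) ≤ hafin.toFinset.card := by exact_mod_cast hcard
  linarith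

theorem poin_gen [Countable Γ] (A : BaseAct Ω Γ) (hpd : BasePD A) (j : Γ → E n → ℂ)
    (hj : ∀ γ, DifferentiableOn ℂ (j γ) Ω.D) (hone : ∀ b ∈ Ω.D, j 1 b = 1)
    (hmul : ∀ γ δ, ∀ b ∈ Ω.D, j (γ * δ) b = j γ (A.β δ b) * j δ b)
    (hbd : ∀ K ⊆ Ω.D, IsCompact K → ∃ C : ℝ, ∀ γ, ∀ b ∈ K, ‖j γ b‖ ≤ C * ‖Jac A γ b‖)
    {m0 : ℕ} (hm0 : 0 < m0) (hker : ∀ γ ∈ kerN A, ∀ b ∈ Ω.D, j γ b ^ m0 = 1) {b : E n}
    (hb : b ∈ Ω.D) :
    ∃ m : ℕ, 0 < m ∧ ∃ G : E n → ℂ, DifferentiableOn ℂ G Ω.D ∧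
      (∀ γ, ∀ x ∈ Ω.D, G (A.β γ x) * j γ x ^ m = G x) ∧ G b ≠ 0 := by
  obtain ⟨w, hw, hm0w, hwr⟩ := K7_root A hpd j hone hmul hm0 hker hb
  obtain ⟨m', φ, hφ, hne⟩ := K7_poin_ne A hpd j hbd hb hw hwr
  have h1 : m' + 2 ≤ w * (m' + 2) := Nat.le_mul_of_pos_left _ hw
  have h2 : m0 ∣ w * (m' + 2) := hm0w.mul_right _
  refine ⟨w * (m' + 2), by omega,
    fun b => ∑' q : Γ ⧸ kerN A, φ (A.β q.out b) * j q.out b ^ (w * (m' + 2)), ?_, ?_, ?_⟩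
  · exact K7_holo A hpd j hj hbd hφ (by omega)
  · intro γ x hx
    exact K7_trans A j hmul hker h2 φ γ hx
  · exact hne _ (by omega) (Dvd.intro _ rfl)

end Pool.Agent.H.MP_e23cd6_ag.AK
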