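import Pool.Agent.H.MP_e23cd6_ag.AK.K6a
import Pool.Agent.H.MP_e23cd6_ag.AK.K6b
import Pool.Agent.H.MP_e23cd6_ag.AK.K7
import Pool.Agent.H.MP_e23cd6_ag.AK.La
import Pool.Agent.H.MP_e23cd6_ag.AK.Av4

/-!
ABUK I8: global generation by invariant forms (part III of the proof).

`WtF A m F`: `F (β γ b) (Jac γ b * det L γ b)^m = F b`.

`exists_form_fib`. Λ from `exists_lat`, the FKM from `exists_fkm`, P from `exists_P`, p from `exists_p` (for the underlying FMet). `j γ b = Jac γ b * (A.L γ b).det * p b / p (β γ b)`: holomorphic on D (Jac: `I4_Jdiff`; det of the holomorphic `A.L γ`: finite sum of products of entries, `Matrix.det_apply` with `LinearMap.det_toMatrix'`;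
p ∘ β γ holomorphic without zeros), cocycle (`Jac_mul`, `A.L_mul` and multiplicativity of det, the p-quotients telescope), `j 1 b = 1`. Bound: `‖j γ b‖ = ‖Jac γ b‖ ‖det L γ b * p b‖/‖p (β γ b)‖ ≤ C ‖Jac γ b‖` by `exists_p`. For γ ∈ kerN: β γ b = b, Jac γ b = 1 (`I4_ker`), so `j γ b = det L γ b`, and `(L γ b)^m0 = L (γ^m0) b = 1` (ker_L_mul, induction;
γ^m0 ∈ trN), so `j γ b ^ m0 = det (L γ b ^ m0) = 1`. `poin_gen` at b gives m, G; `F x = G x / p x ^ m`: `F (β γ x) (Jac * det L)^m = G (β γ x) j^m / p(x)^m = G x / p x^m`. F b ≠ 0.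

`glob_gen_fib`: as `glob_gen` in AB/I6.lean (copy): K = `Prod.fst '' K0` for K0 ⊆ TM from A.cc; cover by finitely many nonvanishing sets, powers (`wt_powF`), `det L γ b ≠ 0` (`A.L_inv_mul`: L γ b is invertible), `Jac_ne`.
-/

open Set Filter Topology Metric

namespace Pool.Agent.H.MP_e23cd6_ag.AK

open Pool.Agent.H.MP_e23cd6_ag.AB

variable {n kk : ℕ} {Ω : Dom n} {Γ : Type} [Group Γ]

/-- weight m forms on the base -/
def WtF (A : FibAct Ω kk Γ) (m : ℕ) (F : E n → ℂ) : Prop :=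
  DifferentiableOn ℂ F Ω.D ∧ ∀ γ, ∀ b ∈ Ω.D,
    F (A.β γ b) * (Jac A.toBaseAct γ b * (A.L γ b).det) ^ m = F b

theorem I8_det_mul {kk : ℕ} (X Y : E kk →L[ℂ] E kk) : (X * Y).det = X.det * Y.det :=
  LinearMap.det_comp _ _

theorem I8_det_one {kk : ℕ} : (1 : E kk →L[ℂ] E kk).det = 1 := LinearMap.det_id

theorem det_L_ne (A : FibAct Ω kk Γ) (γ : Γ) {b : E n} (hb : b ∈ Ω.D) : (A.L γ b).det ≠ 0 := by
  have h1 := congrArg ContinuousLinearMap.det (A.L_inv_mul γ hb)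
  rw [I8_det_mul, I8_det_one] at h1
  exact right_ne_zero_of_mul (h1 ▸ one_ne_zero)

theorem wt_powF (A : FibAct Ω kk Γ) {m : ℕ} {F : E n → ℂ} (hF : WtF A m F) (j : ℕ) :
    WtF A (m * j) (fun b => F b ^ j) := by
  refine ⟨hF.1.pow j, fun γ b hb => ?_⟩
  rw [pow_mul, ← mul_pow, hF.2 γ b hb]

theorem I8_Ldiff (A : FibAct Ω kk Γ) (γ : Γ) :
    DifferentiableOn ℂ (fun b => (A.L γ b).det) Ω.D := by
  have h2 : (fun b => (A.L γ b).det) =
      fun b => ∑ σ : Equiv.Perm (Fin kk), (Equiv.Perm.sign σ : ℤ) •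
      ∏ i, (A.L γ b) (Pi.single i 1) (σ i) := by
    funext b
    have h3 : (A.L γ b).det
        = (LinearMap.toMatrix' ((A.L γ b) : E kk →ₗ[ℂ] E kk)).det :=
      (LinearMap.det_toMatrix' _).symm
    rw [h3, Matrix.det_apply]
    refine Finset.sum_congr rfl fun σ _ => ?_
    congr 1
  rw [h2]
  have h4 : ∀ i j : Fin kk, DifferentiableOn ℂ
      (fun b => (A.L γ b) (Pi.single i 1) j) Ω.D := by
    intro i j
    have h5 : DifferentiableOn ℂ (fun b => (A.L γ b) (Pi.single i 1)) Ω.D :=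
      (A.L_holo γ).clm_apply (differentiableOn_const _)
    exact (differentiableOn_pi.mp h5) j
  refine DifferentiableOn.fun_sum fun σ _ => ?_
  refine DifferentiableOn.const_smul ?_ _
  exact I4_prod Finset.univ fun i _ => h4 i (σ i)

theorem I8_div {f g : E n → ℂ} {U : Set (E n)} (hf : DifferentiableOn ℂ f U)
    (hg : DifferentiableOn ℂ g U) (h0 : ∀ x ∈ U, g x ≠ 0) :
    DifferentiableOn ℂ (fun x => f x / g x) U := by
  refine (hf.mul (hg.inv h0)).congr fun x _ => ?_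
  exact div_eq_mul_inv _ _

theorem I8_ker_pow (A : FibAct Ω kk Γ) {γ : Γ} (hγ : γ ∈ kerN A.toBaseAct) {b : E n}
    (hb : b ∈ Ω.D) (k : ℕ) : (A.L (γ ^ k) b).det = (A.L γ b).det ^ k := by
  induction k with
  | zero => rw [pow_zero, pow_zero, A.L_one hb, I8_det_one]
  | succ k ih => rw [pow_succ, ker_L_mul hγ hb, I8_det_mul, ih, pow_succ]

theorem exists_form_fib (A : FibAct Ω kk Γ) (hpd : BasePD A.toBaseAct) (hcc : TrCC A)
    {m0 : ℕ} (hm0 : 0 < m0) (hker : ∀ γ ∈ kerN A.toBaseAct, γ ^ m0 ∈ trN A)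
    (h : KMet (TM Ω kk)) (hinv : InvMet A.toTotAct h) {b : E n} (hb : b ∈ Ω.D) :
    ∃ m : ℕ, 0 < m ∧ ∃ F, WtF A m F ∧ F b ≠ 0 := by
  obtain ⟨Λ⟩ := exists_lat A hcc
  obtain ⟨M⟩ := exists_fkm Λ h hinv
  obtain ⟨P, hP, hPi⟩ := exists_P Λ M
  obtain ⟨p, hp, hp0, hpb⟩ := exists_p M.toFMet hP hPi
  haveI := countable_tot A.toTotAct
  have hpβ : ∀ γ, DifferentiableOn ℂ (fun b => p (A.β γ b)) Ω.D := fun γ =>
    hp.comp (A.holo γ) (A.maps γ)
  suffices hs : ∃ m : ℕ, 0 < m ∧ ∃ G : E n → ℂ, DifferentiableOn ℂ G Ω.D ∧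
      (∀ γ, ∀ x ∈ Ω.D, G (A.β γ x) * (Jac A.toBaseAct γ x * (A.L γ x).det *
        (p x / p (A.β γ x))) ^ m = G x) ∧ G b ≠ 0 by
    obtain ⟨m, hm, G, hG, hGt, hGb⟩ := hs
    refine ⟨m, hm, fun x => G x / p x ^ m, ⟨?_, ?_⟩, ?_⟩
    · have hpm : DifferentiableOn ℂ (fun x => p x ^ m) Ω.D := hp.pow m
      have hpm0 : ∀ x ∈ Ω.D, p x ^ m ≠ 0 := fun x hx => pow_ne_zero _ (hp0 x hx)
      exact I8_div hG hpm hpm0
    · intro γ x hx
      have h1 := hGt γ x hx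
      have h2 : p x ≠ 0 := hp0 x hx
      have h3 : p (A.β γ x) ≠ 0 := hp0 _ (A.mem γ hx)
      show G (A.β γ x) / p (A.β γ x) ^ m * (Jac A.toBaseAct γ x * (A.L γ x).det) ^ m =
        G x / p x ^ m
      rw [← h1, mul_pow (Jac A.toBaseAct γ x * (A.L γ x).det) (p x / p (A.β γ x)), div_pow]
      field_simp
    · exact div_ne_zero hGb (pow_ne_zero _ (hp0 b hb))
  refine poin_gen A.toBaseAct hpd
    (fun γ b => Jac A.toBaseAct γ b * (A.L γ b).det * (p b / p (A.β γ b))) ?_ ?_ ?_ ?_ hm0 ?_ hb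
  · intro γ
    exact ((I4_Jdiff A.toBaseAct γ).mul (I8_Ldiff A γ)).mul
      (I8_div hp (hpβ γ) fun x hx => hp0 _ (A.mem γ hx))
  · intro x hx
    show Jac A.toBaseAct 1 x * (A.L 1 x).det * (p x / p (A.β 1 x)) = 1
    rw [Jac_one A.toBaseAct hx, A.L_one hx, I8_det_one, A.one x hx, div_self (hp0 x hx)]
    ring
  · intro γ δ x hx
    show Jac A.toBaseAct (γ * δ) x * (A.L (γ * δ) x).det * (p x / p (A.β (γ * δ) x)) =
      Jac A.toBaseAct γ (A.β δ x) * (A.L γ (A.β δ x)).det *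
        (p (A.β δ x) / p (A.β γ (A.β δ x))) *
      (Jac A.toBaseAct δ x * (A.L δ x).det * (p x / p (A.β δ x)))
    rw [Jac_mul A.toBaseAct γ δ hx, A.L_mul γ δ hx, I8_det_mul, A.mul γ δ x hx]
    have h2 : p (A.β δ x) ≠ 0 := hp0 _ (A.mem δ hx)
    have h3 : p (A.β γ (A.β δ x)) ≠ 0 := hp0 _ (A.mem γ (A.mem δ hx))
    field_simp
  · intro K hK hKc
    obtain ⟨C, hC⟩ := hpb K hK hKc
    refine ⟨C, fun γ x hx => ?_⟩
    have h3 : p (A.β γ x) ≠ 0 := hp0 _ (A.mem γ (hK hx))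
    have h4 : 0 < ‖p (A.β γ x)‖ := norm_pos_iff.2 h3
    have h5 : ‖Jac A.toBaseAct γ x * (A.L γ x).det * (p x / p (A.β γ x))‖ =
        ‖(A.L γ x).det * p x‖ / ‖p (A.β γ x)‖ * ‖Jac A.toBaseAct γ x‖ := by
      rw [norm_mul, norm_mul, norm_div, norm_mul]
      ring
    show ‖Jac A.toBaseAct γ x * (A.L γ x).det * (p x / p (A.β γ x))‖ ≤
      C * ‖Jac A.toBaseAct γ x‖
    rw [h5]
    refine mul_le_mul_of_nonneg_right ?_ (norm_nonneg _)
    rw [div_le_iff₀ h4]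
    exact hC γ x hx
  · intro γ hγ x hx
    show (Jac A.toBaseAct γ x * (A.L γ x).det * (p x / p (A.β γ x))) ^ m0 = 1
    have h1 : A.β γ x = x := hγ x hx
    rw [I4_ker A.toBaseAct hγ hx, h1, div_self (hp0 x hx), one_mul, mul_one,
      ← I8_ker_pow A hγ hx, tr_L (hker γ hγ) hx, I8_det_one]

theorem glob_gen_fib (A : FibAct Ω kk Γ) (hpd : BasePD A.toBaseAct) (hcc : TrCC A)
    {m0 : ℕ} (hm0 : 0 < m0) (hker : ∀ γ ∈ kerN A.toBaseAct, γ ^ m0 ∈ trN A)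
    (h : KMet (TM Ω kk)) (hinv : InvMet A.toTotAct h) :
    ∃ m : ℕ, 0 < m ∧ ∀ b ∈ Ω.D, ∃ F, WtF A m F ∧ F b ≠ 0 := by
  classical
  obtain ⟨K0, hK0, hK0c, hcc0⟩ := A.cc
  have hK : Prod.fst '' K0 ⊆ Ω.D := by
    rintro _ ⟨x, hx, rfl⟩
    exact (hK0 hx).1
  have hKc : IsCompact (Prod.fst '' K0) := hK0c.image continuous_fst
  set K : Set (E n) := Prod.fst '' K0 with hKdef
  choose! m hm F hF hne using fun (b : E n) (hb : b ∈ Ω.D) =>
    exists_form_fib A hpd hcc hm0 hker h hinv hb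
  have hU : ∀ b ∈ K, ∃ U, U ∈ 𝓝[K] b ∧ ∀ x ∈ U, x ∈ K → F b x ≠ 0 := by
    intro b hb
    have hbD := hK hb
    have hc : ContinuousAt (F b) b :=
      ((hF b hbD).1.continuousOn.continuousAt (Ω.isOpen.mem_nhds hbD))
    have h1 : ∀ᶠ x in 𝓝 b, F b x ≠ 0 := hc.eventually_ne (hne b hbD)
    exact ⟨{x | F b x ≠ 0}, mem_nhdsWithin_of_mem_nhds h1, fun x hx _ => hx⟩
  choose! U hU1 hU2 using hU
  obtain ⟨t, htK, ht⟩ := hKc.elim_nhdsWithin_subcover U hU1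
  refine ⟨∏ i ∈ t, m i, Finset.prod_pos fun i hi => hm i (hK (htK i hi)), fun b hb => ?_⟩
  obtain ⟨γ, hγK0⟩ := hcc0 (b, 0) ⟨hb, trivial⟩
  have hγK : A.β γ b ∈ K := by
    refine ⟨_, hγK0, ?_⟩
    rw [A.fst γ (b, 0) ⟨hb, trivial⟩]
  obtain ⟨i, hit, hiU⟩ := mem_iUnion₂.mp (ht hγK)
  have hiD := hK (htK i hit)
  have hFi : F i (A.β γ b) ≠ 0 := hU2 i (htK i hit) _ hiU hγK
  obtain ⟨j, hj⟩ := Finset.dvd_prod_of_mem m hit
  refine ⟨fun x => F i x ^ j, ?_, ?_⟩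
  · rw [hj]
    exact wt_powF A (hF i hiD) j
  · have h1 := (hF i hiD).2 γ b hb
    have h2 : F i b ≠ 0 := by
      rw [← h1]
      exact mul_ne_zero hFi (pow_ne_zero _ (mul_ne_zero (Jac_ne _ _ hb) (det_L_ne A γ hb)))
    exact pow_ne_zero _ h2

end Pool.Agent.H.MP_e23cd6_ag.AK
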