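import Pool.Agent.H.MP_e23cd6_ag.AK.Defs

/-!
ABUK S1: the Jacobian determinant of a map which is affine in the fibres.
-/

open Set Filter Topology Metric
open scoped ComplexConjugate

namespace Pool.Agent.H.MP_e23cd6_ag.AK

open Pool.Agent.H.MP_e23cd6_ag.AB

variable {n kk : ℕ} {Ω : Dom n} {Γ : Type} [Group Γ]

/-- determinant of a block triangular endomorphism -/
theorem det_prod_fib (L : (E n × E kk) →ₗ[ℂ] (E n × E kk)) (P : E n →ₗ[ℂ] E n)
    (Q : E kk →ₗ[ℂ] E kk) (h1 : ∀ v w, (L (v, w)).1 = P v) (h2 : ∀ w, (L (0, w)).2 = Q w) :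
    LinearMap.det L = LinearMap.det P * LinearMap.det Q := by
  classical
  let b1 : Module.Basis (Fin n) ℂ (E n) := Pi.basisFun ℂ (Fin n)
  let b2 : Module.Basis (Fin kk) ℂ (E kk) := Pi.basisFun ℂ (Fin kk)
  rw [← LinearMap.det_toMatrix (b1.prod b2) L, ← LinearMap.det_toMatrix b1 P,
    ← LinearMap.det_toMatrix b2 Q]
  have hM : LinearMap.toMatrix (b1.prod b2) (b1.prod b2) L =
      Matrix.fromBlocks (LinearMap.toMatrix b1 b1 P) 0
        (Matrix.of fun i j => (L (b1 j, 0)).2 i) (LinearMap.toMatrix b2 b2 Q) := by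
    ext i j
    rcases i with i | i <;> rcases j with j | j
    · simp [LinearMap.toMatrix_apply, h1]
    · simp [LinearMap.toMatrix_apply, h1]
    · simp [LinearMap.toMatrix_apply, b2]
    · simp [LinearMap.toMatrix_apply, h2]
  rw [hM, Matrix.det_fromBlocks_zero₁₂]

/-- the Jacobian determinant of a map which is affine in the fibres -/
theorem det_fib (A : FibAct Ω kk Γ) (γ : Γ) {x : E n × E kk} (hx : x ∈ TM Ω kk) :
    (fderiv ℂ (A.act γ) x).det = (fderiv ℂ (A.β γ) x.1).det * (A.L γ x.1).det := by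
  obtain ⟨b, z⟩ := x
  have hb : b ∈ Ω.D := hx.1
  have hN : Ω.D ∈ 𝓝 b := Ω.isOpen.mem_nhds hb
  have dβ : HasFDerivAt (A.β γ) (fderiv ℂ (A.β γ) b) b :=
    ((A.holo γ).differentiableAt hN).hasFDerivAt
  have dL : HasFDerivAt (A.L γ) (fderiv ℂ (A.L γ) b) b :=
    ((A.L_holo γ).differentiableAt hN).hasFDerivAt
  have dc : HasFDerivAt (A.c γ) (fderiv ℂ (A.c γ) b) b :=
    ((A.c_holo γ).differentiableAt hN).hasFDerivAt
  have hfst : HasFDerivAt (fun x : E n × E kk => x.1)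
      (ContinuousLinearMap.fst ℂ (E n) (E kk)) (b, z) := hasFDerivAt_fst
  have hsnd : HasFDerivAt (fun x : E n × E kk => x.2)
      (ContinuousLinearMap.snd ℂ (E n) (E kk)) (b, z) := hasFDerivAt_snd
  have dβ' : HasFDerivAt (fun x : E n × E kk => A.β γ x.1)
      ((fderiv ℂ (A.β γ) b).comp (ContinuousLinearMap.fst ℂ (E n) (E kk))) (b, z) :=
    HasFDerivAt.comp (b, z) (g := A.β γ) (f := fun x : E n × E kk => x.1) dβ hfst
  have dL' : HasFDerivAt (fun x : E n × E kk => A.L γ x.1)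
      ((fderiv ℂ (A.L γ) b).comp (ContinuousLinearMap.fst ℂ (E n) (E kk))) (b, z) :=
    HasFDerivAt.comp (b, z) (g := A.L γ) (f := fun x : E n × E kk => x.1) dL hfst
  have dc' : HasFDerivAt (fun x : E n × E kk => A.c γ x.1)
      ((fderiv ℂ (A.c γ) b).comp (ContinuousLinearMap.fst ℂ (E n) (E kk))) (b, z) :=
    HasFDerivAt.comp (b, z) (g := A.c γ) (f := fun x : E n × E kk => x.1) dc hfst
  have d2 := (dL'.clm_apply hsnd).add dc'
  have d3 := dβ'.prodMk d2
  have hev : A.act γ =ᶠ[𝓝 (b, z)]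
      fun x : E n × E kk => (A.β γ x.1, A.L γ x.1 x.2 + A.c γ x.1) := by
    filter_upwards [(TM_open Ω kk).mem_nhds hx] with x hx'
    exact A.act_eq γ x.1 hx'.1 x.2
  have d4 := d3.congr_of_eventuallyEq hev
  rw [d4.fderiv]
  refine det_prod_fib _ _ _ ?_ ?_
  · intro v w
    rfl
  · intro w
    simp

end Pool.Agent.H.MP_e23cd6_ag.AK
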