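import Pool.Agent.H.MP_e23cd6_ag.AK.Defs2

/-!
ABUK Av1a: integrals over the unit cube depending on parameters.

`param_int`. Choose r > 0 with `closedBall y r ⊆ U` (compact); F' is bounded by a constant C on the compact set `closedBall y r ×ˢ Icc 0 1`. Apply `hasFDerivAt_integral_of_dominated_of_fderiv_le` with `μ = volume.restrict (Icc 0 1)` (a finite measure), the ball `ball y r`, bound = the constant C;
measurability of `F y'` and `F' y`: continuous on the measurable set `Icc 0 1` (`ContinuousOn.aestronglyMeasurable`), integrability of `F y`: continuous on a compact set (`ContinuousOn.integrableOn_compact`).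

-/

open Set Filter Topology Metric MeasureTheory

namespace Pool.Agent.H.MP_e23cd6_ag.AK

open Pool.Agent.H.MP_e23cd6_ag.AB

theorem param_int {V : Type} [NormedAddCommGroup V] [NormedSpace ℝ V] [FiniteDimensional ℝ V]
    {U : Set V} (hU : IsOpen U) {m : ℕ} {F : V → (Fin m → ℝ) → ℂ}
    {F' : V → (Fin m → ℝ) → (V →L[ℝ] ℂ)}
    (hF : ContinuousOn (fun q : V × (Fin m → ℝ) => F q.1 q.2) (U ×ˢ univ))
    (hF' : ContinuousOn (fun q : V × (Fin m → ℝ) => F' q.1 q.2) (U ×ˢ univ))
    (hd : ∀ y ∈ U, ∀ x, HasFDerivAt (fun y => F y x) (F' y x) y) {y : V} (hy : y ∈ U) :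
    HasFDerivAt (fun y => ∫ x in Icc (0 : Fin m → ℝ) 1, F y x)
      (∫ x in Icc (0 : Fin m → ℝ) 1, F' y x) y := by
  obtain ⟨r, hr, hrU⟩ := Metric.nhds_basis_closedBall.mem_iff.1 (hU.mem_nhds hy)
  have hK : IsCompact (closedBall y r ×ˢ Icc (0 : Fin m → ℝ) 1) :=
    (isCompact_closedBall y r).prod isCompact_Icc
  obtain ⟨C, hC⟩ := hK.exists_bound_of_continuousOn
    (hF'.mono (prod_mono hrU (subset_univ _)))
  have hsl : ∀ z ∈ U, ContinuousOn (F z) (Icc (0 : Fin m → ℝ) 1) := fun z hz =>
    hF.comp (continuous_const.prodMk continuous_id).continuousOn fun x _ => ⟨hz, mem_univ _⟩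
  have hsl' : ContinuousOn (F' y) (Icc (0 : Fin m → ℝ) 1) :=
    hF'.comp (continuous_const.prodMk continuous_id).continuousOn fun x _ => ⟨hy, mem_univ _⟩
  refine hasFDerivAt_integral_of_dominated_of_fderiv_le (bound := fun _ => C)
    (ball_mem_nhds y hr) ?_ ?_ ?_ ?_ ?_ ?_
  · filter_upwards [hU.mem_nhds hy] with z hz
    exact (hsl z hz).aestronglyMeasurable measurableSet_Icc
  · exact (hsl y hy).integrableOn_compact isCompact_Icc
  · exact hsl'.aestronglyMeasurable measurableSet_Icc
  · rw [ae_restrict_iff' measurableSet_Icc]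
    refine ae_of_all _ fun x hx z hz => hC (z, x) ⟨ball_subset_closedBall hz, hx⟩
  · exact (continuousOn_const (c := C)).integrableOn_compact isCompact_Icc
  · exact ae_of_all _ fun x z hz => hd z (hrU (ball_subset_closedBall hz)) x

end Pool.Agent.H.MP_e23cd6_ag.AK
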