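import Pool.Agent.H.MP_e23cd6_ag.AK.Defs2

/-!
ABUK Av1b: integrals of periodic functions over the unit cube.

`per_int`. `F : (Fin m → ℝ) → ℂ` continuous and periodic in each coordinate (`F (x + Pi.single i 1) = F x`), hence `F (x + v) = F x` for every v with integer coordinates. Let N be an integer matrix with an integer inverse N' and y a vector: `∫_{[0,1]^m} F (N x + y) dx = ∫_{[0,1]^m} F x dx`.
Proof. Let e be the standard basis, `b` the basis of the columns of N (invertible). `span ℤ (range b) = span ℤ (range e) =: Z` (N, N' integer). `ZSpan.isAddFundamentalDomain e volume`, `... b volume`: both fundamental domains for Z (rewrite along the equality of the submodules; as AddSubgroup), and translates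
of fundamental domains are fundamental domains. `IsAddFundamentalDomain.setIntegral_eq`: a Z-invariant function has the same integral over `FD(e)`, `FD(b) + y`. `FD(b) + y` is the image of `FD(e)` under `x ↦ N x + y`, which has Jacobian `|det N| = 1` (det N is an integer dividing 1): change of variables
(`MeasureTheory.integral_image_eq_integral_abs_det_fderiv_smul` or `Real.map_matrix_volume_pi_eq_smul_volume_pi`). Finally `FD(e)` = the half open cube, which differs from Icc 0 1 by a null set (`ZSpan.fundamentalDomain_pi_basisFun : fundamentalDomain (Pi.basisFun ℝ ι) = Set.pi univ fun _ => Ico 0 1`,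
`MeasureTheory.Measure.univ_pi_Ico_ae_eq_Icc`).
(Alternative for the translation part: Fubini and `Function.Periodic.intervalIntegral_add_eq`.)
-/

open Set Filter Topology Metric MeasureTheory

namespace Pool.Agent.H.MP_e23cd6_ag.AK

open Pool.Agent.H.MP_e23cd6_ag.AB

/-- integer vectors preserve a periodic function -/
theorem Av1b_per {m : ℕ} {F : (Fin m → ℝ) → ℂ} (hper : ∀ i x, F (x + Pi.single i 1) = F x)
    {v : Fin m → ℝ} (hv : v ∈ Submodule.span ℤ (Set.range (Pi.basisFun ℝ (Fin m)))) :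
    ∀ x, F (v + x) = F x := by
  let P : AddSubgroup (Fin m → ℝ) :=
    { carrier := {v | ∀ x, F (v + x) = F x}
      zero_mem' := fun x => by rw [zero_add]
      add_mem' := fun {a b} ha hb x => by rw [add_assoc, ha, hb]
      neg_mem' := fun {a} ha x => by rw [← ha (-a + x), add_neg_cancel_left] }
  have h : Submodule.span ℤ (Set.range (Pi.basisFun ℝ (Fin m))) ≤ AddSubgroup.toIntSubmodule P := by
    rw [Submodule.span_le]
    rintro _ ⟨i, rfl⟩
    show ∀ x, F (Pi.basisFun ℝ (Fin m) i + x) = F x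
    intro x
    rw [Pi.basisFun_apply, add_comm, hper]
  exact h hv

theorem Av1b_mem {m : ℕ} (v : Fin m → ℝ) :
    v ∈ Submodule.span ℤ (Set.range (Pi.basisFun ℝ (Fin m))) ↔ ∀ i, ∃ z : ℤ, (z : ℝ) = v i := by
  rw [Module.Basis.mem_span_iff_repr_mem]
  simp

theorem Av1b_mul {m : ℕ} (N : Matrix (Fin m) (Fin m) ℤ) {v : Fin m → ℝ}
    (hv : v ∈ Submodule.span ℤ (Set.range (Pi.basisFun ℝ (Fin m)))) :
    (N.map (Int.cast : ℤ → ℝ)).mulVec v ∈ Submodule.span ℤ (Set.range (Pi.basisFun ℝ (Fin m))) := by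
  rw [Av1b_mem] at hv ⊢
  choose z hz using hv
  intro i
  refine ⟨∑ j, N i j * z j, ?_⟩
  rw [Matrix.mulVec, dotProduct]
  push_cast
  exact Finset.sum_congr rfl fun j _ => by rw [hz j]; rfl

theorem Av1b_inv {m : ℕ} {N N' : Matrix (Fin m) (Fin m) ℤ} (h : N * N' = 1) (v : Fin m → ℝ) :
    (N.map (Int.cast : ℤ → ℝ)).mulVec ((N'.map (Int.cast : ℤ → ℝ)).mulVec v) = v := by
  have e : (N.map (Int.cast : ℤ → ℝ)) * (N'.map (Int.cast : ℤ → ℝ)) = 1 := by
    have := congrArg (fun M : Matrix (Fin m) (Fin m) ℤ => M.map (Int.castRingHom ℝ)) h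
    simp only [Matrix.map_mul] at this
    rw [Matrix.map_one _ (map_zero _) (map_one _)] at this
    exact this
  rw [Matrix.mulVec_mulVec, e, Matrix.one_mulVec]

theorem Av1b_mp {m : ℕ} {N N' : Matrix (Fin m) (Fin m) ℤ} (h : N * N' = 1) (y : Fin m → ℝ) :
    MeasurePreserving (fun x : Fin m → ℝ => (N.map (Int.cast : ℤ → ℝ)).mulVec x + y) := by
  have hd : N.det * N'.det = 1 := by rw [← Matrix.det_mul, h, Matrix.det_one]
  have hd1 : |(N.map (Int.cast : ℤ → ℝ)).det| = 1 := by
    have e : (N.map (Int.cast : ℤ → ℝ)).det = ((N.det : ℤ) : ℝ) := by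
      exact (RingHom.map_det (Int.castRingHom ℝ) N).symm
    rw [e]
    rcases Int.isUnit_iff.1 (IsUnit.of_mul_eq_one _ hd) with h1 | h1 <;> rw [h1] <;> simp
  have h0 : (N.map (Int.cast : ℤ → ℝ)).det ≠ 0 := by
    intro h; rw [h] at hd1; simp at hd1
  have h1 : MeasurePreserving (Matrix.toLin' (N.map (Int.cast : ℤ → ℝ)))
      (volume : Measure (Fin m → ℝ)) volume := by
    refine ⟨(LinearMap.continuous_of_finiteDimensional _).measurable, ?_⟩
    rw [Real.map_matrix_volume_pi_eq_smul_volume_pi h0, abs_inv, hd1]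
    simp
  have h2 : MeasurePreserving (fun x : Fin m → ℝ => x + y) volume volume :=
    measurePreserving_add_right volume y
  exact h2.comp h1

theorem per_int {m : ℕ} {F : (Fin m → ℝ) → ℂ} (hF : Continuous F)
    (hper : ∀ i x, F (x + Pi.single i 1) = F x) (N N' : Matrix (Fin m) (Fin m) ℤ)
    (hN : N * N' = 1) (hN' : N' * N = 1) (y : Fin m → ℝ) :
    ∫ x in Icc (0 : Fin m → ℝ) 1, F ((N.map (Int.cast : ℤ → ℝ)).mulVec x + y) =
      ∫ x in Icc (0 : Fin m → ℝ) 1, F x := by
  set Z := Submodule.span ℤ (Set.range (Pi.basisFun ℝ (Fin m))) with hZ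
  set T : (Fin m → ℝ) → (Fin m → ℝ) := fun x => (N.map (Int.cast : ℤ → ℝ)).mulVec x + y with hT
  have hcube : ∀ G : (Fin m → ℝ) → ℂ, ∫ x in Icc (0 : Fin m → ℝ) 1, G x =
      ∫ x in ZSpan.fundamentalDomain (Pi.basisFun ℝ (Fin m)), G x := by
    intro G
    refine setIntegral_congr_set ?_
    rw [ZSpan.fundamentalDomain_pi_basisFun]
    have := Measure.univ_pi_Ico_ae_eq_Icc (μ := fun _ : Fin m => (volume : Measure ℝ))
      (f := fun _ => (0 : ℝ)) (g := fun _ => (1 : ℝ))
    exact this.symm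
  have hmp : MeasurePreserving T volume volume := Av1b_mp hN y
  have hfd := ZSpan.isAddFundamentalDomain (Pi.basisFun ℝ (Fin m)) volume
  -- the action of the inverse matrix on the lattice
  let e : Z ≃ Z :=
    { toFun := fun g => ⟨(N'.map (Int.cast : ℤ → ℝ)).mulVec g, Av1b_mul N' g.2⟩
      invFun := fun g => ⟨(N.map (Int.cast : ℤ → ℝ)).mulVec g, Av1b_mul N g.2⟩
      left_inv := fun g => Subtype.ext (Av1b_inv hN _)
      right_inv := fun g => Subtype.ext (Av1b_inv hN' _) }
  have hsemi : ∀ g : Z, Function.Semiconj T (e g +ᵥ ·) (g +ᵥ ·) := by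
    intro g x
    show (N.map (Int.cast : ℤ → ℝ)).mulVec
      ((N'.map (Int.cast : ℤ → ℝ)).mulVec (g : Fin m → ℝ) + x) + y =
      (g : Fin m → ℝ) + ((N.map (Int.cast : ℤ → ℝ)).mulVec x + y)
    rw [Matrix.mulVec_add, Av1b_inv hN, add_assoc]
  have hfd' : IsAddFundamentalDomain Z
      (T ⁻¹' ZSpan.fundamentalDomain (Pi.basisFun ℝ (Fin m))) volume :=
    hfd.preimage_of_equiv hmp.quasiMeasurePreserving e.bijective hsemi
  have hinv : ∀ (g : Z) (x : Fin m → ℝ), F (T (g +ᵥ x)) = F (T x) := by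
    intro g x
    have h1 : T (g +ᵥ x) = (N.map (Int.cast : ℤ → ℝ)).mulVec (g : Fin m → ℝ) + T x := by
      show (N.map (Int.cast : ℤ → ℝ)).mulVec ((g : Fin m → ℝ) + x) + y = _
      rw [Matrix.mulVec_add, add_assoc]
    rw [h1]
    exact Av1b_per hper (Av1b_mul N g.2) _
  have : VAddInvariantMeasure Z (Fin m → ℝ) volume :=
    inferInstanceAs <| VAddInvariantMeasure Z.toAddSubgroup (Fin m → ℝ) volume
  rw [hcube, hcube]
  have h1 := hfd.setIntegral_eq hfd' (f := fun x => F (T x)) hinv
  have hTm : MeasurableEmbedding T := by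
    have hc : Continuous T := by
      exact ((Matrix.toLin' (N.map (Int.cast : ℤ → ℝ))).continuous_of_finiteDimensional).add
        continuous_const
    refine hc.measurableEmbedding ?_
    intro a b hab
    have h2 : (N.map (Int.cast : ℤ → ℝ)).mulVec a = (N.map (Int.cast : ℤ → ℝ)).mulVec b :=
      add_right_cancel hab
    have h3 := congrArg (N'.map (Int.cast : ℤ → ℝ)).mulVec h2
    rwa [Av1b_inv hN', Av1b_inv hN'] at h3
  have h2 := hmp.setIntegral_preimage_emb hTm F
    (ZSpan.fundamentalDomain (Pi.basisFun ℝ (Fin m)))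
  exact h1.trans h2

end Pool.Agent.H.MP_e23cd6_ag.AK
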