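import Pool.Agent.H.MP_e23cd6_ag.AB.A6
import Pool.Agent.H.MP_e23cd6_ag.AK.Av1a

/-!
ABUK Av2: derivatives of fibre averages.

`Λ.pt b x = Σ x_i c_i(b)`, `Λ.dpt b u x = Σ x_i Dc_i(b) u` (AK/Defs2), `f` of class C¹ on TM, ρ continuous.
The derivative of `avg` is computed by `param_int`, `avg_dz` and `avg_dzb` follow from `avg_deriv`
for `(u,v)` and `(I u, I v)`.
-/

open Set Filter Topology Metric MeasureTheory
open scoped ContDiff

namespace Pool.Agent.H.MP_e23cd6_ag.AK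

open Pool.Agent.H.MP_e23cd6_ag.AB

variable {n kk : ℕ} {Ω : Dom n} {Γ : Type} [Group Γ] {A : FibAct Ω kk Γ}

/-- the average of `ρ f` over the fibre torus -/
noncomputable def avg (Λ : Lat A) (ρ : (Fin (2 * kk) → ℝ) → ℂ) (f : E n × E kk → ℂ)
    (y : E n × E kk) : ℂ :=
  ∫ x in Icc (0 : Fin (2 * kk) → ℝ) 1, ρ x * f (y.1, y.2 + Λ.pt y.1 x)

/-- the moved point -/
noncomputable def mvp (Λ : Lat A) (y : E n × E kk) (x : Fin (2 * kk) → ℝ) : E n × E kk :=
  (y.1, y.2 + Λ.pt y.1 x)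

/-- the derivative of the moved point -/
noncomputable def mvd (Λ : Lat A) (y : E n × E kk) (x : Fin (2 * kk) → ℝ) :
    E n × E kk →L[ℝ] E n × E kk :=
  (ContinuousLinearMap.fst ℝ (E n) (E kk)).prod
    (ContinuousLinearMap.snd ℝ (E n) (E kk) + (∑ i, x i •
      ((fderiv ℂ (A.c (Λ.t i)) y.1).restrictScalars ℝ)).comp (ContinuousLinearMap.fst ℝ (E n) (E kk)))

theorem mvd_apply (Λ : Lat A) (y : E n × E kk) (x : Fin (2 * kk) → ℝ) (w : E n × E kk) :
    mvd Λ y x w = (w.1, w.2 + Λ.dpt y.1 w.1 x) := by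
  simp only [mvd, Lat.dpt, ContinuousLinearMap.prod_apply, add_apply,
    ContinuousLinearMap.comp_apply, sum_apply, smul_apply,
    ContinuousLinearMap.coe_fst', ContinuousLinearMap.coe_snd',
    ContinuousLinearMap.coe_restrictScalars']

theorem mvp_hasFDerivAt (Λ : Lat A) {y : E n × E kk} (hy : y ∈ TM Ω kk)
    (x : Fin (2 * kk) → ℝ) : HasFDerivAt (fun y => mvp Λ y x) (mvd Λ y x) y := by
  have hb : y.1 ∈ Ω.D := hy.1
  refine HasFDerivAt.prodMk hasFDerivAt_fst ?_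
  refine HasFDerivAt.add hasFDerivAt_snd ?_
  have h1 : HasFDerivAt (fun b => Λ.pt b x)
      (∑ i, x i • ((fderiv ℂ (A.c (Λ.t i)) y.1).restrictScalars ℝ)) y.1 := by
    unfold Lat.pt
    refine HasFDerivAt.fun_sum fun i _ => ?_
    have h2 : HasFDerivAt (A.c (Λ.t i)) (fderiv ℂ (A.c (Λ.t i)) y.1) y.1 :=
      ((A.c_holo (Λ.t i)).differentiableAt (Ω.isOpen.mem_nhds hb)).hasFDerivAt
    exact (h2.restrictScalars ℝ).const_smul (x i)
  exact h1.comp y hasFDerivAt_fst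

theorem mvp_mem (Λ : Lat A) {y : E n × E kk} (hy : y ∈ TM Ω kk) (x : Fin (2 * kk) → ℝ) :
    mvp Λ y x ∈ TM Ω kk := ⟨hy.1, trivial⟩

theorem mvp_cont (Λ : Lat A) : ContinuousOn
    (fun q : (E n × E kk) × (Fin (2 * kk) → ℝ) => mvp Λ q.1 q.2) (TM Ω kk ×ˢ univ) := by
  refine ContinuousOn.prodMk (continuous_fst.comp continuous_fst).continuousOn ?_
  refine ContinuousOn.add (continuous_snd.comp continuous_fst).continuousOn ?_
  show ContinuousOn (fun q : (E n × E kk) × (Fin (2 * kk) → ℝ) =>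
    ∑ i, q.2 i • A.c (Λ.t i) q.1.1) _
  refine continuousOn_finsetSum _ fun i _ => ?_
  refine ContinuousOn.smul ((continuous_apply i).comp continuous_snd).continuousOn ?_
  exact (A.c_holo (Λ.t i)).continuousOn.comp (continuous_fst.comp continuous_fst).continuousOn
    fun q hq => hq.1.1

theorem mvd_cont (Λ : Lat A) (w : E n × E kk) : ContinuousOn
    (fun q : (E n × E kk) × (Fin (2 * kk) → ℝ) => mvd Λ q.1 q.2 w) (TM Ω kk ×ˢ univ) := by
  simp only [mvd_apply]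
  refine ContinuousOn.prodMk continuousOn_const (ContinuousOn.add continuousOn_const ?_)
  show ContinuousOn (fun q : (E n × E kk) × (Fin (2 * kk) → ℝ) =>
    ∑ i, q.2 i • fderiv ℂ (A.c (Λ.t i)) q.1.1 w.1) _
  refine continuousOn_finsetSum _ fun i _ => ?_
  refine ContinuousOn.smul ((continuous_apply i).comp continuous_snd).continuousOn ?_
  refine ContinuousOn.clm_apply ?_ continuousOn_const
  exact (holo_fderiv Ω.isOpen (A.c_holo (Λ.t i))).continuousOn.comp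
    (continuous_fst.comp continuous_fst).continuousOn fun q hq => hq.1.1

theorem fder_cont {f : E n × E kk → ℂ} (hf : ContDiffOn ℝ 1 f (TM Ω kk)) :
    ContinuousOn (fderiv ℝ f) (TM Ω kk) :=
  hf.continuousOn_fderiv_of_isOpen (TM_open Ω kk) le_rfl

theorem integrand_cont (Λ : Lat A) {ρ : (Fin (2 * kk) → ℝ) → ℂ} (hρ : Continuous ρ)
    {f : E n × E kk → ℂ} (hf : ContDiffOn ℝ 1 f (TM Ω kk)) (w : E n × E kk) : ContinuousOn
    (fun q : (E n × E kk) × (Fin (2 * kk) → ℝ) =>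
      ρ q.2 * fderiv ℝ f (mvp Λ q.1 q.2) (mvd Λ q.1 q.2 w)) (TM Ω kk ×ˢ univ) := by
  refine ContinuousOn.mul (hρ.comp continuous_snd).continuousOn ?_
  refine ContinuousOn.clm_apply ?_ (mvd_cont Λ w)
  exact (fder_cont hf).comp (mvp_cont Λ) fun q hq => mvp_mem Λ hq.1 q.2

theorem integrand_int (Λ : Lat A) {ρ : (Fin (2 * kk) → ℝ) → ℂ} (hρ : Continuous ρ)
    {f : E n × E kk → ℂ} (hf : ContDiffOn ℝ 1 f (TM Ω kk)) {y : E n × E kk} (hy : y ∈ TM Ω kk)
    (w : E n × E kk) : IntegrableOn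
    (fun x : Fin (2 * kk) → ℝ => ρ x * fderiv ℝ f (mvp Λ y x) (mvd Λ y x w)) (Icc 0 1) := by
  refine ContinuousOn.integrableOn_compact isCompact_Icc ?_
  exact (integrand_cont Λ hρ hf w).comp
    (f := fun x : Fin (2 * kk) → ℝ => (y, x)) (by fun_prop) fun x _ => ⟨hy, trivial⟩

theorem avg_deriv (Λ : Lat A) {ρ : (Fin (2 * kk) → ℝ) → ℂ} (hρ : Continuous ρ)
    {f : E n × E kk → ℂ} (hf : ContDiffOn ℝ 1 f (TM Ω kk)) {b : E n} (hb : b ∈ Ω.D) (z : E kk) :
    ∃ D : E n × E kk →L[ℝ] ℂ, HasFDerivAt (avg Λ ρ f) D (b, z) ∧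
      ∀ u v, D (u, v) = ∫ x in Icc (0 : Fin (2 * kk) → ℝ) 1,
        ρ x * fderiv ℝ f (b, z + Λ.pt b x) (u, v + Λ.dpt b u x) := by
  have hy : ((b, z) : E n × E kk) ∈ TM Ω kk := ⟨hb, trivial⟩
  set F' : E n × E kk → (Fin (2 * kk) → ℝ) → (E n × E kk →L[ℝ] ℂ) := fun y x =>
    ρ x • (fderiv ℝ f (mvp Λ y x)).comp (mvd Λ y x) with hF'
  have hF'a : ∀ y x w, F' y x w = ρ x * fderiv ℝ f (mvp Λ y x) (mvd Λ y x w) := fun y x w => rfl
  have hF'c : ContinuousOn (fun q : (E n × E kk) × (Fin (2 * kk) → ℝ) => F' q.1 q.2)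
      (TM Ω kk ×ˢ univ) := by
    rw [continuousOn_clm_apply]
    intro w
    exact integrand_cont Λ hρ hf w
  have h1 := param_int (TM_open Ω kk) (F := fun y x => ρ x * f (mvp Λ y x)) (F' := F')
    (by
      refine ContinuousOn.mul (hρ.comp continuous_snd).continuousOn ?_
      exact hf.continuousOn.comp (mvp_cont Λ) fun q hq => mvp_mem Λ hq.1 q.2) hF'c
    (by
      intro y hy x
      have h2 : HasFDerivAt f (fderiv ℝ f (mvp Λ y x)) (mvp Λ y x) :=
        ((hf.differentiableOn one_ne_zero).differentiableAt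
          ((TM_open Ω kk).mem_nhds (mvp_mem Λ hy x))).hasFDerivAt
      exact (h2.comp y (mvp_hasFDerivAt Λ hy x)).const_mul (ρ x)) hy
  refine ⟨_, h1, fun u v => ?_⟩
  rw [ContinuousLinearMap.integral_apply]
  · refine integral_congr_ae (Filter.Eventually.of_forall fun x => ?_)
    show F' (b, z) x (u, v) = _
    rw [hF'a, mvd_apply]
    rfl
  · refine ContinuousOn.integrableOn_compact isCompact_Icc ?_
    exact hF'c.comp (f := fun x : Fin (2 * kk) → ℝ => ((b, z), x)) (by fun_prop)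
      fun x _ => ⟨hy, trivial⟩

theorem dpt_I (Λ : Lat A) (b u : E n) (x : Fin (2 * kk) → ℝ) :
    Λ.dpt b (Complex.I • u) x = Complex.I • Λ.dpt b u x := by
  unfold Lat.dpt
  rw [Finset.smul_sum]
  refine Finset.sum_congr rfl fun i _ => ?_
  rw [map_smul, smul_comm]

theorem avg_dz (Λ : Lat A) {ρ : (Fin (2 * kk) → ℝ) → ℂ} (hρ : Continuous ρ)
    {f : E n × E kk → ℂ} (hf : ContDiffOn ℝ 1 f (TM Ω kk)) {b : E n} (hb : b ∈ Ω.D) (z : E kk)
    (u : E n) (v : E kk) :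
    dz (avg Λ ρ f) (b, z) (u, v) = ∫ x in Icc (0 : Fin (2 * kk) → ℝ) 1,
      ρ x * dz f (b, z + Λ.pt b x) (u, v + Λ.dpt b u x) := by
  obtain ⟨D, hD, hD2⟩ := avg_deriv Λ hρ hf hb z
  have hy : ((b, z) : E n × E kk) ∈ TM Ω kk := ⟨hb, trivial⟩
  have i1 := integrand_int Λ hρ hf hy (u, v)
  have i2 := integrand_int Λ hρ hf hy (Complex.I • u, Complex.I • v)
  simp only [mvd_apply, mvp] at i1 i2
  unfold dz
  rw [hD.fderiv]
  have e1 : Complex.I • ((u, v) : E n × E kk) = (Complex.I • u, Complex.I • v) := rfl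
  rw [e1, hD2, hD2, ← integral_const_mul, ← integral_sub i1 (i2.const_mul Complex.I),
    ← integral_const_mul]
  refine integral_congr_ae (Filter.Eventually.of_forall fun x => ?_)
  have e2 : Complex.I • ((u, v + Λ.dpt b u x) : E n × E kk) =
      (Complex.I • u, Complex.I • v + Λ.dpt b (Complex.I • u) x) := by
    rw [dpt_I, ← smul_add]
    rfl
  show _ = ρ x * _
  rw [e2]
  ring

theorem avg_dzb (Λ : Lat A) {ρ : (Fin (2 * kk) → ℝ) → ℂ} (hρ : Continuous ρ)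
    {f : E n × E kk → ℂ} (hf : ContDiffOn ℝ 1 f (TM Ω kk)) {b : E n} (hb : b ∈ Ω.D) (z : E kk)
    (u : E n) (v : E kk) :
    dzb (avg Λ ρ f) (b, z) (u, v) = ∫ x in Icc (0 : Fin (2 * kk) → ℝ) 1,
      ρ x * dzb f (b, z + Λ.pt b x) (u, v + Λ.dpt b u x) := by
  obtain ⟨D, hD, hD2⟩ := avg_deriv Λ hρ hf hb z
  have hy : ((b, z) : E n × E kk) ∈ TM Ω kk := ⟨hb, trivial⟩
  have i1 := integrand_int Λ hρ hf hy (u, v)
  have i2 := integrand_int Λ hρ hf hy (Complex.I • u, Complex.I • v)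
  simp only [mvd_apply, mvp] at i1 i2
  unfold dzb
  rw [hD.fderiv]
  have e1 : Complex.I • ((u, v) : E n × E kk) = (Complex.I • u, Complex.I • v) := rfl
  rw [e1, hD2, hD2, ← integral_const_mul, ← integral_add i1 (i2.const_mul Complex.I),
    ← integral_const_mul]
  refine integral_congr_ae (Filter.Eventually.of_forall fun x => ?_)
  have e2 : Complex.I • ((u, v + Λ.dpt b u x) : E n × E kk) =
      (Complex.I • u, Complex.I • v + Λ.dpt b (Complex.I • u) x) := by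
    rw [dpt_I, ← smul_add]
    rfl
  show _ = ρ x * _
  rw [e2]
  ring

end Pool.Agent.H.MP_e23cd6_ag.AK
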