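import Pool.Agent.H.MP_e23cd6_ag.AK.Av1b
import Pool.Agent.H.MP_e23cd6_ag.AK.Av2

/-!
ABUK Av3a: the average of the vertical part of an invariant metric does not depend on the fibre coordinate.

`met_tr`: t ∈ trN, b ∈ D: `h_{(b, z + c t b)}((u, v + Dc_t(b) u), (u', v' + Dc_t(b) u')) = h_{(b,z)}((u,v),(u',v'))`: InvMet for t; `act t (x) = (x.1, x.2 + c t x.1)` on TM (tr_act), an open set, so the derivative of `act t` at (b,z) is `(u,v) ↦ (u, v + Dc_t(b) u)`.
`met_ker_ver`: for every γ: `h_{act γ (b,z)}((0, L γ b v), (0, L γ b w)) = h_{(b,z)}((0,v),(0,w))`: `act γ (x) = (β γ x.1, L γ x.1 x.2 + c γ x.1)`, so its derivative at (b,z) maps `(0,v)` to `(0, L γ b v)` (differentiate along the line `s ↦ (b, z + s v)`).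

`avgH Λ h b v w = avg Λ 1 (fun y => h.h y (0,v) (0,w)) (b, 0)`.
`avgH_const`: `avg Λ 1 (fun y => h.h y (0,v) (0,w)) (b, z)` does not depend on z. Proof: `F x = h.h (b, pt b x) (0,v) (0,w)` is continuous in x ∈ ℝ^{2kk} and periodic: `pt b (x + e_i) = pt b x + c_i(b)` and `met_tr` with u = u' = 0. `z = pt b y` for some y (Lat.basis spans), `z + pt b x = pt b (x + y)`: `per_int` with N = 1.

-/


open Set Filter Topology Metric MeasureTheory
open scoped ContDiff ComplexConjugate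

namespace Pool.Agent.H.MP_e23cd6_ag.AK

open Pool.Agent.H.MP_e23cd6_ag.AB

variable {n kk : ℕ} {Ω : Dom n} {Γ : Type} [Group Γ] {A : FibAct Ω kk Γ}

theorem met_tr (h : KMet (TM Ω kk)) (hinv : InvMet A.toTotAct h) {t : Γ} (ht : t ∈ trN A)
    {b : E n} (hb : b ∈ Ω.D) (z : E kk) (u u' : E n) (v v' : E kk) :
    h.h (b, z + A.c t b) (u, v + fderiv ℂ (A.c t) b u) (u', v' + fderiv ℂ (A.c t) b u') =
      h.h (b, z) (u, v) (u', v') := by
  have hx : (b, z) ∈ TM Ω kk := ⟨hb, trivial⟩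
  have hc : HasFDerivAt (A.c t) (fderiv ℂ (A.c t) b) b :=
    ((A.c_holo t).differentiableAt (Ω.isOpen.mem_nhds hb)).hasFDerivAt
  have hd0 : HasFDerivAt (fun x : E n × E kk => (x.1, x.2 + A.c t x.1))
      ((ContinuousLinearMap.fst ℂ (E n) (E kk)).prod
        (ContinuousLinearMap.snd ℂ (E n) (E kk) +
          (fderiv ℂ (A.c t) b).comp (ContinuousLinearMap.fst ℂ (E n) (E kk)))) (b, z) := by
    refine hasFDerivAt_fst.prodMk (hasFDerivAt_snd.add ?_)
    exact HasFDerivAt.comp (b, z) hc hasFDerivAt_fst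
  have he : A.act t =ᶠ[𝓝 (b, z)] fun x => (x.1, x.2 + A.c t x.1) := by
    filter_upwards [(TM_open Ω kk).mem_nhds hx] with x hx
    exact tr_act ht hx.1 x.2
  have hd := (hd0.congr_of_eventuallyEq he).fderiv
  have h1 := hinv t (b, z) hx (u, v) (u', v')
  rw [hd, tr_act ht hb] at h1
  exact h1

theorem act_fderiv_ver (A : FibAct Ω kk Γ) (γ : Γ) {b : E n} (hb : b ∈ Ω.D) (z v : E kk) :
    fderiv ℂ (A.act γ) (b, z) (0, v) = (0, A.L γ b v) := by
  have hx : (b, z) ∈ TM Ω kk := ⟨hb, trivial⟩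
  have hd : HasFDerivAt (A.act γ) (fderiv ℂ (A.act γ) (b, z)) (b, z) :=
    ((A.tholo γ).differentiableAt ((TM_open Ω kk).mem_nhds hx)).hasFDerivAt
  have hl0 : HasDerivAt (fun s : ℂ => z + s • v) v 0 := by
    simpa using ((hasDerivAt_id (0 : ℂ)).smul_const v).const_add z
  have hl : HasDerivAt (fun s : ℂ => ((b, z + s • v) : E n × E kk)) (0, v) 0 :=
    (hasDerivAt_const _ _).prodMk hl0
  have h1 : HasDerivAt (fun s : ℂ => A.act γ (b, z + s • v))
      (fderiv ℂ (A.act γ) (b, z) (0, v)) 0 :=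
    HasFDerivAt.comp_hasDerivAt_of_eq (0 : ℂ) hd hl (by simp)
  have h2 : HasDerivAt (fun s : ℂ => ((A.β γ b, A.L γ b (z + s • v) + A.c γ b) : E n × E kk))
      (0, A.L γ b v) 0 := by
    refine (hasDerivAt_const _ _).prodMk (HasDerivAt.add_const _ ?_)
    exact (A.L γ b).hasFDerivAt.comp_hasDerivAt (0 : ℂ) hl0
  have h3 : (fun s : ℂ => A.act γ (b, z + s • v)) =
      fun s : ℂ => ((A.β γ b, A.L γ b (z + s • v) + A.c γ b) : E n × E kk) := by
    funext s
    exact A.act_eq γ b hb _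
  rw [h3] at h1
  exact h1.unique h2

theorem met_ver (h : KMet (TM Ω kk)) (hinv : InvMet A.toTotAct h) (γ : Γ)
    {b : E n} (hb : b ∈ Ω.D) (z v w : E kk) :
    h.h (A.act γ (b, z)) (0, A.L γ b v) (0, A.L γ b w) = h.h (b, z) (0, v) (0, w) := by
  have hx : (b, z) ∈ TM Ω kk := ⟨hb, trivial⟩
  have h1 := hinv γ (b, z) hx (0, v) (0, w)
  rwa [act_fderiv_ver A γ hb, act_fderiv_ver A γ hb] at h1

/-- the averaged fibre metric -/
noncomputable def avgH (Λ : Lat A) (h : KMet (TM Ω kk)) (b : E n) (v w : E kk) : ℂ :=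
  avg Λ 1 (fun y => h.h y (0, v) (0, w)) (b, 0)

theorem avgH_const (Λ : Lat A) (h : KMet (TM Ω kk)) (hinv : InvMet A.toTotAct h) {b : E n}
    (hb : b ∈ Ω.D) (v w z : E kk) :
    avg Λ 1 (fun y => h.h y (0, v) (0, w)) (b, z) = avgH Λ h b v w := by
  have hpt : Continuous (Λ.pt b) := by
    unfold Lat.pt
    fun_prop
  have hF : Continuous fun x => h.h (b, Λ.pt b x) (0, v) (0, w) := by
    have h1 := (h.smooth (0, v) (0, w)).continuousOn
    refine continuousOn_univ.1 (h1.comp (Continuous.continuousOn (by fun_prop)) ?_)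
    exact fun x _ => ⟨hb, trivial⟩
  have hadd : ∀ x y, Λ.pt b (x + y) = Λ.pt b x + Λ.pt b y := by
    intro x y
    simp only [Lat.pt, Pi.add_apply, add_smul, Finset.sum_add_distrib]
  have hsing : ∀ i, Λ.pt b (Pi.single i 1) = A.c (Λ.t i) b := by
    intro i
    rw [Lat.pt, Finset.sum_eq_single i]
    · simp
    · intro j _ hj
      simp [hj]
    · intro hi
      exact absurd (Finset.mem_univ i) hi
  have hper : ∀ i x, h.h (b, Λ.pt b (x + Pi.single i 1)) (0, v) (0, w) =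
      h.h (b, Λ.pt b x) (0, v) (0, w) := by
    intro i x
    have h1 := met_tr h hinv (Λ.mem i) hb (Λ.pt b x) 0 0 v w
    rw [map_zero, add_zero, add_zero] at h1
    rw [hadd, hsing, h1]
  obtain ⟨y, hy⟩ : ∃ y, Λ.pt b y = z := by
    refine ⟨fun i => (Λ.basis hb).repr z i, ?_⟩
    have h1 := (Λ.basis hb).sum_repr z
    simp only [Lat.basis_apply] at h1
    exact h1
  have key := per_int hF hper 1 1 (one_mul _) (one_mul _) y
  have e1 : ∀ x : Fin (2 * kk) → ℝ,
      ((1 : Matrix (Fin (2 * kk)) (Fin (2 * kk)) ℤ).map (Int.cast : ℤ → ℝ)).mulVec x = x := by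
    intro x
    rw [Matrix.map_one _ Int.cast_zero Int.cast_one, Matrix.one_mulVec]
  simp only [e1] at key
  unfold avgH avg
  simp only [Pi.one_apply, one_mul, zero_add]
  rw [← key]
  refine integral_congr_ae (Eventually.of_forall fun x => ?_)
  show h.h (b, z + Λ.pt b x) (0, v) (0, w) = h.h (b, Λ.pt b (x + y)) (0, v) (0, w)
  rw [hadd, hy, add_comm z]

end Pool.Agent.H.MP_e23cd6_ag.AK
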