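import Pool.Agent.H.MP_e23cd6_ag.AK.Av1b
import Pool.Agent.H.MP_e23cd6_ag.AK.Av3a

/-!
ABUK Av3b: the averaged fibre metric is an invariant metric constant along the fibres.

`avgFMet : FMet A`. cont: from `avg_deriv` (differentiable in b, in particular continuous). add_left, smul_left, herm: linearity of the integral (integrands continuous on the cube), `integral_conj`. pos: the integrand `(h.h (b, pt b x) (0,v) (0,v)).re` is continuous and positive on the cube, of positive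
measure (`setIntegral_pos_iff_support_of_nonneg_ae` or a positive lower bound on the compact cube; volume (Icc 0 1) = 1; the real part of the integral is the integral of the real part).
inv: γ ∈ Γ, b ∈ D, b' = β γ b. For each i, `s_i = γ t_i γ⁻¹ ∈ trN` and `c s_i b' = L γ b (c_i b)` (tr_conj), `c s_i x = Σ_j N_{ji} c_j(x)` for all x ∈ D with integers N_{ji} (Λ.int). The same for γ⁻¹: integers N'. For all x ∈ D: `L γ x (c_i x) = Σ_j N_{ji} c_j(β γ x)`, `L γ⁻¹ (β γ x) (c_j (β γ x)) = Σ_i N'_{ij} c_i(x)`; with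
`A.L_inv_mul` and linear independence of the c_i(b) (Λ.li): N' N = 1, hence N N' = 1 (square matrices). So `L γ b (pt b x) = pt b' (N x)` (matrix N = (N_{ji}) real). Let y with `c γ b = pt b' y`. `act γ (b, pt b x) = (b', L γ b (pt b x) + c γ b) = (b', pt b' (N x + y))`. By `met_ker_ver`
`h_{(b, pt b x)}((0,v),(0,w)) = F (N x + y)` with `F x = h_{(b', pt b' x)}((0, L γ b v), (0, L γ b w))` periodic and continuous. Integrate and use `per_int`.
-/


open Set Filter Topology Metric MeasureTheory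
open scoped ContDiff ComplexConjugate

namespace Pool.Agent.H.MP_e23cd6_ag.AK

open Pool.Agent.H.MP_e23cd6_ag.AB

variable {n kk : ℕ} {Ω : Dom n} {Γ : Type} [Group Γ] {A : FibAct Ω kk Γ}

theorem Av3b_pt_cont (Λ : Lat A) (b : E n) : Continuous (Λ.pt b) := by
  unfold Lat.pt
  exact continuous_finsetSum _ fun i _ => (continuous_apply i).smul continuous_const

/-- the integrand is continuous -/
theorem Av3b_cont (Λ : Lat A) (h : KMet (TM Ω kk)) {b : E n} (hb : b ∈ Ω.D) (v w : E kk) :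
    Continuous fun x : Fin (2 * kk) → ℝ => h.h (b, 0 + Λ.pt b x) (0, v) (0, w) := by
  have h1 : ContinuousOn (fun y : E n × E kk => h.h y (0, v) (0, w)) (TM Ω kk) :=
    (h.smooth (0, v) (0, w)).continuousOn
  have h2 : Continuous fun x : Fin (2 * kk) → ℝ => ((b, 0 + Λ.pt b x) : E n × E kk) :=
    continuous_const.prodMk (continuous_const.add (Av3b_pt_cont Λ b))
  rw [← continuousOn_univ] at h2 ⊢
  exact h1.comp h2 fun x _ => ⟨hb, trivial⟩

theorem Av3b_avgH (Λ : Lat A) (h : KMet (TM Ω kk)) (b : E n) (v w : E kk) :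
    avgH Λ h b v w = ∫ x in Icc (0 : Fin (2 * kk) → ℝ) 1,
      h.h (b, 0 + Λ.pt b x) (0, v) (0, w) := by
  unfold avgH avg
  simp only [Pi.one_apply, one_mul]

theorem Av3b_int (Λ : Lat A) (h : KMet (TM Ω kk)) {b : E n} (hb : b ∈ Ω.D) (v w : E kk) :
    IntegrableOn (fun x : Fin (2 * kk) → ℝ => h.h (b, 0 + Λ.pt b x) (0, v) (0, w))
      (Icc (0 : Fin (2 * kk) → ℝ) 1) :=
  (Av3b_cont Λ h hb v w).continuousOn.integrableOn_compact isCompact_Icc

theorem Av3b_smul {b : E n} (γ : Γ) (x : ℝ) (z : E kk) :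
    A.L γ b (x • z) = x • A.L γ b z := by
  rw [← Complex.coe_smul, map_smul, Complex.coe_smul]

/-- the integer matrix of conjugation -/
theorem Av3b_mat (Λ : Lat A) (γ : Γ) : ∃ N : Matrix (Fin (2 * kk)) (Fin (2 * kk)) ℤ,
    ∀ b ∈ Ω.D, ∀ i, A.L γ b (A.c (Λ.t i) b) = ∑ j, (N j i : ℝ) • A.c (Λ.t j) (A.β γ b) := by
  choose m hm using fun i => Λ.int (γ * Λ.t i * γ⁻¹) (tr_conj (Λ.mem i) γ).1
  refine ⟨fun j i => m i j, fun b hb i => ?_⟩
  rw [← (tr_conj (Λ.mem i) γ).2 b hb, hm i _ (A.mem γ hb)]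

theorem Av3b_pt (Λ : Lat A) (γ : Γ) {N : Matrix (Fin (2 * kk)) (Fin (2 * kk)) ℤ}
    (hN : ∀ b ∈ Ω.D, ∀ i, A.L γ b (A.c (Λ.t i) b) =
      ∑ j, (N j i : ℝ) • A.c (Λ.t j) (A.β γ b)) {b : E n} (hb : b ∈ Ω.D)
    (x : Fin (2 * kk) → ℝ) :
    A.L γ b (Λ.pt b x) = Λ.pt (A.β γ b) ((N.map (Int.cast : ℤ → ℝ)).mulVec x) := by
  unfold Lat.pt
  rw [map_sum]
  have h1 : ∀ i, A.L γ b (x i • A.c (Λ.t i) b) =
      ∑ j, (x i * (N j i : ℝ)) • A.c (Λ.t j) (A.β γ b) := by
    intro i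
    rw [Av3b_smul, hN b hb i, Finset.smul_sum]
    exact Finset.sum_congr rfl fun j _ => smul_smul _ _ _
  rw [Finset.sum_congr rfl fun i _ => h1 i, Finset.sum_comm]
  refine Finset.sum_congr rfl fun j _ => ?_
  rw [← Finset.sum_smul]
  congr 1
  simp only [Matrix.mulVec, dotProduct, Matrix.map_apply]
  exact Finset.sum_congr rfl fun i _ => mul_comm _ _

theorem Av3b_one (Λ : Lat A) (γ : Γ) {N N' : Matrix (Fin (2 * kk)) (Fin (2 * kk)) ℤ}
    (hN : ∀ b ∈ Ω.D, ∀ i, A.L γ b (A.c (Λ.t i) b) =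
      ∑ j, (N j i : ℝ) • A.c (Λ.t j) (A.β γ b))
    (hN' : ∀ b ∈ Ω.D, ∀ i, A.L γ⁻¹ b (A.c (Λ.t i) b) =
      ∑ j, (N' j i : ℝ) • A.c (Λ.t j) (A.β γ⁻¹ b)) {b : E n} (hb : b ∈ Ω.D) :
    N' * N = 1 := by
  have hb' := A.mem γ hb
  have hli := Λ.li b hb
  ext k i
  have h1 : A.L γ⁻¹ (A.β γ b) (A.L γ b (A.c (Λ.t i) b)) = A.c (Λ.t i) b := by
    have := A.L_inv_mul γ hb
    have h2 := congrArg (fun f : E kk →L[ℂ] E kk => f (A.c (Λ.t i) b)) this
    exact h2
  rw [hN b hb i, map_sum] at h1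
  have h3 : ∀ j, A.L γ⁻¹ (A.β γ b) ((N j i : ℝ) • A.c (Λ.t j) (A.β γ b)) =
      ∑ k, ((N j i : ℝ) * (N' k j : ℝ)) • A.c (Λ.t k) b := by
    intro j
    rw [Av3b_smul, hN' _ hb' j, A.inv_left γ hb, Finset.smul_sum]
    exact Finset.sum_congr rfl fun k _ => smul_smul _ _ _
  rw [Finset.sum_congr rfl fun j _ => h3 j, Finset.sum_comm] at h1
  have h4 : ∑ k, ((∑ j, (N j i : ℝ) * (N' k j : ℝ)) - (if k = i then 1 else 0)) •
      A.c (Λ.t k) b = 0 := by
    simp only [sub_smul, Finset.sum_sub_distrib]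
    rw [sub_eq_zero]
    have h5 : ∑ k, (∑ j, (N j i : ℝ) * (N' k j : ℝ)) • A.c (Λ.t k) b = A.c (Λ.t i) b := by
      rw [← h1]
      refine Finset.sum_congr rfl fun k _ => ?_
      rw [Finset.sum_smul]
    rw [h5]
    simp
  have h6 := Fintype.linearIndependent_iff.1 hli _ h4 k
  rw [Matrix.mul_apply, Matrix.one_apply]
  have h7 : ((∑ j, N' k j * N j i : ℤ) : ℝ) = ((if k = i then 1 else 0 : ℤ) : ℝ) := by
    push_cast
    have h8 := sub_eq_zero.1 h6
    rw [← h8]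
    exact Finset.sum_congr rfl fun j _ => mul_comm _ _
  exact_mod_cast h7

/-- invariance of the averaged metric -/
theorem Av3b_inv (Λ : Lat A) (h : KMet (TM Ω kk)) (hinv : InvMet A.toTotAct h) (γ : Γ)
    {b : E n} (hb : b ∈ Ω.D) (v w : E kk) :
    avgH Λ h (A.β γ b) (A.L γ b v) (A.L γ b w) = avgH Λ h b v w := by
  have hb' := A.mem γ hb
  obtain ⟨N, hN⟩ := Av3b_mat Λ γ
  obtain ⟨N', hN'⟩ := Av3b_mat Λ γ⁻¹
  have h1 : N' * N = 1 := Av3b_one Λ γ hN hN' hb
  have h2 : N * N' = 1 := mul_eq_one_comm.1 h1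
  obtain ⟨y, hy⟩ : ∃ y : Fin (2 * kk) → ℝ, A.c γ b = Λ.pt (A.β γ b) y := by
    refine ⟨fun i => (Λ.basis hb').repr (A.c γ b) i, ?_⟩
    unfold Lat.pt
    have h3 := (Λ.basis hb').sum_repr (A.c γ b)
    rw [← h3]
    refine Finset.sum_congr rfl fun i _ => ?_
    rw [Lat.basis_apply, h3]
  have hadd : ∀ x x' : Fin (2 * kk) → ℝ, Λ.pt (A.β γ b) (x + x') =
      Λ.pt (A.β γ b) x + Λ.pt (A.β γ b) x' := by
    intro x x'
    unfold Lat.pt
    rw [← Finset.sum_add_distrib]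
    exact Finset.sum_congr rfl fun i _ => by rw [Pi.add_apply, add_smul]
  rw [Av3b_avgH, Av3b_avgH]
  have hper : ∀ (i : Fin (2 * kk)) (x : Fin (2 * kk) → ℝ),
      h.h (A.β γ b, 0 + Λ.pt (A.β γ b) (x + Pi.single i 1)) (0, A.L γ b v) (0, A.L γ b w) =
        h.h (A.β γ b, 0 + Λ.pt (A.β γ b) x) (0, A.L γ b v) (0, A.L γ b w) := by
    intro i x
    have h3 : Λ.pt (A.β γ b) (Pi.single i 1) = A.c (Λ.t i) (A.β γ b) := by
      unfold Lat.pt
      rw [Finset.sum_eq_single i]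
      · rw [Pi.single_eq_same, one_smul]
      · intro j _ hj
        rw [Pi.single_eq_of_ne hj, zero_smul]
      · intro hi
        exact absurd (Finset.mem_univ i) hi
    have h4 := met_tr h hinv (Λ.mem i) hb' (0 + Λ.pt (A.β γ b) x) 0 0 (A.L γ b v) (A.L γ b w)
    simp only [map_zero, add_zero] at h4
    rw [hadd, h3, ← add_assoc]
    exact h4
  have key := per_int (Av3b_cont Λ h hb' (A.L γ b v) (A.L γ b w)) hper N N' h2 h1 y
  rw [← key]
  congr 1
  funext x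
  have h5 := met_ver h hinv γ hb (0 + Λ.pt b x) v w
  rw [← h5, A.act_eq γ b hb, zero_add, zero_add, hadd, ← Av3b_pt Λ γ hN hb x, ← hy]

/-- the averaged fibre metric is an invariant fibre metric -/
theorem exists_avgFMet (Λ : Lat A) (h : KMet (TM Ω kk)) (hinv : InvMet A.toTotAct h) :
    ∃ M : FMet A, M.H = avgH Λ h := by
  refine ⟨⟨avgH Λ h, ?_, ?_, ?_, ?_, ?_, ?_⟩, rfl⟩
  · intro v w b hb
    obtain ⟨D, hD, -⟩ := avg_deriv Λ (ρ := 1) continuous_one
      ((h.smooth (0, v) (0, w)).of_le (by exact_mod_cast le_top)) hb 0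
    have h1 : ContinuousAt (avg Λ 1 fun y => h.h y (0, v) (0, w)) (b, 0) := hD.continuousAt
    have h2 : ContinuousAt (fun b : E n => ((b, 0) : E n × E kk)) b :=
      (continuous_id.prodMk continuous_const).continuousAt
    exact (ContinuousAt.comp (f := fun b : E n => ((b, 0) : E n × E kk))
      (g := avg Λ 1 fun y => h.h y (0, v) (0, w)) h1 h2).continuousWithinAt
  · intro b hb u v w
    rw [Av3b_avgH, Av3b_avgH, Av3b_avgH, ← integral_add (Av3b_int Λ h hb u w) (Av3b_int Λ h hb v w)]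
    congr 1
    funext x
    rw [← h.add_left _ (show (b, 0 + Λ.pt b x) ∈ TM Ω kk from ⟨hb, trivial⟩), Prod.mk_add_mk,
      add_zero]
  · intro b hb a v w
    rw [Av3b_avgH, Av3b_avgH, ← integral_const_mul]
    congr 1
    funext x
    rw [← h.smul_left _ (show (b, 0 + Λ.pt b x) ∈ TM Ω kk from ⟨hb, trivial⟩), Prod.smul_mk,
      smul_zero]
  · intro b hb v w
    rw [Av3b_avgH, Av3b_avgH, ← integral_conj]
    congr 1
    funext x
    exact h.herm _ (show (b, 0 + Λ.pt b x) ∈ TM Ω kk from ⟨hb, trivial⟩) _ _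
  · intro b hb v hv
    rw [Av3b_avgH]
    have hi := Av3b_int Λ h hb v v
    have hc := Av3b_cont Λ h hb v v
    have e1 : (∫ x in Icc (0 : Fin (2 * kk) → ℝ) 1, h.h (b, 0 + Λ.pt b x) (0, v) (0, v)).re =
        ∫ x in Icc (0 : Fin (2 * kk) → ℝ) 1, (h.h (b, 0 + Λ.pt b x) (0, v) (0, v)).re :=
      (Complex.reCLM.integral_comp_comm hi).symm
    rw [e1]
    have hcr : Continuous fun x : Fin (2 * kk) → ℝ =>
        (h.h (b, 0 + Λ.pt b x) (0, v) (0, v)).re := Complex.continuous_re.comp hc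
    obtain ⟨x0, hx0, hmin⟩ := isCompact_Icc.exists_isMinOn
      (nonempty_Icc.2 (zero_le_one : (0 : Fin (2 * kk) → ℝ) ≤ 1)) hcr.continuousOn
    have hpos : 0 < (h.h (b, 0 + Λ.pt b x0) (0, v) (0, v)).re := by
      apply h.pos _ (show (b, 0 + Λ.pt b x0) ∈ TM Ω kk from ⟨hb, trivial⟩)
      intro h0
      exact hv (Prod.ext_iff.1 h0).2
    have hvol : volume (Icc (0 : Fin (2 * kk) → ℝ) 1) = 1 := by
      rw [Real.volume_Icc_pi]
      simp
    have hle : ∫ x in Icc (0 : Fin (2 * kk) → ℝ) 1, (h.h (b, 0 + Λ.pt b x0) (0, v) (0, v)).re ≤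
        ∫ x in Icc (0 : Fin (2 * kk) → ℝ) 1, (h.h (b, 0 + Λ.pt b x) (0, v) (0, v)).re := by
      apply setIntegral_mono_on
      · exact integrableOn_const (by rw [hvol]; exact ENNReal.one_ne_top)
      · exact hcr.continuousOn.integrableOn_compact isCompact_Icc
      · exact measurableSet_Icc
      · intro x hx
        exact hmin hx
    rw [setIntegral_const, measureReal_def, hvol] at hle
    simp only [ENNReal.toReal_one, one_smul] at hle
    linarith
  · intro γ b hb v w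
    exact Av3b_inv Λ h hinv γ hb v w

end Pool.Agent.H.MP_e23cd6_ag.AK
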