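import Mathlib

/-!
ABUK Bi1: an isometry `A ≠ 1` of a finite dimensional Euclidean space, the subspace where `|Ax - x| / |x|` is maximal.

Proof. `A` preserves inner products, so `A* A = 1` for the adjoint `A*`, and `A A* = 1`. Let
`T = (A - 1)* (A - 1) = 2 - A - A*`: symmetric, commutes with `A` and `A*`, `⟪T x, x⟫ = |A x - x|²`, so all
eigenvalues are `≥ 0`. `W` is the eigenspace of the largest eigenvalue.
-/

open Set Filter Topology Metric

namespace Pool.Agent.H.MP_e23cd6_ag.AK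

open scoped RealInnerProductSpace

/-- Square roots. -/
theorem bi1_sqrt {a b L : ℝ} (ha : 0 ≤ a) (hb : 0 ≤ b) (hL : 0 ≤ L) (h : a ^ 2 ≤ L * b ^ 2) :
    a ≤ √L * b := by
  have h1 : (√L * b) ^ 2 = L * b ^ 2 := by rw [mul_pow, Real.sq_sqrt hL]
  rw [← h1] at h
  exact (pow_le_pow_iff_left₀ ha (mul_nonneg (Real.sqrt_nonneg L) hb) two_ne_zero).1 h

/-- For an isometry `A ≠ 1` there is a subspace `W` on which `|A x - x| = mu |x|` with the largest possible
`mu`, and `|A x - x| ≤ mu' |x|` with `mu' < mu` on the orthogonal complement. -/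
theorem iso_decomp {V : Type} [NormedAddCommGroup V] [InnerProductSpace ℝ V]
    [FiniteDimensional ℝ V] (A : V →ₗ[ℝ] V) (hA : ∀ v, ‖A v‖ = ‖v‖) (hne : A ≠ LinearMap.id) :
    ∃ (W : Submodule ℝ V) (mu mu' : ℝ), W ≠ ⊥ ∧ 0 ≤ mu' ∧ mu' < mu ∧
      (∀ x, ‖A x - x‖ ≤ mu * ‖x‖) ∧ (∀ x ∈ W, A x ∈ W ∧ ‖A x - x‖ = mu * ‖x‖) ∧
      ∀ x ∈ Wᗮ, A x ∈ Wᗮ ∧ ‖A x - x‖ ≤ mu' * ‖x‖ := by
  classical
  have hin : ∀ x y : V, ⟪A x, A y⟫ = ⟪x, y⟫ := (LinearMap.norm_map_iff_inner_map_map A).1 hA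
  obtain ⟨B, hB⟩ : ∃ B : V →ₗ[ℝ] V, B = LinearMap.adjoint A := ⟨_, rfl⟩
  have hBl : ∀ x y : V, ⟪B x, y⟫ = ⟪x, A y⟫ := fun x y => by
    rw [hB, LinearMap.adjoint_inner_left]
  have hBr : ∀ x y : V, ⟪x, B y⟫ = ⟪A x, y⟫ := fun x y => by
    rw [hB, LinearMap.adjoint_inner_right]
  have hBA : ∀ x, B (A x) = x := by
    intro x
    refine ext_inner_right ℝ fun y => ?_
    rw [hBl, hin]
  have hinj : Function.Injective A := Function.LeftInverse.injective hBA
  have hsurj : Function.Surjective A := LinearMap.injective_iff_surjective.1 hinj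
  have hAB : ∀ x, A (B x) = x := by
    intro x
    obtain ⟨z, rfl⟩ := hsurj x
    rw [hBA]
  obtain ⟨T, hTd⟩ : ∃ T : V →ₗ[ℝ] V, T = (2 : ℝ) • LinearMap.id - A - B := ⟨_, rfl⟩
  have hTx : ∀ x, T x = (2 : ℝ) • x - A x - B x := fun x => by rw [hTd]; rfl
  have hT : T.IsSymmetric := by
    intro x y
    rw [hTx, hTx, inner_sub_left, inner_sub_left, inner_sub_right, inner_sub_right,
      inner_smul_left, inner_smul_right, hBl, hBr]
    simp only [conj_trivial]
    ring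
  have hTn : ∀ x, ⟪T x, x⟫ = ‖A x - x‖ ^ 2 := by
    intro x
    have h1 := norm_sub_sq_real (A x) x
    rw [hA] at h1
    rw [h1, hTx, inner_sub_left, inner_sub_left, inner_smul_left, hBl, real_inner_self_eq_norm_sq,
      real_inner_comm x (A x)]
    simp only [conj_trivial]
    ring
  have hTA : ∀ x, T (A x) = A (T x) := by
    intro x
    rw [hTx, hTx, map_sub, map_sub, map_smul, hBA, hAB]
  have hTB : ∀ x, T (B x) = B (T x) := by
    intro x
    rw [hTx, hTx, map_sub, map_sub, map_smul, hBA, hAB]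
  set b := hT.eigenvectorBasis rfl with hb
  set l := hT.eigenvalues rfl with hl
  have hTb : ∀ i, T (b i) = l i • b i := fun i => by
    rw [hb, hl, hT.apply_eigenvectorBasis rfl i]
    rfl
  have hsum : ∀ x, ⟪T x, x⟫ = ∑ i, l i * ⟪b i, x⟫ ^ 2 := by
    intro x
    rw [← b.sum_inner_mul_inner (T x) x]
    refine Finset.sum_congr rfl fun i _ => ?_
    rw [hT x (b i), hTb, inner_smul_right, real_inner_comm x (b i)]
    ring
  have hnorm : ∀ x, ‖x‖ ^ 2 = ∑ i, ⟪b i, x⟫ ^ 2 := by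
    intro x
    rw [← real_inner_self_eq_norm_sq, ← b.sum_inner_mul_inner x x]
    refine Finset.sum_congr rfl fun i _ => ?_
    rw [real_inner_comm x (b i)]
    ring
  have hl0 : ∀ i, 0 ≤ l i := by
    intro i
    have h1 := hTn (b i)
    rw [hTb, inner_smul_left, real_inner_self_eq_norm_sq, b.norm_eq_one] at h1
    simp only [conj_trivial, one_pow, mul_one] at h1
    rw [h1]
    positivity
  -- the largest eigenvalue
  have hfix : ¬ ∀ x, A x = x := fun h => hne (LinearMap.ext h)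
  have hpos : ∃ i, 0 < l i := by
    by_contra hcon
    push Not at hcon
    refine hfix fun x => ?_
    have h1 := hTn x
    have h2 : ⟪T x, x⟫ ≤ 0 := by
      rw [hsum]
      exact Finset.sum_nonpos fun i _ => mul_nonpos_of_nonpos_of_nonneg (hcon i) (sq_nonneg _)
    have h3 : ‖A x - x‖ ^ 2 = 0 := le_antisymm (h1 ▸ h2) (sq_nonneg _)
    exact sub_eq_zero.1 (norm_eq_zero.1 (pow_eq_zero_iff two_ne_zero |>.1 h3))
  obtain ⟨i₁, hi₁⟩ := hpos
  obtain ⟨i₀, -, hi₀⟩ := Finset.exists_max_image Finset.univ l ⟨i₁, Finset.mem_univ _⟩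
  have hLam : 0 < l i₀ := hi₁.trans_le (hi₀ i₁ (Finset.mem_univ _))
  obtain ⟨L', hL'0, hL'1, hL'2⟩ : ∃ L' : ℝ, 0 ≤ L' ∧ L' < l i₀ ∧ ∀ i, l i ≠ l i₀ → l i ≤ L' := by
    by_cases hS : (Finset.univ.filter fun i => l i ≠ l i₀).Nonempty
    · obtain ⟨j, hj, hj2⟩ := Finset.exists_max_image _ l hS
      refine ⟨l j, hl0 j, lt_of_le_of_ne (hi₀ j (Finset.mem_univ _)) (Finset.mem_filter.1 hj).2,
        fun i hi => hj2 i (Finset.mem_filter.2 ⟨Finset.mem_univ _, hi⟩)⟩
    · refine ⟨0, le_rfl, hLam, fun i hi => ?_⟩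
      exact absurd ⟨i, Finset.mem_filter.2 ⟨Finset.mem_univ _, hi⟩⟩ hS
  refine ⟨Module.End.eigenspace T (l i₀), √(l i₀), √L', ?_, Real.sqrt_nonneg _,
    Real.sqrt_lt_sqrt hL'0 hL'1, ?_, ?_, ?_⟩
  · intro hbot
    have h1 : b i₀ ∈ Module.End.eigenspace T (l i₀) := Module.End.mem_eigenspace_iff.2 (hTb i₀)
    rw [hbot, Submodule.mem_bot] at h1
    have h2 := b.norm_eq_one i₀
    rw [h1, norm_zero] at h2
    exact zero_ne_one h2
  · intro x
    refine bi1_sqrt (norm_nonneg _) (norm_nonneg _) hLam.le ?_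
    rw [← hTn, hsum, hnorm, Finset.mul_sum]
    exact Finset.sum_le_sum fun i _ =>
      mul_le_mul_of_nonneg_right (hi₀ i (Finset.mem_univ _)) (sq_nonneg _)
  · intro x hx
    have hx1 := Module.End.mem_eigenspace_iff.1 hx
    refine ⟨Module.End.mem_eigenspace_iff.2 (by rw [hTA, hx1, map_smul]), ?_⟩
    have h1 := hTn x
    rw [hx1, inner_smul_left, real_inner_self_eq_norm_sq] at h1
    simp only [conj_trivial] at h1
    have h2 : ‖A x - x‖ ^ 2 = (√(l i₀) * ‖x‖) ^ 2 := by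
      rw [mul_pow, Real.sq_sqrt hLam.le, h1]
    exact (pow_left_inj₀ (norm_nonneg _) (by positivity) two_ne_zero).1 h2
  · intro x hx
    constructor
    · rw [Submodule.mem_orthogonal]
      intro y hy
      have hy1 := Module.End.mem_eigenspace_iff.1 hy
      have h1 : B y ∈ Module.End.eigenspace T (l i₀) :=
        Module.End.mem_eigenspace_iff.2 (by rw [hTB, hy1, map_smul])
      have h2 := Submodule.inner_right_of_mem_orthogonal h1 hx
      rwa [hBl] at h2
    · refine bi1_sqrt (norm_nonneg _) (norm_nonneg _) hL'0 ?_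
      rw [← hTn, hsum, hnorm, Finset.mul_sum]
      refine Finset.sum_le_sum fun i _ => ?_
      by_cases hi : l i = l i₀
      · have h1 : b i ∈ Module.End.eigenspace T (l i₀) :=
          Module.End.mem_eigenspace_iff.2 (by rw [hTb, hi])
        have h2 := Submodule.inner_right_of_mem_orthogonal h1 hx
        rw [h2]
        simp
      · exact mul_le_mul_of_nonneg_right (hL'2 i hi) (sq_nonneg _)

end Pool.Agent.H.MP_e23cd6_ag.AK
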