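import Mathlib

/-!
ABUK Bi2: crystallographic groups of isometries (Bieberbach's theorem, proof of P. Buser), first step.

`EAct V N`: a group acting on a Euclidean space by isometries `z ↦ L γ z + c γ`, properly discontinuously and cocompactly.

`EAct.near_pt`: for every `z` there is `γ` with `|c γ - z| ≤ R` (R from `cc`): take `γ'` with `|L γ' z + c γ'| ≤ R` and `γ = γ'⁻¹`: from `c_mul` for `γ'⁻¹ γ' = 1`:
`0 = L γ'⁻¹ (c γ') + c γ'⁻¹`, so `z - c γ'⁻¹ = L γ'⁻¹ (L γ' z + c γ')` has norm `≤ R`.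

`mini_bieb`. For `j : ℕ` let `γ_j` with `|c γ_j - j u| ≤ R`. The maps `L γ_j` lie in the compact set of linear maps of norm `≤ 1` (finite dimensional space of continuous
linear maps, closed ball; `LinearMap.toContinuousLinearMap`), so there is a strictly increasing `φ` with `L γ_{φ j}` convergent, in particular there is `i0` with
`‖L γ_{φ j} - L γ_{φ i0}‖ ≤ ε` for all `j ≥ i0`. Put `i = φ i0` fixed and `β = γ_{φ j} γ_i⁻¹`, `j` large. `L β x - x = (L γ_{φ j} - L γ_i) (L γ_i⁻¹ x)`, so `|L β x - x| ≤ ε |x|`.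
`c β = L γ_{φ j} (c γ_i⁻¹) + c γ_{φ j}`, so `|c β - (φ j) u| ≤ R + |c γ_i⁻¹| =: R'`. For `φ j` large (`φ j ≥ 8 R' + 1`): `c β ≠ 0`, `| |c β| - φ j | ≤ R'`, so `|c β - |c β| u| ≤ 2 R' ≤ (φ j - R')/2 ≤ |c β|/2`.
-/

open Set Filter Topology Metric

namespace Pool.Agent.H.MP_e23cd6_ag.AK

/-- a crystallographic action on a Euclidean space -/
structure EAct (V : Type) [NormedAddCommGroup V] [InnerProductSpace ℝ V] (N : Type) [Group N] where
  L : N → V →ₗ[ℝ] V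
  c : N → V
  L_one : L 1 = LinearMap.id
  L_mul : ∀ γ δ, L (γ * δ) = L γ ∘ₗ L δ
  c_one : c 1 = 0
  c_mul : ∀ γ δ, c (γ * δ) = L γ (c δ) + c γ
  iso : ∀ γ v, ‖L γ v‖ = ‖v‖
  pd : ∀ R : ℝ, {γ | ‖c γ‖ ≤ R}.Finite
  cc : ∃ R : ℝ, ∀ z, ∃ γ, ‖L γ z + c γ‖ ≤ R

variable {V : Type} [NormedAddCommGroup V] [InnerProductSpace ℝ V] {N : Type} [Group N]

theorem EAct.near_pt (A : EAct V N) : ∃ R : ℝ, ∀ z, ∃ γ, ‖A.c γ - z‖ ≤ R := by
  obtain ⟨R, hR⟩ := A.cc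
  refine ⟨R, fun z => ?_⟩
  obtain ⟨δ, hδ⟩ := hR z
  refine ⟨δ⁻¹, ?_⟩
  have h1 : A.L δ⁻¹ (A.c δ) + A.c δ⁻¹ = 0 := by
    rw [← A.c_mul, inv_mul_cancel, A.c_one]
  have h2 : A.L δ⁻¹ (A.L δ z) = z := by
    have h3 := A.L_mul δ⁻¹ δ
    rw [inv_mul_cancel, A.L_one] at h3
    have h4 := congrArg (fun f : V →ₗ[ℝ] V => f z) h3
    simpa using h4.symm
  have h5 : A.c δ⁻¹ - z = -(A.L δ⁻¹ (A.L δ z + A.c δ)) := by
    rw [map_add, h2]
    have h6 : A.c δ⁻¹ = -(A.L δ⁻¹ (A.c δ)) := (neg_eq_of_add_eq_zero_right h1).symm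
    rw [h6]
    abel
  rw [h5, norm_neg, A.iso]
  exact hδ

theorem mini_bieb [FiniteDimensional ℝ V] (A : EAct V N) {u : V} (hu : ‖u‖ = 1) {ε : ℝ}
    (hε : 0 < ε) :
    ∃ γ : N, A.c γ ≠ 0 ∧ (∀ x, ‖A.L γ x - x‖ ≤ ε * ‖x‖) ∧
      ‖A.c γ - ‖A.c γ‖ • u‖ ≤ ‖A.c γ‖ / 2 := by
  obtain ⟨R, hR⟩ := A.near_pt
  choose g hg using fun j : ℕ => hR ((j : ℝ) • u)
  set T : ℕ → (V →L[ℝ] V) := fun j => LinearMap.toContinuousLinearMap (A.L (g j)) with hT
  have hTapp : ∀ j x, T j x = A.L (g j) x := fun j x => rfl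
  have hTn : ∀ j, T j ∈ closedBall (0 : V →L[ℝ] V) 1 := by
    intro j
    rw [mem_closedBall_zero_iff]
    refine ContinuousLinearMap.opNorm_le_bound _ zero_le_one fun x => ?_
    rw [hTapp, A.iso, one_mul]
  have hpr : ProperSpace (V →L[ℝ] V) := FiniteDimensional.proper_real _
  obtain ⟨a, _, φ, hφ, hlim⟩ := (isCompact_closedBall (0 : V →L[ℝ] V) 1).tendsto_subseq hTn
  obtain ⟨i0, hi0⟩ := Metric.cauchySeq_iff'.1 hlim.cauchySeq ε hε
  set i : ℕ := φ i0 with hi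
  set R' : ℝ := R + ‖A.c (g i)⁻¹‖ with hR'
  have hR0 : 0 ≤ R := (norm_nonneg _).trans (hg 0)
  have hR'0 : 0 ≤ R' := add_nonneg hR0 (norm_nonneg _)
  obtain ⟨m, hm⟩ := exists_nat_ge (8 * R' + 1)
  set j : ℕ := max i0 m with hj
  set k : ℕ := φ j with hk
  have hkm : (8 * R' + 1 : ℝ) ≤ k := by
    refine hm.trans ?_
    have h1 : m ≤ φ j := (le_max_right i0 m).trans (hφ.id_le j)
    exact_mod_cast h1
  have hdist : ‖T k - T i‖ ≤ ε := by
    have h1 := hi0 j (le_max_left i0 m)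
    rw [dist_eq_norm] at h1
    exact h1.le
  have hcb : A.c (g k * (g i)⁻¹) = A.L (g k) (A.c (g i)⁻¹) + A.c (g k) := A.c_mul _ _
  have hnear : ‖A.c (g k * (g i)⁻¹) - (k : ℝ) • u‖ ≤ R' := by
    rw [hcb, add_sub_assoc, hR', add_comm R]
    refine (norm_add_le _ _).trans (add_le_add (le_of_eq (A.iso _ _)) (hg k))
  have hku : ‖(k : ℝ) • u‖ = k := by
    rw [norm_smul, hu, mul_one, Real.norm_of_nonneg (Nat.cast_nonneg k)]
  have habs : |‖A.c (g k * (g i)⁻¹)‖ - k| ≤ R' := by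
    have h1 := abs_norm_sub_norm_le (A.c (g k * (g i)⁻¹)) ((k : ℝ) • u)
    rw [hku] at h1
    exact h1.trans hnear
  have habs2 := abs_le.1 habs
  refine ⟨g k * (g i)⁻¹, ?_, fun x => ?_, ?_⟩
  · intro h0
    rw [h0, norm_zero] at habs2
    linarith [habs2.1]
  · set y : V := A.L (g i)⁻¹ x with hy
    have h1 : A.L (g k * (g i)⁻¹) x = A.L (g k) y := by
      rw [A.L_mul]
      rfl
    have h2 : A.L (g i) y = x := by
      have h3 := A.L_mul (g i) (g i)⁻¹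
      rw [mul_inv_cancel, A.L_one] at h3
      have h4 := congrArg (fun f : V →ₗ[ℝ] V => f x) h3
      simpa using h4.symm
    have h5 : A.L (g k * (g i)⁻¹) x - x = (T k - T i) y := by
      rw [h1, ContinuousLinearMap.sub_apply, hTapp, hTapp, h2]
    rw [h5]
    refine ((T k - T i).le_opNorm y).trans ?_
    have h6 : ‖y‖ = ‖x‖ := A.iso _ _
    rw [h6]
    exact mul_le_mul_of_nonneg_right hdist (norm_nonneg x)
  · set w : V := A.c (g k * (g i)⁻¹) with hw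
    have h1 : w - ‖w‖ • u = (w - (k : ℝ) • u) + ((k : ℝ) - ‖w‖) • u := by
      rw [sub_smul]
      abel
    have h2 : ‖((k : ℝ) - ‖w‖) • u‖ ≤ R' := by
      rw [norm_smul, hu, mul_one, Real.norm_eq_abs, abs_sub_comm]
      exact habs
    rw [h1]
    have h3 := norm_add_le (w - (k : ℝ) • u) (((k : ℝ) - ‖w‖) • u)
    linarith [habs2.1, hnear]

end Pool.Agent.H.MP_e23cd6_ag.AK
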