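import Pool.Agent.H.MP_e23cd6_ag.AK.Bi1
import Pool.Agent.H.MP_e23cd6_ag.AK.Bi2

/-!
ABUK Bi3: Bieberbach's theorem: group elements whose rotational part is close to the identity are translations (P. Buser).

Proof of `small_trivial`. Suppose some `α` has `|L α x - x| ≤ |x|/2` for all x and `L α ≠ id` (bad). By `pd` choose a bad `α` with `|a|` minimal, `a = c α` (the set of bad
elements with `|c| ≤ |a_0|` is finite and nonempty; or use `Nat.find` on integer bounds and a finite minimum). `A = L α`. `iso_decomp` gives `W, mu, mu'`; `0 < mu ≤ 1/2` (apply `|Ax-x| = mu|x|` to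
`x ∈ W`, x ≠ 0). Write `x^W`, `x^⊥` for the orthogonal projections. Let `ε = (mu - mu')/8` (so `ε ≤ 1/16`), `u ∈ W` a unit vector. Let
`T = {β : c β ≠ 0, |L β x - x| ≤ ε |x| for all x, |(c β)^⊥| ≤ |(c β)^W|}`. `T` is not empty: `mini_bieb` gives β with `|b - |b| u| ≤ |b|/2`, `b = c β`, hence `|b^⊥| ≤ |b - |b|u| ≤ |b|/2` (`|b| u ∈ W`,
the orthogonal projection onto `Wᗮ` has norm ≤ 1 and kills W), so `|b^W|² = |b|² - |b^⊥|² ≥ (3/4)|b|² ≥ |b^⊥|²`. Choose `β ∈ T` with `|b|` minimal. Let `w = α β α⁻¹ β⁻¹`, `B = L β`, `B' = L w = A B A⁻¹ B⁻¹`, `b' = c w`.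
(1) `B' - 1 = (AB - BA)(BA)⁻¹ = ((A-1)(B-1) - (B-1)(A-1))(BA)⁻¹`, so `|B'x - x| ≤ 2 mu ε|x| ≤ ε|x|`.
(2) `w (β α) = α β` and `c_mul`: `b' = (A b + a) - B'(B a + b) = (A - 1) b + r`, `r = (b - B' b) + (a - B'B a)`, and `a - B'B a = A (1 - B) A⁻¹ a`, so `|r| ≤ ε|b| + ε|a|` (`|b - B'b| ≤ ε|b|`). If `B = 1` then `B' = 1` and `r = 0`.
If `B ≠ 1` then β is bad (`ε ≤ 1/2`), so `|a| ≤ |b|` by minimality of α. In both cases `|r| ≤ 2 ε |b|`, and `|b| ≤ 2|b^W|` (as `|b|² = |b^W|² + |b^⊥|² ≤ 2|b^W|²`), so `|r| ≤ 4 ε|b^W| = (mu - mu')|b^W|/2`. `b^W ≠ 0`.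
(3) `A - 1` maps W to W and Wᗮ to Wᗮ. `|b'^⊥| ≤ |(A-1) b^⊥| + |r| ≤ mu'|b^⊥| + |r| ≤ (mu + mu')|b^W|/2`, `|b'^W| ≥ mu|b^W| - |r| ≥ (mu + mu')|b^W|/2 > 0`. So `b' ≠ 0`, `|b'^⊥| ≤ |b'^W|`: `w ∈ T`.
(4) `|b'| ≤ |(A-1)b| + |r| ≤ (1/2 + 2/16)|b| < |b|` (`b ≠ 0`), contradicting the minimality of β.
-/

open Set Filter Topology Metric

namespace Pool.Agent.H.MP_e23cd6_ag.AK

variable {V : Type} [NormedAddCommGroup V] [InnerProductSpace ℝ V] {N : Type} [Group N]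

/-- an element of minimal translation length in a nonempty set -/
theorem EAct.exists_min (A : EAct V N) {T : Set N} (hT : T.Nonempty) :
    ∃ γ ∈ T, ∀ δ ∈ T, ‖A.c γ‖ ≤ ‖A.c δ‖ := by
  obtain ⟨γ₀, h₀⟩ := hT
  obtain ⟨γ, hγ, hmin⟩ := Set.exists_min_image {γ | γ ∈ T ∧ ‖A.c γ‖ ≤ ‖A.c γ₀‖}
    (fun γ => ‖A.c γ‖) ((A.pd ‖A.c γ₀‖).subset fun γ h => h.2) ⟨γ₀, h₀, le_rfl⟩
  refine ⟨γ, hγ.1, fun δ hδ => ?_⟩
  by_cases h : ‖A.c δ‖ ≤ ‖A.c γ₀‖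
  · exact hmin δ ⟨hδ, h⟩
  · exact hγ.2.trans (not_le.1 h).le

theorem bi3_pyth {W : Submodule ℝ V} {w v : V} (hw : w ∈ W) (hv : v ∈ Wᗮ) :
    ‖w + v‖ ^ 2 = ‖w‖ ^ 2 + ‖v‖ ^ 2 := by
  rw [norm_add_sq_real, Submodule.inner_right_of_mem_orthogonal hw hv]
  ring

theorem bi3_le_left {W : Submodule ℝ V} {w v : V} (hw : w ∈ W) (hv : v ∈ Wᗮ) :
    ‖w‖ ≤ ‖w + v‖ := by
  have := bi3_pyth hw hv
  exact le_of_sq_le_sq (by nlinarith [sq_nonneg ‖v‖]) (norm_nonneg _)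

theorem bi3_le_right {W : Submodule ℝ V} {w v : V} (hw : w ∈ W) (hv : v ∈ Wᗮ) :
    ‖v‖ ≤ ‖w + v‖ := by
  have := bi3_pyth hw hv
  exact le_of_sq_le_sq (by nlinarith [sq_nonneg ‖w‖]) (norm_nonneg _)

theorem bi3_decomp [FiniteDimensional ℝ V] (W : Submodule ℝ V) (x : V) :
    ∃ w ∈ W, ∃ v ∈ Wᗮ, x = w + v := by
  obtain ⟨w, hw, v, hv, h⟩ := Submodule.exists_add_mem_mem_orthogonal (K := W) x
  exact ⟨w, hw, v, hv, h⟩

theorem small_trivial [FiniteDimensional ℝ V] (A : EAct V N) {α : N}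
    (h : ∀ x, ‖A.L α x - x‖ ≤ 1 / 2 * ‖x‖) : A.L α = LinearMap.id := by
  by_contra hne
  obtain ⟨α, ⟨h, hne⟩, hmin⟩ := A.exists_min
    (T := {α | (∀ x, ‖A.L α x - x‖ ≤ 1 / 2 * ‖x‖) ∧ A.L α ≠ LinearMap.id}) ⟨α, h, hne⟩
  obtain ⟨W, mu, mu', hW, hmu'0, hmu, h1, h2, h3⟩ := iso_decomp (A.L α) (A.iso α) hne
  obtain ⟨x₀, hx₀W, hx₀⟩ := Submodule.exists_mem_ne_zero_of_ne_bot hW
  have hx₀pos : 0 < ‖x₀‖ := norm_pos_iff.2 hx₀
  have hmuh : mu ≤ 1 / 2 := by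
    have e1 := (h2 x₀ hx₀W).2
    have e2 := h x₀
    rw [e1] at e2
    exact le_of_mul_le_mul_right e2 hx₀pos
  have hmu0 : 0 < mu := lt_of_le_of_lt hmu'0 hmu
  set ε : ℝ := (mu - mu') / 8 with hε
  have hε0 : 0 < ε := by rw [hε]; linarith
  have hε16 : ε ≤ 1 / 16 := by rw [hε]; linarith
  set u : V := ‖x₀‖⁻¹ • x₀ with hu
  have huW : u ∈ W := W.smul_mem _ hx₀W
  have hu1 : ‖u‖ = 1 := by
    rw [hu, norm_smul, norm_inv, norm_norm, inv_mul_cancel₀ hx₀pos.ne']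
  -- the set `T`
  have hTne : {β : N | A.c β ≠ 0 ∧ (∀ x, ‖A.L β x - x‖ ≤ ε * ‖x‖) ∧
      ∃ w ∈ W, ∃ v ∈ Wᗮ, A.c β = w + v ∧ ‖v‖ ≤ ‖w‖}.Nonempty := by
    obtain ⟨β, hβ0, hβ1, hβ2⟩ := mini_bieb A hu1 hε0
    obtain ⟨w, hw, v, hv, e⟩ := bi3_decomp W (A.c β)
    refine ⟨β, hβ0, hβ1, w, hw, v, hv, e, ?_⟩
    have e1 : A.c β - ‖A.c β‖ • u = (w - ‖A.c β‖ • u) + v := by
      rw [e]
      abel
    have e2 : ‖v‖ ≤ ‖A.c β‖ / 2 := by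
      refine le_trans ?_ hβ2
      rw [e1]
      exact bi3_le_right (W.sub_mem hw (W.smul_mem _ huW)) hv
    have e3 := bi3_pyth hw hv
    rw [← e] at e3
    refine le_of_sq_le_sq ?_ (norm_nonneg _)
    nlinarith [norm_nonneg v, norm_nonneg (A.c β)]
  obtain ⟨β, ⟨hβ0, hβ1, w₀, hw₀, v₀, hv₀, hb, hvw⟩, hβmin⟩ := A.exists_min hTne
  obtain ⟨ω, hrel⟩ : ∃ ω : N, ω * (β * α) = α * β := ⟨α * β * α⁻¹ * β⁻¹, by group⟩
  have hLrel : ∀ x, A.L ω (A.L β (A.L α x)) = A.L α (A.L β x) := by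
    intro x
    have e := congrArg A.L hrel
    rw [A.L_mul, A.L_mul, A.L_mul] at e
    have e' := congrArg (fun f : V →ₗ[ℝ] V => f x) e
    simpa using e'
  have hinv : ∀ (γ : N) (x : V), A.L γ (A.L γ⁻¹ x) = x := by
    intro γ x
    have e := A.L_mul γ γ⁻¹
    rw [mul_inv_cancel, A.L_one] at e
    have e' := congrArg (fun f : V →ₗ[ℝ] V => f x) e
    simpa using e'.symm
  -- (1)
  have hB' : ∀ x, ‖A.L ω x - x‖ ≤ ε * ‖x‖ := by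
    intro x
    set y : V := A.L α⁻¹ (A.L β⁻¹ x) with hy
    have hyx : A.L β (A.L α y) = x := by rw [hy, hinv, hinv]
    have hyn : ‖y‖ = ‖x‖ := by rw [hy, A.iso, A.iso]
    have e1 : A.L ω x = A.L α (A.L β y) := by rw [← hyx, hLrel]
    have e2 : A.L ω x - x = (A.L α (A.L β y - y) - (A.L β y - y)) -
        (A.L β (A.L α y - y) - (A.L α y - y)) := by
      rw [e1, map_sub, map_sub, hyx]
      abel
    rw [e2]
    refine (norm_sub_le _ _).trans ?_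
    have e3 := h1 (A.L β y - y)
    have e4 := hβ1 (A.L α y - y)
    have e5 := hβ1 y
    have e6 := h1 y
    rw [hyn] at e5 e6
    have hxn := norm_nonneg x
    have e7 : mu * ‖A.L β y - y‖ ≤ mu * (ε * ‖x‖) := mul_le_mul_of_nonneg_left e5 hmu0.le
    have e8 : ε * ‖A.L α y - y‖ ≤ ε * (mu * ‖x‖) := mul_le_mul_of_nonneg_left e6 hε0.le
    have e9 : mu * (ε * ‖x‖) ≤ 1 / 2 * (ε * ‖x‖) :=
      mul_le_mul_of_nonneg_right hmuh (mul_nonneg hε0.le hxn)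
    have e10 : ε * (mu * ‖x‖) = mu * (ε * ‖x‖) := by ring
    linarith
  -- (2)
  set a : V := A.c α with ha
  set b : V := A.c β with hbdef
  have hc : A.c ω = A.L α b + a - A.L ω (A.L β a + b) := by
    have e := congrArg A.c hrel
    rw [A.c_mul ω, A.c_mul β, A.c_mul α] at e
    rw [← ha, ← hbdef] at e
    rw [← e]
    abel
  set z : V := A.L α⁻¹ a with hz
  have hza : A.L α z = a := by rw [hz, hinv]
  have hzn : ‖z‖ = ‖a‖ := by rw [hz, A.iso]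
  set r : V := (b - A.L ω b) + A.L α (z - A.L β z) with hr
  have hcr : A.c ω = (A.L α b - b) + r := by
    rw [hc, hr, map_sub, hza, map_add]
    have : A.L ω (A.L β a) = A.L α (A.L β z) := by
      rw [← hLrel z, hza]
    rw [this]
    abel
  have hrn : ‖r‖ ≤ 2 * ε * ‖b‖ := by
    have e1 : ‖r‖ ≤ ‖b - A.L ω b‖ + ‖z - A.L β z‖ := by
      rw [hr]
      refine (norm_add_le _ _).trans ?_
      rw [A.iso]
    have e2 : ‖b - A.L ω b‖ ≤ ε * ‖b‖ := by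
      rw [norm_sub_rev]
      exact hB' b
    have e3 : ‖z - A.L β z‖ ≤ ε * ‖b‖ := by
      by_cases hB : A.L β = LinearMap.id
      · rw [hB]
        simp only [LinearMap.id_coe, id_eq, sub_self, norm_zero]
        exact mul_nonneg hε0.le (norm_nonneg _)
      · have e4 : ‖a‖ ≤ ‖b‖ := by
          refine hmin β ⟨fun x => (hβ1 x).trans ?_, hB⟩
          exact mul_le_mul_of_nonneg_right (by linarith) (norm_nonneg _)
        rw [norm_sub_rev]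
        refine (hβ1 z).trans ?_
        rw [hzn]
        exact mul_le_mul_of_nonneg_left e4 hε0.le
    linarith
  have hb2 : ‖b‖ ≤ 2 * ‖w₀‖ := by
    rw [hb]
    refine (norm_add_le _ _).trans ?_
    linarith
  have hbpos : 0 < ‖b‖ := norm_pos_iff.2 hβ0
  have hw₀pos : 0 < ‖w₀‖ := by linarith
  have hrw : ‖r‖ ≤ (mu - mu') / 2 * ‖w₀‖ := by
    have e1 : 2 * ε * ‖b‖ ≤ 2 * ε * (2 * ‖w₀‖) :=
      mul_le_mul_of_nonneg_left hb2 (by linarith)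
    have e2 : 2 * ε * (2 * ‖w₀‖) = (mu - mu') / 2 * ‖w₀‖ := by
      rw [hε]
      ring
    linarith
  -- (3)
  obtain ⟨rw₀, hrwW, rv₀, hrvW, hrdec⟩ := bi3_decomp W r
  have hrwn : ‖rw₀‖ ≤ ‖r‖ := by
    rw [hrdec]
    exact bi3_le_left hrwW hrvW
  have hrvn : ‖rv₀‖ ≤ ‖r‖ := by
    rw [hrdec]
    exact bi3_le_right hrwW hrvW
  have hdec : A.c ω = ((A.L α w₀ - w₀) + rw₀) + ((A.L α v₀ - v₀) + rv₀) := by
    rw [hcr, hrdec, hb, map_add]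
    abel
  have hfW : (A.L α w₀ - w₀) + rw₀ ∈ W := W.add_mem (W.sub_mem (h2 w₀ hw₀).1 hw₀) hrwW
  have hsW : (A.L α v₀ - v₀) + rv₀ ∈ Wᗮ :=
    Wᗮ.add_mem (Wᗮ.sub_mem (h3 v₀ hv₀).1 hv₀) hrvW
  have hfn : (mu + mu') / 2 * ‖w₀‖ ≤ ‖(A.L α w₀ - w₀) + rw₀‖ := by
    have e1 : ‖A.L α w₀ - w₀‖ ≤ ‖(A.L α w₀ - w₀) + rw₀‖ + ‖rw₀‖ := by
      have := norm_sub_le ((A.L α w₀ - w₀) + rw₀) rw₀
      rwa [add_sub_cancel_right] at this
    rw [(h2 w₀ hw₀).2] at e1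
    linarith
  have hsn : ‖(A.L α v₀ - v₀) + rv₀‖ ≤ (mu + mu') / 2 * ‖w₀‖ := by
    refine (norm_add_le _ _).trans ?_
    have e1 := (h3 v₀ hv₀).2
    have e2 : mu' * ‖v₀‖ ≤ mu' * ‖w₀‖ := mul_le_mul_of_nonneg_left hvw hmu'0
    linarith
  have hfpos : 0 < ‖(A.L α w₀ - w₀) + rw₀‖ := by
    refine lt_of_lt_of_le (mul_pos (by linarith) hw₀pos) hfn
  have hω0 : A.c ω ≠ 0 := by
    intro e
    have e1 := bi3_le_left hfW hsW
    rw [← hdec, e, norm_zero] at e1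
    linarith
  have hωT := hβmin ω ⟨hω0, hB', _, hfW, _, hsW, hdec, hsn.trans hfn⟩
  -- (4)
  have e1 : ‖A.c ω‖ ≤ 1 / 2 * ‖b‖ + 2 * ε * ‖b‖ := by
    rw [hcr]
    exact (norm_add_le _ _).trans (add_le_add (h b) hrn)
  have e2 : 2 * ε * ‖b‖ ≤ 1 / 8 * ‖b‖ := mul_le_mul_of_nonneg_right (by linarith) hbpos.le
  linarith

end Pool.Agent.H.MP_e23cd6_ag.AK
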