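import Pool.Agent.H.MP_e23cd6_ag.AK.Bi3

/-!
ABUK Bi4: Bieberbach's theorem: the translations have finite index. The linear maps `L γ` form a
totally bounded set, and `L (δ⁻¹ γ)` is close to the identity if `L γ` is close to `L δ`.
-/

open Set Filter Topology Metric

namespace Pool.Agent.H.MP_e23cd6_ag.AK

variable {V : Type} [NormedAddCommGroup V] [InnerProductSpace ℝ V] {N : Type} [Group N]

theorem EAct.L_inv_apply (A : EAct V N) (δ : N) (x : V) : A.L δ⁻¹ (A.L δ x) = x := by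
  have h3 := A.L_mul δ⁻¹ δ
  rw [inv_mul_cancel, A.L_one] at h3
  have h4 := congrArg (fun f : V →ₗ[ℝ] V => f x) h3
  exact h4.symm

theorem bieb_index [FiniteDimensional ℝ V] (A : EAct V N) :
    ∃ F : Set N, F.Finite ∧ ∀ γ, ∃ δ ∈ F, A.L (δ⁻¹ * γ) = LinearMap.id := by
  let Φ : N → V →L[ℝ] V := fun γ => LinearMap.toContinuousLinearMap (A.L γ)
  have hΦ : ∀ γ x, Φ γ x = A.L γ x := fun γ x => rfl
  have : ProperSpace (V →L[ℝ] V) := FiniteDimensional.proper ℝ _
  have hsub : range Φ ⊆ closedBall (0 : V →L[ℝ] V) 1 := by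
    rintro _ ⟨γ, rfl⟩
    rw [mem_closedBall_zero_iff]
    refine ContinuousLinearMap.opNorm_le_bound _ zero_le_one fun x => ?_
    rw [hΦ, A.iso, one_mul]
  obtain ⟨t, ht, htf, hcov⟩ := finite_approx_of_totallyBounded
    ((isCompact_closedBall (0 : V →L[ℝ] V) 1).totallyBounded.subset hsub) (1 / 2) (by norm_num)
  have hex : ∀ y ∈ t, ∃ γ, Φ γ = y := fun y hy => ht hy
  choose! g hg using hex
  refine ⟨g '' t, htf.image g, fun γ => ?_⟩
  have h1 := hcov (mem_range_self γ)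
  rw [mem_iUnion₂] at h1
  obtain ⟨y, hy, h2⟩ := h1
  refine ⟨g y, mem_image_of_mem g hy, small_trivial A fun x => ?_⟩
  have h3 : A.L ((g y)⁻¹ * γ) x - x = A.L (g y)⁻¹ (A.L γ x - A.L (g y) x) := by
    rw [map_sub, A.L_inv_apply, A.L_mul]
    rfl
  rw [h3, A.iso]
  have h4 : A.L γ x - A.L (g y) x = (Φ γ - y) x := by
    have h5 : A.L (g y) x = y x := by
      rw [← hΦ, hg y hy]
    rw [h5]
    rfl
  rw [h4]
  refine (ContinuousLinearMap.le_opNorm _ x).trans ?_
  refine mul_le_mul_of_nonneg_right ?_ (norm_nonneg x)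
  rw [mem_ball, dist_eq_norm] at h2
  exact h2.le

end Pool.Agent.H.MP_e23cd6_ag.AK
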