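import Pool.Agent.H.MP_e23cd6_ag.AK.Defs

/-!
ABUK DetB: the complex Jacobian of a fibrewise affine action on (domain) × ℂ^k is the product of the Jacobian on
the base and the determinant of the linear part in the fibre.
-/

open Set Filter Topology Metric

namespace Pool.Agent.H.MP_e23cd6_ag.AK

open Pool.Agent.H.MP_e23cd6_ag.AB

variable {n kk : ℕ} {Ω : Dom n} {Γ : Type} [Group Γ]

/-- determinant of a block triangular endomorphism of `ℂ^n × ℂ^k` -/
theorem det_prod_tri_kk (T : (E n × E kk) →ₗ[ℂ] (E n × E kk)) (P : E n →ₗ[ℂ] E n)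
    (Q : E kk →ₗ[ℂ] E kk) (h1 : ∀ v w, (T (v, w)).1 = P v) (h2 : ∀ w, (T (0, w)).2 = Q w) :
    LinearMap.det T = LinearMap.det P * LinearMap.det Q := by
  classical
  let b1 : Module.Basis (Fin n) ℂ (E n) := Pi.basisFun ℂ (Fin n)
  let b2 : Module.Basis (Fin kk) ℂ (E kk) := Pi.basisFun ℂ (Fin kk)
  rw [← LinearMap.det_toMatrix (b1.prod b2) T, ← LinearMap.det_toMatrix b1 P,
    ← LinearMap.det_toMatrix b2 Q]
  have hM : LinearMap.toMatrix (b1.prod b2) (b1.prod b2) T =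
      Matrix.fromBlocks (LinearMap.toMatrix b1 b1 P) 0
        (Matrix.of fun (i : Fin kk) j => (T (b1 j, 0)).2 i) (LinearMap.toMatrix b2 b2 Q) := by
    ext i j
    rcases i with i | i <;> rcases j with j | j
    · simp [LinearMap.toMatrix_apply, h1]
    · simp [LinearMap.toMatrix_apply, h1]
    · simp [LinearMap.toMatrix_apply, b1, b2]
    · simp [LinearMap.toMatrix_apply, h2, b2]
  rw [hM, Matrix.det_fromBlocks_zero₁₂]

theorem det_act (A : FibAct Ω kk Γ) (γ : Γ) {b : E n} (hb : b ∈ Ω.D) (z : E kk) :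
    (fderiv ℂ (A.act γ) (b, z)).det = (fderiv ℂ (A.β γ) b).det * (A.L γ b).det := by
  have hN : Ω.D ∈ 𝓝 b := Ω.isOpen.mem_nhds hb
  have dβ : HasFDerivAt (A.β γ) (fderiv ℂ (A.β γ) b) b :=
    ((A.holo γ).differentiableAt hN).hasFDerivAt
  have da : HasFDerivAt (A.L γ) (fderiv ℂ (A.L γ) b) b :=
    ((A.L_holo γ).differentiableAt hN).hasFDerivAt
  have dc : HasFDerivAt (A.c γ) (fderiv ℂ (A.c γ) b) b :=
    ((A.c_holo γ).differentiableAt hN).hasFDerivAt
  have hfst : HasFDerivAt (fun x : E n × E kk => x.1) (ContinuousLinearMap.fst ℂ (E n) (E kk))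
      (b, z) := hasFDerivAt_fst
  have hsnd : HasFDerivAt (fun x : E n × E kk => x.2) (ContinuousLinearMap.snd ℂ (E n) (E kk))
      (b, z) := hasFDerivAt_snd
  have dβ' : HasFDerivAt (fun x : E n × E kk => A.β γ x.1)
      ((fderiv ℂ (A.β γ) b).comp (ContinuousLinearMap.fst ℂ (E n) (E kk))) (b, z) :=
    HasFDerivAt.comp (b, z) (g := A.β γ) (f := fun x : E n × E kk => x.1) dβ hfst
  have da' : HasFDerivAt (fun x : E n × E kk => A.L γ x.1)
      ((fderiv ℂ (A.L γ) b).comp (ContinuousLinearMap.fst ℂ (E n) (E kk))) (b, z) :=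
    HasFDerivAt.comp (b, z) (g := A.L γ) (f := fun x : E n × E kk => x.1) da hfst
  have dc' : HasFDerivAt (fun x : E n × E kk => A.c γ x.1)
      ((fderiv ℂ (A.c γ) b).comp (ContinuousLinearMap.fst ℂ (E n) (E kk))) (b, z) :=
    HasFDerivAt.comp (b, z) (g := A.c γ) (f := fun x : E n × E kk => x.1) dc hfst
  have d2 := (da'.clm_apply hsnd).add dc'
  have d3 := dβ'.prodMk d2
  have hev : A.act γ =ᶠ[𝓝 (b, z)] fun x : E n × E kk => (A.β γ x.1, A.L γ x.1 x.2 + A.c γ x.1) := by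
    have hN' : Ω.D ×ˢ (univ : Set (E kk)) ∈ 𝓝 ((b, z) : E n × E kk) :=
      (Ω.isOpen.prod isOpen_univ).mem_nhds ⟨hb, trivial⟩
    filter_upwards [hN'] with x hx
    exact A.act_eq γ x.1 hx.1 x.2
  have d4 := d3.congr_of_eventuallyEq hev
  rw [d4.fderiv]
  refine det_prod_tri_kk _ _ _ ?_ ?_
  · intro v w
    rfl
  · intro w
    simp

end Pool.Agent.H.MP_e23cd6_ag.AK
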