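import Pool.Agent.H.MP_e23cd6_ag.AK.G4
import Pool.Agent.H.MP_e23cd6_ag.AB.G5b
import Pool.Agent.H.MP_e23cd6_ag.AB.G5c

/-!
ABUN G6: unfolding. For a continuous m on M with m(act δ x) = m x + k δ the integral of m Lap χ vanishes.

* `change_var`: `integral_image_eq_integral_abs_det_fderiv_smul` for s = M, f = act γ (injective on M with image M:
  act γ⁻¹), the real derivative is the restriction of scalars of the complex one, its determinant is |det|²
  (`LinearMap.det_restrictScalars`, `Complex.abs_...`/ Algebra.norm ℝ on ℂ is normSq).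
* `int_inv_zero`: f continuous on M, f(act γ x) = f x on M. S = tsupport χ. For x ∈ S: 1 = Σᶠ_γ χ(act γ x), and only γ in the finite set
  F = {γ | ∃ x ∈ S, act γ x ∈ S} (act_pd) contribute: so f Lap χ = Σ_{γ∈F} f (χ ∘ act γ) Lap χ on S, and both sides are 0 outside S. For each γ
  (integrals over M; all functions are continuous with compact support in M, where supp χ ∘ act γ ∩ S is compact):
  ∫_M f(x) χ(act γ x) Lap χ(x) dx = ∫_M G(act γ x)|det|² dx with G(y) = f(y) χ(y) Lap χ(act γ⁻¹ y)|det D act γ⁻¹(y)|² (chain rule: the two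
  determinants multiply to 1) = ∫_M f χ (Lap χ ∘ act γ⁻¹)|det D act γ⁻¹|² = ∫_M f χ Lap (χ ∘ act γ⁻¹) by `lap_comp`. Sum over γ ∈ F:
  ∫_M f χ Σ_{γ∈F} Lap(χ ∘ act γ⁻¹); at x ∈ S, near x: Σ_{γ∈F'} χ(act γ⁻¹ y) = 1 where F' ⊇ F⁻¹.. is the finite set for a compact
  neighbourhood of S, the terms not in F vanish near ... (take F for a compact neighbourhood S' of S in M from the start:
  F = {γ | ∃ x ∈ S', act γ x ∈ S'} is closed under inverse, for x in the interior of S' all other terms vanish near x). So the sum is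
  Lap(1) = 0 (`lap_sum`, `lap_congr`, `lap_const`).
* `int_zero`: u0 from `exists_u0`. m - u0 is invariant: ∫ (m - u0) Lap χ = 0. ∫ u0 Lap χ = ∫ χ Lap u0 (`lap_symm`), near S
  u0 = -Σ_{γ∈F} k γ χ ∘ act γ, so ∫ u0 Lap χ = -Σ_{γ∈F} k γ B_γ, B_γ = ∫ χ Lap(χ ∘ act γ). B_{γ⁻¹} = B_γ: by the change of variables above
  (f = 1) ∫ χ Lap(χ ∘ act γ⁻¹) = ∫ (χ ∘ act γ) Lap χ = ∫ χ Lap (χ ∘ act γ) by `lap_symm` (φ = χ ∘ act γ is smooth on M). As k γ⁻¹ = -k γ and F = F⁻¹ the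
  sum equals its negative.
Smoothness of act γ over ℝ: `holo_fderiv`/`Pool.Agent.ParLeaf.scv_contDiffOn` and restriction of scalars (ContDiffOn.restrict_scalars).
-/

open Set Filter Topology Metric Complex MeasureTheory
open scoped ContDiff ComplexConjugate

namespace Pool.Agent.H.MP_e23cd6_ag.AK

open Pool.Agent.H.MP_e23cd6_ag.AB

variable {n kk : ℕ} {Ω : Dom n} {Γ : Type} [Group Γ]

theorem G6_inv_left (A : TotAct Ω kk Γ) (γ : Γ) {x : E n × E kk} (hx : x ∈ (TM Ω kk)) :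
    A.act γ⁻¹ (A.act γ x) = x := by
  rw [← act_mul A _ _ hx, inv_mul_cancel, act_one A hx]

theorem G6_inv_right (A : TotAct Ω kk Γ) (γ : Γ) {x : E n × E kk} (hx : x ∈ (TM Ω kk)) :
    A.act γ (A.act γ⁻¹ x) = x := by
  rw [← act_mul A _ _ hx, mul_inv_cancel, act_one A hx]

theorem G6_inj (A : TotAct Ω kk Γ) (γ : Γ) : InjOn (A.act γ) (TM Ω kk) := by
  intro x hx y hy hxy
  rw [← G6_inv_left A γ hx, ← G6_inv_left A γ hy, hxy]

theorem G6_image (A : TotAct Ω kk Γ) (γ : Γ) : A.act γ '' (TM Ω kk) = (TM Ω kk) :=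
  Subset.antisymm (image_subset_iff.2 (act_maps A γ)) fun x hx =>
    ⟨A.act γ⁻¹ x, act_maps A γ⁻¹ hx, G6_inv_right A γ hx⟩

theorem G6_det (L : (E n × E kk) →L[ℂ] (E n × E kk)) :
    |(L.restrictScalars ℝ).det| = ‖L.det‖ ^ 2 := by
  have h1 : (L.restrictScalars ℝ).det =
      LinearMap.det (((L : (E n × E kk) →ₗ[ℂ] (E n × E kk))).restrictScalars ℝ) := rfl
  rw [h1, LinearMap.det_restrictScalars, Algebra.norm_complex_apply, Complex.normSq_eq_norm_sq,
    abs_of_nonneg (by positivity)]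

theorem G6_haar (n kk : ℕ) : (volume : Measure (E n × E kk)).IsAddHaarMeasure :=
  Measure.prod.instIsAddHaarMeasure _ _

theorem change_var (A : TotAct Ω kk Γ) (γ : Γ) (G : E n × E kk → ℝ) :
    ∫ x in (TM Ω kk), ‖(fderiv ℂ (A.act γ) x).det‖ ^ 2 * G (A.act γ x) = ∫ x in (TM Ω kk), G x := by
  have h1 : ∀ x ∈ (TM Ω kk), HasFDerivWithinAt (A.act γ)
      ((fderiv ℂ (A.act γ) x).restrictScalars ℝ) (TM Ω kk) x := fun x hx =>
    (((act_holo A γ x hx).differentiableAt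
      ((TM_open Ω kk).mem_nhds hx)).hasFDerivAt.restrictScalars ℝ).hasFDerivWithinAt
  have := G6_haar n kk
  have h2 := integral_image_eq_integral_abs_det_fderiv_smul volume (TM_open Ω kk).measurableSet h1
    (G6_inj A γ) G
  rw [G6_image] at h2
  rw [h2]
  refine setIntegral_congr_fun (TM_open Ω kk).measurableSet fun x _ => ?_
  simp only [smul_eq_mul]
  rw [G6_det]

variable {ι : Type} [Fintype ι] [DecidableEq ι]

theorem G6_lev_cont {M : Set (E n × E kk)} (hM : IsOpen M) {φ : E n × E kk → ℝ}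
    (hφ : ContDiffOn ℝ ∞ φ M) (v w : E n × E kk) : ContinuousOn (fun x => lev φ x v w) M := by
  have h1 : ContDiffOn ℝ ∞ (fderiv ℝ φ) M := hφ.fderiv_of_isOpen hM (by simp)
  have h2 : ContDiffOn ℝ ∞ (fderiv ℝ (fderiv ℝ φ)) M := h1.fderiv_of_isOpen hM (by simp)
  have h3 : ∀ a b : E n × E kk, ContinuousOn (fun x => ((fderiv ℝ (fderiv ℝ φ) x a b : ℝ) : ℂ)) M :=
    fun a b => Complex.continuous_ofReal.comp_continuousOn
      ((h2.continuousOn.clm_apply continuousOn_const).clm_apply continuousOn_const)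
  exact continuousOn_const.mul (((h3 v w).add (h3 (I • v) (I • w))).add
    (continuousOn_const.mul ((h3 v (I • w)).sub (h3 (I • v) w))))

theorem G6_lap_cont {M : Set (E n × E kk)} (hM : IsOpen M) (e : Module.Basis ι ℂ (E n × E kk))
    (h : KMet M) {φ : E n × E kk → ℝ} (hφ : ContDiffOn ℝ ∞ φ M) :
    ContinuousOn (fun x => Lap e h φ x) M := by
  have h1 : (fun x => Lap e h φ x) = fun x =>
      (∑ i, ∑ j, (Hmat e h x).adjugate i j * lev φ x (e j) (e i)).re := by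
    funext x
    simp only [Lap, Matrix.trace, Matrix.diag_apply, Matrix.mul_apply, Lmat, Matrix.of_apply]
  rw [h1]
  refine Complex.continuous_re.comp_continuousOn ?_
  refine continuousOn_finsetSum _ fun i _ => continuousOn_finsetSum _ fun j _ => ?_
  exact (adj_smooth e h i j).continuousOn.mul (G6_lev_cont hM hφ _ _)

theorem G6_lap_off {M : Set (E n × E kk)} (e : Module.Basis ι ℂ (E n × E kk))
    (h : KMet M) {χ : E n × E kk → ℝ} {x : E n × E kk} (hx : x ∉ tsupport χ) :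
    Lap e h χ x = 0 := by
  have h1 : χ =ᶠ[𝓝 x] fun _ => 0 := by
    filter_upwards [(isClosed_tsupport χ).isOpen_compl.mem_nhds hx] with y hy
    exact image_eq_zero_of_notMem_tsupport hy
  rw [lap_congr e h h1, lap_const]

theorem G6_int {S : Set (E n × E kk)} (hS : IsCompact S) {g : E n × E kk → ℝ} (hg : ContinuousOn g S)
    (h0 : ∀ x, x ∉ S → g x = 0) : Integrable g := by
  have h1 : IntegrableOn g S := hg.integrableOn_compact hS
  refine (integrableOn_iff_integrable_of_support_subset ?_).1 h1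
  intro x hx
  by_contra hxs
  exact hx (h0 x hxs)

theorem G6_two {φ : E n × E kk → ℝ} {x : E n × E kk} (hφ : ContDiffAt ℝ ∞ φ x) :
    ContDiffAt ℝ 2 φ x := by
  exact_mod_cast contDiffAt_infty.1 hφ 2

theorem G6_swap (A : TotAct Ω kk Γ) (h : KMet (TM Ω kk)) (hinv : InvMet A h)
    (e : Module.Basis ι ℂ (E n × E kk)) {χ : E n × E kk → ℝ} (hχ : ContDiff ℝ ∞ χ)
    (hs : tsupport χ ⊆ (TM Ω kk)) {f : E n × E kk → ℝ}
    (γ : Γ) (hfi : ∀ x ∈ (TM Ω kk), f (A.act γ x) = f x) :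
    ∫ x, f x * (χ (A.act γ x) * Lap e h χ x) =
      ∫ x, f x * (χ x * Lap e h (fun y => χ (A.act γ⁻¹ y)) x) := by
  have h1 : ∫ x in (TM Ω kk), f x * (χ (A.act γ x) * Lap e h χ x) =
      ∫ x, f x * (χ (A.act γ x) * Lap e h χ x) := by
    refine setIntegral_eq_integral_of_forall_compl_eq_zero fun x hx => ?_
    rw [G6_lap_off e h fun hx' => hx (hs hx'), mul_zero, mul_zero]
  have h2 : ∫ x in (TM Ω kk), f x * (χ x * Lap e h (fun y => χ (A.act γ⁻¹ y)) x) =
      ∫ x, f x * (χ x * Lap e h (fun y => χ (A.act γ⁻¹ y)) x) := by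
    refine setIntegral_eq_integral_of_forall_compl_eq_zero fun x hx => ?_
    rw [image_eq_zero_of_notMem_tsupport fun hx' => hx (hs hx'), zero_mul, mul_zero]
  rw [← h1, ← h2, ← change_var A γ⁻¹]
  refine setIntegral_congr_fun (TM_open Ω kk).measurableSet fun x hx => ?_
  have hx' : A.act γ⁻¹ x ∈ (TM Ω kk) := act_maps A γ⁻¹ hx
  have hf : f (A.act γ⁻¹ x) = f x := by
    rw [← hfi _ hx', G6_inv_right A γ hx]
  have h3 : Lap e h (fun y => χ (A.act γ⁻¹ y)) x =
      ‖(fderiv ℂ (A.act γ⁻¹) x).det‖ ^ 2 * Lap e h χ (A.act γ⁻¹ x) :=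
    lap_comp e h (TM_open Ω kk) (act_holo A γ⁻¹) hx hx' (hinv γ⁻¹ x hx)
      (G6_two hχ.contDiffAt)
  rw [hf, h3, G6_inv_right A γ hx]
  ring

/-- the set of group elements moving S' to meet itself -/
theorem G6_F (A : TotAct Ω kk Γ) {S' : Set (E n × E kk)} (hS' : S' ⊆ (TM Ω kk)) (hc' : IsCompact S')
    {χ : E n × E kk → ℝ} (hs : tsupport χ ⊆ S') :
    ∃ F : Finset Γ, (∀ γ, γ ∈ F → γ⁻¹ ∈ F) ∧
      ∀ x ∈ S', ∀ γ, γ ∉ F → χ (A.act γ x) = 0 := by
  have hfin := act_pd A hS' hc' hS' hc'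
  refine ⟨hfin.toFinset, fun γ hγ => ?_, fun x hx γ hγ => ?_⟩
  · rw [Set.Finite.mem_toFinset] at hγ ⊢
    obtain ⟨x, hx, hx'⟩ := hγ
    exact ⟨A.act γ x, hx', by rwa [G6_inv_left A γ (hS' hx)]⟩
  · by_contra h0
    exact hγ ((Set.Finite.mem_toFinset hfin).2 ⟨x, hx, hs (subset_tsupport _ h0)⟩)

theorem G6_sum (A : TotAct Ω kk Γ) {χ : E n × E kk → ℝ} (w : Γ → ℝ) {F : Finset Γ} {x : E n × E kk}
    (hF : ∀ γ, γ ∉ F → χ (A.act γ x) = 0) :
    ∑ᶠ γ, w γ * χ (A.act γ x) = ∑ γ ∈ F, w γ * χ (A.act γ x) := by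
  apply finsum_eq_sum_of_support_subset
  intro γ hγ
  rw [Finset.mem_coe]
  by_contra h0
  exact hγ (by simp only; rw [hF γ h0, mul_zero])

theorem G6_smooth (A : TotAct Ω kk Γ) {χ : E n × E kk → ℝ} (hχ : ContDiff ℝ ∞ χ) (γ : Γ) :
    ContDiffOn ℝ ∞ (fun y => χ (A.act γ y)) (TM Ω kk) :=
  hχ.comp_contDiffOn (G4_smooth A γ)

theorem G6_smooth2 (A : TotAct Ω kk Γ) {χ : E n × E kk → ℝ} (hχ : ContDiff ℝ ∞ χ) (γ : Γ)
    {x : E n × E kk} (hx : x ∈ (TM Ω kk)) : ContDiffAt ℝ 2 (fun y => χ (A.act γ y)) x :=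
  G6_two ((G6_smooth A hχ γ).contDiffAt ((TM_open Ω kk).mem_nhds hx))

theorem G6_inv_sum {F : Finset Γ} (hF : ∀ γ, γ ∈ F → γ⁻¹ ∈ F) (w : Γ → ℝ) :
    ∑ γ ∈ F, w γ = ∑ γ ∈ F, w γ⁻¹ := by
  refine Finset.sum_nbij' (fun γ => γ⁻¹) (fun γ => γ⁻¹) hF hF ?_ ?_ ?_
  · intro γ _
    simp
  · intro γ _
    simp
  · intro γ _
    simp

theorem int_inv_zero (A : TotAct Ω kk Γ) (h : KMet (TM Ω kk)) (hinv : InvMet A h)
    (e : Module.Basis ι ℂ (E n × E kk)) {χ : E n × E kk → ℝ} (hχ : ContDiff ℝ ∞ χ)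
    (hc : HasCompactSupport χ) (hs : tsupport χ ⊆ (TM Ω kk))
    (h1 : ∀ x ∈ (TM Ω kk), ∑ᶠ γ, χ (A.act γ x) = 1) {f : E n × E kk → ℝ} (hf : ContinuousOn f (TM Ω kk))
    (hfi : ∀ γ, ∀ x ∈ (TM Ω kk), f (A.act γ x) = f x) :
    ∫ x, f x * Lap e h χ x = 0 := by
  obtain ⟨S', hc', hsS', hS'M⟩ := exists_compact_between hc (TM_open Ω kk) hs
  obtain ⟨F, hFi, hF⟩ := G6_F A hS'M hc' (hsS'.trans interior_subset)
  have hsum : ∀ x ∈ S', ∑ γ ∈ F, χ (A.act γ x) = 1 := by
    intro x hx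
    have h2 := G6_sum A (χ := χ) (fun _ => 1) (hF x hx)
    simp only [one_mul] at h2
    rw [← h2, h1 x (hS'M hx)]
  have hS : tsupport χ ⊆ S' := hsS'.trans interior_subset
  have hlapc : ContinuousOn (fun x => Lap e h χ x) (TM Ω kk) := G6_lap_cont (TM_open Ω kk) e h hχ.contDiffOn
  -- step 1
  have e1 : (fun x => f x * Lap e h χ x) =
      fun x => ∑ γ ∈ F, f x * (χ (A.act γ x) * Lap e h χ x) := by
    funext x
    by_cases hx : x ∈ tsupport χ
    · rw [← Finset.mul_sum, ← Finset.sum_mul, hsum x (hS hx), one_mul]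
    · simp only [G6_lap_off e h hx, mul_zero, Finset.sum_const_zero]
  have i1 : ∀ γ ∈ F, Integrable fun x => f x * (χ (A.act γ x) * Lap e h χ x) := by
    intro γ _
    refine G6_int hc ?_ fun x hx => ?_
    · exact (hf.mul ((G6_smooth A hχ γ).continuousOn.mul hlapc)).mono hs
    · rw [G6_lap_off e h hx, mul_zero, mul_zero]
  have i2 : ∀ γ ∈ F, Integrable fun x => f x * (χ x * Lap e h (fun y => χ (A.act γ⁻¹ y)) x) := by
    intro γ _
    refine G6_int hc ?_ fun x hx => ?_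
    · exact (hf.mul (hχ.continuous.continuousOn.mul
        (G6_lap_cont (TM_open Ω kk) e h (G6_smooth A hχ γ⁻¹)))).mono hs
    · rw [image_eq_zero_of_notMem_tsupport hx, zero_mul, mul_zero]
  rw [e1, integral_finsetSum _ i1]
  rw [Finset.sum_congr rfl fun γ _ => G6_swap A h hinv e hχ hs γ (hfi γ)]
  rw [← integral_finsetSum _ i2]
  have e2 : (fun x => ∑ γ ∈ F, f x * (χ x * Lap e h (fun y => χ (A.act γ⁻¹ y)) x)) =
      fun _ => (0 : ℝ) := by
    funext x
    by_cases hx : x ∈ tsupport χ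
    · rw [← Finset.mul_sum, ← Finset.mul_sum,
        ← lap_sum e h F fun γ _ => G6_smooth2 A hχ γ⁻¹ (hs hx)]
      have h2 : (fun y => ∑ γ ∈ F, χ (A.act γ⁻¹ y)) =ᶠ[𝓝 x] fun _ => 1 := by
        filter_upwards [isOpen_interior.mem_nhds (hsS' hx)] with y hy
        rw [← hsum y (interior_subset hy), G6_inv_sum hFi fun γ => χ (A.act γ y)]
      rw [lap_congr e h h2, lap_const, mul_zero, mul_zero]
    · simp only [image_eq_zero_of_notMem_tsupport hx, zero_mul, mul_zero, Finset.sum_const_zero]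
  rw [e2]
  simp

theorem int_zero (A : TotAct Ω kk Γ) (h : KMet (TM Ω kk)) (hinv : InvMet A h)
    (e : Module.Basis ι ℂ (E n × E kk)) (k : Γ → ℝ) (hk : ∀ γ δ, k (γ * δ) = k γ + k δ)
    {χ : E n × E kk → ℝ} (hχ : ContDiff ℝ ∞ χ)
    (hc : HasCompactSupport χ) (hs : tsupport χ ⊆ (TM Ω kk))
    (h1 : ∀ x ∈ (TM Ω kk), ∑ᶠ γ, χ (A.act γ x) = 1) {m : E n × E kk → ℝ} (hm : ContinuousOn m (TM Ω kk))
    (hmk : ∀ γ, ∀ x ∈ (TM Ω kk), m (A.act γ x) = m x + k γ) :
    ∫ x, m x * Lap e h χ x = 0 := by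
  have := G6_haar n kk
  obtain ⟨u0, hu1, hu2, hu3⟩ := exists_u0 A k hk hχ hc hs h1
  obtain ⟨S', hc', hsS', hS'M⟩ := exists_compact_between hc (TM_open Ω kk) hs
  obtain ⟨F, hFi, hF⟩ := G6_F A hS'M hc' (hsS'.trans interior_subset)
  have hlapc : ContinuousOn (fun x => Lap e h χ x) (TM Ω kk) := G6_lap_cont (TM_open Ω kk) e h hχ.contDiffOn
  have hz := int_inv_zero A h hinv e hχ hc hs h1 (f := fun x => m x - u0 x)
    (hm.sub hu1.continuousOn) (fun γ x hx => by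
      rw [hmk γ x hx, hu3 γ x hx]
      ring)
  have i0 : Integrable fun x => (m x - u0 x) * Lap e h χ x := by
    refine G6_int hc (((hm.sub hu1.continuousOn).mul hlapc).mono hs) fun x hx => ?_
    rw [G6_lap_off e h hx, mul_zero]
  have i1 : Integrable fun x => u0 x * Lap e h χ x := by
    refine G6_int hc ((hu1.continuousOn.mul hlapc).mono hs) fun x hx => ?_
    rw [G6_lap_off e h hx, mul_zero]
  have e1 : (fun x => m x * Lap e h χ x) =
      fun x => (m x - u0 x) * Lap e h χ x + u0 x * Lap e h χ x := by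
    funext x
    ring
  rw [e1, integral_add i0 i1, hz, zero_add, lap_symm volume (TM_open Ω kk) e h hu1 hχ hc hs]
  set B : Γ → ℝ := fun γ => ∫ x, χ x * Lap e h (fun y => χ (A.act γ y)) x with hB
  have e2 : (fun x => χ x * Lap e h u0 x) =
      fun x => ∑ γ ∈ F, -k γ * (χ x * Lap e h (fun y => χ (A.act γ y)) x) := by
    funext x
    by_cases hx : x ∈ tsupport χ
    · have h2 : u0 =ᶠ[𝓝 x] fun y => ∑ γ ∈ F, -k γ * χ (A.act γ y) := by
        filter_upwards [isOpen_interior.mem_nhds (hsS' hx)] with y hy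
        rw [hu2 y (hS'M (interior_subset hy)), G6_sum A k (hF y (interior_subset hy)),
          ← Finset.sum_neg_distrib]
        refine Finset.sum_congr rfl fun γ _ => ?_
        ring
      rw [lap_congr e h h2, lap_sum e h F fun γ _ =>
        contDiffAt_const.mul (G6_smooth2 A hχ γ (hs hx)), Finset.mul_sum]
      refine Finset.sum_congr rfl fun γ _ => ?_
      rw [lap_smul e h (G6_smooth2 A hχ γ (hs hx))]
      ring
    · simp only [image_eq_zero_of_notMem_tsupport hx, zero_mul, mul_zero, Finset.sum_const_zero]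
  have i2 : ∀ γ ∈ F, Integrable fun x =>
      -k γ * (χ x * Lap e h (fun y => χ (A.act γ y)) x) := by
    intro γ _
    refine Integrable.const_mul ?_ _
    refine G6_int hc ((hχ.continuous.continuousOn.mul
        (G6_lap_cont (TM_open Ω kk) e h (G6_smooth A hχ γ))).mono hs) fun x hx => ?_
    rw [image_eq_zero_of_notMem_tsupport hx, zero_mul]
  rw [e2, integral_finsetSum _ i2]
  simp only [integral_const_mul]
  have hBinv : ∀ γ, B γ⁻¹ = B γ := by
    intro γ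
    have h2 := G6_swap A h hinv e hχ hs (f := fun _ => 1) γ fun _ _ => rfl
    simp only [one_mul] at h2
    have h3 := lap_symm volume (TM_open Ω kk) e h (G6_smooth A hχ γ) hχ hc hs
    show ∫ x, χ x * Lap e h (fun y => χ (A.act γ⁻¹ y)) x =
      ∫ x, χ x * Lap e h (fun y => χ (A.act γ y)) x
    rw [← h2, h3]
  have hkinv : ∀ γ, k γ⁻¹ = -k γ := by
    intro γ
    have h2 : k 1 = 0 := by
      have := hk 1 1
      rw [mul_one] at this
      linarith
    have h3 := hk γ⁻¹ γ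
    rw [inv_mul_cancel, h2] at h3
    linarith
  have h4 : ∑ γ ∈ F, -k γ * B γ = ∑ γ ∈ F, k γ * B γ := by
    rw [G6_inv_sum hFi fun γ => -k γ * B γ]
    refine Finset.sum_congr rfl fun γ _ => ?_
    rw [hBinv, hkinv, neg_neg]
  have h5 : ∑ γ ∈ F, -k γ * B γ = -∑ γ ∈ F, k γ * B γ := by
    rw [← Finset.sum_neg_distrib]
    refine Finset.sum_congr rfl fun γ _ => ?_
    ring
  show ∑ γ ∈ F, -k γ * B γ = 0
  linarith

end Pool.Agent.H.MP_e23cd6_ag.AK
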