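import Pool.Agent.H.MP_e23cd6_ag.AB.A6

/-!
ABUK K5a: an entire function which is quasi periodic for real spanning periods is affine.

Proof. `F = fderiv ℂ f : E kk → (E kk →L[ℂ] ℂ)` is holomorphic (`holo_fderiv`, AB/A6, U = univ) and `F (z + c i) = F z` for all i (differentiate `f (z + c i) = f z + κ i`: `fderiv_comp_add_right`, `fderiv_add_const`). Hence `F (z + v) = F z` for every v in the additive group generated by the c i. `E kk` is
finite dimensional over ℝ, so there is a finite set J of indices with `span ℝ (c '' J) = ⊤` (`Submodule.fg_of...`: e.g. `exists_linearIndependent`-extraction or `Submodule.fg_top` + `Submodule.exists_finset_span_eq`...; or choose a basis from the spanning range: `Module.Basis.extend`-type /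
`exists_fun_fin_finrank_span_eq`, `Module.Basis.ofSpan`/`Basis.mk`). Every z is `Σ_{j∈J} x_j c_j` with real x_j; z - Σ ⌊x_j⌋ c_j = Σ fract(x_j) c_j has norm `≤ R = Σ_j ‖c_j‖`. So `F z = F (z')` with `‖z'‖ ≤ R`, and F is bounded (continuous on the compact ball). By Liouville
(`Differentiable.apply_eq_apply_of_bounded`) F is constant, `F z = F 0`, so `z ↦ f z - F 0 z` has derivative 0 and is constant (`is_const_of_fderiv_eq_zero`): `f z = f 0 + fderiv ℂ f 0 z`.
-/

open Set Filter Topology Metric

namespace Pool.Agent.H.MP_e23cd6_ag.AK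

open Pool.Agent.H.MP_e23cd6_ag.AB

theorem entire_quasi {kk : ℕ} {f : E kk → ℂ} (hf : Differentiable ℂ f) {ι : Type} (c : ι → E kk)
    (κ : ι → ℂ) (hspan : Submodule.span ℝ (range c) = ⊤) (h : ∀ i z, f (z + c i) = f z + κ i) :
    ∀ z, f z = f 0 + fderiv ℂ f 0 z := by
  have hF : Differentiable ℂ (fderiv ℂ f) := by
    have := holo_fderiv (U := univ) isOpen_univ hf.differentiableOn
    exact differentiableOn_univ.1 this
  -- periods
  have hper : ∀ i z, fderiv ℂ f (z + c i) = fderiv ℂ f z := by
    intro i z
    have h1 : (fun z => f (z + c i)) = fun z => f z + κ i := funext fun z => h i z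
    have h2 := congrFun (congrArg (fun g => fderiv ℂ g) h1) z
    simpa only [fderiv_comp_add_right, fderiv_add_const] using h2
  obtain ⟨b, hbc, hbspan, hbli⟩ := exists_linearIndependent ℝ (range c)
  have hbfin : b.Finite := hbli.setFinite
  haveI : Fintype b := hbfin.fintype
  let B : Module.Basis b ℝ (E kk) := Module.Basis.mk hbli (by
    rw [Subtype.range_coe, hbspan, hspan])
  have hBapply : ∀ i, B i = (i : E kk) := fun i => by simp [B]
  have hz : ∀ v ∈ Submodule.span ℤ (range B), ∀ z, fderiv ℂ f (z + v) = fderiv ℂ f z := by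
    intro v hv
    refine Submodule.span_induction (p := fun v _ => ∀ z, fderiv ℂ f (z + v) = fderiv ℂ f z)
      ?_ ?_ ?_ ?_ hv
    · rintro _ ⟨i, rfl⟩ z
      obtain ⟨j, hj⟩ := hbc i.2
      rw [hBapply, ← hj]
      exact hper j z
    · intro z
      rw [add_zero]
    · intro x y _ _ hx hy z
      rw [← add_assoc, hy, hx]
    · intro a x _ hx z
      have hnat : ∀ (m : ℕ) (z : E kk), fderiv ℂ f (z + m • x) = fderiv ℂ f z := by
        intro m
        induction m with
        | zero => intro z; rw [zero_smul, add_zero]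
        | succ m ih => intro z; rw [succ_nsmul, ← add_assoc, hx, ih]
      rcases Int.eq_nat_or_neg a with ⟨m, rfl | rfl⟩
      · rw [natCast_zsmul]
        exact hnat m z
      · rw [neg_smul, natCast_zsmul]
        have := hnat m (z + -(m • x))
        rw [neg_add_cancel_right] at this
        exact this.symm
  have hbdd : Bornology.IsBounded (range (fderiv ℂ f)) := by
    have hcomp : IsCompact (fderiv ℂ f '' closedBall (0 : E kk) (∑ i, ‖B i‖)) :=
      (isCompact_closedBall _ _).image hF.continuous
    refine hcomp.isBounded.subset ?_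
    rintro _ ⟨z, rfl⟩
    refine ⟨ZSpan.fract B z, ?_, ?_⟩
    · rw [mem_closedBall_zero_iff]
      exact ZSpan.norm_fract_le B z
    · have h3 := hz _ (ZSpan.floor B z).2 (ZSpan.fract B z)
      rw [ZSpan.fract_apply, sub_add_cancel] at h3
      rw [ZSpan.fract_apply]
      exact h3.symm
  have hconst : ∀ z, fderiv ℂ f z = fderiv ℂ f 0 := fun z =>
    hF.apply_eq_apply_of_bounded hbdd z 0
  have hg : Differentiable ℂ (fun z => f z - fderiv ℂ f 0 z) :=
    hf.sub (fderiv ℂ f 0).differentiable
  have hg' : ∀ z, fderiv ℂ (fun z => f z - fderiv ℂ f 0 z) z = 0 := by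
    intro z
    have h4 : HasFDerivAt (fun z => f z - fderiv ℂ f 0 z) (fderiv ℂ f z - fderiv ℂ f 0) z :=
      (hf z).hasFDerivAt.sub (fderiv ℂ f 0).hasFDerivAt
    rw [h4.fderiv, hconst z, sub_self]
  intro z
  have h5 := is_const_of_fderiv_eq_zero hg hg' z 0
  simp only [map_zero, sub_zero] at h5
  rw [← h5]
  ring

end Pool.Agent.H.MP_e23cd6_ag.AK
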