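import Pool.Agent.H.MP_e23cd6_ag.AK.K5a
import Pool.Agent.H.MP_e23cd6_ag.AK.Defs2

/-!
ABUK K5b: the imaginary part of the fibre metric on pairs of translations is constant on the base.

Proof: see /team-store/h44_e23cd6_AK_PROOF.md. `key_sym`: `k z = g b u w z - Θ z w` has complex conjugate an entire
function with quasi periods, hence is affine (K5a); `K v w = dzb (g b u w) 0 v`. `imH_const`: the (1,0)-derivative of
`φ_{s,t} x = H x (c_s x) (c_t x)` is `-K (c_s b) (c_t b)`, symmetric in `s, t`, hence the derivative of its imaginary part is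
zero.
-/

open Set Filter Topology Metric
open scoped ComplexConjugate

namespace Pool.Agent.H.MP_e23cd6_ag.AK

open Pool.Agent.H.MP_e23cd6_ag.AB

section

variable {V : Type} [NormedAddCommGroup V] [NormedSpace ℝ V] [NormedSpace ℂ V] [IsScalarTower ℝ ℂ V]

/-- a real linear map commuting with `I` is complex linear -/
noncomputable def k5b_cl (L : V →L[ℝ] ℂ) (h : ∀ v, L (Complex.I • v) = Complex.I * L v) : V →L[ℂ] ℂ where
  toFun := L
  map_add' := L.map_add
  map_smul' := by
    intro c v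
    have hc : c • v = c.re • v + c.im • (Complex.I • v) := by
      conv_lhs => rw [← Complex.re_add_im c]
      rw [add_smul, mul_smul]
      congr 1
      · rw [← algebraMap_smul ℂ c.re v]
        rfl
      · rw [← algebraMap_smul ℂ c.im (Complex.I • v)]
        rfl
    rw [hc, L.map_add, L.map_smul, L.map_smul, h]
    simp only [Complex.real_smul, RingHom.id_apply, smul_eq_mul]
    conv_rhs => rw [← Complex.re_add_im c]
    ring
  cont := L.cont

end

variable {n kk : ℕ} {Ω : Dom n} {Γ : Type} [Group Γ] {A : FibAct Ω kk Γ}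

theorem k5b_diffAt (M : FKM A) {b : E n} (hb : b ∈ Ω.D) (v w : E kk) :
    DifferentiableAt ℝ (fun x => M.H x v w) b :=
  (M.diff v w).differentiableAt (Ω.isOpen.mem_nhds hb)

/-- the linear map `v ↦ Θ v w` -/
noncomputable def k5b_T (M : FKM A) {b : E n} (hb : b ∈ Ω.D) (u : E n) (w : E kk) : E kk →ₗ[ℂ] ℂ where
  toFun := fun v => dz (fun x => M.H x v w) b u
  map_add' := by
    intro v v'
    have e : (fun x => M.H x (v + v') w) =ᶠ[𝓝 b] fun x => M.H x v w + M.H x v' w := by
      filter_upwards [Ω.isOpen.mem_nhds hb] with x hx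
      exact M.add_left x hx v v' w
    have e2 : fderiv ℝ (fun x => M.H x (v + v') w) b =
        fderiv ℝ (fun x => M.H x v w) b + fderiv ℝ (fun x => M.H x v' w) b := by
      rw [e.fderiv_eq]
      exact fderiv_add (k5b_diffAt M hb v w) (k5b_diffAt M hb v' w)
    unfold dz
    rw [e2]
    simp only [ContinuousLinearMap.add_apply]
    ring
  map_smul' := by
    intro a v
    have e : (fun x => M.H x (a • v) w) =ᶠ[𝓝 b] fun x => a * M.H x v w := by
      filter_upwards [Ω.isOpen.mem_nhds hb] with x hx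
      exact M.smul_left x hx a v w
    have e2 : fderiv ℝ (fun x => M.H x (a • v) w) b = a • fderiv ℝ (fun x => M.H x v w) b := by
      rw [e.fderiv_eq]
      exact fderiv_const_mul (k5b_diffAt M hb v w) a
    unfold dz
    rw [e2]
    simp only [ContinuousLinearMap.smul_apply, smul_eq_mul, RingHom.id_apply]
    ring

theorem key_sym (Λ : Lat A) (M : FKM A) {b : E n} (hb : b ∈ Ω.D) (u : E n) :
    ∃ K : E kk → E kk → ℂ, (∀ v w, K v w = K w v) ∧ ∀ t ∈ trN A, ∀ w,
      M.H b (fderiv ℂ (A.c t) b u) w =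
        -dz (fun x => M.H x (A.c t b) w) b u - K (A.c t b) w := by
  refine ⟨fun v w => dzb (M.g b u w) 0 v, fun v w => M.g_dzb b hb u w 0 v, fun t ht w => ?_⟩

  set T : E kk →L[ℂ] ℂ := LinearMap.toContinuousLinearMap (k5b_T M hb u w) with hT
  have hTv : ∀ v, T v = dz (fun x => M.H x v w) b u := fun v => rfl
  set G : E kk → ℂ := M.g b u w with hG
  have hGd : Differentiable ℝ G := M.g_diff b hb u w
  have hTd : Differentiable ℝ (fun z => T z) := (T.restrictScalars ℝ).differentiable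
  have hTf : ∀ z, fderiv ℝ (fun z => T z) z = T.restrictScalars ℝ := fun z =>
    (T.restrictScalars ℝ).fderiv
  have hdz : ∀ z v, fderiv ℝ G z v - Complex.I * fderiv ℝ G z (Complex.I • v) = 2 * T v := by
    intro z v
    have := M.g_dz b hb u w z v
    rw [← hTv v] at this
    unfold dz at this
    linear_combination 2 * this
  set k : E kk → ℂ := fun z => G z - T z with hk
  have hkd : Differentiable ℝ k := hGd.sub hTd
  have hkf : ∀ z v, fderiv ℝ k z v = fderiv ℝ G z v - T v := by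
    intro z v
    have : fderiv ℝ k z = fderiv ℝ G z - T.restrictScalars ℝ := by
      rw [← hTf z]
      exact fderiv_sub (hGd z) (hTd z)
    rw [this]
    rfl
  set F : E kk → ℂ := fun z => conj (k z) with hF
  have hFd : ∀ z, HasFDerivAt F ((Complex.conjCLE : ℂ →L[ℝ] ℂ).comp (fderiv ℝ k z)) z := by
    intro z
    exact (Complex.conjCLE : ℂ →L[ℝ] ℂ).hasFDerivAt.comp z (hkd z).hasFDerivAt
  have hI : ∀ z v, ((Complex.conjCLE : ℂ →L[ℝ] ℂ).comp (fderiv ℝ k z)) (Complex.I • v) =
      Complex.I * ((Complex.conjCLE : ℂ →L[ℝ] ℂ).comp (fderiv ℝ k z)) v := by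
    intro z v
    have h1 := hdz z v
    have h2 : fderiv ℝ k z (Complex.I • v) = -Complex.I * fderiv ℝ k z v := by
      have e2 : T (Complex.I • v) = Complex.I * T v := by
        rw [map_smul, smul_eq_mul]
      rw [hkf, hkf, e2]
      linear_combination Complex.I * h1 + (fderiv ℝ G z (Complex.I • v)) * Complex.I_mul_I
    show conj (fderiv ℝ k z (Complex.I • v)) = Complex.I * conj (fderiv ℝ k z v)
    rw [h2, map_mul, map_neg, Complex.conj_I]
    ring
  have hFc : ∀ z, HasFDerivAt F (k5b_cl _ (hI z)) z := fun z =>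
    hasFDerivAt_of_restrictScalars ℝ (hFd z) rfl
  have hFC : Differentiable ℂ F := fun z => (hFc z).differentiableAt
  -- quasi periods
  have hper : ∀ s ∈ trN A, ∀ z, k (z + A.c s b) =
      k z + (-M.H b (fderiv ℂ (A.c s) b u) w - T (A.c s b)) := by
    intro s hs z
    have h1 := M.g_tr s hs b hb u w z
    simp only [hk]
    rw [hG, h1, map_add]
    ring
  have hspan : Submodule.span ℝ (range fun i => A.c (Λ.t i) b) = ⊤ :=
    top_le_iff.1 (Λ.span b hb)
  have hq := entire_quasi hFC (fun i => A.c (Λ.t i) b)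
    (fun i => conj (-M.H b (fderiv ℂ (A.c (Λ.t i)) b u) w - T (A.c (Λ.t i) b))) hspan (by
      intro i z
      simp only [hF]
      rw [hper _ (Λ.mem i) z, map_add])
  set ℓ : E kk →L[ℂ] ℂ := fderiv ℂ F 0 with hℓ
  have hkz : ∀ z, k z = k 0 + conj (ℓ z) := by
    intro z
    have h1 := congrArg (starRingEnd ℂ) (hq z)
    simp only [hF, map_add, Complex.conj_conj] at h1
    exact h1
  -- the derivative of `G` at `0`
  have hGz : G = fun z => k 0 + conj (ℓ z) + T z := by
    funext z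
    rw [← hkz z]
    simp only [hk]
    ring
  have hGf : ∀ v, fderiv ℝ G 0 v = conj (ℓ v) + T v := by
    intro v
    have h1 : HasFDerivAt G ((Complex.conjCLE : ℂ →L[ℝ] ℂ).comp (ℓ.restrictScalars ℝ) +
        T.restrictScalars ℝ) 0 := by
      rw [hGz]
      have h2 : HasFDerivAt (fun z : E kk => conj (ℓ z))
          ((Complex.conjCLE : ℂ →L[ℝ] ℂ).comp (ℓ.restrictScalars ℝ)) 0 :=
        ((Complex.conjCLE : ℂ →L[ℝ] ℂ).comp (ℓ.restrictScalars ℝ)).hasFDerivAt
      exact (h2.const_add (k 0)).add (T.restrictScalars ℝ).hasFDerivAt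
    rw [h1.fderiv]
    rfl
  have hK : dzb G 0 (A.c t b) = conj (ℓ (A.c t b)) := by
    have e1 : ℓ (Complex.I • A.c t b) = Complex.I * ℓ (A.c t b) := by
      rw [map_smul, smul_eq_mul]
    have e2 : T (Complex.I • A.c t b) = Complex.I * T (A.c t b) := by
      rw [map_smul, smul_eq_mul]
    unfold dzb
    rw [hGf, hGf, e1, e2, map_mul, Complex.conj_I]
    linear_combination (T (A.c t b) / 2 - conj (ℓ (A.c t b)) / 2) * Complex.I_mul_I
  have h3 := hper t ht 0
  rw [zero_add, hkz (A.c t b)] at h3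
  show M.H b (fderiv ℂ (A.c t) b u) w = -T (A.c t b) - dzb G 0 (A.c t b)
  rw [hK]
  linear_combination h3

/-- derivative of the pairing of two sections -/
theorem k5b_deriv (M : FKM A) (s t : Γ) {b : E n} (hb : b ∈ Ω.D) :
    DifferentiableAt ℝ (fun x => M.H x (A.c s x) (A.c t x)) b ∧ ∀ u,
      fderiv ℝ (fun x => M.H x (A.c s x) (A.c t x)) b u =
        M.H b (fderiv ℂ (A.c s) b u) (A.c t b) + M.H b (A.c s b) (fderiv ℂ (A.c t) b u) +
          fderiv ℝ (fun x => M.H x (A.c s b) (A.c t b)) b u := by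
  have hD := Ω.isOpen.mem_nhds hb
  have hs : HasFDerivAt (A.c s) ((fderiv ℂ (A.c s) b).restrictScalars ℝ) b :=
    (((A.c_holo s).differentiableAt hD).hasFDerivAt).restrictScalars ℝ
  have ht : HasFDerivAt (A.c t) ((fderiv ℂ (A.c t) b).restrictScalars ℝ) b :=
    (((A.c_holo t).differentiableAt hD).hasFDerivAt).restrictScalars ℝ
  set S : E n →L[ℝ] E kk := (fderiv ℂ (A.c s) b).restrictScalars ℝ with hS
  set T : E n →L[ℝ] E kk := (fderiv ℂ (A.c t) b).restrictScalars ℝ with hT
  have hsp : ∀ p, HasFDerivAt (fun x => A.c s x p) ((ContinuousLinearMap.proj p).comp S) b :=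
    fun p => (hasFDerivAt_pi'.1 hs) p
  have htq : ∀ q, HasFDerivAt (fun x => conj (A.c t x q))
      ((Complex.conjCLE : ℂ →L[ℝ] ℂ).comp ((ContinuousLinearMap.proj q).comp T)) b := fun q =>
    (Complex.conjCLE : ℂ →L[ℝ] ℂ).hasFDerivAt.comp b ((hasFDerivAt_pi'.1 ht) q)
  have hH : ∀ p q, HasFDerivAt (fun x => M.H x (Pi.single p 1) (Pi.single q 1))
      (fderiv ℝ (fun x => M.H x (Pi.single p 1) (Pi.single q 1)) b) b := fun p q =>
    (k5b_diffAt M hb _ _).hasFDerivAt
  have e1 : (fun x => M.H x (A.c s x) (A.c t x)) =ᶠ[𝓝 b]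
      fun x => ∑ p, ∑ q, A.c s x p * conj (A.c t x q) * M.H x (Pi.single p 1) (Pi.single q 1) := by
    filter_upwards [hD] with x hx
    exact (M.isHerm hx).expand _ _
  have e2 : (fun x => M.H x (A.c s b) (A.c t b)) =ᶠ[𝓝 b]
      fun x => ∑ p, ∑ q, A.c s b p * conj (A.c t b q) * M.H x (Pi.single p 1) (Pi.single q 1) := by
    filter_upwards [hD] with x hx
    exact (M.isHerm hx).expand _ _
  have d1 := HasFDerivAt.fun_sum (u := Finset.univ) fun p _ =>
    HasFDerivAt.fun_sum (u := Finset.univ) fun q _ => ((hsp p).mul (htq q)).mul (hH p q)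
  have d2 := HasFDerivAt.fun_sum (u := Finset.univ) fun p _ =>
    HasFDerivAt.fun_sum (u := Finset.univ) fun q _ =>
      (hH p q).const_mul (A.c s b p * conj (A.c t b q))
  have d1' := d1.congr_of_eventuallyEq e1
  have d2' := d2.congr_of_eventuallyEq e2
  refine ⟨d1'.differentiableAt, fun u => ?_⟩
  rw [d1'.fderiv, d2'.fderiv, (M.isHerm hb).expand (fderiv ℂ (A.c s) b u) (A.c t b),
    (M.isHerm hb).expand (A.c s b) (fderiv ℂ (A.c t) b u), ← Finset.sum_add_distrib]
  simp only [ContinuousLinearMap.sum_apply, ← Finset.sum_add_distrib]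
  refine Finset.sum_congr rfl fun p _ => Finset.sum_congr rfl fun q _ => ?_
  simp only [ContinuousLinearMap.add_apply, ContinuousLinearMap.smul_apply, smul_eq_mul,
    ContinuousLinearMap.comp_apply, ContinuousLinearMap.proj_apply, Pi.mul_apply]
  have h1 : (S u) p = (fderiv ℂ (A.c s) b u) p := rfl
  have h2 : (Complex.conjCLE : ℂ →L[ℝ] ℂ) ((T u) q) = conj ((fderiv ℂ (A.c t) b u) q) := rfl
  rw [h1, h2]
  ring

theorem k5b_dz (M : FKM A) {s t : Γ} (hs : s ∈ trN A) {b : E n}
    (hb : b ∈ Ω.D) (u : E n) {K : E kk → E kk → ℂ}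
    (hK : ∀ t ∈ trN A, ∀ w, M.H b (fderiv ℂ (A.c t) b u) w =
        -dz (fun x => M.H x (A.c t b) w) b u - K (A.c t b) w) :
    dz (fun x => M.H x (A.c s x) (A.c t x)) b u = -K (A.c s b) (A.c t b) := by
  have h1 := (k5b_deriv M s t hb).2
  have h2 := hK s hs (A.c t b)
  have hh := M.isHerm hb
  unfold dz at h2 ⊢
  rw [h1 u, h1 (Complex.I • u), map_smul, map_smul, hh.smul_left, hh.smul_right, Complex.conj_I]
  linear_combination h2 - (M.H b (fderiv ℂ (A.c s) b u) (A.c t b) / 2 -
    M.H b (A.c s b) (fderiv ℂ (A.c t) b u) / 2) * Complex.I_mul_I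

theorem k5b_im (Λ : Lat A) (M : FKM A) {s t : Γ} (hs : s ∈ trN A) (ht : t ∈ trN A) {b : E n}
    (hb : b ∈ Ω.D) (u : E n) :
    (fderiv ℝ (fun x => M.H x (A.c s x) (A.c t x)) b u).im = 0 := by
  obtain ⟨K, hsym, hK⟩ := key_sym Λ M hb u
  have h1 := k5b_dz M (t := t) hs hb u hK
  have h2 := k5b_dz M (t := s) ht hb u hK
  rw [hsym (A.c t b), ← h1] at h2
  have e : (fun x => M.H x (A.c t x) (A.c s x)) =ᶠ[𝓝 b]
      fun x => conj (M.H x (A.c s x) (A.c t x)) := by
    filter_upwards [Ω.isOpen.mem_nhds hb] with x hx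
    exact M.herm x hx _ _
  have hd := (k5b_deriv M s t hb).1
  have h3 : fderiv ℝ (fun x => M.H x (A.c t x) (A.c s x)) b =
      (Complex.conjCLE : ℂ →L[ℝ] ℂ).comp (fderiv ℝ (fun x => M.H x (A.c s x) (A.c t x)) b) := by
    rw [e.fderiv_eq]
    exact ((Complex.conjCLE : ℂ →L[ℝ] ℂ).hasFDerivAt.comp b hd.hasFDerivAt).fderiv
  unfold dz at h2
  rw [h3] at h2
  set a := fderiv ℝ (fun x => M.H x (A.c s x) (A.c t x)) b u with ha
  set a' := fderiv ℝ (fun x => M.H x (A.c s x) (A.c t x)) b (Complex.I • u) with ha'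
  have h4 : (1 / 2 : ℂ) * (conj a - Complex.I * conj a') = (1 / 2 : ℂ) * (a - Complex.I * a') := h2
  have h5 : conj a - Complex.I * conj a' = a - Complex.I * a' := by linear_combination 2 * h4
  have h6 := congrArg Complex.im h5
  simp only [Complex.sub_im, Complex.conj_im, Complex.mul_im, Complex.I_re, Complex.I_im,
    Complex.conj_re, zero_mul, one_mul, zero_add] at h6
  linarith

theorem imH_const (Λ : Lat A) (M : FKM A) {s t : Γ} (hs : s ∈ trN A) (ht : t ∈ trN A) {b : E n}
    (hb : b ∈ Ω.D) :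
    (M.H b (A.c s b) (A.c t b)).im = (M.H Ω.b0 (A.c s Ω.b0) (A.c t Ω.b0)).im := by
  have hd : ∀ x ∈ Ω.D, HasFDerivAt (fun x => (M.H x (A.c s x) (A.c t x)).im)
      (Complex.imCLM.comp (fderiv ℝ (fun x => M.H x (A.c s x) (A.c t x)) x)) x := fun x hx =>
    Complex.imCLM.hasFDerivAt.comp x (k5b_deriv M s t hx).1.hasFDerivAt
  refine Ω.isOpen.is_const_of_fderiv_eq_zero (𝕜 := ℝ)
    (f := fun x => (M.H x (A.c s x) (A.c t x)).im) Ω.conn
    (fun x hx => (hd x hx).differentiableAt.differentiableWithinAt) ?_ hb Ω.b0_mem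
  intro x hx
  rw [(hd x hx).fderiv]
  ext1 u
  exact k5b_im Λ M hs ht hx u

end Pool.Agent.H.MP_e23cd6_ag.AK
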