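import Pool.Agent.H.MP_e23cd6_ag.AK.E9
import Pool.Agent.H.MP_e23cd6_ag.AK.Tr2
import Pool.Agent.H.MP_e23cd6_ag.AK.I8
import Pool.Agent.H.MP_e23cd6_ag.AK.S0
import Pool.Agent.H.MP_e23cd6_ag.AK.S1

/-!
ABUK Main: semiampleness of the orbifold canonical bundle of compact Kaehler orbifolds covered by
(bounded domain) × ℂ^k with flat leaves.
-/

open Set Filter Topology Metric
open scoped ComplexConjugate

namespace Pool.Agent.H.MP_e23cd6_ag.AK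

open Pool.Agent.H.MP_e23cd6_ag.AB

theorem main_flat {n kk : ℕ} {Ω : Dom n} {Γ : Type} [Group Γ] (A : FibAct Ω kk Γ) (M : FMet A)
    (h : KMet (TM Ω kk)) (hinv : InvMet A.toTotAct h) :
    BasePD A.toBaseAct ∧ TrCC A ∧ ∃ m : ℕ, 0 < m ∧ ∀ b ∈ Ω.D, ∃ F, WtF A m F ∧ F b ≠ 0 := by
  have hpd : BasePD A.toBaseAct := base_pd_fib A M h hinv
  obtain ⟨F, hF, hFk, hF2⟩ := tr_index A M hpd
  obtain ⟨hcc, m0, hm0, hker⟩ := tr_cc_of_index A hpd hF hFk hF2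
  exact ⟨hpd, hcc, glob_gen_fib A hpd hcc hm0 hker h hinv⟩

theorem main {n kk : ℕ} {D : Set (E n)} (hD : IsOpen D) (hconn : IsPreconnected D)
    (hbdd : Bornology.IsBounded D) {Γ : Type} [Group Γ] (g : Γ → E n × E kk → E n × E kk)
    (maps : ∀ γ, MapsTo (g γ) (D ×ˢ univ) (D ×ˢ univ))
    (holo : ∀ γ, DifferentiableOn ℂ (g γ) (D ×ˢ univ))
    (one : ∀ x ∈ D ×ˢ (univ : Set (E kk)), g 1 x = x)
    (mul : ∀ γ δ, ∀ x ∈ D ×ˢ (univ : Set (E kk)), g (γ * δ) x = g γ (g δ x))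
    (pd : ∀ K ⊆ D ×ˢ (univ : Set (E kk)), IsCompact K → {γ | (g γ '' K ∩ K).Nonempty}.Finite)
    (cc : ∃ K ⊆ D ×ˢ (univ : Set (E kk)), IsCompact K ∧
      ∀ x ∈ D ×ˢ (univ : Set (E kk)), ∃ γ, g γ x ∈ K)
    (h : KMet (D ×ˢ (univ : Set (E kk))))
    (hinv : ∀ γ, ∀ x ∈ D ×ˢ (univ : Set (E kk)), ∀ v w,
      h.h (g γ x) (fderiv ℂ (g γ) x v) (fderiv ℂ (g γ) x w) = h.h x v w)
    (H : E n → E kk → E kk → ℂ) (hcont : ∀ v w, ContinuousOn (fun b => H b v w) D)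
    (hherm : ∀ b ∈ D, IsHerm (H b))
    (hflat : ∀ γ, ∀ x ∈ D ×ˢ (univ : Set (E kk)), ∀ v w, H (g γ x).1 (fderiv ℂ (g γ) x (0, v)).2
      (fderiv ℂ (g γ) x (0, w)).2 = H x.1 v w) :
    (∃ m : ℕ, 0 < m ∧ ∀ x ∈ D ×ˢ (univ : Set (E kk)), ∃ F : E n × E kk → ℂ,
      DifferentiableOn ℂ F (D ×ˢ univ) ∧
      (∀ γ, ∀ y ∈ D ×ˢ (univ : Set (E kk)), F (g γ y) * (fderiv ℂ (g γ) y).det ^ m = F y) ∧
      (∀ b z, F (b, z) = F (b, 0)) ∧ F x ≠ 0) ∧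
    (∀ K ⊆ D, IsCompact K →
      {f : D → E n | ∃ γ, (∃ b ∈ K, (g γ (b, 0)).1 ∈ K) ∧
        f = fun b : D => (g γ ((b : E n), 0)).1}.Finite) ∧
    ∀ b ∈ D, ∃ R : ℝ, ∀ z : E kk, ∃ γ, ∃ c : E kk, (∀ w, g γ (b, w) = (b, w + c)) ∧
      ‖z + c‖ ≤ R := by
  classical
  rcases D.eq_empty_or_nonempty with rfl | ⟨b0, hb0⟩
  · refine ⟨⟨1, one_pos, fun x hx => absurd hx.1 (by simp)⟩, fun K hK _ => ?_,
      fun b hb => absurd hb (by simp)⟩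
    refine Set.Finite.subset (Set.finite_empty) ?_
    rintro f ⟨γ, ⟨b, hb, -⟩, -⟩
    exact absurd (hK hb) (by simp)
  · obtain ⟨r, hr, hball⟩ := Metric.nhds_basis_closedBall.mem_iff.mp (hD.mem_nhds hb0)
    let Ω : Dom n := ⟨D, hD, hconn, hbdd, b0, r / 2, r, by linarith, by linarith, hball⟩
    obtain ⟨A0, rfl⟩ := exists_totAct Ω kk g maps holo one mul pd cc
    obtain ⟨A, M, rfl, rfl⟩ := exists_fibAct A0 H hcont hherm hflat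
    obtain ⟨hpd, hcc, m, hm, hF⟩ := main_flat A M h hinv
    have hfst : ∀ γ, ∀ b ∈ D, (A.act γ (b, 0)).1 = A.β γ b := fun γ b hb => by
      rw [A.act_eq γ b hb]
    refine ⟨⟨m, hm, ?_⟩, ?_, ?_⟩
    · rintro ⟨b, z⟩ hx
      obtain ⟨F, hW, hne⟩ := hF b hx.1
      refine ⟨fun y => F y.1, ?_, ?_, fun _ _ => rfl, hne⟩
      · exact hW.1.comp differentiableOn_fst (fun y hy => hy.1)
      · rintro γ ⟨b', z'⟩ hy
        have h1 := det_fib A γ hy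
        have h2 := hW.2 γ b' hy.1
        show F (A.act γ (b', z')).1 * (fderiv ℂ (A.act γ) (b', z')).det ^ m = F b'
        rw [h1, A.act_eq γ b' hy.1 z']
        exact h2
    · intro K hK hKc
      obtain ⟨F, hFf, hF'⟩ := hpd K hK hKc
      refine Set.Finite.subset (hFf.image fun δ => fun b : D => A.β δ b) ?_
      rintro f ⟨γ, ⟨b, hb, hbK⟩, rfl⟩
      rw [hfst γ b (hK hb)] at hbK
      obtain ⟨δ, hδ, hδ'⟩ := hF' γ ⟨b, hb, hbK⟩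
      refine ⟨δ, hδ, ?_⟩
      funext b
      rw [hfst γ b b.2]
      exact (hδ' b b.2).symm
    · intro b hb
      obtain ⟨R, hR⟩ := hcc b hb
      refine ⟨R, fun z => ?_⟩
      obtain ⟨t, ht, htz⟩ := hR z
      exact ⟨t, A.c t b, fun w => tr_act ht hb w, htz⟩

end Pool.Agent.H.MP_e23cd6_ag.AK
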