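import Mathlib
import Pool.Agent.H.MP_e23cd6_ag.AB.Defs

/-!
ABUM Mb1: groups of diagonal affine maps of ℂ^k, acting properly discontinuously and cocompactly: the translations and their span.

`FAct kk N`: `γ` acts on `E kk` by `z ↦ a γ * z + c γ` (coordinatewise product). `lam` = the translation vectors (an additive subgroup), `W` = their real span.

`a_one`, `c_one`: from a_mul, c_mul and a_ne (`a 1 = a 1 * a 1`, cancel coordinatewise; `c 1 = a 1 * c 1 + c 1`, a 1 = 1).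
`lam`: zero: t = 1; add: `c (s t) = a s * c t + c s = c t + c s`; neg: t⁻¹ (a t⁻¹ = 1, `0 = c (t t⁻¹) = c t⁻¹ + c t`).
`lam_mul`: t with a t = 1, s = γ t γ⁻¹: `a s = 1` (commutative), s γ = γ t: `a s * c γ + c s = a γ * c t + c γ`, so `c s = a γ * c t`.
`W_mul`: span induction (multiplication by `a γ` is ℝ-linear).
`comm_mem`: w = γ δ γ⁻¹ δ⁻¹, a w = 1, w (δ γ) = γ δ: `c (δγ) + c w = c (γδ)`, so `c w = a γ * c δ + c γ - a δ * c γ - c δ`.
`lam_finite`: `{z ∈ lam : ‖z‖ ≤ R}` is finite: image under c of a subset of the finite set `pd R` with z = 0 (R ≥ 0; for R < 0 empty).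
-/

open Set Filter Topology Metric

namespace Pool.Agent.H.MP_e23cd6_ag.AK

open Pool.Agent.H.MP_e23cd6_ag.AB

/-- a group of diagonal affine maps, properly discontinuous and cocompact -/
structure FAct (kk : ℕ) (N : Type) [Group N] where
  a : N → E kk
  c : N → E kk
  a_ne : ∀ γ i, a γ i ≠ 0
  a_mul : ∀ γ δ, a (γ * δ) = a γ * a δ
  c_mul : ∀ γ δ, c (γ * δ) = a γ * c δ + c γ
  pd : ∀ R : ℝ, {γ | ∃ z : E kk, ‖z‖ ≤ R ∧ ‖a γ * z + c γ‖ ≤ R}.Finite
  cc : ∃ R : ℝ, ∀ z : E kk, ∃ γ, ‖a γ * z + c γ‖ ≤ R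

namespace FAct

variable {kk : ℕ} {N : Type} [Group N] (B : FAct kk N)

theorem a_one : B.a 1 = 1 := by
  funext i
  have h := congrFun (B.a_mul 1 1) i
  rw [mul_one, Pi.mul_apply] at h
  exact mul_left_cancel₀ (B.a_ne 1 i) (by rw [← h, Pi.one_apply, mul_one])

theorem c_one : B.c 1 = 0 := by
  have h := B.c_mul 1 1
  rw [mul_one, B.a_one, one_mul] at h
  exact left_eq_add.1 h

theorem a_inv_of_one {t : N} (ht : B.a t = 1) : B.a t⁻¹ = 1 := by
  have h := B.a_mul t t⁻¹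
  rw [mul_inv_cancel, B.a_one, ht, one_mul] at h
  exact h.symm

/-- translation vectors -/
def lam : AddSubgroup (E kk) where
  carrier := {z | ∃ t, B.a t = 1 ∧ B.c t = z}
  zero_mem' := ⟨1, B.a_one, B.c_one⟩
  add_mem' := by
    rintro _ _ ⟨s, hs, rfl⟩ ⟨t, ht, rfl⟩
    refine ⟨s * t, by rw [B.a_mul, hs, ht, one_mul], ?_⟩
    rw [B.c_mul, hs, one_mul, add_comm]
  neg_mem' := by
    rintro _ ⟨t, ht, rfl⟩
    refine ⟨t⁻¹, B.a_inv_of_one ht, ?_⟩
    have h := B.c_mul t t⁻¹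
    rw [mul_inv_cancel, B.c_one, ht, one_mul] at h
    exact eq_neg_of_add_eq_zero_left h.symm

/-- the real span of the translation vectors -/
noncomputable def W : Submodule ℝ (E kk) := Submodule.span ℝ (B.lam : Set (E kk))

theorem lam_mul (γ : N) {z : E kk} (hz : z ∈ B.lam) : B.a γ * z ∈ B.lam := by
  obtain ⟨t, ht, rfl⟩ := hz
  have h1 : B.a γ * B.a γ⁻¹ = 1 := by rw [← B.a_mul, mul_inv_cancel, B.a_one]
  have hs : B.a (γ * t * γ⁻¹) = 1 := by rw [B.a_mul, B.a_mul, ht, mul_one, h1]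
  refine ⟨γ * t * γ⁻¹, hs, ?_⟩
  have h2 := B.c_mul (γ * t * γ⁻¹) γ
  rw [inv_mul_cancel_right, B.c_mul γ t, hs, one_mul, add_comm (B.c γ)] at h2
  exact (add_right_cancel h2).symm

theorem W_mul (γ : N) {z : E kk} (hz : z ∈ B.W) : B.a γ * z ∈ B.W := by
  unfold W at hz ⊢
  induction hz using Submodule.span_induction with
  | mem x hx => exact Submodule.subset_span (B.lam_mul γ hx)
  | zero => rw [mul_zero]; exact Submodule.zero_mem _
  | add x y _ _ hx hy => rw [mul_add]; exact Submodule.add_mem _ hx hy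
  | smul r x _ hx => rw [mul_smul_comm]; exact Submodule.smul_mem _ r hx

theorem comm_mem (γ δ : N) : (B.a γ - 1) * B.c δ - (B.a δ - 1) * B.c γ ∈ B.lam := by
  have hw : B.a (γ * δ * (δ * γ)⁻¹) = 1 := by
    have h1 : B.a (δ * γ) * B.a (δ * γ)⁻¹ = 1 := by rw [← B.a_mul, mul_inv_cancel, B.a_one]
    rw [B.a_mul (γ * δ), B.a_mul γ δ, mul_comm (B.a γ), ← B.a_mul δ γ, h1]
  refine ⟨γ * δ * (δ * γ)⁻¹, hw, ?_⟩
  have h2 := B.c_mul (γ * δ * (δ * γ)⁻¹) (δ * γ)
  rw [inv_mul_cancel_right, hw, one_mul, B.c_mul γ δ, B.c_mul δ γ] at h2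
  have h3 : B.c (γ * δ * (δ * γ)⁻¹) = B.a γ * B.c δ + B.c γ - (B.a δ * B.c γ + B.c δ) := by
    rw [h2]; abel
  rw [h3]
  ring

end FAct

end Pool.Agent.H.MP_e23cd6_ag.AK
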