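import Pool.Agent.H.MP_e23cd6_ag.AK.Mb1

/-!
ABUM Mb1b: a lattice basis of the translations of a group of diagonal affine maps.

`exists_basis`: the discrete additive subgroup lam has an ℝ-linearly independent ℤ-basis. Let `L' = ` the ℤ-submodule `{w : W | (w : E kk) ∈ lam}` of the finite dimensional real normed space W: discrete (lam_finite), span ℝ L' = ⊤, so it is a ℤ-lattice (`IsZLattice ℝ L'`), free and finite over ℤ (`ZLattice.module_free`, `ZLattice.module_finite`), and a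
ℤ-basis is an ℝ-basis of W (`Module.Basis.ofZLatticeBasis`). Map to E kk by the injective linear inclusion `W.subtype`.
`exists_near`: y ∈ W, y = Σ y_j w_j (the w_j span W because lam ⊆ span of the w_j), `λ = -Σ ⌊y_j⌋ w_j ∈ lam`, `‖y + λ‖ ≤ Σ ‖w_j‖`.
-/

open Set Filter Topology Metric

namespace Pool.Agent.H.MP_e23cd6_ag.AK

open Pool.Agent.H.MP_e23cd6_ag.AB

namespace FAct

variable {kk : ℕ} {N : Type} [Group N] (B : FAct kk N)

/-- bounded sets contain only finitely many translation vectors -/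
theorem latW_finite (R : ℝ) : {z : E kk | z ∈ B.lam ∧ ‖z‖ ≤ R}.Finite := by
  apply Set.Finite.subset ((B.pd R).image B.c)
  rintro z ⟨⟨t, ht, rfl⟩, hz⟩
  refine ⟨t, ⟨0, ?_, ?_⟩, rfl⟩
  · rw [norm_zero]
    exact (norm_nonneg _).trans hz
  · rw [mul_zero, zero_add]
    exact hz

/-- the translation vectors as a lattice in their real span -/
noncomputable def latW : Submodule ℤ B.W :=
  AddSubgroup.toIntSubmodule (B.lam.comap (B.W.subtype : B.W →+ E kk))

theorem mem_latW {x : B.W} : x ∈ B.latW ↔ (x : E kk) ∈ B.lam := Iff.rfl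

theorem latW_discrete : DiscreteTopology B.latW := by
  have hfin : ({z : B.W | (z : E kk) ∈ B.lam ∧ ‖(z : E kk)‖ ≤ 1} \ {0}).Finite := by
    have h1 : ({z : B.W | (z : E kk) ∈ B.lam ∧ ‖(z : E kk)‖ ≤ 1}).Finite :=
      (B.latW_finite 1).preimage Subtype.val_injective.injOn
    exact h1.subset sdiff_subset
  have hopen : IsOpen (ball (0 : B.W) 1 ∩
      ({z : B.W | (z : E kk) ∈ B.lam ∧ ‖(z : E kk)‖ ≤ 1} \ {0})ᶜ) :=
    isOpen_ball.inter hfin.isClosed.isOpen_compl
  apply discreteTopology_of_isOpen_singleton_zero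
  have he : ({0} : Set B.latW) = Subtype.val ⁻¹'
      (ball (0 : B.W) 1 ∩ ({z : B.W | (z : E kk) ∈ B.lam ∧ ‖(z : E kk)‖ ≤ 1} \ {0})ᶜ) := by
    ext ⟨z, hz⟩
    constructor
    · intro h
      have h0 : z = 0 := congrArg Subtype.val h
      subst h0
      refine ⟨mem_ball_self one_pos, fun h1 => h1.2 rfl⟩
    · rintro ⟨h1, h2⟩
      have h3 : ‖z‖ < 1 := by simpa using h1
      by_contra hne
      apply h2
      refine ⟨⟨hz, h3.le⟩, fun h4 => hne ?_⟩
      exact Subtype.ext h4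
  rw [he]
  exact hopen.preimage continuous_subtype_val

theorem latW_span : Submodule.span ℝ (B.latW : Set B.W) = ⊤ :=
  Submodule.span_span_coe_preimage

theorem exists_basis : ∃ (r : ℕ) (w : Fin r → E kk), (∀ j, w j ∈ B.lam) ∧
    LinearIndependent ℝ w ∧ ∀ z ∈ B.lam, ∃ m : Fin r → ℤ, z = ∑ j, (m j : ℝ) • w j := by
  have := B.latW_discrete
  have : IsZLattice ℝ B.latW := ⟨B.latW_span⟩
  have := ZLattice.module_free ℝ B.latW
  have := ZLattice.module_finite ℝ B.latW
  let e := Module.finBasis ℤ B.latW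
  let e' := e.ofZLatticeBasis ℝ B.latW
  refine ⟨_, fun j => ((e j : B.W) : E kk), fun j => (e j).2, ?_, ?_⟩
  · have h := e'.linearIndependent.map' B.W.subtype (Submodule.ker_subtype _)
    have h2 : (fun j => ((e j : B.W) : E kk)) = B.W.subtype ∘ e' := by
      funext j
      show _ = B.W.subtype (e' j)
      rw [show e' j = (e j : B.W) from Module.Basis.ofZLatticeBasis_apply ℝ B.latW e j]
      rfl
    rw [h2]
    exact h
  · intro z hz
    have hzW : z ∈ B.W := Submodule.subset_span hz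
    obtain ⟨x, hx⟩ : ∃ x : B.latW, ((x : B.W) : E kk) = z := ⟨⟨⟨z, hzW⟩, hz⟩, rfl⟩
    refine ⟨fun j => e.repr x j, ?_⟩
    rw [← hx]
    conv_lhs => rw [← e.sum_repr x]
    rw [AddSubmonoidClass.coe_finsetSum, AddSubmonoidClass.coe_finsetSum]
    apply Finset.sum_congr rfl
    intro j _
    rw [Int.cast_smul_eq_zsmul]
    rfl

theorem exists_near : ∃ R : ℝ, ∀ y ∈ B.W, ∃ z ∈ B.lam, ‖y + z‖ ≤ R := by
  obtain ⟨r, w, hw, -, hint⟩ := B.exists_basis
  refine ⟨∑ j, ‖w j‖, fun y hy => ?_⟩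
  have hy2 : y ∈ Submodule.span ℝ (range w) := by
    have h1 : B.W ≤ Submodule.span ℝ (range w) := by
      rw [W, Submodule.span_le]
      intro z hz
      obtain ⟨m, hm⟩ := hint z hz
      rw [SetLike.mem_coe, hm]
      exact Submodule.sum_mem _ fun j _ => Submodule.smul_mem _ _ (Submodule.subset_span ⟨j, rfl⟩)
    exact h1 hy
  obtain ⟨y', hy'⟩ := (Submodule.mem_span_range_iff_exists_fun ℝ).mp hy2
  refine ⟨-∑ j, ⌊y' j⌋ • w j, neg_mem (sum_mem fun j _ => zsmul_mem (hw j) _), ?_⟩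
  have h2 : y + -∑ j, ⌊y' j⌋ • w j = ∑ j, (y' j - ⌊y' j⌋) • w j := by
    rw [← hy', ← sub_eq_add_neg, ← Finset.sum_sub_distrib]
    apply Finset.sum_congr rfl
    intro j _
    rw [sub_smul, Int.cast_smul_eq_zsmul]
  rw [h2]
  refine (norm_sum_le _ _).trans (Finset.sum_le_sum fun j _ => ?_)
  rw [norm_smul, Real.norm_eq_abs, abs_of_nonneg (sub_nonneg.mpr (Int.floor_le _))]
  have h3 : y' j - ⌊y' j⌋ ≤ 1 := by
    have := Int.lt_floor_add_one (y' j)
    linarith
  exact mul_le_of_le_one_left (norm_nonneg _) h3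

end FAct

end Pool.Agent.H.MP_e23cd6_ag.AK
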