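import Pool.Agent.H.MP_e23cd6_ag.AK.Mb1b

/-!
ABUM Mb2: the linear parts minus one map into the span of the translations.

Notation: γ0 fixed, `a = B.a γ0`, `e : E kk`, `e i = if a i = 1 then 0 else 1` (so `e * e = e`, and `(a - 1) * e = a - 1`).

`e_mem`: w ∈ W ⇒ `e * w ∈ W`. Let `I = {i | a i ≠ 1}` and `g = ∏_{i∈I} (a * a - (2 Re (a i)) • a + |a i|² • 1)` in the ring E kk (real scalars). Multiplication by each factor maps W to W (W_mul twice, real scalar multiples, sums), so `g * w ∈ W` (Finset induction). Coordinate j: `g j = ∏_{i∈I} (a j - a i)(a j - conj (a i))`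
(as `2 Re (a i) = a i + conj (a i)`, `|a i|² = a i conj (a i)`): zero for j ∈ I, and for j ∉ I (a j = 1) it is `∏_{i∈I} |1 - a i|² =: ρ > 0` real. So `g = ρ • (1 - e)`, `(1 - e) * w = ρ⁻¹ • (g * w) ∈ W`, `e * w = w - (1 - e) * w ∈ W`.

`div_mem`: y with `e * y = y` and `(a - 1) * y ∈ W` ⇒ `y ∈ W`. `W2 = {w ∈ W | e * w = w}` is a finite dimensional real subspace, and `w ↦ (a - 1) * w` maps W2 to itself, injectively (coordinates in I: `a i - 1 ≠ 0`; other coordinates of w are 0), so surjectively (`LinearMap.injective_iff_surjective`). `(a - 1) * y ∈ W2`, so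
`(a - 1) * y = (a - 1) * y'` with y' ∈ W2, y = y'.

`sub_one_mem`. Suppose `v2 = (a - 1) * v ∉ W` for some v. `e * v2 = v2`. Let `x i = if a i = 1 then 0 else - B.c γ0 i / (a i - 1)`, so `e * x = x` and `(a - 1) * x = - e * B.c γ0`. For δ ∈ N put `d δ = e * B.c δ + (B.a δ - 1) * x`. Then `e * d δ = d δ` and
`(a - 1) * d δ = e * ((a - 1) * B.c δ - (B.a δ - 1) * B.c γ0) ∈ W` (comm_mem, e_mem), so `d δ ∈ W` (div_mem).
For real s and δ: `B.a δ * (x + s • v2) + B.c δ = x + s • (B.a δ * v2) + d δ + (1 - e) * B.c δ`. R ≥ 0 from cc, R2 ≥ 0 from exists_near. For s > 0 choose δ = δ_s with `‖B.a δ * (x + s • v2) + B.c δ‖ ≤ R`. Multiplying by e resp. 1 - e (sup norm does not increase, coordinates 0 or 1):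
 `‖x + s • (B.a δ * v2) + d δ‖ ≤ R` and `‖(1 - e) * B.c δ‖ ≤ R`.
 Choose `c t ∈ lam`, a t = 1, with `‖d δ + c t‖ ≤ R2`. `t * δ` maps x to `B.a δ * x + B.c δ + c t = x + (1 - e) * B.c δ + (d δ + c t)`, of norm `≤ ‖x‖ + R + R2 =: R3`; so `t * δ ∈ F`, F the finite set of `B.pd R3` (z = x, ‖x‖ ≤ R3), and `B.a δ = B.a (t * δ) ∈ B.a '' F`, a finite set independent of s.
 For α = B.a f, f ∈ F: `α * v2 ∉ W` (otherwise `v2 = B.a f⁻¹ * (α * v2) ∈ W`), W is closed (finite dimensional), so `μ = min_{α ∈ B.a '' F} infDist (α * v2) W > 0` (if F is empty we are done already: δ_s exists). But `- (d δ + ...)`: `‖s • (α * v2) - (-(d δ))‖ ≤ R + ‖x‖` with `-d δ ∈ W`, so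
 `infDist (α * v2) W ≤ (R + ‖x‖)/s`; for s large this is < μ. Contradiction.
-/

open Set Filter Topology Metric
open scoped ComplexConjugate

namespace Pool.Agent.H.MP_e23cd6_ag.AK

open Pool.Agent.H.MP_e23cd6_ag.AB

namespace FAct

variable {kk : ℕ} {N : Type} [Group N] (B : FAct kk N)

open Classical in
/-- the idempotent of the coordinates where the linear part of `γ` is not one -/
noncomputable def idem (γ : N) : E kk := fun i => if B.a γ i = 1 then 0 else 1

theorem e_mem (γ : N) {w : E kk} (hw : w ∈ B.W) : B.idem γ * w ∈ B.W := by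
  classical
  set a := B.a γ with ha
  let f : Fin kk → E kk := fun i =>
    a * a - (2 * (a i).re) • a + (Complex.normSq (a i)) • (1 : E kk)
  have hf : ∀ i, ∀ w ∈ B.W, f i * w ∈ B.W := by
    intro i w hw
    have h1 := B.W_mul γ hw
    have h2 := B.W_mul γ h1
    have h3 : f i * w = B.a γ * (B.a γ * w) - (2 * (a i).re) • (B.a γ * w)
        + (Complex.normSq (a i)) • w := by
      ext j
      simp only [f, ← ha, Pi.mul_apply, Pi.add_apply, Pi.sub_apply, Pi.smul_apply, Pi.one_apply,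
        Complex.real_smul]
      ring
    rw [h3]
    exact B.W.add_mem (B.W.sub_mem h2 (B.W.smul_mem _ h1)) (B.W.smul_mem _ hw)
  let I : Finset (Fin kk) := Finset.univ.filter fun i => a i ≠ 1
  have hg : ∀ s : Finset (Fin kk), ∀ w ∈ B.W, (∏ i ∈ s, f i) * w ∈ B.W := by
    intro s
    induction s using Finset.induction_on with
    | empty => intro w hw; simpa using hw
    | insert i s hi ih =>
      intro w hw
      rw [Finset.prod_insert hi, mul_assoc]
      exact hf i _ (ih w hw)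
  have hρ : 0 < ∏ i ∈ I, Complex.normSq (1 - a i) := Finset.prod_pos fun i hi => by
    rw [Complex.normSq_pos]
    intro h
    exact (Finset.mem_filter.1 hi).2 (sub_eq_zero.1 h).symm
  have hfi : ∀ i j, f i j = (a j - a i) * (a j - conj (a i)) := by
    intro i j
    have h1 : ((2 * (a i).re : ℝ) : ℂ) = a i + conj (a i) := by
      rw [Complex.add_conj]
    have h2 : ((Complex.normSq (a i) : ℝ) : ℂ) = a i * conj (a i) := by
      rw [Complex.mul_conj]
    simp only [f, Pi.mul_apply, Pi.add_apply, Pi.sub_apply, Pi.smul_apply, Pi.one_apply,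
        Complex.real_smul]
    rw [h1, h2]
    ring
  have key : (∏ i ∈ I, f i) * w
      = (∏ i ∈ I, Complex.normSq (1 - a i)) • (w - B.idem γ * w) := by
    ext j
    simp only [Pi.mul_apply, Finset.prod_apply, Pi.smul_apply, Pi.sub_apply, idem, ← ha,
      Complex.real_smul]
    by_cases hj : a j = 1
    · have h1 : ∏ i ∈ I, f i j = ((∏ i ∈ I, Complex.normSq (1 - a i) : ℝ) : ℂ) := by
        rw [Complex.ofReal_prod]
        refine Finset.prod_congr rfl fun i _ => ?_
        rw [hfi, hj, ← Complex.mul_conj, map_sub, map_one]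
      rw [h1, if_pos hj]
      ring
    · have h1 : ∏ i ∈ I, f i j = 0 := by
        refine Finset.prod_eq_zero (i := j) (Finset.mem_filter.2 ⟨Finset.mem_univ _, hj⟩) ?_
        rw [hfi, sub_self, zero_mul]
      rw [h1, if_neg hj]
      ring
  have h1 := hg I w hw
  rw [key] at h1
  have h2 := B.W.smul_mem (∏ i ∈ I, Complex.normSq (1 - a i))⁻¹ h1
  rw [smul_smul, inv_mul_cancel₀ hρ.ne', one_smul] at h2
  have h3 := B.W.sub_mem hw h2
  rwa [sub_sub_cancel] at h3

theorem idem_mul_idem (γ : N) : B.idem γ * B.idem γ = B.idem γ := by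
  ext j
  simp only [idem, Pi.mul_apply]
  split_ifs <;> simp

theorem sub_one_mul_idem (γ : N) : (B.a γ - 1) * B.idem γ = B.a γ - 1 := by
  ext j
  simp only [idem, Pi.mul_apply, Pi.sub_apply, Pi.one_apply]
  split_ifs with h
  · rw [h]; simp
  · simp

theorem idem_norm (γ : N) (y : E kk) : ‖B.idem γ * y‖ ≤ ‖y‖ := by
  refine (pi_norm_le_iff_of_nonneg (norm_nonneg _)).2 fun j => ?_
  refine le_trans ?_ (norm_le_pi_norm y j)
  simp only [idem, Pi.mul_apply]
  split_ifs <;> simp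

theorem idem_norm' (γ : N) (y : E kk) : ‖(1 - B.idem γ) * y‖ ≤ ‖y‖ := by
  refine (pi_norm_le_iff_of_nonneg (norm_nonneg _)).2 fun j => ?_
  refine le_trans ?_ (norm_le_pi_norm y j)
  simp only [idem, Pi.mul_apply, Pi.sub_apply, Pi.one_apply]
  split_ifs <;> simp

/-- the vectors of the span fixed by the idempotent -/
def W2 (γ : N) : Submodule ℝ (E kk) where
  carrier := {w | w ∈ B.W ∧ B.idem γ * w = w}
  add_mem' := by
    rintro u v ⟨h1, h2⟩ ⟨h3, h4⟩
    exact ⟨B.W.add_mem h1 h3, by rw [mul_add, h2, h4]⟩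
  zero_mem' := ⟨B.W.zero_mem, by rw [mul_zero]⟩
  smul_mem' := by
    rintro r v ⟨h1, h2⟩
    exact ⟨B.W.smul_mem r h1, by rw [mul_smul_comm, h2]⟩

theorem mem_W2 (γ : N) (w : E kk) : w ∈ B.W2 γ ↔ w ∈ B.W ∧ B.idem γ * w = w := Iff.rfl

theorem sub_one_mul_cancel (γ : N) {y z : E kk} (hy : B.idem γ * y = y) (hz : B.idem γ * z = z)
    (h : (B.a γ - 1) * y = (B.a γ - 1) * z) : y = z := by
  ext j
  have h1 := congrFun hy j
  have h2 := congrFun hz j
  have h3 := congrFun h j
  simp only [idem, Pi.mul_apply, Pi.sub_apply, Pi.one_apply] at h1 h2 h3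
  split_ifs at h1 h2 with h4
  · rw [← h1, ← h2]; simp
  · exact mul_left_cancel₀ (sub_ne_zero.2 h4) h3

theorem div_mem (γ : N) {y : E kk} (hy : B.idem γ * y = y) (h : (B.a γ - 1) * y ∈ B.W) :
    y ∈ B.W := by
  have hmap : ∀ w ∈ B.W2 γ, (B.a γ - 1) * w ∈ B.W2 γ := by
    rintro w ⟨h1, h2⟩
    refine ⟨?_, ?_⟩
    · rw [sub_mul, one_mul]
      exact B.W.sub_mem (B.W_mul γ h1) h1
    · rw [mul_left_comm, h2]
  let φ : B.W2 γ →ₗ[ℝ] B.W2 γ :=
    { toFun := fun w => ⟨(B.a γ - 1) * w.1, hmap w.1 w.2⟩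
      map_add' := fun u v => Subtype.ext (by
        show (B.a γ - 1) * (u.1 + v.1) = (B.a γ - 1) * u.1 + (B.a γ - 1) * v.1
        rw [mul_add])
      map_smul' := fun r u => Subtype.ext (by
        show (B.a γ - 1) * (r • u.1) = r • ((B.a γ - 1) * u.1)
        rw [mul_smul_comm]) }
  have hinj : Function.Injective φ := by
    rintro u v huv
    exact Subtype.ext (B.sub_one_mul_cancel γ u.2.2 v.2.2 (congrArg Subtype.val huv))
  have hsurj := LinearMap.injective_iff_surjective.1 hinj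
  have hy2 : (B.a γ - 1) * y ∈ B.W2 γ := ⟨h, by rw [mul_left_comm, hy]⟩
  obtain ⟨z, hz⟩ := hsurj ⟨_, hy2⟩
  have h5 : (B.a γ - 1) * z.1 = (B.a γ - 1) * y := congrArg Subtype.val hz
  rw [← B.sub_one_mul_cancel γ z.2.2 hy h5]
  exact z.2.1

theorem a_inv_mul (f : N) (v : E kk) : B.a f⁻¹ * (B.a f * v) = v := by
  rw [← mul_assoc, ← B.a_mul, inv_mul_cancel, B.a_one, one_mul]

theorem sub_one_mem (γ : N) (v : E kk) : (B.a γ - 1) * v ∈ B.W := by
  classical
  by_contra hv
  set v2 := (B.a γ - 1) * v with hv2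
  set e := B.idem γ with he
  have hev : e * v2 = v2 := by
    rw [hv2, ← mul_assoc, mul_comm e, B.sub_one_mul_idem]
  let x : E kk := fun i => if B.a γ i = 1 then 0 else - B.c γ i / (B.a γ i - 1)
  have hex : e * x = x := by
    ext j
    simp only [x, he, idem, Pi.mul_apply]
    split_ifs <;> simp
  have hax : (B.a γ - 1) * x = -(e * B.c γ) := by
    ext j
    simp only [x, he, idem, Pi.mul_apply, Pi.sub_apply, Pi.one_apply, Pi.neg_apply]
    split_ifs with h
    · simp
    · rw [one_mul, mul_div_cancel₀ _ (sub_ne_zero.2 h)]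
  let d : N → E kk := fun δ => e * B.c δ + (B.a δ - 1) * x
  have hee : e * e = e := B.idem_mul_idem γ
  have hed : ∀ δ, e * d δ = d δ := by
    intro δ
    show e * (e * B.c δ + (B.a δ - 1) * x) = e * B.c δ + (B.a δ - 1) * x
    rw [mul_add, ← mul_assoc, hee, mul_left_comm, hex]
  have had : ∀ δ, d δ ∈ B.W := by
    intro δ
    refine B.div_mem γ (hed δ) ?_
    have h1 : (B.a γ - 1) * d δ = e * ((B.a γ - 1) * B.c δ - (B.a δ - 1) * B.c γ) := by
      show (B.a γ - 1) * (e * B.c δ + (B.a δ - 1) * x) = _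
      rw [mul_add, mul_left_comm _ (B.a δ - 1) x, hax]
      ring
    rw [h1]
    exact B.e_mem γ (Submodule.subset_span (B.comm_mem γ δ))
  obtain ⟨R, hR⟩ := B.cc
  obtain ⟨R2, hR2⟩ := B.exists_near
  set R3 := ‖x‖ + |R| + |R2| with hR3
  have hF := B.pd R3
  set F := {γ | ∃ z : E kk, ‖z‖ ≤ R3 ∧ ‖B.a γ * z + B.c γ‖ ≤ R3} with hFd
  have hne : F.Nonempty := by
    refine ⟨1, 0, ?_, ?_⟩
    · rw [norm_zero]; positivity
    · rw [mul_zero, B.c_one, add_zero, norm_zero]; positivity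
  have hcl : IsClosed (B.W : Set (E kk)) := Submodule.closed_of_finiteDimensional _
  have hWne : (B.W : Set (E kk)).Nonempty := ⟨0, B.W.zero_mem⟩
  obtain ⟨f0, hf0, hmin⟩ := Set.exists_min_image F (fun f => infDist (B.a f * v2) B.W) hF hne
  have hμ : 0 < infDist (B.a f0 * v2) B.W := by
    rw [← hcl.notMem_iff_infDist_pos hWne]
    intro h
    apply hv
    have h2 := B.W_mul f0⁻¹ h
    rwa [B.a_inv_mul] at h2
  set μ := infDist (B.a f0 * v2) B.W with hμd
  set K := |R| + ‖x‖ with hK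
  have hK0 : 0 ≤ K := by positivity
  set s := (K + 1) / μ with hs
  have hs0 : 0 < s := by positivity
  obtain ⟨δ, hδ⟩ := hR (x + s • v2)
  have hδ' : ‖B.a δ * (x + s • v2) + B.c δ‖ ≤ |R| := hδ.trans (le_abs_self R)
  have h1 : ‖x + s • (B.a δ * v2) + d δ‖ ≤ |R| := by
    refine le_trans (le_of_eq ?_) ((B.idem_norm γ _).trans hδ')
    congr 1
    show x + s • (B.a δ * v2) + (e * B.c δ + (B.a δ - 1) * x) = e * (B.a δ * (x + s • v2) + B.c δ)
    have h2 : e * (B.a δ * (x + s • v2) + B.c δ)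
        = B.a δ * (e * x) + s • (B.a δ * (e * v2)) + e * B.c δ := by
      simp only [mul_add, mul_smul_comm]
      rw [mul_left_comm e (B.a δ) x, mul_left_comm e (B.a δ) v2]
    rw [h2, hex, hev, sub_mul, one_mul]
    abel
  have h2 : ‖(1 - e) * B.c δ‖ ≤ |R| := by
    refine le_trans (le_of_eq ?_) ((B.idem_norm' γ _).trans hδ')
    congr 1
    have h3 : (1 - e) * (B.a δ * (x + s • v2) + B.c δ)
        = B.a δ * (x - e * x) + s • (B.a δ * (v2 - e * v2)) + (1 - e) * B.c δ := by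
      simp only [mul_add, mul_sub, sub_mul, one_mul, mul_smul_comm, smul_sub]
      rw [mul_left_comm e (B.a δ) x, mul_left_comm e (B.a δ) v2]
    rw [← he, h3, hex, hev, sub_self, sub_self, mul_zero, smul_zero, zero_add, zero_add]
  obtain ⟨z, ⟨t, ht1, ht2⟩, hz⟩ := hR2 (d δ) (had δ)
  have hatδ : B.a (t * δ) = B.a δ := by rw [B.a_mul, ht1, one_mul]
  have hctδ : B.c (t * δ) = B.c δ + z := by rw [B.c_mul, ht1, one_mul, ht2]
  have hmem : t * δ ∈ F := by
    refine ⟨x, ?_, ?_⟩
    · have := abs_nonneg R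
      have := abs_nonneg R2
      linarith
    · have h4 : B.a (t * δ) * x + B.c (t * δ) = x + (1 - e) * B.c δ + (d δ + z) := by
        rw [hatδ, hctδ]
        show _ = x + (1 - e) * B.c δ + (e * B.c δ + (B.a δ - 1) * x + z)
        ring
      rw [h4]
      have h5 := norm_add_le (x + (1 - e) * B.c δ) (d δ + z)
      have h6 := norm_add_le x ((1 - e) * B.c δ)
      have h7 := hz.trans (le_abs_self R2)
      linarith
  have hle : μ ≤ infDist (B.a δ * v2) B.W := by
    have := hmin _ hmem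
    rwa [hatδ] at this
  have hlt : infDist (B.a δ * v2) B.W ≤ s⁻¹ * K := by
    have hm : -(s⁻¹ • d δ) ∈ B.W := B.W.neg_mem (B.W.smul_mem _ (had δ))
    refine (infDist_le_dist_of_mem hm).trans ?_
    rw [dist_eq_norm, sub_neg_eq_add]
    have h8 : B.a δ * v2 + s⁻¹ • d δ = s⁻¹ • ((x + s • (B.a δ * v2) + d δ) - x) := by
      have h9 : (x + s • (B.a δ * v2) + d δ) - x = s • (B.a δ * v2) + d δ := by abel
      rw [h9, smul_add (s⁻¹) (s • (B.a δ * v2)) (d δ), smul_smul,
        inv_mul_cancel₀ hs0.ne', one_smul]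
    rw [h8, norm_smul, Real.norm_of_nonneg (by positivity)]
    refine mul_le_mul_of_nonneg_left ?_ (by positivity)
    exact (norm_sub_le _ _).trans (add_le_add h1 le_rfl)
  have hfin : s⁻¹ * K < μ := by
    rw [hs, inv_div, div_mul_eq_mul_div, div_lt_iff₀ (by positivity)]
    nlinarith
  linarith

end FAct

end Pool.Agent.H.MP_e23cd6_ag.AK
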