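import Pool.Agent.H.MP_e23cd6_ag.AK.Av1a
import Pool.Agent.H.MP_e23cd6_ag.AK.Av1b
import Pool.Agent.H.MP_e23cd6_ag.AK.Mb2

/-!
ABUM Mb3a: average of a Kaehler metric of ℂ^k over the translations of a group of diagonal affine maps.

Let r, w from `exists_basis`, `pt x = Σ_j x_j • w_j` for x ∈ ℝ^r. `av B w h v v' z = ∫_{Icc 0 1} h.h (z + pt x) v v' dx`.

`av_deriv`: `param_int` (AK/Av1a) with V = E kk, U = univ, `F z x = h.h (z + pt x) v v'`, `F' z x = fderiv ℝ (fun y => h.h y v v') (z + pt x)` (h.smooth on univ: C^∞, so the derivative is continuous): `av v v'` is differentiable, with `fderiv ℝ (av v v') z u = ∫ fderiv ℝ (h.h · v v') (z + pt x) u dx`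
(`ContinuousLinearMap.integral_apply`). So `dz (av v v') z u = ∫ dz (h.h · v v') (z + pt x) u dx`, and by h.kahler `dz (av v v') z u = dz (av u v') z v` (`av_kahler`).
`av_W`: `av v v' (z + y) = av v v' z` for y ∈ W: y = pt x0 (the w_j span W), `x ↦ h.h (z + pt x) v v'` is continuous and periodic (`pt (x + single j 1) = pt x + w j`, `w j = c t` with a t = 1: hinv for t gives `h.h (z + w j) v v' = h.h z v v'`), `per_int` (AK/Av1b) with N = 1 and y = x0.
`av_real`: `av v v z` has imaginary part 0 and, for v ≠ 0, positive real part (the integrand is real and positive and continuous on the compact cube of volume 1: bounded below by a positive constant); also `av (c • v) v' z = c * av v v' z`, `av v (c • v') z = conj c * av v v' z`.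

-/

open Set Filter Topology Metric MeasureTheory
open scoped ContDiff ComplexConjugate

namespace Pool.Agent.H.MP_e23cd6_ag.AK

open Pool.Agent.H.MP_e23cd6_ag.AB

variable {kk : ℕ} {N : Type} [Group N]

/-- the average of the metric over the cube spanned by `w` -/
noncomputable def av {r : ℕ} (w : Fin r → E kk) (h : KMet (univ : Set (E kk))) (v v' z : E kk) : ℂ :=
  ∫ x in Icc (0 : Fin r → ℝ) 1, h.h (z + ∑ j, x j • w j) v v'

theorem Mb3a_smooth (h : KMet (univ : Set (E kk))) (v v' : E kk) :
    ContDiff ℝ ∞ (fun y => h.h y v v') := contDiffOn_univ.1 (h.smooth v v')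

theorem Mb3a_fcont (h : KMet (univ : Set (E kk))) (v v' : E kk) :
    Continuous (fderiv ℝ (fun y => h.h y v v')) :=
  (Mb3a_smooth h v v').continuous_fderiv (by simp)

theorem Mb3a_pt {r : ℕ} (w : Fin r → E kk) : Continuous fun x : Fin r → ℝ => ∑ j, x j • w j := by
  fun_prop

theorem Mb3a_deriv {r : ℕ} (w : Fin r → E kk) (h : KMet (univ : Set (E kk))) (v v' z : E kk) :
    HasFDerivAt (av w h v v') (∫ x in Icc (0 : Fin r → ℝ) 1,
      fderiv ℝ (fun y => h.h y v v') (z + ∑ j, x j • w j)) z := by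
  refine param_int (U := univ) isOpen_univ
    (F := fun z x => h.h (z + ∑ j, x j • w j) v v')
    (F' := fun z x => fderiv ℝ (fun y => h.h y v v') (z + ∑ j, x j • w j)) ?_ ?_ ?_ (mem_univ z)
  · exact ((Mb3a_smooth h v v').continuous.comp
      (continuous_fst.add ((Mb3a_pt w).comp continuous_snd))).continuousOn
  · exact ((Mb3a_fcont h v v').comp
      (continuous_fst.add ((Mb3a_pt w).comp continuous_snd))).continuousOn
  · intro y _ x
    have h1 : HasFDerivAt (fun y => h.h y v v')
        (fderiv ℝ (fun y => h.h y v v') (y + ∑ j, x j • w j)) (y + ∑ j, x j • w j) :=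
      ((Mb3a_smooth h v v').differentiable (by simp) _).hasFDerivAt
    exact (hasFDerivAt_comp_add_right _).2 h1

theorem av_diff {r : ℕ} (w : Fin r → E kk) (h : KMet (univ : Set (E kk))) (v v' : E kk) :
    Differentiable ℝ (av w h v v') := fun z => (Mb3a_deriv w h v v' z).differentiableAt

theorem Mb3a_dz {r : ℕ} (w : Fin r → E kk) (h : KMet (univ : Set (E kk))) (u v v' z : E kk) :
    dz (av w h v v') z u = ∫ x in Icc (0 : Fin r → ℝ) 1,
      dz (fun y => h.h y v v') (z + ∑ j, x j • w j) u := by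
  have hc : Continuous fun x : Fin r → ℝ =>
      fderiv ℝ (fun y => h.h y v v') (z + ∑ j, x j • w j) :=
    (Mb3a_fcont h v v').comp (continuous_const.add (Mb3a_pt w))
  have hi : IntegrableOn (fun x : Fin r → ℝ =>
      fderiv ℝ (fun y => h.h y v v') (z + ∑ j, x j • w j)) (Icc 0 1) :=
    hc.continuousOn.integrableOn_compact isCompact_Icc
  have hi2 : ∀ u : E kk, IntegrableOn (fun x : Fin r → ℝ =>
      fderiv ℝ (fun y => h.h y v v') (z + ∑ j, x j • w j) u) (Icc 0 1) := fun u =>
    (hc.clm_apply continuous_const).continuousOn.integrableOn_compact isCompact_Icc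
  rw [dz, (Mb3a_deriv w h v v' z).fderiv, ContinuousLinearMap.integral_apply hi,
    ContinuousLinearMap.integral_apply hi]
  simp only [dz]
  rw [integral_const_mul, integral_sub (hi2 u) ((hi2 _).const_mul _), integral_const_mul]

theorem av_kahler {r : ℕ} (w : Fin r → E kk) (h : KMet (univ : Set (E kk))) (u v v' z : E kk) :
    dz (av w h v v') z u = dz (av w h u v') z v := by
  rw [Mb3a_dz, Mb3a_dz]
  exact integral_congr_ae (ae_of_all _ fun x => h.kahler _ (mem_univ _) u v v')

theorem av_W (B : FAct kk N) (h : KMet (univ : Set (E kk)))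
    (hinv : ∀ γ z v v', h.h (B.a γ * z + B.c γ) (B.a γ * v) (B.a γ * v') = h.h z v v')
    {r : ℕ} (w : Fin r → E kk) (hw : ∀ j, w j ∈ B.lam)
    (hb : ∀ z ∈ B.lam, ∃ m : Fin r → ℤ, z = ∑ j, (m j : ℝ) • w j) (v v' z : E kk) {y : E kk}
    (hy : y ∈ B.W) : av w h v v' (z + y) = av w h v v' z := by
  have hy2 : y ∈ Submodule.span ℝ (Set.range w) := by
    refine (Submodule.span_le.2 ?_ : B.W ≤ _) hy
    intro t ht
    obtain ⟨m, hm⟩ := hb t ht
    show t ∈ Submodule.span ℝ (Set.range w)
    rw [hm]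
    exact Submodule.sum_mem _ fun j _ => Submodule.smul_mem _ _ (Submodule.subset_span ⟨j, rfl⟩)
  obtain ⟨x0, hx0⟩ := (Submodule.mem_span_range_iff_exists_fun ℝ).1 hy2
  have hF : Continuous fun x : Fin r → ℝ => h.h (z + ∑ j, x j • w j) v v' :=
    (Mb3a_smooth h v v').continuous.comp (continuous_const.add (Mb3a_pt w))
  have hper : ∀ i (x : Fin r → ℝ), h.h (z + ∑ j, (x + Pi.single i 1 : Fin r → ℝ) j • w j) v v' =
      h.h (z + ∑ j, x j • w j) v v' := by
    intro i x
    obtain ⟨t, ht1, ht2⟩ : ∃ t, B.a t = 1 ∧ B.c t = w i := hw i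
    have e : z + ∑ j, (x + Pi.single i 1 : Fin r → ℝ) j • w j = (z + ∑ j, x j • w j) + w i := by
      have e1 : ∑ j, (Pi.single i 1 : Fin r → ℝ) j • w j = w i := by
        rw [Finset.sum_eq_single i (fun j _ hj => by rw [Pi.single_eq_of_ne hj, zero_smul])
          (fun hi => absurd (Finset.mem_univ i) hi), Pi.single_eq_same, one_smul]
      simp only [Pi.add_apply, add_smul, Finset.sum_add_distrib]
      rw [e1, add_assoc]
    have h1 := hinv t (z + ∑ j, x j • w j) v v'
    rw [ht1, ht2, one_mul, one_mul, one_mul] at h1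
    rw [e, h1]
  have h2 := per_int hF hper 1 1 (one_mul _) (one_mul _) x0
  rw [Matrix.map_one _ Int.cast_zero Int.cast_one] at h2
  simp only [Matrix.one_mulVec] at h2
  rw [av, av, ← h2]
  refine integral_congr_ae (ae_of_all _ fun x => ?_)
  show h.h (z + y + ∑ j, x j • w j) v v' = h.h (z + ∑ j, (x + x0) j • w j) v v'
  congr 1
  simp only [Pi.add_apply, add_smul, Finset.sum_add_distrib, hx0]
  abel

theorem av_real {r : ℕ} (w : Fin r → E kk) (h : KMet (univ : Set (E kk))) (v z : E kk) :
    (av w h v v z).im = 0 ∧ (v ≠ 0 → 0 < (av w h v v z).re) ∧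
      ∀ c : ℂ, av w h (c • v) (c • v) z = (‖c‖ ^ 2 : ℝ) * av w h v v z := by
  have hre : ∀ y, h.h y v v = ((h.h y v v).re : ℂ) := by
    intro y
    have h1 := h.herm y (mem_univ _) v v
    exact (Complex.conj_eq_iff_re.1 h1.symm).symm
  have e : av w h v v z = ((∫ x in Icc (0 : Fin r → ℝ) 1,
      (h.h (z + ∑ j, x j • w j) v v).re : ℝ) : ℂ) := by
    refine (integral_congr_ae (ae_of_all _ fun x => hre _)).trans ?_
    exact integral_ofReal
  refine ⟨by rw [e, Complex.ofReal_im], fun hv => ?_, fun c => ?_⟩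
  · rw [e, Complex.ofReal_re]
    have hp : ∀ x : Fin r → ℝ, 0 < (h.h (z + ∑ j, x j • w j) v v).re := fun x =>
      h.pos _ (mem_univ _) v hv
    have hc : Continuous fun x : Fin r → ℝ => (h.h (z + ∑ j, x j • w j) v v).re :=
      Complex.continuous_re.comp
        ((Mb3a_smooth h v v).continuous.comp (continuous_const.add (Mb3a_pt w)))
    rw [setIntegral_pos_iff_support_of_nonneg_ae (ae_of_all _ fun x => (hp x).le)
      (hc.continuousOn.integrableOn_compact isCompact_Icc)]
    have hs : Function.support (fun x : Fin r → ℝ => (h.h (z + ∑ j, x j • w j) v v).re) = univ :=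
      eq_univ_of_forall fun x => (hp x).ne'
    rw [hs, univ_inter, Real.volume_Icc_pi]
    simp
  · have h1 : ∀ y, h.h y (c • v) (c • v) = ((‖c‖ ^ 2 : ℝ) : ℂ) * h.h y v v := by
      intro y
      rw [h.smul_left y (mem_univ _), h.herm y (mem_univ _) (c • v) v,
        h.smul_left y (mem_univ _), map_mul, ← h.herm y (mem_univ _) v v, ← mul_assoc,
        Complex.mul_conj, Complex.normSq_eq_norm_sq]
    rw [av, av, ← integral_const_mul]
    exact integral_congr_ae (ae_of_all _ fun x => h1 _)

end Pool.Agent.H.MP_e23cd6_ag.AK
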