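import Pool.Agent.H.MP_e23cd6_ag.AK.Bi4
import Pool.Agent.H.MP_e23cd6_ag.AK.Bnd
import Pool.Agent.H.MP_e23cd6_ag.AK.Hk

/-!
ABUK Tr1: the elements acting trivially on the base form a crystallographic group on every fibre.
-/

open Set Filter Topology Metric

namespace Pool.Agent.H.MP_e23cd6_ag.AK

open Pool.Agent.H.MP_e23cd6_ag.AB

variable {n kk : ℕ} {Ω : Dom n} {Γ : Type} [Group Γ]

/-- The elements acting trivially on the base form a crystallographic group on every fibre, in coordinates in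
which the fibre metric is the standard one. -/
theorem exists_eact (A : FibAct Ω kk Γ) (M : FMet A) (hpd : BasePD A.toBaseAct) {b : E n}
    (hb : b ∈ Ω.D) :
    ∃ (S : E kk ≃ₗ[ℂ] EuclideanSpace ℂ (Fin kk))
      (B : EAct (EuclideanSpace ℂ (Fin kk)) (kerN A.toBaseAct)),
      (∀ (γ : kerN A.toBaseAct) (v : E kk), B.L γ (S v) = S (A.L γ.1 b v)) ∧
      ∀ γ : kerN A.toBaseAct, B.c γ = S (A.c γ.1 b) := by
  obtain ⟨S, hS⟩ := herm_frame (M.isHerm hb)
  have hnorm : ∀ w : E kk, ‖S w‖ ^ 2 = (M.H b w w).re := by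
    intro w
    rw [← hS w w, ← inner_self_eq_norm_sq (𝕜 := ℂ)]
    rfl
  have hiso : ∀ (γ : kerN A.toBaseAct) (w : E kk), ‖S (A.L γ.1 b w)‖ = ‖S w‖ := by
    intro γ w
    have h1 : M.H b (A.L γ.1 b w) (A.L γ.1 b w) = M.H b w w := by
      have := M.inv γ.1 b hb w w
      rwa [show A.β γ.1 b = b from γ.2 b hb] at this
    have h2 : ‖S (A.L γ.1 b w)‖ ^ 2 = ‖S w‖ ^ 2 := by rw [hnorm, hnorm, h1]
    exact (pow_left_inj₀ (norm_nonneg _) (norm_nonneg _) two_ne_zero).1 h2
  obtain ⟨C, hC0, hC⟩ : ∃ C : ℝ, 0 ≤ C ∧ ∀ w : E kk, ‖S w‖ ≤ C * ‖w‖ :=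
    ⟨‖LinearMap.toContinuousLinearMap S.toLinearMap‖, norm_nonneg _,
      fun w => (LinearMap.toContinuousLinearMap S.toLinearMap).le_opNorm w⟩
  obtain ⟨C', hC'0, hC'⟩ : ∃ C : ℝ, 0 ≤ C ∧ ∀ w : E kk, ‖w‖ ≤ C * ‖S w‖ :=
    ⟨‖LinearMap.toContinuousLinearMap S.symm.toLinearMap‖, norm_nonneg _, fun w => by
      have h := (LinearMap.toContinuousLinearMap S.symm.toLinearMap).le_opNorm (S w)
      have e : (LinearMap.toContinuousLinearMap S.symm.toLinearMap) (S w) = w :=
        S.symm_apply_apply w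
      rwa [e] at h⟩
  let B : EAct (EuclideanSpace ℂ (Fin kk)) (kerN A.toBaseAct) :=
    { L := fun γ => (S.toLinearMap ∘ₗ (A.L γ.1 b).toLinearMap ∘ₗ
        S.symm.toLinearMap).restrictScalars ℝ
      c := fun γ => S (A.c γ.1 b)
      L_one := by
        ext1 v
        show S (A.L 1 b (S.symm v)) = v
        rw [A.L_one hb]
        exact S.apply_symm_apply v
      L_mul := by
        intro γ δ
        ext1 v
        show S (A.L (γ.1 * δ.1) b (S.symm v)) = S (A.L γ.1 b (S.symm (S (A.L δ.1 b (S.symm v)))))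
        rw [ker_L_mul δ.2 hb, S.symm_apply_apply]
        rfl
      c_one := by
        show S (A.c 1 b) = 0
        rw [A.c_one hb, map_zero]
      c_mul := by
        intro γ δ
        show S (A.c (γ.1 * δ.1) b) = S (A.L γ.1 b (S.symm (S (A.c δ.1 b)))) + S (A.c γ.1 b)
        rw [ker_c_mul δ.2 hb, map_add, S.symm_apply_apply]
      iso := by
        intro γ v
        show ‖S (A.L γ.1 b (S.symm v))‖ = ‖v‖
        rw [hiso, S.apply_symm_apply]
      pd := by
        intro R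
        refine ((fib_pd A hb (C' * R)).preimage Subtype.val_injective.injOn).subset fun γ hγ => ?_
        refine ⟨γ.2, (hC' _).trans (mul_le_mul_of_nonneg_left ?_ hC'0)⟩
        exact hγ
      cc := by
        obtain ⟨R, hR⟩ := fib_cc A hpd hb
        refine ⟨C * R, fun z => ?_⟩
        obtain ⟨γ, hγ, h⟩ := hR (S.symm z)
        refine ⟨⟨γ, hγ⟩, ?_⟩
        show ‖S (A.L γ b (S.symm z)) + S (A.c γ b)‖ ≤ C * R
        rw [← map_add]
        exact (hC _).trans (mul_le_mul_of_nonneg_left h hC0) }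
  refine ⟨S, B, fun γ v => ?_, fun γ => rfl⟩
  show S (A.L γ.1 b (S.symm (S v))) = _
  rw [S.symm_apply_apply]

end Pool.Agent.H.MP_e23cd6_ag.AK
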